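import Mathlib
import Pool.Agent.H21.FM.Defs
import Pool.Agent.H48.Q1.RefType

set_option autoImplicit false
set_option linter.unusedSimpArgs false
open Finset

/-! # Refinement of a shape by a factor `M`

`rf S M` : every cell is cut into `M × M` cells; the labels at scale `h` are the labels of `S` at scale
`M h`, the marks are the same, `qn (rf S M) h = qn S (M h)`. -/

namespace Pool.Agent.H50.W

open Pool.Agent.H75.Perc hiding WL CT hh
open Pool.Agent.H75.TwoArm Pool.Agent.Q1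
open Pool.Agent.H5.Q1 (ix ix_spec ix_eq oc)
open Pool.Agent.Q1.M4 (Cell Good IsSide nextSide tail head PType Adj4 Conn4)
open Pool.Agent.H33.Q1
open Pool.Agent.H21.FM
open Pool.Agent.H48.Q1 (fl fl_eq fl_spec co ref mem_ref st len fsd)

/-- the coarse grid lines in the fine grid -/
def mu (M : ℕ) (a : ℤ) : ℤ := M * a

lemma mu_mono {M : ℕ} (hM : 0 < M) : StrictMono (mu M) := by
  intro a b h
  unfold mu
  have : (0 : ℤ) < M := by exact_mod_cast hM
  nlinarith

lemma fl_mu {M : ℕ} (hM : 0 < M) (c : ℤ) : fl (mu M) c = c / M := by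
  have h0 : (0 : ℤ) < M := by exact_mod_cast hM
  apply fl_eq (mu_mono hM)
  · unfold mu
    rw [mul_comm]
    exact Int.ediv_mul_le c h0.ne'
  · unfold mu
    have := Int.lt_ediv_add_one_mul_self c h0
    linarith

lemma co_mu {M : ℕ} (hM : 0 < M) (c : Cell) : co (mu M) (mu M) c = ct M c := by
  unfold co ct
  rw [fl_mu hM, fl_mu hM]

lemma mem_ref_mu {M : ℕ} (hM : 0 < M) {Q : Finset Cell} {c : Cell} :
    c ∈ ref (mu M) (mu M) Q ↔ ct M c ∈ Q := by
  rw [mem_ref (mu_mono hM) (mu_mono hM), co_mu hM]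

lemma len_mu {M : ℕ} (s : Cell × ℤ) : len (mu M) (mu M) s = M := by
  unfold len mu
  split_ifs
  · have : (M : ℤ) * (s.1.1 + 1) - M * s.1.1 = M := by ring
    rw [this]; simp
  · have : (M : ℤ) * (s.1.2 + 1) - M * s.1.2 = M := by ring
    rw [this]; simp

lemma L_mu (P : PType) {M : ℕ} (n : ℕ) : P.L (mu M) (mu M) n = n * M := by
  unfold PType.L
  simp only [len_mu]
  simp

lemma ct_ct {M h : ℕ} (p : ℤ × ℤ) :
    ct M (ct (2 * (h : ℤ)) p) = ct (2 * ((M * h : ℕ) : ℤ)) p := by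
  unfold ct
  have e : (2 * ((M * h : ℕ) : ℤ)) = (2 * (h : ℤ)) * M := by push_cast; ring
  rw [e]
  refine Prod.ext ?_ ?_ <;> simp only <;>
    rw [Int.ediv_ediv_of_nonneg (by positivity)]

lemma fsd_corner {M : ℕ} (c : Cell) (k : ℤ) {j : ℕ} (hj : j + 1 = M) :
    fsd (mu M) (mu M) (c, k + 1) 0 = ((fsd (mu M) (mu M) (c, k) j).1,
      (fsd (mu M) (mu M) (c, k) j).2 + 1) := by
  have hM : (M : ℤ) = j + 1 := by rw [← hj]; push_cast; ring
  obtain ⟨a, b⟩ := c
  unfold fsd st mu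
  rcases dir_cases k with ⟨h, e⟩ | ⟨h, e⟩ | ⟨h, e⟩ | ⟨h, e⟩
  · have h' : (k + 1) % 4 = 1 := by omega
    simp only [h, h', e]
    norm_num
    rw [hM]; ring
  · have h' : (k + 1) % 4 = 2 := by omega
    simp only [h, h', e]
    norm_num
    rw [hM]; ring
  · have h' : (k + 1) % 4 = 3 := by omega
    simp only [h, h', e]
    norm_num
    rw [hM]; ring
  · have h' : (k + 1) % 4 = 0 := by omega
    simp only [h, h', e]
    norm_num
    rw [hM]; ring

lemma side_mul (P : PType) {M : ℕ} (hM : 0 < M) (n : ℕ) {j : ℕ} (hj : j < M) :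
    (P.refine (mu_mono hM) (mu_mono hM)).side (n * M + j) = fsd (mu M) (mu M) (P.side n) j := by
  have h := P.refine_side (mu_mono hM) (mu_mono hM) (n := n) (j := j) (by rw [len_mu]; exact hj)
  rwa [L_mu] at h

/-- The refined shape. -/
noncomputable def rf (S : Shape) (M : ℕ) (hM : 0 < M) : Shape where
  P := S.P.refine (mu_mono hM) (mu_mono hM)
  m2 := S.m2 * M
  m3 := S.m3 * M
  h02 := Nat.mul_pos S.h02 hM
  h23 := Nat.mul_lt_mul_of_pos_right S.h23 hM
  h34 := by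
    rw [PType.refine_m, L_mu]
    exact Nat.mul_lt_mul_of_pos_right S.h34 hM
  cvx := by
    have key : ∀ m : ℕ, (∀ i, i + 1 = m →
        S.P.side (i + 1) = ((S.P.side i).1, (S.P.side i).2 + 1)) → ∀ i, i + 1 = m * M →
        (S.P.refine (mu_mono hM) (mu_mono hM)).side (i + 1) =
          (((S.P.refine (mu_mono hM) (mu_mono hM)).side i).1,
            ((S.P.refine (mu_mono hM) (mu_mono hM)).side i).2 + 1) := by
      intro m h i hi
      rcases Nat.eq_zero_or_pos m with h0 | h0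
      · subst h0; omega
      obtain ⟨a, rfl⟩ : ∃ a, m = a + 1 := ⟨m - 1, by omega⟩
      have h1 := h a rfl
      have hi' : i = a * M + (M - 1) := by
        have : (a + 1) * M = a * M + M := by ring
        omega
      have e1 := side_mul S.P hM a (j := M - 1) (by omega)
      have e2 := side_mul S.P hM (a + 1) (j := 0) hM
      rw [add_zero, ← hi, h1] at e2
      rw [← hi'] at e1
      rw [e1, e2]
      exact fsd_corner _ _ (by omega)
    intro i hi
    simp only [PType.refine_m, PType.refine_N, L_mu] at hi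
    rcases hi with hi | hi | hi | hi
    · exact key S.m2 (fun i h => S.cvx i (Or.inl h)) i hi
    · exact key S.m3 (fun i h => S.cvx i (Or.inr (Or.inl h))) i hi
    · exact key S.P.m (fun i h => S.cvx i (Or.inr (Or.inr (Or.inl h)))) i hi
    · exact key S.P.N (fun i h => S.cvx i (Or.inr (Or.inr (Or.inr h)))) i hi

section

variable (S : Shape) {M : ℕ} (hM : 0 < M) {h : ℕ}
include hM

lemma TL_ref (Q : Finset Cell) (hh : 0 < h) :
    TL (ref (mu M) (mu M) Q) (2 * (h : ℤ)) = TL Q (2 * ((M * h : ℕ) : ℤ)) := by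
  have h1 : (0 : ℤ) < 2 * (h : ℤ) := by positivity
  have h2 : (0 : ℤ) < 2 * ((M * h : ℕ) : ℤ) := by
    have : 0 < M * h := Nat.mul_pos hM hh
    positivity
  ext e
  rw [mem_TL h1, mem_TL h2, mem_ref_mu hM, ct_ct]

lemma TL_rf (hh : 0 < h) : TL (rf S M hM).P.Q (2 * (h : ℤ)) = TL S.P.Q (2 * ((M * h : ℕ) : ℤ)) :=
  TL_ref hM S.P.Q hh

lemma EE_rf (hh : 0 < h) : EE (rf S M hM) h = EE S (M * h) := TL_rf S hM hh

end

/-! ### The layers -/

lemma fsd_fst {M : ℕ} (a b k : ℤ) (j : ℕ) : (fsd (mu M) (mu M) ((a, b), k) j).1 =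
    if k % 4 = 0 then (M * a + j, M * b) else if k % 4 = 1 then (M * a + M - 1, M * b + j)
    else if k % 4 = 2 then (M * a + M - 1 - j, M * b + M - 1) else (M * a, M * b + M - 1 - j) := by
  unfold fsd st mu
  rcases dir_cases k with ⟨h, e⟩ | ⟨h, e⟩ | ⟨h, e⟩ | ⟨h, e⟩ <;>
  · simp only [h, e]
    norm_num
    try (ring_nf; try trivial)

lemma dv {M : ℤ} (hM : 0 < M) {x a : ℤ} : x / M = a ↔ M * a ≤ x ∧ x < M * a + M := by
  constructor
  · rintro rfl
    have h1 := Int.ediv_mul_le x hM.ne'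
    have h2 := Int.lt_ediv_add_one_mul_self x hM
    constructor <;> linarith
  · rintro ⟨h1, h2⟩
    exact le_antisymm (by
      have := Int.ediv_lt_of_lt_mul hM (show x < (a + 1) * M by linarith)
      omega) (Int.le_ediv_of_mul_le hM (by linarith))

lemma dv_succ {n : ℤ} (hn : 0 < n) (x : ℤ) : (x + 1) / n = x / n ∨ (x + 1) / n = x / n + 1 := by
  obtain ⟨h1, h2⟩ := (dv hn).1 (rfl : x / n = x / n)
  rcases lt_or_ge (x + 1) (n * (x / n) + n) with h | h
  · exact Or.inl ((dv hn).2 ⟨by linarith, h⟩)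
  · right
    rw [dv hn]
    constructor <;> [linarith; skip]
    have : n * (x / n + 1) = n * (x / n) + n := by ring
    linarith

/-- The layer along a coarse side is the union of the layers along its fine sides. -/
lemma mem_LY_fine {M : ℕ} (hM : 0 < M) {h : ℕ} (hh : 0 < h) (s : Cell × ℤ) {e : ℤ × ℤ} :
    e ∈ LY (2 * ((M * h : ℕ) : ℤ)) s ↔ ∃ j < M, e ∈ LY (2 * (h : ℤ)) (fsd (mu M) (mu M) s j) := by
  have hM' : (0 : ℤ) < M := by exact_mod_cast hM
  have h1 : (0 : ℤ) < 2 * (h : ℤ) := by positivity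
  have h2 : (0 : ℤ) < 2 * ((M * h : ℕ) : ℤ) := by
    have : 0 < M * h := Nat.mul_pos hM hh
    positivity
  obtain ⟨⟨a, b⟩, k⟩ := s
  simp only [mem_LY h1, mem_LY h2, ← ct_ct (M := M) (h := h), fsd_fst,
    Pool.Agent.H48.Q1.fsd_snd]
  obtain ⟨x, y⟩ := tt e
  unfold ct
  set n : ℤ := 2 * (h : ℤ) with hn
  have hx1 := dv_succ h1 x
  have hx2 := dv_succ h1 (x - 1)
  have hy1 := dv_succ h1 y
  have hy2 := dv_succ h1 (y - 1)
  rw [sub_add_cancel] at hx2 hy2
  have m1 : ∀ z w : ℤ, (M : ℤ) * (z + w) = M * z + M * w := fun z w => by ring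
  generalize hA : (M : ℤ) * a = A
  generalize hB : (M : ℤ) * b = B
  have hdir : dir (k - 1) = if k % 4 = 0 then (0, -1) else if k % 4 = 1 then (1, 0) else
      if k % 4 = 2 then (0, 1) else (-1, 0) := by
    rcases dir_cases (k - 1) with ⟨b, e'⟩ | ⟨b, e'⟩ | ⟨b, e'⟩ | ⟨b, e'⟩ <;> rw [e'] <;>
      split_ifs <;> first | rfl | (exfalso; omega)
  rw [hdir]
  have m2 : (M : ℤ) * 1 = M := mul_one _
  have m3 : (M : ℤ) * -1 = -M := by ring
  rcases dir_cases k with ⟨h0, e0⟩ | ⟨h0, e0⟩ | ⟨h0, e0⟩ | ⟨h0, e0⟩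
  · simp only [h0, if_true, Prod.mk_add_mk, Prod.mk_sub_mk, sub_zero, sub_neg_eq_add,
      add_zero, Prod.mk.injEq, dv hM', m1, m2, m3, hA, hB]
    constructor
    · rintro ⟨h3, ⟨h4, h5⟩, h6, h7⟩
      exact ⟨(x / n - A).toNat, by omega, h3, ⟨by omega, by omega⟩, by omega, by omega⟩
    · rintro ⟨j, hj, h3, ⟨h4, h5⟩, h6, h7⟩
      exact ⟨h3, ⟨by omega, by omega⟩, by omega, by omega⟩
  · simp only [h0, if_true, Prod.mk_add_mk, Prod.mk_sub_mk, sub_zero, sub_neg_eq_add,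
      add_zero, Prod.mk.injEq, dv hM', m1, m2, m3, hA, hB, one_ne_zero, if_false]
    constructor
    · rintro ⟨h3, ⟨h4, h5⟩, h6, h7⟩
      exact ⟨(y / n - B).toNat, by omega, h3, ⟨by omega, by omega⟩, by omega, by omega⟩
    · rintro ⟨j, hj, h3, ⟨h4, h5⟩, h6, h7⟩
      exact ⟨h3, ⟨by omega, by omega⟩, by omega, by omega⟩
  · simp only [h0, if_true, Prod.mk_add_mk, Prod.mk_sub_mk, sub_zero, sub_neg_eq_add,
      add_zero, Prod.mk.injEq, dv hM', m1, m2, m3, hA, hB, OfNat.ofNat_ne_zero,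
      OfNat.ofNat_ne_one, if_false]
    constructor
    · rintro ⟨h3, ⟨h4, h5⟩, h6, h7⟩
      exact ⟨(A + M - 1 - x / n).toNat, by omega, h3, ⟨by omega, by omega⟩, by omega, by omega⟩
    · rintro ⟨j, hj, h3, ⟨h4, h5⟩, h6, h7⟩
      exact ⟨h3, ⟨by omega, by omega⟩, by omega, by omega⟩
  · simp only [h0, Prod.mk_add_mk, Prod.mk_sub_mk, sub_zero, sub_neg_eq_add,
      add_zero, Prod.mk.injEq, dv hM', m1, m2, m3, hA, hB, OfNat.ofNat_ne_zero,
      OfNat.ofNat_ne_one, if_false, show ((3 : ℤ) = 2) = False by norm_num]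
    constructor
    · rintro ⟨h3, ⟨h4, h5⟩, h6, h7⟩
      exact ⟨(B + M - 1 - y / n).toNat, by omega, h3, ⟨by omega, by omega⟩, by omega, by omega⟩
    · rintro ⟨j, hj, h3, ⟨h4, h5⟩, h6, h7⟩
      exact ⟨h3, ⟨by omega, by omega⟩, by omega, by omega⟩

/-! ### The refined shape has the same events -/

section

variable (S : Shape) {M : ℕ} (hM : 0 < M) {h : ℕ}

lemma mem_W0 (S : Shape) (h : ℕ) {e : ℤ × ℤ} : e ∈ W0 S h ↔
    ∃ i, ((S.m2 ≤ i ∧ i < S.m3) ∨ (S.m4 ≤ i ∧ i < S.N)) ∧ e ∈ LY (2 * (h : ℤ)) (S.P.side i) := by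
  unfold W0
  simp only [mem_biUnion, mem_union, mem_Ico]

lemma W0_rf (hh : 0 < h) : W0 (rf S M hM) h = W0 S (M * h) := by
  ext e
  rw [mem_W0, mem_W0]
  have h2 : (rf S M hM).m2 = S.m2 * M := rfl
  have h3 : (rf S M hM).m3 = S.m3 * M := rfl
  have h4 : (rf S M hM).m4 = S.m4 * M := L_mu S.P S.P.m
  have h5 : (rf S M hM).N = S.N * M := L_mu S.P S.P.N
  have h6 : ∀ i, (rf S M hM).P.side i = (S.P.refine (mu_mono hM) (mu_mono hM)).side i := fun _ => rfl
  simp only [mem_LY_fine hM hh, h2, h3, h4, h5, h6]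
  constructor
  · rintro ⟨i, hi, he⟩
    have hd : i = i / M * M + i % M := (Nat.div_add_mod' i M).symm
    have hj : i % M < M := Nat.mod_lt _ hM
    rw [hd, side_mul S.P hM _ hj] at he
    refine ⟨i / M, ?_, i % M, hj, he⟩
    simp only [Nat.le_div_iff_mul_le hM, Nat.div_lt_iff_lt_mul hM]
    exact hi
  · rintro ⟨i, hi, j, hj, he⟩
    refine ⟨i * M + j, ?_, ?_⟩
    · have key : ∀ a, (a * M ≤ i * M + j ↔ a ≤ i) ∧ (i * M + j < a * M ↔ i < a) := by
        intro a
        have e1 : (i * M + j) / M = i := by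
          rw [Nat.add_comm, Nat.add_mul_div_right _ _ hM, Nat.div_eq_of_lt hj, Nat.zero_add]
        rw [← Nat.le_div_iff_mul_le hM, ← Nat.div_lt_iff_lt_mul hM, e1]
        exact ⟨Iff.rfl, Iff.rfl⟩
      simp only [(key _).1, (key _).2]
      exact hi
    · rw [side_mul S.P hM _ hj]
      exact he

lemma wv_mul (s : Cell × ℤ) :
    wv h (fsd (mu M) (mu M) s 0) 0 = wv (M * h) s 0 := by
  unfold wv
  rw [Pool.Agent.H48.Q1.tail_fsd]
  unfold Pool.Agent.H48.Q1.vm mu
  refine Prod.ext ?_ ?_ <;> simp <;> ring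

lemma v1_rf : v1 (rf S M hM) h = v1 S (M * h) := by
  unfold v1
  have h1 := side_mul S.P hM 0 (j := 0) hM
  simp only [zero_mul, add_zero] at h1
  have h2 : (rf S M hM).P.side 0 = (S.P.refine (mu_mono hM) (mu_mono hM)).side 0 := rfl
  rw [h2, h1, wv_mul]

lemma v3_rf : v3 (rf S M hM) h = v3 S (M * h) := by
  unfold v3
  have h1 := side_mul S.P hM S.m3 (j := 0) hM
  rw [add_zero] at h1
  have h2 : (rf S M hM).P.side (rf S M hM).m3 =
    (S.P.refine (mu_mono hM) (mu_mono hM)).side (S.m3 * M) := rfl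
  rw [h2, h1, wv_mul]

lemma TT_rf (hh : 0 < h) (ω : Finset (ℤ × ℤ)) : TT (rf S M hM) h ω ↔ TT S (M * h) ω := by
  unfold TT
  rw [W0_rf S hM hh, v1_rf, v3_rf]

/-- **The refined shape has the same crossing probability.** -/
theorem qn_rf (hh : 0 < h) : qn (rf S M hM) h = qn S (M * h) := by
  unfold qn
  rw [EE_rf S hM hh]
  exact Pr_congr fun ω _ => not_congr (TT_rf S hM hh ω)

end

end Pool.Agent.H50.W
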