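import Mathlib
import Pool.Agent.H58.W.Coin
import Pool.Agent.H50.W.RefShape

set_option autoImplicit false
open Finset

/-! # Plates in a polygon

A family of plates is a map `pl : Cell → Option κ`: the labels (tiles) of the cells `c` with
`pl c = some k` get the colour of one fair coin `k`, all other labels are natural (one coin each).
`qpl S h pl` : probability that the arcs II and IV are not connected. -/

namespace Pool.Agent.H50.W

open Pool.Agent.H75.Perc hiding WL CT hh PB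
open Pool.Agent.H75.TwoArm Pool.Agent.Q1
open Pool.Agent.Q1.M4 (Cell Good IsSide nextSide tail head PType Adj4 Conn4)
open Pool.Agent.H33.Q1
open Pool.Agent.H21.FM
open Pool.Agent.H58.W

variable {κ : Type*}

/-- The block of a label. -/
def bk (n : ℤ) (pl : Cell → Option κ) (e : ℤ × ℤ) : (ℤ × ℤ) ⊕ κ :=
  match pl (ct n (tt e)) with
  | none => Sum.inl e
  | some k => Sum.inr k

lemma bk_none {n : ℤ} {pl : Cell → Option κ} {e : ℤ × ℤ} (h : pl (ct n (tt e)) = none) :
    bk n pl e = Sum.inl e := by unfold bk; rw [h]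

lemma bk_some {n : ℤ} {pl : Cell → Option κ} {e : ℤ × ℤ} {k : κ}
    (h : pl (ct n (tt e)) = some k) : bk n pl e = Sum.inr k := by unfold bk; rw [h]

/-- When two labels are in one block. -/
lemma bk_eq_iff {n : ℤ} {pl : Cell → Option κ} {e e' : ℤ × ℤ} : bk n pl e = bk n pl e' ↔
    e = e' ∨ (pl (ct n (tt e)) ≠ none ∧ pl (ct n (tt e)) = pl (ct n (tt e'))) := by
  rcases h1 : pl (ct n (tt e)) with _ | k <;> rcases h2 : pl (ct n (tt e')) with _ | k'
  · rw [bk_none h1, bk_none h2]; simp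
  · rw [bk_none h1, bk_some h2]
    simp only [reduceCtorEq, false_iff, not_or, ne_eq, not_true_eq_false, false_and,
      not_false_eq_true, and_true]
    rintro rfl
    rw [h1] at h2; simp at h2
  · rw [bk_some h1, bk_none h2]
    simp only [reduceCtorEq, false_iff, not_or, ne_eq, not_false_eq_true, and_false, and_true]
    rintro rfl
    rw [h1] at h2; simp at h2
  · rw [bk_some h1, bk_some h2]
    simp only [Sum.inr.injEq, ne_eq, reduceCtorEq, not_false_eq_true, Option.some.injEq, true_and]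
    constructor
    · intro h; exact Or.inr h
    · rintro (rfl | h)
      · rw [h1] at h2; simpa using h2
      · exact h

section

variable [DecidableEq κ]

/-- **Only the plates in the region matter.** -/
theorem PB_pl_congr {κ' : Type*} [DecidableEq κ'] {n : ℤ} {pl : Cell → Option κ}
    {pl' : Cell → Option κ'} {E : Finset (ℤ × ℤ)}
    (h0 : ∀ e ∈ E, pl (ct n (tt e)) = none ↔ pl' (ct n (tt e)) = none)
    (h1 : ∀ e ∈ E, ∀ e' ∈ E, pl (ct n (tt e)) ≠ none →
      (pl (ct n (tt e)) = pl (ct n (tt e')) ↔ pl' (ct n (tt e)) = pl' (ct n (tt e'))))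
    (A : Finset (ℤ × ℤ) → Prop) : PB E (bk n pl) A = PB E (bk n pl') A := by
  refine PB_blocks (fun e he e' he' => ?_) A
  rw [bk_eq_iff, bk_eq_iff]
  refine or_congr Iff.rfl ?_
  constructor
  · rintro ⟨h2, h3⟩
    exact ⟨fun h4 => h2 ((h0 e he).2 h4), (h1 e he e' he' h2).1 h3⟩
  · rintro ⟨h2, h3⟩
    have h4 : pl (ct n (tt e)) ≠ none := fun h4 => h2 ((h0 e he).1 h4)
    exact ⟨h4, (h1 e he e' he' h4).2 h3⟩

/-- the same for the cells of a set `U` -/
theorem PB_cells_congr {n : ℤ} (hn : 0 < n) {pl pl' : Cell → Option κ} {U : Finset Cell}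
    (h : ∀ c ∈ U, pl c = pl' c) (A : Finset (ℤ × ℤ) → Prop) :
    PB (TL U n) (bk n pl) A = PB (TL U n) (bk n pl') A := by
  have h1 : ∀ e ∈ TL U n, pl (ct n (tt e)) = pl' (ct n (tt e)) := fun e he =>
    h _ ((mem_TL hn).1 he).2
  refine PB_pl_congr (fun e he => by rw [h1 e he]) (fun e he e' he' _ => ?_) A
  rw [h1 e he, h1 e' he']

/-- The law of the labels of the cells of `U` in the world on the cells of `Q`. -/
theorem PB_cells {n : ℤ} (hn : 0 < n) {pl : Cell → Option κ} {U Q : Finset Cell} (hU : U ⊆ Q)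
    (A : Finset (ℤ × ℤ) → Prop) :
    PB (TL Q n) (bk n pl) (fun ω => A (ω ∩ TL U n)) = PB (TL U n) (bk n pl) A := by
  refine PB_restrict (fun e he => ?_) _ A
  rw [mem_TL hn] at he ⊢
  exact ⟨he.1, hU he.2⟩

/-- Natural percolation. -/
lemma PB_nat (E : Finset (ℤ × ℤ)) (n : ℤ) (A : Finset (ℤ × ℤ) → Prop) :
    PB E (bk n (fun _ => (none : Option κ))) A = Pr E A := by
  refine PB_inj (fun e _ e' _ h => ?_) A
  rw [bk_none rfl, bk_none rfl] at h
  exact Sum.inl_injective h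

/-- If no cell of the labels of `E` is in a plate, the law is natural. -/
lemma PB_nat' {E : Finset (ℤ × ℤ)} {n : ℤ} {pl : Cell → Option κ}
    (h : ∀ e ∈ E, pl (ct n (tt e)) = none) (A : Finset (ℤ × ℤ) → Prop) :
    PB E (bk n pl) A = Pr E A := by
  refine PB_inj (fun e he e' he' h' => ?_) A
  rw [bk_none (h e he), bk_none (h e' he')] at h'
  exact Sum.inl_injective h'

/-! ### Translation by a cell vector -/

lemma PB_map {α β γ : Type*} [DecidableEq α] [DecidableEq β] [DecidableEq γ] (f : α ↪ β)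
    (E : Finset α) (b : β → γ) (A : Finset β → Prop) :
    PB (E.map f) b A = PB E (fun x => b (f x)) (fun ω => A (ω.map f)) := by
  unfold PB
  have h1 : (E.map f).image b = E.image (fun x => b (f x)) := by
    ext y; simp [mem_image, mem_map]
  rw [h1]
  refine Pr_congr fun ω _ => ?_
  have h2 : up (E.map f) b ω = (up E (fun x => b (f x)) ω).map f := by
    ext y
    simp only [mem_up, Finset.mem_map]
    constructor
    · rintro ⟨⟨x, hx, rfl⟩, h⟩
      exact ⟨x, ⟨hx, h⟩, rfl⟩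
    · rintro ⟨x, ⟨hx, h⟩, rfl⟩
      exact ⟨⟨x, hx, rfl⟩, h⟩
  simp only [h2]

/-- translation of the vertices for the cell vector `d` -/
def tv' (h : ℕ) (d : Cell) : ℤ × ℤ := (h * (d.1 - d.2), h * (d.1 + d.2))

lemma tt_tr (h : ℕ) (d : Cell) (e : ℤ × ℤ) :
    tt ((syT (tv' h d)).G e) = (((tt e).1 + 2 * (h : ℤ) * d.1), ((tt e).2 + 2 * (h : ℤ) * d.2)) := by
  show tt (e.1 + 2 * (tv' h d).1, e.2 + 2 * (tv' h d).2) = _
  unfold tt tv'
  simp only
  refine Prod.ext ?_ ?_ <;> simp only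
  · have : e.1 + 2 * ((h : ℤ) * (d.1 - d.2)) + (e.2 + 2 * ((h : ℤ) * (d.1 + d.2))) - 1 =
      (e.1 + e.2 - 1) + 2 * (2 * (h : ℤ) * d.1) := by ring
    rw [this, Int.add_mul_ediv_left _ _ (by norm_num)]
  · have : e.2 + 2 * ((h : ℤ) * (d.1 + d.2)) - (e.1 + 2 * ((h : ℤ) * (d.1 - d.2))) - 1 =
      (e.2 - e.1 - 1) + 2 * (2 * (h : ℤ) * d.2) := by ring
    rw [this, Int.add_mul_ediv_left _ _ (by norm_num)]

lemma ct_tr {h : ℕ} (hh : 0 < h) (d : Cell) (e : ℤ × ℤ) :
    ct (2 * (h : ℤ)) (tt ((syT (tv' h d)).G e)) = ct (2 * (h : ℤ)) (tt e) + d := by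
  rw [tt_tr]
  unfold ct
  refine Prod.ext ?_ ?_ <;> simp only [Prod.fst_add, Prod.snd_add] <;>
    rw [Int.add_mul_ediv_left _ _ (by positivity)]

lemma TL_tr {h : ℕ} (hh : 0 < h) (d : Cell) (U : Finset Cell) :
    (TL U (2 * (h : ℤ))).map (syT (tv' h d)).G =
      TL (U.map (addRightEmbedding d)) (2 * (h : ℤ)) := by
  have hn : (0 : ℤ) < 2 * (h : ℤ) := by positivity
  ext e
  rw [(syT (tv' h d)).mem_map, mem_TL hn, mem_TL hn]
  have h1 : (syT (tv' h d)).G ((syT (tv' h d)).G' e) = e := (syT (tv' h d)).GG' e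
  have h2 := ct_tr hh d ((syT (tv' h d)).G' e)
  rw [h1] at h2
  rw [h2, Finset.mem_map]
  have h3 : (((syT (tv' h d)).G' e).1 + ((syT (tv' h d)).G' e).2) % 2 = 1 ↔
      (e.1 + e.2) % 2 = 1 := by
    show (e.1 - 2 * (tv' h d).1 + (e.2 - 2 * (tv' h d).2)) % 2 = 1 ↔ _
    omega
  rw [h3]
  refine and_congr Iff.rfl ⟨fun h => ⟨_, h, rfl⟩, ?_⟩
  rintro ⟨c, hc, h4⟩
  have h5 : c + d = ct (2 * (h : ℤ)) (tt ((syT (tv' h d)).G' e)) + d := h4
  rw [← add_right_cancel h5]
  exact hc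

/-- **Translation** of a world with plates by a cell vector. -/
theorem PB_tr {h : ℕ} (hh : 0 < h) (d : Cell) (U : Finset Cell) (pl : Cell → Option κ)
    (A : Finset (ℤ × ℤ) → Prop) :
    PB (TL (U.map (addRightEmbedding d)) (2 * (h : ℤ))) (bk (2 * (h : ℤ)) pl) A =
      PB (TL U (2 * (h : ℤ))) (bk (2 * (h : ℤ)) (fun c => pl (c + d)))
        (fun ω => A (ω.map (syT (tv' h d)).G)) := by
  rw [← TL_tr hh, PB_map]
  refine PB_blocks (fun e _ e' _ => ?_) _
  rw [bk_eq_iff, bk_eq_iff, ct_tr hh, ct_tr hh]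
  exact or_congr ⟨fun h1 => (syT (tv' h d)).G.injective h1, fun h1 => by rw [h1]⟩ Iff.rfl

/-! ### The crossing event -/

lemma TT_inc (S : Shape) (h : ℕ) : Inc (TT S h) := fun _ _ h1 h2 =>
  Co.mono (union_subset_union h1 subset_rfl) h2

/-- The cells of `U` are pivotal for the connection of II and IV. -/
def Pv (S : Shape) (h : ℕ) (U : Finset Cell) (ω : Finset (ℤ × ℤ)) : Prop :=
  TT S h (ω ∪ TL U (2 * (h : ℤ))) ∧ ¬ TT S h (ω \ TL U (2 * (h : ℤ)))

/-- **Probability that the arcs II and IV are not connected in the world with the plates `pl`.** -/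
noncomputable def qpl (S : Shape) (h : ℕ) (pl : Cell → Option κ) : ℝ :=
  PB (EE S h) (bk (2 * (h : ℤ)) pl) (fun ω => ¬ TT S h ω)

lemma qpl_nonneg (S : Shape) (h : ℕ) (pl : Cell → Option κ) : 0 ≤ qpl S h pl := PB_nonneg _ _ _

lemma qpl_le_one (S : Shape) (h : ℕ) (pl : Cell → Option κ) : qpl S h pl ≤ 1 := PB_le_one _ _ _

lemma qpl_none (S : Shape) (h : ℕ) : qpl S h (fun _ => (none : Option κ)) = qn S h :=
  PB_nat _ _ _

/-- only the cells of the polygon matter -/
lemma qpl_congr (S : Shape) {h : ℕ} (hh : 0 < h) {pl pl' : Cell → Option κ}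
    (hpl : ∀ c ∈ S.P.Q, pl c = pl' c) : qpl S h pl = qpl S h pl' :=
  PB_cells_congr (by positivity) hpl _

/-- probability that `U` is pivotal, in the form of the sandwich -/
lemma PB_Pv (S : Shape) (h : ℕ) (pl : Cell → Option κ) (U : Finset Cell) :
    PB (EE S h \ TL U (2 * (h : ℤ))) (bk (2 * (h : ℤ)) pl)
      (fun ω => TT S h (ω ∪ TL U (2 * (h : ℤ))) ∧ ¬ TT S h ω) =
    PB (EE S h) (bk (2 * (h : ℤ)) pl) (Pv S h U) := by
  rw [← PB_restrict (sdiff_subset : EE S h \ TL U (2 * (h : ℤ)) ⊆ EE S h)]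
  refine PB_congr fun ω hω => ?_
  unfold Pv
  have h1 : ω ∩ (EE S h \ TL U (2 * (h : ℤ))) = ω \ TL U (2 * (h : ℤ)) := by
    ext e
    rw [mem_inter, mem_sdiff, mem_sdiff]
    exact ⟨fun h => ⟨h.1, h.2.2⟩, fun h => ⟨h.1, hω h.1, h.2⟩⟩
  rw [h1, sdiff_union_self_eq_union]

/-- **Sandwich**: two plate families which agree off `U`. -/
theorem qpl_sandwich (S : Shape) {h : ℕ} (hh : 0 < h) {pl pl' : Cell → Option κ}
    {U : Finset Cell} (hpl : ∀ c ∈ S.P.Q, c ∉ U → pl c = pl' c) :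
    |qpl S h pl - qpl S h pl'| ≤ PB (EE S h) (bk (2 * (h : ℤ)) pl) (Pv S h U) := by
  have hn : (0 : ℤ) < 2 * (h : ℤ) := by positivity
  rw [← PB_Pv]
  unfold qpl
  rw [PB_not, PB_not]
  have h1 : ∀ x y : ℝ, |1 - x - (1 - y)| = |x - y| := fun x y => by
    rw [show 1 - x - (1 - y) = -(x - y) by ring, abs_neg]
  rw [h1]
  refine PB_sandwich (fun e he e' he' => ?_) (TT_inc S h)
  have key : ∀ e ∈ EE S h \ TL U (2 * (h : ℤ)), pl (ct (2 * (h : ℤ)) (tt e)) =
      pl' (ct (2 * (h : ℤ)) (tt e)) := by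
    intro e he
    rw [mem_sdiff] at he
    have h2 := (mem_TL hn).1 he.1
    refine hpl _ h2.2 fun h3 => he.2 ((mem_TL hn).2 ⟨h2.1, h3⟩)
  rw [bk_eq_iff, bk_eq_iff, key e he, key e' he']

/-- **Telescoping**: the families `pl j` and `pl (j+1)` agree off the chunk `U j`. -/
theorem qpl_telescope (S : Shape) {h : ℕ} (hh : 0 < h) (pl : ℕ → Cell → Option κ)
    (U : ℕ → Finset Cell) (n : ℕ)
    (hpl : ∀ j < n, ∀ c ∈ S.P.Q, c ∉ U j → pl j c = pl (j + 1) c) :
    |qpl S h (pl 0) - qpl S h (pl n)| ≤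
      ∑ j ∈ range n, PB (EE S h) (bk (2 * (h : ℤ)) (pl j)) (Pv S h (U j)) := by
  induction n with
  | zero => simp
  | succ n ih =>
    have h1 := ih fun j hj => hpl j (by omega)
    have h2 := qpl_sandwich S hh (hpl n (by omega))
    rw [sum_range_succ]
    have h3 := abs_sub_le (qpl S h (pl 0)) (qpl S h (pl n)) (qpl S h (pl (n + 1)))
    linarith

end

end Pool.Agent.H50.W
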