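import Mathlib
import Pool.Agent.H50.W.Plates

set_option autoImplicit false
open Finset

/-! # Natural labels are replaced by plates, block after block

`f : Cell → Option κ` : the final family of plates, `B` : a finite linearly ordered set of blocks,
`U b` : the cells of the block `b`. In the step `b` the plates of `f` are put on `U b`, the blocks
before `b` have their plates, the blocks after `b` are natural. -/

namespace Pool.Agent.H50.W

open Pool.Agent.H75.Perc hiding WL CT hh PB
open Pool.Agent.H75.TwoArm Pool.Agent.Q1
open Pool.Agent.Q1.M4 (Cell Good IsSide nextSide tail head PType Adj4 Conn4)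
open Pool.Agent.H33.Q1
open Pool.Agent.H21.FM
open Pool.Agent.H58.W

variable {κ β : Type*}

open Classical in
/-- the plates of `f` on the cells with property `V`, natural elsewhere -/
noncomputable def rst (f : Cell → Option κ) (V : Cell → Prop) (c : Cell) : Option κ :=
  if V c then f c else none

lemma rst_pos {f : Cell → Option κ} {V : Cell → Prop} {c : Cell} (h : V c) : rst f V c = f c := by
  classical
  unfold rst
  exact if_pos h

lemma rst_neg {f : Cell → Option κ} {V : Cell → Prop} {c : Cell} (h : ¬ V c) :
    rst f V c = none := by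
  classical
  unfold rst
  exact if_neg h

/-- The hybrid before the step `b`. -/
noncomputable def hyb [LinearOrder β] (f : Cell → Option κ) (U : β → Finset Cell) (B : Finset β)
    (b : β) : Cell → Option κ :=
  rst f (fun c => ∃ b' ∈ B, b' < b ∧ c ∈ U b')

/-- **Replacement of natural labels by plates, block after block.** -/
theorem steps_le [LinearOrder β] [DecidableEq κ] (S : Shape) {h : ℕ} (hh : 0 < h)
    (f : Cell → Option κ) (U : β → Finset Cell) (B : Finset β) :
    |qn S h - qpl S h (rst f (fun c => ∃ b ∈ B, c ∈ U b))| ≤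
      ∑ b ∈ B, PB (EE S h) (bk (2 * (h : ℤ)) (hyb f U B b)) (Pv S h (U b)) := by
  classical
  induction B using Finset.induction_on_max with
  | empty =>
    have : rst f (fun c => ∃ b ∈ (∅ : Finset β), c ∈ U b) = fun _ => none := by
      funext c
      exact rst_neg (by simp)
    rw [this, qpl_none]
    simp
  | insert a s hs ih =>
    have ha : a ∉ s := fun h1 => lt_irrefl _ (hs a h1)
    rw [sum_insert ha]
    have e1 : ∀ b ∈ s, hyb f U (insert a s) b = hyb f U s b := by
      intro b hb
      unfold hyb
      congr 1
      funext c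
      refine propext ⟨?_, ?_⟩
      · rintro ⟨b', h1, h2, h3⟩
        rcases mem_insert.1 h1 with rfl | h1
        · exact absurd h2 (not_lt.2 (hs b hb).le)
        · exact ⟨b', h1, h2, h3⟩
      · rintro ⟨b', h1, h2, h3⟩
        exact ⟨b', mem_insert_of_mem h1, h2, h3⟩
    have e2 : hyb f U (insert a s) a = rst f (fun c => ∃ b ∈ s, c ∈ U b) := by
      unfold hyb
      congr 1
      funext c
      refine propext ⟨?_, ?_⟩
      · rintro ⟨b', h1, h2, h3⟩
        rcases mem_insert.1 h1 with rfl | h1
        · exact absurd h2 (lt_irrefl _)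
        · exact ⟨b', h1, h3⟩
      · rintro ⟨b', h1, h3⟩
        exact ⟨b', mem_insert_of_mem h1, hs b' h1, h3⟩
    have e3 : ∑ b ∈ s, PB (EE S h) (bk (2 * (h : ℤ)) (hyb f U (insert a s) b)) (Pv S h (U b)) =
        ∑ b ∈ s, PB (EE S h) (bk (2 * (h : ℤ)) (hyb f U s b)) (Pv S h (U b)) :=
      sum_congr rfl fun b hb => by rw [e1 b hb]
    rw [e3, e2]
    have h1 := qpl_sandwich S hh (pl := rst f (fun c => ∃ b ∈ s, c ∈ U b))
      (pl' := rst f (fun c => ∃ b ∈ insert a s, c ∈ U b)) (U := U a) (by
        intro c _ hc
        by_cases h2 : ∃ b ∈ s, c ∈ U b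
        · rw [rst_pos h2, rst_pos]
          obtain ⟨b, hb, h3⟩ := h2
          exact ⟨b, mem_insert_of_mem hb, h3⟩
        · rw [rst_neg h2, rst_neg]
          rintro ⟨b, hb, h3⟩
          rcases mem_insert.1 hb with rfl | hb
          · exact hc h3
          · exact h2 ⟨b, hb, h3⟩)
    have h2 := abs_sub_le (qn S h) (qpl S h (rst f (fun c => ∃ b ∈ s, c ∈ U b)))
      (qpl S h (rst f (fun c => ∃ b ∈ insert a s, c ∈ U b)))
    linarith

/-- If the blocks contain all plates, the last family is `f`. -/
lemma rst_all {f : Cell → Option κ} {V : Cell → Prop} (h : ∀ c, f c ≠ none → V c) :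
    rst f V = f := by
  funext c
  by_cases h1 : V c
  · exact rst_pos h1
  · rw [rst_neg h1]
    by_contra h2
    exact h1 (h c (fun h3 => h2 h3.symm))

end Pool.Agent.H50.W
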