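import Mathlib
import Pool.Agent.H50.W.Steps

set_option autoImplicit false
open Finset

/-! # Horizontal chords made of plates, and the order of the steps

Coarse cells are cut into `M × M` fine cells, `M = N1 m M'`. `G` : the coarse sides which are cut:
`(X, Y) ∈ G` stands for the side between the coarse cells `(X, Y-1)` and `(X, Y)`. On the line
`y = M Y` the plate `K` consists of the fine cells `M' K ≤ x < M' (K+1)`, `-w ≤ y - M Y < w` with the
half width `w = N1 m b - K`, decreasing to the right. `m` plates form a chunk, `N1` chunks lie on one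
coarse side. -/

namespace Pool.Agent.H50.W

open Pool.Agent.H75.Perc hiding WL CT hh PB
open Pool.Agent.H75.TwoArm Pool.Agent.Q1
open Pool.Agent.Q1.M4 (Cell Good IsSide nextSide tail head PType Adj4 Conn4)
open Pool.Agent.H33.Q1
open Pool.Agent.H21.FM
open Pool.Agent.H58.W

/-- Data of the chords. -/
structure Chd where
  G : Finset Cell
  /-- chunks on a coarse side -/
  N1 : ℕ
  /-- plates in a chunk -/
  m : ℕ
  /-- fine cells in a plate -/
  M' : ℕ
  /-- chunks in an end block -/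
  e : ℕ
  /-- right bound of the polygon -/
  b : ℤ
  hm : 0 < m
  hM' : 0 < M'
  he : 0 < e
  heN : 2 * e ≤ N1
  hb : ∀ c ∈ G, c.1 < b

namespace Chd

variable (D : Chd)

lemma hN1 : 0 < D.N1 := by have := D.he; have := D.heN; omega

/-- the refinement factor -/
def M : ℕ := D.N1 * (D.m * D.M')

lemma hM : 0 < D.M := Nat.mul_pos D.hN1 (Nat.mul_pos D.hm D.hM')

/-- the length of a chunk in fine cells -/
def l : ℕ := D.m * D.M'

lemma hl : 0 < D.l := Nat.mul_pos D.hm D.hM'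

lemma M_eq : D.M = D.N1 * D.l := rfl

/-- plate index -/
def K (x : ℤ) : ℤ := x / D.M'

/-- chunk index -/
def I (x : ℤ) : ℤ := x / D.l

/-- coarse column -/
def X (x : ℤ) : ℤ := x / D.M

/-- nearest line -/
def Y (y : ℤ) : ℤ := (y + D.M / 2) / D.M

/-- half width of the plate `K` -/
def hw (K : ℤ) : ℤ := D.N1 * D.m * D.b - K

/-- **The fine plates.** -/
def fine (c : Cell) : Option (ℤ × ℤ) :=
  if (D.X c.1, D.Y c.2) ∈ D.G ∧ -D.hw (D.K c.1) ≤ c.2 - D.M * D.Y c.2 ∧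
    c.2 - D.M * D.Y c.2 < D.hw (D.K c.1) then some (D.K c.1, D.Y c.2) else none

lemma fine_ne_none {c : Cell} : D.fine c ≠ none ↔ (D.X c.1, D.Y c.2) ∈ D.G ∧
    -D.hw (D.K c.1) ≤ c.2 - D.M * D.Y c.2 ∧ c.2 - D.M * D.Y c.2 < D.hw (D.K c.1) := by
  unfold fine
  split_ifs with h
  · simp [h]
  · simp only [ne_eq, not_true_eq_false, false_iff]; exact h

lemma X_eq (x : ℤ) : D.X x = D.I x / D.N1 := by
  unfold X I
  rw [Int.ediv_ediv_of_nonneg (by positivity), M_eq, mul_comm D.N1 D.l]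
  push_cast; rfl

lemma I_eq (x : ℤ) : D.I x = D.K x / D.m := by
  unfold I K l
  rw [Int.ediv_ediv_of_nonneg (by positivity), mul_comm D.m D.M']
  push_cast; rfl

/-- blocks: phase `0` left ends, phase `1` interior chunks, phase `2` right ends -/
abbrev Bl := ℤ ×ₗ ℤ ×ₗ ℤ

/-- the block -/
def bl (p i y : ℤ) : Bl := toLex (p, toLex (i, y))

lemma bl_lt {p i y p' i' y' : ℤ} : bl p i y < bl p' i' y' ↔
    p < p' ∨ (p = p' ∧ (i < i' ∨ (i = i' ∧ y < y'))) := by
  unfold bl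
  rw [Prod.Lex.toLex_lt_toLex, Prod.Lex.toLex_lt_toLex]

lemma bl_inj {p i y p' i' y' : ℤ} : bl p i y = bl p' i' y' ↔ p = p' ∧ i = i' ∧ y = y' := by
  unfold bl
  rw [EmbeddingLike.apply_eq_iff_eq, Prod.mk.injEq, EmbeddingLike.apply_eq_iff_eq, Prod.mk.injEq]

/-- chunk `(i, y)` is at distance more than `e` from the ends of its chord -/
def Inn (i y : ℤ) : Prop := ∀ i', i - D.e ≤ i' → i' ≤ i + D.e → (i' / D.N1, y) ∈ D.G

/-- the cell `c` belongs to the block -/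
def inU (b : Bl) (c : Cell) : Prop :=
  D.fine c ≠ none ∧ D.Y c.2 = (ofLex (ofLex b).2).2 ∧
    (((ofLex b).1 = 0 ∧ D.N1 * (ofLex (ofLex b).2).1 ≤ D.I c.1 ∧
        D.I c.1 < D.N1 * (ofLex (ofLex b).2).1 + D.e) ∨
      ((ofLex b).1 = 1 ∧ D.I c.1 = (ofLex (ofLex b).2).1) ∨
      ((ofLex b).1 = 2 ∧ D.N1 * ((ofLex (ofLex b).2).1 + 1) - D.e ≤ D.I c.1 ∧
        D.I c.1 < D.N1 * ((ofLex (ofLex b).2).1 + 1)))

lemma inU_bl {p i y : ℤ} {c : Cell} : D.inU (bl p i y) c ↔ D.fine c ≠ none ∧ D.Y c.2 = y ∧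
    ((p = 0 ∧ D.N1 * i ≤ D.I c.1 ∧ D.I c.1 < D.N1 * i + D.e) ∨ (p = 1 ∧ D.I c.1 = i) ∨
      (p = 2 ∧ D.N1 * (i + 1) - D.e ≤ D.I c.1 ∧ D.I c.1 < D.N1 * (i + 1))) := Iff.rfl

open Classical in
/-- the cells of the block `b` in the region `Q` -/
noncomputable def U (Q : Finset Cell) (b : Bl) : Finset Cell := Q.filter (D.inU b)

lemma mem_U {Q : Finset Cell} {b : Bl} {c : Cell} : c ∈ D.U Q b ↔ c ∈ Q ∧ D.inU b c := by
  classical
  unfold U
  exact mem_filter

open Classical in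
/-- left ends -/
noncomputable def BL : Finset Bl :=
  (D.G.filter fun c => (c.1 - 1, c.2) ∉ D.G).image fun c => bl 0 c.1 c.2

open Classical in
/-- interior chunks -/
noncomputable def BI : Finset Bl :=
  ((D.G ×ˢ range D.N1).filter fun p => D.Inn (D.N1 * p.1.1 + p.2) p.1.2).image
    fun p => bl 1 (D.N1 * p.1.1 + p.2) p.1.2

open Classical in
/-- right ends -/
noncomputable def BR : Finset Bl :=
  (D.G.filter fun c => (c.1 + 1, c.2) ∉ D.G).image fun c => bl 2 c.1 c.2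

open Classical in
/-- all blocks -/
noncomputable def B : Finset Bl := D.BL ∪ D.BI ∪ D.BR

lemma mem_BL {β : Bl} : β ∈ D.BL ↔ ∃ i y, (i, y) ∈ D.G ∧ (i - 1, y) ∉ D.G ∧ β = bl 0 i y := by
  classical
  unfold BL
  simp only [mem_image, mem_filter, Prod.exists]
  constructor
  · rintro ⟨i, y, ⟨h1, h2⟩, h3⟩; exact ⟨i, y, h1, h2, h3.symm⟩
  · rintro ⟨i, y, h1, h2, h3⟩; exact ⟨i, y, ⟨h1, h2⟩, h3.symm⟩

lemma mem_BR {β : Bl} : β ∈ D.BR ↔ ∃ i y, (i, y) ∈ D.G ∧ (i + 1, y) ∉ D.G ∧ β = bl 2 i y := by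
  classical
  unfold BR
  simp only [mem_image, mem_filter, Prod.exists]
  constructor
  · rintro ⟨i, y, ⟨h1, h2⟩, h3⟩; exact ⟨i, y, h1, h2, h3.symm⟩
  · rintro ⟨i, y, h1, h2, h3⟩; exact ⟨i, y, ⟨h1, h2⟩, h3.symm⟩

lemma mem_BI {β : Bl} : β ∈ D.BI ↔ ∃ i y, D.Inn i y ∧ β = bl 1 i y := by
  classical
  have hN : (0 : ℤ) < D.N1 := by exact_mod_cast D.hN1
  unfold BI
  simp only [mem_image, mem_filter, mem_product, mem_range, Prod.exists]
  constructor
  · rintro ⟨i, y, j, ⟨-, h2⟩, h3⟩; exact ⟨_, _, h2, h3.symm⟩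
  · rintro ⟨i, y, h1, rfl⟩
    have h2 := h1 i (by omega) (by omega)
    have h3 := Int.emod_nonneg i hN.ne'
    have h4 := Int.emod_lt_of_pos i hN
    have h5 : (D.N1 : ℤ) * (i / D.N1) + ((i % D.N1).toNat : ℤ) = i := by
      rw [Int.toNat_of_nonneg h3]; exact Int.mul_ediv_add_emod i D.N1
    refine ⟨i / D.N1, y, (i % D.N1).toNat, ⟨⟨h2, by omega⟩, ?_⟩, ?_⟩
    · rw [h5]; exact h1
    · rw [h5]

lemma card_BL : D.BL.card ≤ D.G.card := by
  classical
  exact (card_image_le).trans (card_filter_le _ _)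

lemma card_BR : D.BR.card ≤ D.G.card := by
  classical
  exact (card_image_le).trans (card_filter_le _ _)

lemma card_BI : D.BI.card ≤ D.G.card * D.N1 := by
  classical
  refine (card_image_le).trans ((card_filter_le _ _).trans ?_)
  rw [card_product, card_range]

/-- every cell of a plate belongs to a block -/
lemma cover {Q : Finset Cell} {c : Cell} (hc : c ∈ Q) (hf : D.fine c ≠ none) :
    ∃ β ∈ D.B, c ∈ D.U Q β := by
  classical
  have hN : (0 : ℤ) < D.N1 := by exact_mod_cast D.hN1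
  have he : (0 : ℤ) < D.e := by exact_mod_cast D.he
  have heN : 2 * (D.e : ℤ) ≤ D.N1 := by exact_mod_cast D.heN
  have hG := (D.fine_ne_none.1 hf).1
  set i := D.I c.1 with hi
  set y := D.Y c.2 with hy
  rw [X_eq, ← hi] at hG
  obtain ⟨h1, h2⟩ := (dv hN).1 (rfl : i / (D.N1 : ℤ) = i / D.N1)
  set X := i / (D.N1 : ℤ) with hX
  have mX : ∀ a : ℤ, (D.N1 : ℤ) * (X + a) = D.N1 * X + D.N1 * a := fun a => by ring
  by_cases hin : D.Inn i y
  · refine ⟨bl 1 i y, ?_, D.mem_U.2 ⟨hc, D.inU_bl.2 ⟨hf, rfl, Or.inr (Or.inl ⟨rfl, rfl⟩)⟩⟩⟩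
    unfold B
    exact mem_union_left _ (mem_union_right _ (D.mem_BI.2 ⟨i, y, hin, rfl⟩))
  · unfold Inn at hin
    push Not at hin
    obtain ⟨i', h3, h4, h5⟩ := hin
    rcases lt_or_ge i' (D.N1 * X) with h6 | h6
    · -- left end
      have h7 : i' / (D.N1 : ℤ) = X - 1 := by
        rw [dv hN]
        have := mX (-1)
        constructor
        · have e1 : (D.N1 : ℤ) * (X - 1) = D.N1 * X - D.N1 := by ring
          rw [e1]; omega
        · have e1 : (D.N1 : ℤ) * (X - 1) = D.N1 * X - D.N1 := by ring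
          rw [e1]; omega
      rw [h7] at h5
      refine ⟨bl 0 X y, ?_, D.mem_U.2 ⟨hc, D.inU_bl.2 ⟨hf, rfl, Or.inl ⟨rfl, ?_, ?_⟩⟩⟩⟩
      · unfold B
        exact mem_union_left _ (mem_union_left _ (D.mem_BL.2 ⟨X, y, hG, h5, rfl⟩))
      · rw [← hi]; omega
      · rw [← hi]; omega
    · rcases lt_or_ge i' (D.N1 * X + D.N1) with h8 | h8
      · have h7 : i' / (D.N1 : ℤ) = X := (dv hN).2 ⟨h6, h8⟩
        rw [h7] at h5
        exact absurd hG h5
      · have h7 : i' / (D.N1 : ℤ) = X + 1 := by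
          rw [dv hN]
          have e1 : (D.N1 : ℤ) * (X + 1) = D.N1 * X + D.N1 := by ring
          constructor <;> rw [e1] <;> omega
        rw [h7] at h5
        refine ⟨bl 2 X y, ?_, D.mem_U.2 ⟨hc, D.inU_bl.2 ⟨hf, rfl, Or.inr (Or.inr ⟨rfl, ?_, ?_⟩)⟩⟩⟩
        · unfold B
          exact mem_union_right _ (D.mem_BR.2 ⟨X, y, hG, h5, rfl⟩)
        · have e1 : (D.N1 : ℤ) * (X + 1) = D.N1 * X + D.N1 := by ring
          rw [← hi, e1]; omega
        · have e1 : (D.N1 : ℤ) * (X + 1) = D.N1 * X + D.N1 := by ring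
          rw [← hi, e1]; omega

/-- the hybrid before the block `β` -/
noncomputable def hy (Q : Finset Cell) (β : Bl) : Cell → Option (ℤ × ℤ) :=
  hyb D.fine (D.U Q) D.B β

/-- **The comparison of the natural world with the world of the fine plates.** -/
theorem total (S : Shape) {h : ℕ} (hh : 0 < h) :
    |qn S (D.M * h) - qpl (rf S D.M D.hM) h D.fine| ≤
      ∑ β ∈ D.B, PB (EE (rf S D.M D.hM) h) (bk (2 * (h : ℤ)) (D.hy (rf S D.M D.hM).P.Q β))
        (Pv (rf S D.M D.hM) h (D.U (rf S D.M D.hM).P.Q β)) := by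
  have h1 := steps_le (rf S D.M D.hM) hh D.fine (D.U (rf S D.M D.hM).P.Q) D.B
  rw [qn_rf S D.hM hh] at h1
  have h2 : qpl (rf S D.M D.hM) h
      (rst D.fine (fun c => ∃ b ∈ D.B, c ∈ D.U (rf S D.M D.hM).P.Q b)) =
      qpl (rf S D.M D.hM) h D.fine := by
    refine qpl_congr _ hh fun c hc => ?_
    by_cases hf : D.fine c = none
    · by_cases h3 : ∃ b ∈ D.B, c ∈ D.U (rf S D.M D.hM).P.Q b
      · rw [rst_pos h3]
      · rw [rst_neg h3, hf]
    · exact rst_pos (D.cover hc hf)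
  rw [h2] at h1
  exact h1

end Chd

/-! ### The local picture at an interior chunk -/

/-- the fine plates to the left of the chunk, tip of the chunk at `0` -/
def plJ (M' m : ℕ) (τ : ℤ) (c : Cell) : Option ℤ :=
  if c.1 < -((m * M' : ℕ) : ℤ) ∧ -(τ - c.1 / M') ≤ c.2 ∧ c.2 < τ - c.1 / M'
    then some (c.1 / M') else none

/-- the chunk, tip at `0` -/
def inJ (M' m : ℕ) (τ : ℤ) (c : Cell) : Prop :=
  -((m * M' : ℕ) : ℤ) ≤ c.1 ∧ c.1 < 0 ∧ -(τ - c.1 / M') ≤ c.2 ∧ c.2 < τ - c.1 / M'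

namespace Chd

variable (D : Chd)

/-- the tip of the chunk `(i, y)` -/
def tip (i y : ℤ) : Cell := (D.l * (i + 1), D.M * y)

/-- the thickness at the tip -/
def ta (i : ℤ) : ℤ := D.N1 * D.m * D.b - D.m * (i + 1)

/-- the box of half width `e` chunks around the tip -/
def Bxx (c : Cell) : Prop :=
  (-((D.e * D.l : ℕ) : ℤ) ≤ c.1 ∧ c.1 < ((D.e * D.l : ℕ) : ℤ)) ∧
    (-((D.M : ℤ) / 2) ≤ c.2 ∧ c.2 < (D.M : ℤ) / 2)

lemma Y_tip {i y : ℤ} {c : Cell} (hc : D.Bxx c) : D.Y (c + D.tip i y).2 = y := by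
  have hM : (0 : ℤ) < D.M := by exact_mod_cast D.hM
  obtain ⟨-, h1, h2⟩ := hc
  unfold Y tip
  simp only [Prod.snd_add]
  rw [dv hM]
  omega

lemma K_tip {i y : ℤ} (c : Cell) : D.K (c + D.tip i y).1 = c.1 / D.M' + D.m * (i + 1) := by
  have h1 : (D.M' : ℤ) ≠ 0 := by exact_mod_cast D.hM'.ne'
  unfold K tip l
  simp only [Prod.fst_add]
  have : c.1 + ((D.m * D.M' : ℕ) : ℤ) * (i + 1) = c.1 + D.M' * (D.m * (i + 1)) := by
    push_cast; ring
  rw [this, Int.add_mul_ediv_left _ _ h1]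

lemma I_tip {i y : ℤ} (c : Cell) : D.I (c + D.tip i y).1 = c.1 / D.l + (i + 1) := by
  have h1 : (D.l : ℤ) ≠ 0 := by exact_mod_cast D.hl.ne'
  unfold I tip
  simp only [Prod.fst_add]
  rw [Int.add_mul_ediv_left _ _ h1]

lemma hw_tip {i y : ℤ} (c : Cell) : D.hw (D.K (c + D.tip i y).1) = D.ta i - c.1 / D.M' := by
  rw [K_tip]
  unfold hw ta
  ring

lemma I_box {i y : ℤ} {c : Cell} (hc : D.Bxx c) : i + 1 - D.e ≤ D.I (c + D.tip i y).1 ∧
    D.I (c + D.tip i y).1 ≤ i + D.e := by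
  have hl : (0 : ℤ) < D.l := by exact_mod_cast D.hl
  obtain ⟨⟨h1, h2⟩, -⟩ := hc
  push_cast at h1 h2
  rw [I_tip]
  have h3 : -(D.e : ℤ) ≤ c.1 / D.l := by
    rw [Int.le_ediv_iff_mul_le hl]; linarith
  have h4 : c.1 / D.l < D.e := by
    rw [Int.ediv_lt_iff_lt_mul hl]; linarith
  omega

/-- in the box the plates of `fine` are the plates of the line of the chunk -/
lemma fine_tip {i y : ℤ} (hi : D.Inn i y) {c : Cell} (hc : D.Bxx c) :
    D.fine (c + D.tip i y) = if -(D.ta i - c.1 / D.M') ≤ c.2 ∧ c.2 < D.ta i - c.1 / D.M' then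
      some (c.1 / D.M' + D.m * (i + 1), y) else none := by
  unfold fine
  rw [D.Y_tip hc, hw_tip, K_tip, X_eq]
  have h1 := D.I_box (i := i) (y := y) hc
  have h2 := hi (D.I (c + D.tip i y).1) (by omega) (by omega)
  have h3 : (c + D.tip i y).2 - (D.M : ℤ) * y = c.2 := by
    unfold tip; simp
  rw [h3]
  simp only [h2, true_and]

/-- near the chunk `(i, y)` the blocks before it are the plates to the left of it -/
lemma before_iff {i y : ℤ} (hi : D.Inn i y) {Q : Finset Cell} {c : Cell} (hc : D.Bxx c)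
    (hQ : c + D.tip i y ∈ Q) :
    (∃ β ∈ D.B, β < bl 1 i y ∧ c + D.tip i y ∈ D.U Q β) ↔
      D.fine (c + D.tip i y) ≠ none ∧ D.I (c + D.tip i y).1 < i := by
  classical
  have hN : (0 : ℤ) < D.N1 := by exact_mod_cast D.hN1
  have he : (0 : ℤ) < D.e := by exact_mod_cast D.he
  have heN : 2 * (D.e : ℤ) ≤ D.N1 := by exact_mod_cast D.heN
  have h1 := D.I_box (i := i) (y := y) hc
  have hY := D.Y_tip (i := i) (y := y) hc
  constructor
  · rintro ⟨β, hβ, hlt, hU⟩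
    rw [mem_U] at hU
    unfold B at hβ
    rw [mem_union, mem_union] at hβ
    rcases hβ with (hβ | hβ) | hβ
    · obtain ⟨X, y', hG, hG', rfl⟩ := D.mem_BL.1 hβ
      have hU := D.inU_bl.1 hU.2
      obtain ⟨hf, hy, h2⟩ := hU
      rw [hY] at hy
      subst hy
      refine ⟨hf, ?_⟩
      by_contra hge
      have h3 : D.N1 * X ≤ D.I (c + D.tip i y).1 ∧ D.I (c + D.tip i y).1 < D.N1 * X + D.e := by
        rcases h2 with h2 | h2 | h2
        · exact h2.2
        · exact absurd h2.1 (by norm_num)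
        · exact absurd h2.1 (by norm_num)
      have h4 := hi (D.N1 * X - 1) (by omega) (by omega)
      have h5 : ((D.N1 : ℤ) * X - 1) / D.N1 = X - 1 := by
        rw [dv hN]
        have e1 : (D.N1 : ℤ) * (X - 1) = D.N1 * X - D.N1 := by ring
        rw [e1]; omega
      rw [h5] at h4
      exact hG' h4
    · obtain ⟨i', y', hin, rfl⟩ := D.mem_BI.1 hβ
      have hU := D.inU_bl.1 hU.2
      obtain ⟨hf, hy, h2⟩ := hU
      have h3 : D.I (c + D.tip i y).1 = i' := by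
        rcases h2 with h2 | h2 | h2
        · exact absurd h2.1 (by norm_num)
        · exact h2.2
        · exact absurd h2.1 (by norm_num)
      rw [bl_lt] at hlt
      refine ⟨hf, ?_⟩
      rw [hY] at hy
      omega
    · obtain ⟨X, y', hG, hG', rfl⟩ := D.mem_BR.1 hβ
      rw [bl_lt] at hlt
      omega
  · rintro ⟨hf, hI⟩
    obtain ⟨β, hβ, hU⟩ := D.cover hQ hf
    refine ⟨β, hβ, ?_, hU⟩
    rw [mem_U] at hU
    unfold B at hβ
    rw [mem_union, mem_union] at hβ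
    rcases hβ with (hβ | hβ) | hβ
    · obtain ⟨X, y', hG, hG', rfl⟩ := D.mem_BL.1 hβ
      rw [bl_lt]; omega
    · obtain ⟨i', y', hin, rfl⟩ := D.mem_BI.1 hβ
      obtain ⟨-, hy, h2⟩ := D.inU_bl.1 hU.2
      have h3 : D.I (c + D.tip i y).1 = i' := by
        rcases h2 with h2 | h2 | h2
        · exact absurd h2.1 (by norm_num)
        · exact h2.2
        · exact absurd h2.1 (by norm_num)
      rw [bl_lt]; omega
    · obtain ⟨X, y', hG, hG', rfl⟩ := D.mem_BR.1 hβ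
      obtain ⟨-, hy, h2⟩ := D.inU_bl.1 hU.2
      rw [hY] at hy
      subst hy
      exfalso
      have e1 : (D.N1 : ℤ) * (X + 1) = D.N1 * X + D.N1 := by ring
      have h3 : D.N1 * (X + 1) - D.e ≤ D.I (c + D.tip i y).1 ∧
          D.I (c + D.tip i y).1 < D.N1 * (X + 1) := by
        rcases h2 with h2 | h2 | h2
        · exact absurd h2.1 (by norm_num)
        · exact absurd h2.1 (by norm_num)
        · exact h2.2
      have h4 := hi (D.N1 * (X + 1)) (by omega) (by omega)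
      rw [Int.mul_ediv_cancel_left _ hN.ne'] at h4
      exact hG' h4

/-- **The hybrid near the chunk is the junction world.** -/
theorem hy_tip {i y : ℤ} (hi : D.Inn i y) {Q : Finset Cell} {c : Cell} (hc : D.Bxx c)
    (hQ : c + D.tip i y ∈ Q) : D.hy Q (bl 1 i y) (c + D.tip i y) =
      (plJ D.M' D.m (D.ta i) c).map (fun k => (k + D.m * (i + 1), y)) := by
  have hl : (0 : ℤ) < D.l := by exact_mod_cast D.hl
  have h1 := D.before_iff hi hc hQ
  have h2 := D.fine_tip hi hc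
  have h3 : D.I (c + D.tip i y).1 < i ↔ c.1 < -((D.m * D.M' : ℕ) : ℤ) := by
    rw [I_tip]
    have : c.1 / (D.l : ℤ) + (i + 1) < i ↔ c.1 / (D.l : ℤ) < -1 := by omega
    rw [this, Int.ediv_lt_iff_lt_mul hl]
    unfold l
    simp
  unfold hy hyb
  by_cases h4 : ∃ β ∈ D.B, β < bl 1 i y ∧ c + D.tip i y ∈ D.U Q β
  · rw [rst_pos h4, h2]
    have h5 := h1.1 h4
    rw [h3] at h5
    have h6 : D.fine (c + D.tip i y) ≠ none := h5.1
    rw [h2] at h6
    unfold plJ
    simp only [h5.2, true_and]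
    split_ifs with h7
    · rfl
    · rfl
  · rw [rst_neg h4]
    rw [h1, not_and, h3] at h4
    unfold plJ
    split_ifs with h7
    · exfalso
      refine h4 ?_ h7.1
      rw [h2, if_pos h7.2]
      simp
    · rfl

/-- the cells of the chunk -/
theorem U_tip {i y : ℤ} (hi : D.Inn i y) {Q : Finset Cell} {c : Cell} (hc : D.Bxx c)
    (hQ : c + D.tip i y ∈ Q) : c + D.tip i y ∈ D.U Q (bl 1 i y) ↔ inJ D.M' D.m (D.ta i) c := by
  have hl : (0 : ℤ) < D.l := by exact_mod_cast D.hl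
  rw [mem_U, inU_bl, D.Y_tip hc, D.fine_tip hi hc, I_tip]
  have h3 : c.1 / (D.l : ℤ) + (i + 1) = i ↔ -((D.m * D.M' : ℕ) : ℤ) ≤ c.1 ∧ c.1 < 0 := by
    have : c.1 / (D.l : ℤ) + (i + 1) = i ↔ c.1 / (D.l : ℤ) = -1 := by omega
    rw [this, dv hl]
    unfold l
    constructor <;> intro h <;> constructor <;> linarith [h.1, h.2]
  unfold inJ
  constructor
  · rintro ⟨-, h4, -, h5⟩
    have h6 : c.1 / (D.l : ℤ) + (i + 1) = i := by
      rcases h5 with h5 | h5 | h5
      · exact absurd h5.1 (by norm_num)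
      · exact h5.2
      · exact absurd h5.1 (by norm_num)
    rw [h3] at h6
    split_ifs at h4 with h7
    · exact ⟨h6.1, h6.2, h7⟩
    · exact absurd rfl h4
  · rintro ⟨h4, h5, h6⟩
    refine ⟨hQ, ?_, rfl, Or.inr (Or.inl ⟨rfl, h3.2 ⟨h4, h5⟩⟩)⟩
    rw [if_pos h6]
    simp

/-- **The law of the labels near the chunk is that of the junction world.** -/
theorem loc_law {i y : ℤ} (hi : D.Inn i y) {Q V : Finset Cell}
    (hV : ∀ c ∈ V, D.Bxx c ∧ c + D.tip i y ∈ Q) {h : ℕ} (hh : 0 < h)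
    (A : Finset (ℤ × ℤ) → Prop) :
    PB (TL (V.map (addRightEmbedding (D.tip i y))) (2 * (h : ℤ)))
        (bk (2 * (h : ℤ)) (D.hy Q (bl 1 i y))) A =
      PB (TL V (2 * (h : ℤ))) (bk (2 * (h : ℤ)) (plJ D.M' D.m (D.ta i)))
        (fun ω => A (ω.map (syT (tv' h (D.tip i y))).G)) := by
  have hn : (0 : ℤ) < 2 * (h : ℤ) := by positivity
  rw [PB_tr hh]
  have key : ∀ e ∈ TL V (2 * (h : ℤ)), D.hy Q (bl 1 i y) (ct (2 * (h : ℤ)) (tt e) + D.tip i y) =
      (plJ D.M' D.m (D.ta i) (ct (2 * (h : ℤ)) (tt e))).map (fun k => (k + D.m * (i + 1), y)) := by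
    intro e he
    have h1 := hV _ ((mem_TL hn).1 he).2
    exact D.hy_tip hi h1.1 h1.2
  have inj : Function.Injective (Option.map (fun k : ℤ => (k + D.m * (i + 1), y))) := by
    apply Option.map_injective
    intro a b hab
    simpa using hab
  refine PB_pl_congr (fun e he => ?_) (fun e he e' he' _ => ?_) _
  · rw [key e he, Option.map_eq_none_iff]
  · rw [key e he, key e' he']
    exact inj.eq_iff

/-- the chunk in the region `V` -/
noncomputable def UJ (V : Finset Cell) (i : ℤ) : Finset Cell := by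
  classical
  exact V.filter (inJ D.M' D.m (D.ta i))

lemma mem_UJ {V : Finset Cell} {i : ℤ} {c : Cell} : c ∈ D.UJ V i ↔ c ∈ V ∧ inJ D.M' D.m (D.ta i) c := by
  classical
  unfold UJ
  exact mem_filter

lemma TL_inter {n : ℤ} (hn : 0 < n) (A B : Finset Cell) : TL A n ∩ TL B n = TL (A ∩ B) n := by
  ext e
  rw [mem_inter, mem_TL hn, mem_TL hn, mem_TL hn, mem_inter]
  tauto

/-- **Events about the labels of the box with the chunk open, resp. closed.** -/
theorem loc_piv {i y : ℤ} (hi : D.Inn i y) {Q V : Finset Cell}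
    (hV : ∀ c ∈ V, D.Bxx c ∧ c + D.tip i y ∈ Q) {h : ℕ} (hh : 0 < h)
    (R : Finset (ℤ × ℤ) → Finset (ℤ × ℤ) → Prop) :
    PB (TL Q (2 * (h : ℤ))) (bk (2 * (h : ℤ)) (D.hy Q (bl 1 i y))) (fun ω =>
      R ((ω ∪ TL (D.U Q (bl 1 i y)) (2 * (h : ℤ))) ∩
          TL (V.map (addRightEmbedding (D.tip i y))) (2 * (h : ℤ)))
        ((ω \ TL (D.U Q (bl 1 i y)) (2 * (h : ℤ))) ∩
          TL (V.map (addRightEmbedding (D.tip i y))) (2 * (h : ℤ)))) =
      PB (TL V (2 * (h : ℤ))) (bk (2 * (h : ℤ)) (plJ D.M' D.m (D.ta i))) (fun ω =>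
        R ((ω ∪ TL (D.UJ V i) (2 * (h : ℤ))).map (syT (tv' h (D.tip i y))).G)
          ((ω \ TL (D.UJ V i) (2 * (h : ℤ))).map (syT (tv' h (D.tip i y))).G)) := by
  have hn : (0 : ℤ) < 2 * (h : ℤ) := by positivity
  set V' := V.map (addRightEmbedding (D.tip i y)) with hV'
  have hV'Q : V' ⊆ Q := by
    intro c hc
    obtain ⟨c', h1, rfl⟩ := Finset.mem_map.1 hc
    exact (hV c' h1).2
  have hU : D.U Q (bl 1 i y) ∩ V' = (D.UJ V i).map (addRightEmbedding (D.tip i y)) := by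
    ext c
    rw [mem_inter, hV', Finset.mem_map, Finset.mem_map]
    constructor
    · rintro ⟨h1, c', h2, rfl⟩
      exact ⟨c', D.mem_UJ.2 ⟨h2, (D.U_tip hi (hV c' h2).1 (hV c' h2).2).1 h1⟩, rfl⟩
    · rintro ⟨c', h2, rfl⟩
      rw [mem_UJ] at h2
      exact ⟨(D.U_tip hi (hV c' h2.1).1 (hV c' h2.1).2).2 h2.2, c', h2.1, rfl⟩
  set T := TL ((D.UJ V i).map (addRightEmbedding (D.tip i y))) (2 * (h : ℤ)) with hT
  have e1 : TL (D.U Q (bl 1 i y)) (2 * (h : ℤ)) ∩ TL V' (2 * (h : ℤ)) = T := by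
    rw [TL_inter hn, hU]
  have e2 : ∀ ω : Finset (ℤ × ℤ), (ω ∪ TL (D.U Q (bl 1 i y)) (2 * (h : ℤ))) ∩ TL V' (2 * (h : ℤ)) =
      (ω ∩ TL V' (2 * (h : ℤ))) ∪ T := by
    intro ω
    rw [union_inter_distrib_right, e1]
  have e3 : ∀ ω : Finset (ℤ × ℤ), (ω \ TL (D.U Q (bl 1 i y)) (2 * (h : ℤ))) ∩ TL V' (2 * (h : ℤ)) =
      (ω ∩ TL V' (2 * (h : ℤ))) \ T := by
    intro ω
    rw [← e1]
    ext x
    simp only [mem_inter, mem_sdiff]
    tauto
  simp only [e2, e3]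
  rw [PB_cells hn hV'Q (fun ω => R (ω ∪ T) (ω \ T)), hV', D.loc_law hi hV hh]
  refine PB_congr fun ω _ => ?_
  rw [hT, ← TL_tr hh]
  rw [Finset.map_union, Finset.map_sdiff]

end Chd

end Pool.Agent.H50.W
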