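import Mathlib
import Pool.Agent.H50.W.Chords
import Pool.Agent.H6.W.JDef
import Pool.Agent.H21.FM.Wall

set_option autoImplicit false
open Finset

/-! # Near an interior chunk (module E7)

`near_chunk` : the probability that the chunk `(i, y)` is pivotal for the crossing event of the polygon,
in the hybrid world before its step, is at most the probability of `A4` in the standard junction world
`chn 0 M' τ` in the box `RC (-a) a (-r) r`, `τ = τ_i` = thickness at the tip of the chunk. -/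

namespace Pool.Agent.H50.W

open Pool.Agent.H75.Perc hiding WL CT hh PB
open Pool.Agent.H75.TwoArm Pool.Agent.Q1
open Pool.Agent.Q1.M4 (Cell Good IsSide nextSide tail head PType Adj4 Conn4)
open Pool.Agent.H33.Q1
open Pool.Agent.H21.FM
open Pool.Agent.H58.W Pool.Agent.H41.W Pool.Agent.H6.W
open Pool.Agent.H48.Q1 (ref)

/-! ### Transport of `A4` -/

lemma ni_map (T : Sy) {B : Finset (ℤ × ℤ)} {x : ℤ × ℤ} : Ni (B.map T.G) (T.g x) ↔ Ni B x := by
  unfold Ni
  constructor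
  · rintro ⟨q, h1, h2⟩
    refine ⟨T.g' q, ?_, ?_⟩
    · rw [T.unit, T.gg']; exact h1
    · intro h3
      apply h2
      have h4 := T.add x (T.g' q)
      rw [T.gg'] at h4
      rw [h4]
      exact (Finset.mem_map' T.G).2 h3
  · rintro ⟨q, h1, h2⟩
    refine ⟨T.g q, (T.unit _ _).1 h1, ?_⟩
    rw [T.add, Finset.mem_map' T.G]
    exact h2

lemma A4_map (T : Sy) {B P ω : Finset (ℤ × ℤ)} :
    A4 (B.map T.G) (P.map T.G) (ω.map T.G) ↔ A4 B P ω := by
  have e1 : ω.map T.G ∩ B.map T.G ∪ P.map T.G = (ω ∩ B ∪ P).map T.G := by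
    rw [Finset.map_union, Finset.map_inter]
  have e2 : (ω.map T.G ∩ B.map T.G) \ P.map T.G = ((ω ∩ B) \ P).map T.G := by
    rw [Finset.map_sdiff, Finset.map_inter]
  unfold A4
  rw [e1, e2]
  constructor
  · rintro ⟨x, y, h1, h2, h3, h4⟩
    refine ⟨T.g' x, T.g' y, ?_, ?_, ?_, ?_⟩
    · rw [← ni_map T, T.gg']; exact h1
    · rw [← ni_map T, T.gg']; exact h2
    · rw [← T.co_iff, T.gg', T.gg']; exact h3
    · rw [← T.co_iff, T.gg', T.gg']; exact h4
  · rintro ⟨x, y, h1, h2, h3, h4⟩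
    exact ⟨T.g x, T.g y, (ni_map T).2 h1, (ni_map T).2 h2, (T.co_iff _ _ _).2 h3,
      fun h5 => h4 ((T.co_iff _ _ _).1 h5)⟩

/-! ### The two marks are not interior to a box -/

lemma LY_notMem_EE (S : Shape) {h : ℕ} (hh : 0 < h) (i : ℕ) {e : ℤ × ℤ}
    (he : e ∈ LY (2 * (h : ℤ)) (S.P.side i)) : e ∉ EE S h := by
  have hn : (0 : ℤ) < 2 * (h : ℤ) := by positivity
  rw [mem_LY hn] at he
  intro h1
  have h2 := ((mem_TL hn).1 h1).2
  rw [he.2.1] at h2
  exact (S.P.isSide_side i).2 h2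

lemma ni_mark (S : Shape) {h : ℕ} (hh : 0 < h) (i : ℕ) {B : Finset (ℤ × ℤ)} (hB : B ⊆ EE S h) :
    Ni B (wv h (S.P.side i) 0) := by
  refine ⟨wv h (S.P.side i) 0 + dir (S.P.side i).2, ?_, ?_⟩
  · rw [add_sub_cancel_left]; exact isUnit4_dir _
  · intro h1
    have h2 := ly_out hh (S.P.side i) (j := 0) hh
    refine LY_notMem_EE S hh i h2 (hB ?_)
    have h3 : ql (wv h (S.P.side i) 0) (S.P.side i).2 =
      wv h (S.P.side i) 0 + (wv h (S.P.side i) 0 + dir (S.P.side i).2) := by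
      unfold ql; rw [add_assoc]
    rw [h3]; exact h1

lemma W0_disj (S : Shape) {h : ℕ} (hh : 0 < h) {B : Finset (ℤ × ℤ)} (hB : B ⊆ EE S h) :
    Disjoint (W0 S h) B := by
  rw [disjoint_left]
  intro e h1 h2
  obtain ⟨i, -, h3⟩ := (mem_W0 S h).1 h1
  exact LY_notMem_EE S hh i h3 (hB h2)

/-- **A pivotal set of cells changes the boundary partition of every box which contains it.** -/
theorem A4_of_Pv (S : Shape) {h : ℕ} (hh : 0 < h) {B : Finset (ℤ × ℤ)} (hB : B ⊆ EE S h)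
    {U : Finset Cell} (hU : TL U (2 * (h : ℤ)) ⊆ B) {ω : Finset (ℤ × ℤ)} (hp : Pv S h U ω) :
    A4 B (TL U (2 * (h : ℤ))) ω :=
  A4_of_piv hU (W0_disj S hh hB) (ni_mark S hh S.m3 hB) (ni_mark S hh 0 hB) hp.1 hp.2

namespace Chd

variable (D : Chd)

/-- the chords lie inside the shape -/
def In (S : Shape) : Prop := ∀ c ∈ D.G, c ∈ S.P.Q ∧ (c.1, c.2 - 1) ∈ S.P.Q

lemma ta_nonneg {i y : ℤ} (hi : D.Inn i y) : 0 ≤ D.ta i := by
  have hN : (0 : ℤ) < D.N1 := by exact_mod_cast D.hN1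
  have hm : (0 : ℤ) < D.m := by exact_mod_cast D.hm
  have h1 := D.hb _ (hi i (by omega) (by omega))
  simp only at h1
  rw [Int.ediv_lt_iff_lt_mul hN] at h1
  unfold ta
  have : (D.m : ℤ) * (i + 1) ≤ D.m * (D.N1 * D.b) := by
    apply mul_le_mul_of_nonneg_left _ hm.le
    rw [mul_comm] at h1
    omega
  have e : (D.N1 : ℤ) * D.m * D.b = D.m * (D.N1 * D.b) := by ring
  rw [e]; omega

/-- half thickness at the tip, as a natural number -/
def tau (i : ℤ) : ℕ := (D.ta i + 1).toNat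

lemma tau_eq {i y : ℤ} (hi : D.Inn i y) : (D.tau i : ℤ) = D.ta i + 1 := by
  unfold tau
  have := D.ta_nonneg hi
  omega

/-- the cells of a box at the tip are cells of the refined shape -/
lemma box_in {S : Shape} (hS : D.In S) {i y : ℤ} (hi : D.Inn i y) {c : Cell} (hc : D.Bxx c) :
    c + D.tip i y ∈ (rf S D.M D.hM).P.Q := by
  have hM : (0 : ℤ) < D.M := by exact_mod_cast D.hM
  have h1 := D.I_box (i := i) (y := y) hc
  have h2 := hi (D.I (c + D.tip i y).1) (by omega) (by omega)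
  rw [← X_eq] at h2
  obtain ⟨h3, h4⟩ := hS _ h2
  show c + D.tip i y ∈ ref (mu D.M) (mu D.M) S.P.Q
  rw [mem_ref_mu D.hM]
  unfold X at h3 h4
  unfold ct
  have h5 : (c + D.tip i y).2 / (D.M : ℤ) = y ∨ (c + D.tip i y).2 / (D.M : ℤ) = y - 1 := by
    obtain ⟨-, h6, h7⟩ := hc
    unfold tip
    simp only [Prod.snd_add]
    rw [dv hM, dv hM]
    have e1 : (D.M : ℤ) * (y - 1) = D.M * y - D.M := by ring
    rw [e1]
    omega
  rcases h5 with h5 | h5
  · rw [h5]; exact h3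
  · rw [h5]; exact h4

/-- cells of the chunk of `m` plates of length `M'`, half thickness `τ` at the tip `0` -/
noncomputable def pch (M' m τ : ℕ) : Finset Cell :=
  (range m).biUnion fun i =>
    RC (-((i + 1) * M' : ℤ)) (-(i * M' : ℤ)) (-((τ : ℤ) + i)) ((τ : ℤ) + i)

lemma mem_RC {a b c d : ℤ} {x : Cell} : x ∈ RC a b c d ↔ (a ≤ x.1 ∧ x.1 < b) ∧ (c ≤ x.2 ∧ x.2 < d) := by
  unfold RC
  simp only [mem_product, mem_Ico]

/-- plate index of an abscissa to the left of the tip -/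
lemma div_neg {M' : ℤ} (hM : 0 < M') {x : ℤ} {i : ℕ} : x / M' = -((i : ℤ) + 1) ↔
    -((i + 1) * M') ≤ x ∧ x < -(i * M') := by
  rw [dv hM]
  constructor <;> rintro ⟨h1, h2⟩ <;> constructor <;> nlinarith

lemma mem_pch {M' m τ : ℕ} (hM : 0 < M') {c : Cell} : c ∈ pch M' m τ ↔
    inJ M' m ((τ : ℤ) - 1) c := by
  have hM0 : (0 : ℤ) < M' := by exact_mod_cast hM
  unfold pch inJ
  rw [mem_biUnion]
  constructor
  · rintro ⟨i, hi, hc⟩
    rw [mem_range] at hi
    rw [mem_RC] at hc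
    obtain ⟨h1, h2⟩ := hc
    have h3 := (div_neg hM0).2 h1
    rw [h3]
    have h4 : ((i : ℤ) + 1) * M' ≤ m * M' :=
      mul_le_mul_of_nonneg_right (by exact_mod_cast hi) hM0.le
    have h5 : (0 : ℤ) ≤ i * M' := by positivity
    push_cast
    refine ⟨by linarith [h1.1], by linarith [h1.2], ?_, ?_⟩ <;> omega
  · rintro ⟨h1, h2, h3, h4⟩
    push_cast at h1
    have h5 : c.1 / (M' : ℤ) < 0 := Int.ediv_neg_of_neg_of_pos h2 hM0
    have h6 : -(m : ℤ) ≤ c.1 / (M' : ℤ) := by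
      rw [Int.le_ediv_iff_mul_le hM0]; linarith
    obtain ⟨i, hi⟩ : ∃ i : ℕ, c.1 / (M' : ℤ) = -((i : ℤ) + 1) :=
      ⟨(-(c.1 / (M' : ℤ)) - 1).toNat, by omega⟩
    refine ⟨i, mem_range.2 (by omega), mem_RC.2 ⟨(div_neg hM0).1 hi, ?_⟩⟩
    rw [hi] at h3 h4
    omega

/-- the chain of plates in the two notations -/
lemma chn_eq {M' : ℕ} (hM : 0 < M') (τ : ℕ) (c : Cell) : chn 0 M' τ c =
    if c.1 < 0 ∧ -((τ : ℤ) - 1 - c.1 / M') ≤ c.2 ∧ c.2 < (τ : ℤ) - 1 - c.1 / M' then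
      some (-(c.1 / M') - 1).toNat else none := by
  have hM0 : (0 : ℤ) < M' := by exact_mod_cast hM
  unfold chn
  by_cases h : c.1 < 0
  · rw [if_pos h]
    have h5 : c.1 / (M' : ℤ) < 0 := Int.ediv_neg_of_neg_of_pos h hM0
    have h6 : (0 - c.1 - 1) / (M' : ℤ) = -(c.1 / M') - 1 := by
      obtain ⟨h7, h8⟩ := (dv hM0).1 (rfl : c.1 / (M' : ℤ) = c.1 / M')
      rw [dv hM0]
      have e1 : (M' : ℤ) * (-(c.1 / M') - 1) = -(M' * (c.1 / M')) - M' := by ring
      rw [e1]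
      omega
    simp only [h6, h, true_and]
    have h9 : ((-(c.1 / (M' : ℤ)) - 1).toNat : ℤ) = -(c.1 / M') - 1 := by omega
    rw [h9]
    have e2 : (τ : ℤ) + (-(c.1 / M') - 1) = τ - 1 - c.1 / M' := by ring
    rw [e2]
  · rw [if_neg h, if_neg (fun h1 => h h1.1)]

/-- the labels of the chunk do not matter for `A4` -/
lemma A4_sdiff {B P ω : Finset (ℤ × ℤ)} : A4 B P (ω \ P) ↔ A4 B P ω := by
  unfold A4
  have e1 : (ω \ P) ∩ B ∪ P = ω ∩ B ∪ P := by
    ext x; simp only [mem_union, mem_inter, mem_sdiff]; tauto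
  have e2 : ((ω \ P) ∩ B) \ P = (ω ∩ B) \ P := by
    ext x; simp only [mem_inter, mem_sdiff]; tauto
  rw [e1, e2]

/-- the plates of the chunk may be kept -/
lemma A4_chn {V : Finset Cell} {n : ℤ} (hn : 0 < n) {M' m τ : ℕ} (hM : 0 < M') :
    PB (TL V n) (bk n (plJ M' m ((τ : ℤ) - 1))) (A4 (TL V n) (TL (pch M' m τ) n)) =
      PB (TL V n) (bk n (chn 0 M' τ)) (A4 (TL V n) (TL (pch M' m τ) n)) := by
  have hM0 : (0 : ℤ) < M' := by exact_mod_cast hM
  set P := TL (pch M' m τ) n with hPdef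
  set E := TL V n with hE
  have key : ∀ {κ : Type} [DecidableEq κ] (pl : Cell → Option κ),
      PB E (bk n pl) (A4 E P) = PB (E \ P) (bk n pl) (A4 E P) := by
    intro κ _ pl
    rw [← PB_restrict (sdiff_subset : E \ P ⊆ E)]
    refine PB_congr fun ω hω => ?_
    have e1 : ω ∩ (E \ P) = ω \ P := by
      ext x
      rw [mem_inter, mem_sdiff, mem_sdiff]
      exact ⟨fun h => ⟨h.1, h.2.2⟩, fun h => ⟨h.1, hω h.1, h.2⟩⟩
    rw [e1]
    exact A4_sdiff.symm
  rw [key, key]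
  have fct : ∀ e ∈ E \ P, ¬ inJ M' m ((τ : ℤ) - 1) (ct n (tt e)) := by
    intro e he h1
    rw [mem_sdiff] at he
    have h2 := (mem_TL hn).1 he.1
    exact he.2 ((mem_TL hn).2 ⟨h2.1, (mem_pch hM).2 h1⟩)
  have hch : ∀ e ∈ E \ P, chn 0 M' τ (ct n (tt e)) =
      (plJ M' m ((τ : ℤ) - 1) (ct n (tt e))).map (fun k => (-k - 1).toNat) := by
    intro e he
    have h1 := fct e he
    set c := ct n (tt e)
    rw [chn_eq hM]
    unfold plJ
    unfold inJ at h1
    by_cases h2 : c.1 < 0 ∧ -((τ : ℤ) - 1 - c.1 / M') ≤ c.2 ∧ c.2 < (τ : ℤ) - 1 - c.1 / M'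
    · have h3 : c.1 < -((m * M' : ℕ) : ℤ) := by
        by_contra h3
        exact h1 ⟨by linarith, h2⟩
      rw [if_pos h2, if_pos ⟨h3, h2.2⟩]
      rfl
    · rw [if_neg h2, if_neg]
      · rfl
      · rintro ⟨h3, h4⟩
        refine h2 ⟨?_, h4⟩
        have : (0 : ℤ) ≤ ((m * M' : ℕ) : ℤ) := by positivity
        omega
  have hneg : ∀ e ∈ E \ P, ∀ k, plJ M' m ((τ : ℤ) - 1) (ct n (tt e)) = some k → k < 0 := by
    intro e _ k hk
    unfold plJ at hk
    split_ifs at hk with h1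
    have h2 : (ct n (tt e)).1 / (M' : ℤ) = k := by simpa using hk
    rw [← h2]
    refine Int.ediv_neg_of_neg_of_pos ?_ hM0
    have : (0 : ℤ) ≤ ((m * M' : ℕ) : ℤ) := by positivity
    omega
  refine PB_pl_congr (fun e he => ?_) (fun e he e' he' h1 => ?_) _
  · rw [hch e he, Option.map_eq_none_iff]
  · rw [hch e he, hch e' he']
    obtain ⟨k, hk⟩ := Option.ne_none_iff_exists'.1 h1
    rw [hk]
    rcases h2 : plJ M' m ((τ : ℤ) - 1) (ct n (tt e')) with _ | k'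
    · simp
    · have h3 := hneg e he k hk
      have h4 := hneg e' he' k' h2
      simp only [Option.some.injEq, Option.map_some]
      omega

variable (D : Chd)

/-- **Module E7**: the chunk `(i, y)` is pivotal in the hybrid with probability at most that of `A4` in
the standard junction world. -/
theorem near_chunk {S : Shape} (hS : D.In S) {i y : ℤ} (hi : D.Inn i y) {a r : ℕ}
    (ha : a ≤ D.e * D.l) (hl : D.l ≤ a) (hr : 2 * r ≤ D.M) (ht : D.tau i + D.m ≤ r) {h : ℕ}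
    (hh : 0 < h) :
    PB (EE (rf S D.M D.hM) h) (bk (2 * (h : ℤ)) (D.hy (rf S D.M D.hM).P.Q (bl 1 i y)))
        (Pv (rf S D.M D.hM) h (D.U (rf S D.M D.hM).P.Q (bl 1 i y))) ≤
      PB (TL (RC (-a) a (-r) r) (2 * (h : ℤ))) (bk (2 * (h : ℤ)) (chn 0 D.M' (D.tau i)))
        (A4 (TL (RC (-a) a (-r) r) (2 * (h : ℤ))) (TL (pch D.M' D.m (D.tau i)) (2 * (h : ℤ)))) := by
  have hn : (0 : ℤ) < 2 * (h : ℤ) := by positivity
  have hl0 : (0 : ℤ) < D.l := by exact_mod_cast D.hl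
  have hM0 : (0 : ℤ) < D.M' := by exact_mod_cast D.hM'
  have htau := D.tau_eq hi
  set Q' := (rf S D.M D.hM).P.Q with hQ'
  set V := RC (-a) a (-r) r with hVdef
  set t := D.tip i y with htip
  set U := D.U Q' (bl 1 i y) with hUdef
  have hV : ∀ c ∈ V, D.Bxx c ∧ c + t ∈ Q' := by
    intro c hc
    rw [hVdef, mem_RC] at hc
    have hb : D.Bxx c := by
      have h1 : (a : ℤ) ≤ ((D.e * D.l : ℕ) : ℤ) := by exact_mod_cast ha
      have h2 : 2 * (r : ℤ) ≤ D.M := by exact_mod_cast hr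
      refine ⟨⟨?_, ?_⟩, ?_, ?_⟩ <;> omega
    exact ⟨hb, D.box_in hS hi hb⟩
  set V' := V.map (addRightEmbedding t) with hV'
  have hV'Q : V' ⊆ Q' := by
    intro c hc
    obtain ⟨c', h1, rfl⟩ := Finset.mem_map.1 hc
    exact (hV c' h1).2
  have hUV : U ⊆ V' := by
    intro c hc
    rw [hUdef, mem_U, inU_bl] at hc
    obtain ⟨-, hf, hy, h1⟩ := hc
    have h2 : D.I c.1 = i := by
      rcases h1 with h1 | h1 | h1
      · exact absurd h1.1 (by norm_num)
      · exact h1.2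
      · exact absurd h1.1 (by norm_num)
    obtain ⟨-, h3, h4⟩ := D.fine_ne_none.1 hf
    rw [hy] at h3 h4
    have hc' : c = (c - t) + t := (sub_add_cancel c t).symm
    have h5 := D.hw_tip (i := i) (y := y) (c - t)
    rw [← htip, ← hc'] at h5
    rw [h5] at h3 h4
    unfold I at h2
    rw [dv hl0] at h2
    have e0 : t = (D.l * (i + 1), D.M * y) := rfl
    have e1 : (c - t).1 = c.1 - D.l * (i + 1) := by rw [e0]; rfl
    have e2 : (c - t).2 = c.2 - D.M * y := by rw [e0]; rfl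
    have e3 : (D.l : ℤ) * (i + 1) = D.l * i + D.l := by ring
    have h6 : -(D.m : ℤ) ≤ (c - t).1 / D.M' := by
      rw [Int.le_ediv_iff_mul_le hM0, e1, e3]
      have : (D.l : ℤ) = D.m * D.M' := by unfold l; push_cast; ring
      nlinarith [h2.1]
    have h7 : (D.tau i : ℤ) + D.m ≤ r := by exact_mod_cast ht
    have h8 : (D.l : ℤ) ≤ a := by exact_mod_cast hl
    rw [hV', Finset.mem_map]
    refine ⟨c - t, ?_, hc'.symm⟩
    rw [hVdef, mem_RC, e1, e2, e3]
    omega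
  have hTU : TL U (2 * (h : ℤ)) ⊆ TL V' (2 * (h : ℤ)) := by
    intro e he
    rw [mem_TL hn] at he ⊢
    exact ⟨he.1, hUV he.2⟩
  have hTV : TL V' (2 * (h : ℤ)) ⊆ EE (rf S D.M D.hM) h := by
    intro e he
    show e ∈ TL Q' (2 * (h : ℤ))
    rw [mem_TL hn] at he ⊢
    exact ⟨he.1, hV'Q he.2⟩
  -- the pivotal event is read in the box
  have s1 : PB (EE (rf S D.M D.hM) h) (bk (2 * (h : ℤ)) (D.hy Q' (bl 1 i y)))
      (Pv (rf S D.M D.hM) h U) ≤ PB (TL Q' (2 * (h : ℤ)))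
        (bk (2 * (h : ℤ)) (D.hy Q' (bl 1 i y))) (fun ω =>
        (fun κ₁ κ₂ => ∃ x y, Ni (TL V' (2 * (h : ℤ))) x ∧ Ni (TL V' (2 * (h : ℤ))) y ∧ Co κ₁ x y ∧
          ¬ Co κ₂ x y) ((ω ∪ TL U (2 * (h : ℤ))) ∩ TL V' (2 * (h : ℤ)))
          ((ω \ TL U (2 * (h : ℤ))) ∩ TL V' (2 * (h : ℤ)))) := by
    refine PB_mono fun ω _ hp => ?_
    obtain ⟨x, z, h1, h2, h3, h4⟩ := A4_of_Pv (rf S D.M D.hM) hh hTV hTU hp
    refine ⟨x, z, h1, h2, ?_, ?_⟩
    · refine h3.mono ?_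
      intro e he
      rcases mem_union.1 he with he | he
      · rw [mem_inter] at he ⊢
        exact ⟨mem_union_left _ he.1, he.2⟩
      · exact mem_inter.2 ⟨mem_union_right _ he, hTU he⟩
    · intro h5
      refine h4 (h5.mono ?_)
      intro e he
      rw [mem_inter, mem_sdiff] at he
      rw [mem_sdiff, mem_inter]
      exact ⟨⟨he.1.1, he.2⟩, he.1.2⟩
  have hPV : pch D.M' D.m (D.tau i) ⊆ V := by
    intro c hc
    rw [mem_pch D.hM'] at hc
    obtain ⟨h1, h2, h3, h4⟩ := hc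
    have h6 : -(D.m : ℤ) ≤ c.1 / D.M' := by
      rw [Int.le_ediv_iff_mul_le hM0]
      push_cast at h1
      linarith
    have h7 : (D.tau i : ℤ) + D.m ≤ r := by exact_mod_cast ht
    have h8 : (D.l : ℤ) ≤ a := by exact_mod_cast hl
    have h9 : (D.l : ℤ) = ((D.m * D.M' : ℕ) : ℤ) := rfl
    rw [hVdef, mem_RC]
    omega
  have hUJ : D.UJ V i = pch D.M' D.m (D.tau i) := by
    ext c
    rw [mem_UJ, mem_pch D.hM', htau, add_sub_cancel_right]
    constructor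
    · exact fun h1 => h1.2
    · intro h1
      refine ⟨hPV ?_, h1⟩
      rw [mem_pch D.hM', htau, add_sub_cancel_right]
      exact h1
  have s2 := D.loc_piv (Q := Q') (V := V) hi hV hh (fun κ₁ κ₂ => ∃ x y,
    Ni (TL V' (2 * (h : ℤ))) x ∧ Ni (TL V' (2 * (h : ℤ))) y ∧ Co κ₁ x y ∧ ¬ Co κ₂ x y)
  rw [← A4_chn hn D.hM', htau, add_sub_cancel_right]
  refine s1.trans (s2.le.trans (PB_mono fun ω hω h1 => ?_))
  rw [← A4_map (syT (tv' h t))]
  obtain ⟨x, z, h1, h2, h3, h4⟩ := h1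
  rw [hUJ] at h3 h4
  have e1 : (TL V (2 * (h : ℤ))).map (syT (tv' h t)).G = TL V' (2 * (h : ℤ)) := TL_tr hh t V
  have e2 : ω ∩ TL V (2 * (h : ℤ)) = ω := inter_eq_left.2 hω
  refine ⟨x, z, ?_, ?_, ?_, ?_⟩
  · rw [e1]; exact h1
  · rw [e1]; exact h2
  · rw [← Finset.map_inter, e2, ← Finset.map_union]; exact h3
  · rw [← Finset.map_inter, e2, ← Finset.map_sdiff]; exact h4

/-- the thickness is at most the number of plates of the longest chord -/
lemma tau_le {i y : ℤ} (hi : D.Inn i y) {a0 : ℤ} (h0 : ∀ c ∈ D.G, a0 ≤ c.1) :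
    (D.tau i : ℤ) ≤ D.N1 * D.m * (D.b - a0) := by
  have hN : (0 : ℤ) < D.N1 := by exact_mod_cast D.hN1
  have hm : (0 : ℤ) < D.m := by exact_mod_cast D.hm
  rw [D.tau_eq hi]
  have h1 := h0 _ (hi i (by omega) (by omega))
  simp only at h1
  rw [Int.le_ediv_iff_mul_le hN] at h1
  unfold ta
  have h2 : (D.m : ℤ) * (i + 1) ≥ D.m * (a0 * D.N1 + 1) := by
    apply mul_le_mul_of_nonneg_left _ hm.le
    omega
  have e : (D.N1 : ℤ) * D.m * (D.b - a0) = D.N1 * D.m * D.b - D.m * (a0 * D.N1) := by ring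
  have e2 : (D.m : ℤ) * (a0 * D.N1 + 1) = D.m * (a0 * D.N1) + D.m := by ring
  rw [e]
  linarith

end Chd

end Pool.Agent.H50.W
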