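import Mathlib
import Pool.Agent.H6.W.JDef
import Pool.Agent.Q1.M4.Walk

set_option autoImplicit false
open Finset

/-! # The cells of the junction box: columns, boundary sides, corners -/

namespace Pool.Agent.H50.W.JC

open Pool.Agent.H75.Perc (dir dir_cases)
open Pool.Agent.Q1.M4 (Cell Good IsSide nextSide tail head Adj4 Conn4 PType Eqv dir_congr)
open Pool.Agent.H6.W

/-- the geometry of an admissible box -/
structure Geo (b : JBox) : Prop where
  H0 : 0 < b.H
  X0 : 0 < b.X
  mono : ∀ i j, i < j → j < b.K → b.st i < b.st j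
  lo : ∀ i < b.K, -(b.X : ℤ) < b.st i ∧ b.st i < b.X

theorem geo_of_ok {b : JBox} {δ σ : ℝ} (h : b.Ok δ σ) (hδ : 0 < δ) : Geo b where
  H0 := h.H0
  X0 := by
    have h1 : (0 : ℝ) < b.H := by exact_mod_cast h.H0
    have h2 : (0 : ℝ) < δ * b.X := h1.trans_le h.X_ge
    have h3 : (0 : ℝ) < b.X := pos_of_mul_pos_right h2 hδ.le
    exact_mod_cast h3
  mono := by
    intro i j hij
    obtain ⟨m, rfl⟩ : ∃ m, j = i + 1 + m := ⟨j - (i + 1), by omega⟩
    clear hij
    induction m with
    | zero => exact fun hj => h.st_mono i hj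
    | succ m ih =>
      intro hj
      exact (ih (by omega)).trans (h.st_mono (i + 1 + m) hj)
  lo := h.st_lo

variable {b : JBox}

/-- number of steps with abscissa at most `x` -/
noncomputable def ks (b : JBox) (x : ℤ) : ℤ := (((range b.K).filter fun i => b.st i ≤ x).card : ℤ)

namespace Geo

variable (g : Geo b)
include g

lemma ks_iff (x : ℤ) : ∀ i < b.K, (b.st i ≤ x ↔ (i : ℤ) < ks b x) := by
  have key : ∀ m, m ≤ b.K → ∃ k ≤ m, (range m).filter (fun i => b.st i ≤ x) = range k := by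
    intro m
    induction m with
    | zero => intro _; exact ⟨0, le_rfl, by simp⟩
    | succ m ih =>
      intro hm
      obtain ⟨k, hk, e⟩ := ih (by omega)
      rw [range_add_one, filter_insert]
      by_cases h1 : b.st m ≤ x
      · rw [if_pos h1, e]
        refine ⟨m + 1, le_rfl, ?_⟩
        have : range k = range m := by
          rw [← e]
          ext i
          simp only [mem_filter, mem_range]
          constructor
          · exact fun h => h.1
          · exact fun h => ⟨h, (g.mono i m h (by omega)).le.trans h1⟩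
        rw [this, range_add_one]
      · rw [if_neg h1, e]
        exact ⟨k, by omega, rfl⟩
  obtain ⟨k, hk, e⟩ := key b.K le_rfl
  intro i hi
  have h1 : ks b x = k := by unfold ks; rw [e, card_range]
  rw [h1]
  have h2 : i ∈ (range b.K).filter (fun i => b.st i ≤ x) ↔ i < k := by rw [e, mem_range]
  rw [mem_filter, mem_range] at h2
  constructor
  · intro h; exact_mod_cast h2.1 ⟨hi, h⟩
  · intro h; exact (h2.2 (by exact_mod_cast h)).2

omit g in
lemma ks_nonneg (x : ℤ) : 0 ≤ ks b x := by unfold ks; positivity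

omit g in
lemma ks_le (x : ℤ) : ks b x ≤ b.K := by
  unfold ks
  have : ((range b.K).filter fun i => b.st i ≤ x).card ≤ (range b.K).card := card_filter_le _ _
  rw [card_range] at this
  exact_mod_cast this

omit g in
lemma ks_mono {x y : ℤ} (h : x ≤ y) : ks b x ≤ ks b y := by
  unfold ks
  have : ((range b.K).filter fun i => b.st i ≤ x).card ≤ ((range b.K).filter fun i => b.st i ≤ y).card :=
    card_le_card fun i hi => by
      rw [mem_filter] at hi ⊢
      exact ⟨hi.1, hi.2.trans h⟩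
  exact_mod_cast this

/-- a jump of `ks` is at a corner -/
lemma jump {x : ℤ} (h : ks b (x - 1) < ks b x) : ∃ i < b.K, b.st i = x ∧ ks b (x - 1) = i ∧
    ks b x = i + 1 := by
  have h0 := ks_nonneg (b := b) (x - 1)
  have h1 := ks_le (b := b) x
  obtain ⟨i, hi⟩ : ∃ i : ℕ, (i : ℤ) = ks b (x - 1) := ⟨(ks b (x - 1)).toNat, by omega⟩
  have hiK : i < b.K := by omega
  have e1 := (g.ks_iff x i hiK).2 (by omega)
  have e2 : ¬ b.st i ≤ x - 1 := fun h' => by
    have := (g.ks_iff (x - 1) i hiK).1 h'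
    omega
  have e3 : b.st i = x := by omega
  refine ⟨i, hiK, e3, hi.symm, ?_⟩
  by_contra hne
  have h2 : i + 1 < b.K := by omega
  have h3 := (g.ks_iff x (i + 1) h2).2 (by push_cast; omega)
  have h4 := g.mono i (i + 1) (by omega) h2
  omega

lemma ks_st {i : ℕ} (hi : i < b.K) : ks b (b.st i) = i + 1 ∧ ks b (b.st i - 1) = i := by
  have h1 := (g.ks_iff (b.st i) i hi).1 le_rfl
  have h2 : ¬ (i : ℤ) < ks b (b.st i - 1) := fun h => by
    have := (g.ks_iff (b.st i - 1) i hi).2 h
    omega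
  obtain ⟨j, hj, e1, e2, e3⟩ := g.jump (x := b.st i) (by omega)
  have : j = i := by
    rcases lt_trichotomy j i with h | h | h
    · have := g.mono j i h hi; omega
    · exact h
    · have := g.mono i j h hj; omega
  subst this
  exact ⟨e3, e2⟩

lemma ks_step (x : ℤ) : ks b (x - 1) = ks b x ∨ ks b x = ks b (x - 1) + 1 := by
  have := ks_mono (b := b) (show x - 1 ≤ x by omega)
  rcases eq_or_lt_of_le this with h | h
  · exact Or.inl h
  · obtain ⟨i, -, -, h1, h2⟩ := g.jump h
    right; omega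

omit g in
lemma f_mono {x y : ℤ} (h : x < y) : x + ks b x < y + ks b y := by
  have := ks_mono (b := b) h.le
  omega

/-- `x + ks x` determines the corner -/
lemma f_st {x : ℤ} {i : ℕ} (hi : i < b.K) (h : x + ks b x = b.st i + i + 1) : x = b.st i := by
  have h1 := (g.ks_st hi).1
  rcases lt_trichotomy x (b.st i) with h2 | h2 | h2
  · have := f_mono (b := b) h2; omega
  · exact h2
  · have := f_mono (b := b) h2; omega

lemma ks_lo {x : ℤ} (h : x ≤ -b.X) : ks b x = 0 := by
  by_contra hne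
  have h0 := ks_nonneg (b := b) x
  have hK : 0 < b.K := by
    have := ks_le (b := b) x
    omega
  have h1 := (g.ks_iff x 0 hK).2 (by push_cast; omega)
  have := (g.lo 0 hK).1
  omega

lemma ks_hi {x : ℤ} (h : (b.X : ℤ) - 1 ≤ x) : ks b x = b.K := by
  have h1 := ks_le (b := b) x
  by_contra hne
  have h0 := ks_nonneg (b := b) x
  have hK : b.K - 1 < b.K := by omega
  have h2 := g.lo (b.K - 1) hK
  have h3 := (g.ks_iff x (b.K - 1) hK).1 (by omega)
  omega

lemma mem_Q {c : Cell} : c ∈ b.Q ↔ (-(b.X : ℤ) ≤ c.1 ∧ c.1 < b.X) ∧ -((b.H : ℤ) + ks b c.1) ≤ c.2 ∧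
    c.2 < (b.H : ℤ) + ks b c.1 := by
  have h0 := ks_nonneg (b := b) c.1
  have h1 := ks_le (b := b) c.1
  unfold JBox.Q RC
  rw [mem_union, mem_biUnion]
  simp only [mem_union, mem_product, mem_Ico, mem_range]
  constructor
  · rintro (⟨⟨a1, a2⟩, a3, a4⟩ | ⟨i, hi, ⟨⟨a1, a2⟩, a3, a4⟩ | ⟨⟨a1, a2⟩, a3, a4⟩⟩)
    · exact ⟨⟨a1, a2⟩, by omega, by omega⟩
    · have h2 := (g.ks_iff c.1 i hi).1 a1
      have h3 := (g.lo i hi).1
      exact ⟨⟨by omega, a2⟩, by omega, by omega⟩
    · have h2 := (g.ks_iff c.1 i hi).1 a1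
      have h3 := (g.lo i hi).1
      exact ⟨⟨by omega, a2⟩, by omega, by omega⟩
  · rintro ⟨⟨a1, a2⟩, a3, a4⟩
    by_cases e1 : c.2 < b.H
    · by_cases e2 : -(b.H : ℤ) ≤ c.2
      · exact Or.inl ⟨⟨a1, a2⟩, e2, e1⟩
      · right
        obtain ⟨i, hi⟩ : ∃ i : ℕ, (i : ℤ) = -c.2 - b.H - 1 := ⟨(-c.2 - b.H - 1).toNat, by omega⟩
        have hiK : i < b.K := by omega
        have h2 := (g.ks_iff c.1 i hiK).2 (by omega)
        exact ⟨i, hiK, Or.inr ⟨⟨h2, a2⟩, by omega, by omega⟩⟩
    · right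
      obtain ⟨i, hi⟩ : ∃ i : ℕ, (i : ℤ) = c.2 - b.H := ⟨(c.2 - b.H).toNat, by omega⟩
      have hiK : i < b.K := by omega
      have h2 := (g.ks_iff c.1 i hiK).2 (by omega)
      exact ⟨i, hiK, Or.inl ⟨⟨h2, a2⟩, by omega, by omega⟩⟩

end Geo

/-! ### The set of cells is good -/

lemma chain {S : Set Cell} (f : ℕ → Cell) : ∀ n : ℕ, (∀ i ≤ n, f i ∈ S) →
    (∀ i < n, Adj4 (f i) (f (i + 1))) →
    Relation.ReflTransGen (fun a b => Adj4 a b ∧ b ∈ S) (f 0) (f n) := by
  intro n
  induction n with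
  | zero => intro _ _; exact Relation.ReflTransGen.refl
  | succ n ih =>
    intro h1 h2
    exact (ih (fun i hi => h1 i (by omega)) (fun i hi => h2 i (by omega))).tail
      ⟨h2 n (by omega), h1 (n + 1) le_rfl⟩

lemma adj_of {c d : Cell} (h : d = c + (1, 0) ∨ d = c + (0, 1) ∨ d = c + (-1, 0) ∨ d = c + (0, -1)) :
    Adj4 c d := by
  rcases h with h | h | h | h
  · exact ⟨0, by rw [h]; rfl⟩
  · exact ⟨1, by rw [h]; rfl⟩
  · exact ⟨2, by rw [h]; rfl⟩
  · exact ⟨3, by rw [h]; rfl⟩

lemma adj_symm {c d : Cell} (h : Adj4 c d) : Adj4 d c := by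
  obtain ⟨k, hk⟩ := h
  have h1 : c = d + -dir k := by rw [hk]; abel
  rcases dir_cases k with ⟨-, e⟩ | ⟨-, e⟩ | ⟨-, e⟩ | ⟨-, e⟩ <;> rw [e] at h1 <;>
    exact adj_of (by rw [h1]; simp)

/-- symmetric version -/
lemma rt_symm {S : Set Cell} {c d : Cell} (hc : c ∈ S)
    (h : Relation.ReflTransGen (fun a b => Adj4 a b ∧ b ∈ S) c d) :
    Relation.ReflTransGen (fun a b => Adj4 a b ∧ b ∈ S) d c := by
  have key : ∀ d, Relation.ReflTransGen (fun a b => Adj4 a b ∧ b ∈ S) c d → d ∈ S ∧
      Relation.ReflTransGen (fun a b => Adj4 a b ∧ b ∈ S) d c := by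
    intro d h
    induction h with
    | refl => exact ⟨hc, Relation.ReflTransGen.refl⟩
    | tail _ h2 ih => exact ⟨h2.2, Relation.ReflTransGen.head ⟨adj_symm h2.1, ih.1⟩ ih.2⟩
  exact (key d h).2

/-- vertical segment -/
lemma col {S : Set Cell} {x y y' : ℤ} (h : y ≤ y') (hS : ∀ t, y ≤ t → t ≤ y' → (x, t) ∈ S) :
    Relation.ReflTransGen (fun a b => Adj4 a b ∧ b ∈ S) (x, y) (x, y') := by
  obtain ⟨n, rfl⟩ : ∃ n : ℕ, y' = y + n := ⟨(y' - y).toNat, by omega⟩
  have := chain (S := S) (fun i : ℕ => (x, y + (i : ℤ))) n (fun i hi => hS _ (by omega) (by omega))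
    (fun i hi => adj_of (Or.inr (Or.inl (by simp [Prod.ext_iff]; ring))))
  simpa using this

/-- horizontal segment -/
lemma row {S : Set Cell} {y x x' : ℤ} (h : x ≤ x') (hS : ∀ t, x ≤ t → t ≤ x' → (t, y) ∈ S) :
    Relation.ReflTransGen (fun a b => Adj4 a b ∧ b ∈ S) (x, y) (x', y) := by
  obtain ⟨n, rfl⟩ : ∃ n : ℕ, x' = x + n := ⟨(x' - x).toNat, by omega⟩
  have := chain (S := S) (fun i : ℕ => (x + (i : ℤ), y)) n (fun i hi => hS _ (by omega) (by omega))
    (fun i hi => adj_of (Or.inl (by simp [Prod.ext_iff]; ring)))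
  simpa using this

theorem Geo.good (g : Geo b) : Good b.Q := by
  have hH := g.H0
  have hX := g.X0
  have hin : ∀ x y : ℤ, (x, y) ∈ (b.Q : Set Cell) ↔ (-(b.X : ℤ) ≤ x ∧ x < b.X) ∧
      -((b.H : ℤ) + ks b x) ≤ y ∧ y < (b.H : ℤ) + ks b x := fun x y => by rw [mem_coe, g.mem_Q]
  refine ⟨⟨(0, 0), ?_⟩, ?_, ?_, ?_, ?_⟩
  · rw [g.mem_Q]
    have := ks_nonneg (b := b) 0
    simp only
    omega
  · -- connected
    have key : ∀ c : Cell, c ∈ (b.Q : Set Cell) →
        Relation.ReflTransGen (fun a b' => Adj4 a b' ∧ b' ∈ (b.Q : Set Cell)) c (0, 0) := by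
      rintro ⟨x, y⟩ hc
      have h1 := (hin x y).1 hc
      have h0 := ks_nonneg (b := b) x
      have e1 : Relation.ReflTransGen (fun a b' => Adj4 a b' ∧ b' ∈ (b.Q : Set Cell)) (x, y) (x, 0) := by
        rcases le_total y 0 with h | h
        · exact col h fun t h2 h3 => (hin x t).2 ⟨h1.1, by omega, by omega⟩
        · exact rt_symm ((hin x 0).2 ⟨h1.1, by omega, by omega⟩)
            (col h fun t h2 h3 => (hin x t).2 ⟨h1.1, by omega, by omega⟩)
      have e2 : Relation.ReflTransGen (fun a b' => Adj4 a b' ∧ b' ∈ (b.Q : Set Cell)) (x, 0) (0, 0) := by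
        rcases le_total x 0 with h | h
        · exact row h fun t h2 h3 => (hin t 0).2 ⟨by omega, by
            have := ks_nonneg (b := b) t; omega, by have := ks_nonneg (b := b) t; omega⟩
        · exact rt_symm ((hin 0 0).2 ⟨by omega, by
            have := ks_nonneg (b := b) 0; omega, by have := ks_nonneg (b := b) 0; omega⟩)
            (row h fun t h2 h3 => (hin t 0).2 ⟨by omega, by
            have := ks_nonneg (b := b) t; omega, by have := ks_nonneg (b := b) t; omega⟩)
      exact e1.trans e2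
    intro c hc d hd
    exact (key c hc).trans (rt_symm hd (key d hd))
  · -- complement connected: everything goes to the row `T + 1`
    set T : ℤ := (b.H : ℤ) + b.K with hT
    have hout : ∀ x y : ℤ, (x, y) ∈ ((b.Q : Set Cell)ᶜ) ↔ ¬ ((-(b.X : ℤ) ≤ x ∧ x < b.X) ∧
      -((b.H : ℤ) + ks b x) ≤ y ∧ y < (b.H : ℤ) + ks b x) := fun x y => by
        rw [Set.mem_compl_iff, hin]
    -- the row `T` and the row `-T-1`
    have up : ∀ x y : ℤ, (b.H : ℤ) + ks b x ≤ y → ∀ y', y ≤ y' →
        Relation.ReflTransGen (fun a b' => Adj4 a b' ∧ b' ∈ ((b.Q : Set Cell)ᶜ)) (x, y) (x, y') :=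
      fun x y h y' h' => col h' fun t h2 h3 => (hout x t).2 (by omega)
    have side : ∀ x y y' : ℤ, (x < -b.X ∨ (b.X : ℤ) ≤ x) → y ≤ y' →
        Relation.ReflTransGen (fun a b' => Adj4 a b' ∧ b' ∈ ((b.Q : Set Cell)ᶜ)) (x, y) (x, y') :=
      fun x y y' h h' => col h' fun t h2 h3 => (hout x t).2 (by omega)
    have hkT : ∀ x, (b.H : ℤ) + ks b x ≤ T := fun x => by have := ks_le (b := b) x; omega
    have key : ∀ c : Cell, c ∈ ((b.Q : Set Cell)ᶜ) → ∃ N : ℤ, ∀ m, N ≤ m →
        Relation.ReflTransGen (fun a b' => Adj4 a b' ∧ b' ∈ ((b.Q : Set Cell)ᶜ)) c (b.X, m) := by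
      rintro ⟨x, y⟩ hc
      have h1 := (hout x y).1 hc
      -- to the right above the ceiling
      have top : ∀ x m : ℤ, T ≤ m →
          Relation.ReflTransGen (fun a b' => Adj4 a b' ∧ b' ∈ ((b.Q : Set Cell)ᶜ)) (x, m) (b.X, m) := by
        intro x m hm
        have hS : ∀ t : ℤ, (t, m) ∈ ((b.Q : Set Cell)ᶜ) := fun t => (hout t m).2 (by
          have := hkT t; omega)
        rcases le_total x b.X with h | h
        · exact row h fun t _ _ => hS t
        · exact rt_symm (hS _) (row h fun t _ _ => hS t)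
      by_cases hx : x < -b.X ∨ (b.X : ℤ) ≤ x
      · refine ⟨max T y, fun m hm => ?_⟩
        exact (side x y m hx (by omega)).trans (top x m (by omega))
      · by_cases hy : (b.H : ℤ) + ks b x ≤ y
        · refine ⟨max T y, fun m hm => ?_⟩
          exact (up x y hy m (by omega)).trans (top x m (by omega))
        · have hy2 : y < -((b.H : ℤ) + ks b x) := by omega
          -- below the floor: down, right, up
          refine ⟨T, fun m hm => ?_⟩
          set y0 : ℤ := min y (-T - 1) with hy0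
          have a1 : Relation.ReflTransGen (fun a b' => Adj4 a b' ∧ b' ∈ ((b.Q : Set Cell)ᶜ))
              (x, y) (x, y0) := by
            refine rt_symm ((hout x y0).2 (by omega)) (col (by omega) fun t h2 h3 =>
              (hout x t).2 (by omega))
          have a2 : Relation.ReflTransGen (fun a b' => Adj4 a b' ∧ b' ∈ ((b.Q : Set Cell)ᶜ))
              (x, y0) (b.X, y0) := by
            refine row (by omega) fun t _ _ => (hout t y0).2 (by have := hkT t; omega)
          exact (a1.trans a2).trans (side b.X y0 m (Or.inr le_rfl) (by omega))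
    intro c hc d hd
    obtain ⟨N1, h1⟩ := key c hc
    obtain ⟨N2, h2⟩ := key d hd
    exact (h1 (max N1 N2) (le_max_left _ _)).trans
      (rt_symm hd (h2 (max N1 N2) (le_max_right _ _)))
  · rintro ⟨x, y⟩ h1 h2
    rw [Prod.mk_add_mk] at h2
    rw [g.mem_Q] at h1 h2
    rw [Prod.mk_add_mk, Prod.mk_add_mk, g.mem_Q, g.mem_Q]
    have := g.ks_step (x + 1)
    rw [add_sub_cancel_right] at this
    simp only [add_zero] at *
    by_cases hy : y < (b.H : ℤ) + ks b (x + 1) ∧ -((b.H : ℤ) + ks b (x + 1)) ≤ y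
    · left; omega
    · right; omega
  · rintro ⟨x, y⟩ h1 h2
    rw [Prod.mk_add_mk] at h1 h2
    rw [g.mem_Q] at h1 h2
    rw [Prod.mk_add_mk, g.mem_Q, g.mem_Q]
    have := g.ks_step (x + 1)
    rw [add_sub_cancel_right] at this
    simp only [add_zero] at *
    by_cases hy : -((b.H : ℤ) + ks b x) ≤ y
    · left; omega
    · right; omega

end Pool.Agent.H50.W.JC
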