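import Mathlib
import Pool.Agent.H71.W.JGeo
import Pool.Agent.H71.W.J6F
import Pool.Agent.H87.W.Fields

set_option autoImplicit false
open Finset

/-! # Numbers at a corner of the floor -/

namespace Pool.Agent.H50.W.JF

open Pool.Agent.H6.W Pool.Agent.H61.W Pool.Agent.H71.W Pool.Agent.H21.W
open Pool.Agent.H87.Fld (Rb ScB EvB)
open Pool.Agent.Q1.M4 (lat)

/-- **All numbers at the floor corner `i`.** -/
structure NumF (b : JBox) (h i : ℕ) (M : Finset (Bool × ℕ)) (v : ℤ × ℤ)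
    (xl xr yt B ρ R : ℤ) : Prop where
  hh : 2 ≤ h
  hi : i < b.K
  hM : ∀ c ∈ M, c.2 < b.K
  plB : b.Pl h ⊆ b.B h
  hxl : xl < b.st i * (2 * h)
  hxr : b.st i * (2 * h) ≤ xr
  hxX : -(b.X : ℤ) * (2 * h) ≤ xl
  hxl' : xl < v.1
  hxr' : v.1 ≤ xr
  hyt : v.2 ≤ yt
  hyH : -(b.H * (2 * h) : ℤ) ≤ yt
  hyt0 : yt < -2
  hv1 : v.2 < -1
  pl : ∀ x y : ℤ, -(b.X : ℤ) * (2 * h) ≤ x → ∀ k : ℕ,
    chn 0 b.M b.τ (x / (2 * h : ℤ), y / (2 * h : ℤ)) = some k →
    yt < y ∧ -((b.H + b.K) * (2 * h) : ℤ) + (2 * B + 4) < y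
  left : -(b.X : ℤ) * (2 * h) + (2 * B + 4) ≤ b.st i * (2 * h)
  right : b.st i * (2 * h) + (2 * B + 4) ≤ b.X * (2 * h)
  top : -((b.H + b.K) * (2 * h) : ℤ) + (2 * B + 4) ≤ -8
  mkf : ∀ q, (false, q) ∈ M → (b.st q * (2 * h) + (2 * B + 8) < b.st i * (2 * h) ∨
    b.st i * (2 * h) + (2 * B + 8) < b.st q * (2 * h))
  out : ∀ q, (false, q) ∈ M → (b.st q * (2 * h) < xl ∨ xr + 1 < b.st q * (2 * h))
  r1 : (xr - b.st i * (2 * h)) + (yt + (b.H + b.K) * (2 * h)) + 8 ≤ 2 * ρ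
  r2 : (b.st i * (2 * h) - xl) + (yt + (b.H + b.K) * (2 * h)) + 8 ≤ 2 * ρ
  r3 : b.K * (2 * h) + 4 ≤ ρ
  rR : ρ ≤ R
  RB : R + b.K * (2 * h) + 5 ≤ B

lemma exists_dist (P : Finset (Bool × ℝ)) {x : ℝ} (hp : (false, x) ∉ P) :
    ∃ d > 0, ∀ a ∈ P, a.1 = false → d ≤ |a.2 - x| := by
  classical
  induction P using Finset.induction_on with
  | empty => exact ⟨1, one_pos, by simp⟩
  | insert a P ha ih =>
    obtain ⟨d, hd, H⟩ := ih fun h => hp (mem_insert_of_mem h)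
    by_cases h1 : a.1 = false
    · have h2 : a.2 ≠ x := by
        intro h2
        apply hp
        have : a = (false, x) := Prod.ext h1 h2
        rw [← this]
        exact mem_insert_self _ _
      refine ⟨min d |a.2 - x|, lt_min hd (abs_pos.2 (sub_ne_zero.2 h2)), fun c hc hc1 => ?_⟩
      rcases mem_insert.1 hc with rfl | hc
      · exact min_le_right _ _
      · exact (min_le_left _ _).trans (H c hc hc1)
    · refine ⟨d, hd, fun c hc hc1 => ?_⟩
      rcases mem_insert.1 hc with rfl | hc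
      · exact absurd hc1 h1
      · exact H c hc hc1

lemma exists_bd (P : Finset (Bool × ℝ)) : ∃ A : ℝ, 0 ≤ A ∧ ∀ a ∈ P, |a.2| ≤ A := by
  refine ⟨∑ a ∈ P, |a.2|, sum_nonneg fun _ _ => abs_nonneg _, fun a ha => ?_⟩
  exact single_le_sum (f := fun a : Bool × ℝ => |a.2|) (fun _ _ => abs_nonneg _) ha

/-- plates are near the slit -/
lemma chn_low {b : JBox} {δ σ : ℝ} (hb : b.Ok δ σ) {n x y : ℤ} (hn : 0 < n)
    (hx : -(b.X : ℤ) * n ≤ x) {k : ℕ} (hk : chn 0 b.M b.τ (x / n, y / n) = some k) :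
    -((b.τ : ℤ) + nP b) * n ≤ y := by
  have hM : (0 : ℤ) < b.M := by exact_mod_cast hb.M0
  unfold chn at hk
  simp only at hk
  split_ifs at hk with h1 h2
  have h3 : -(b.X : ℤ) ≤ x / n := (Int.le_ediv_iff_mul_le hn).2 hx
  have h4 : (0 - x / n - 1) / (b.M : ℤ) < nP b := by
    rw [Int.ediv_lt_iff_lt_mul hM]
    have := X_eq hb
    have e : (b.X : ℤ) = nP b * b.M := by exact_mod_cast this
    rw [← e]
    omega
  have h5 : (((0 - x / n - 1) / (b.M : ℤ)).toNat : ℤ) ≤ nP b := by omega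
  have h6 : -((b.τ : ℤ) + nP b) ≤ y / n := by omega
  have h7 := (Int.le_ediv_iff_mul_le hn).1 h6
  exact h7

/-- the chunk is in the chain -/
lemma m_le {b : JBox} {δ σ : ℝ} (hb : b.Ok δ σ) (h1 : σ * δ ≤ 1) : b.m ≤ nP b := by
  have hM := M_pos hb
  have hH := H_pos hb
  have e : (b.X : ℝ) = nP b * b.M := by exact_mod_cast X_eq hb
  have hX : (0 : ℝ) ≤ b.X := by positivity
  have h2 : (b.m * b.M : ℝ) ≤ b.X := by
    rw [hb.len]
    rcases le_or_gt σ 0 with h3 | h3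
    · exact (mul_nonpos_of_nonpos_of_nonneg h3 hH.le).trans hX
    · calc σ * b.H ≤ σ * (δ * b.X) := mul_le_mul_of_nonneg_left hb.X_ge h3.le
        _ = (σ * δ) * b.X := by ring
        _ ≤ 1 * b.X := mul_le_mul_of_nonneg_right h1 hX
        _ = b.X := one_mul _
  rw [e] at h2
  have h3 := le_of_mul_le_mul_right h2 hM
  exact_mod_cast h3

/-- **The numbers.** -/
theorem exists_num {σ x : ℝ} (P : Finset (Bool × ℝ)) (hp : (false, x) ∉ P) :
    ∃ r0 > 0, ∀ s : ℝ, 0 < s → s < r0 → ∃ δ0 > 0, ∀ (b : JBox) (δ : ℝ), 0 < δ → δ ≤ δ0 → b.Ok δ σ →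
      ∃ h0 : ℕ, ∀ h : ℕ, h0 ≤ h → ∃ T B ρ R : ℤ, 0 < ρ ∧ 0 < R ∧ (ρ : ℝ) / R ≤ 2 * (s / r0) ∧
        ∀ v : ℤ × ℤ, lat v / (Rb b h : ℂ) ∈ Metric.closedBall (bdp (false, x)) s →
          ∀ M : Finset (Bool × ℕ), (∀ c ∈ M, ∃ a ∈ P, c = cor b a) →
          NumF b h (cor b (false, x)).2 M v
            (b.st (cor b (false, x)).2 * (2 * h) - T) (b.st (cor b (false, x)).2 * (2 * h) + T)
            (-(b.H * (2 * h) : ℤ) + T) B ρ R := by
  obtain ⟨d, hd, Hd⟩ := exists_dist P hp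
  obtain ⟨A, hA0, HA⟩ := exists_bd P
  set r1 : ℝ := min (1 / 10) (d / 10) with hr1
  have hr1p : 0 < r1 := lt_min (by norm_num) (by positivity)
  have r1a : r1 ≤ 1 / 10 := min_le_left _ _
  have r1d : r1 ≤ d / 10 := min_le_right _ _
  refine ⟨r1 / 4, by positivity, fun s hs hsr => ?_⟩
  refine ⟨min (min (s / 4) (1 / 16)) (min (min (1 / (|x| + 2)) (1 / (A + 1))) (min (d / 8) (1 / (|σ| + 1)))),
    ?_, ?_⟩
  · refine lt_min (lt_min (by positivity) (by norm_num)) (lt_min (lt_min ?_ ?_) (lt_min (by positivity) ?_))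
    · positivity
    · positivity
    · positivity
  intro b δ hδ hδ0 hb
  simp only [le_min_iff] at hδ0
  obtain ⟨⟨d1, d2⟩, ⟨d3, d4⟩, d5, d6⟩ := hδ0
  have d3' : δ * (|x| + 2) ≤ 1 := by rwa [le_div_iff₀ (by positivity)] at d3
  have d4' : δ * (A + 1) ≤ 1 := by rwa [le_div_iff₀ (by positivity)] at d4
  have d6' : δ * (|σ| + 1) ≤ 1 := by rwa [le_div_iff₀ (by positivity)] at d6
  refine ⟨max 2 ⌈16 / s⌉₊, fun h hh => ?_⟩
  have hh2 : 2 ≤ h := (le_max_left _ _).trans hh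
  have hhs : 16 / s ≤ h := (Nat.le_ceil _).trans (by exact_mod_cast (le_max_right _ _).trans hh)
  have hH := H_pos hb
  have hH1 : (1 : ℝ) ≤ b.H := by exact_mod_cast hb.H0
  have hh' : (0 : ℝ) < h := by
    have : 0 < h := by omega
    exact_mod_cast this
  set R : ℝ := Rb b h with hR
  have eR : ((b.H : ℝ) * (2 * h)) = R := by rw [hR]; unfold Rb; ring
  have hR0 : 0 < R := by rw [← eR]; positivity
  have hsR : 16 ≤ s * R := by
    rw [div_le_iff₀ hs] at hhs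
    have : (h : ℝ) ≤ R := by rw [← eR]; nlinarith
    nlinarith
  -- the integers
  set T : ℤ := ⌈2 * s * R⌉ with hT
  have T1 : 2 * s * R ≤ T := Int.le_ceil _
  have T2 : (T : ℝ) < 2 * s * R + 1 := Int.ceil_lt_add_one _
  set N : ℤ := b.K * (2 * h) with hN
  have hN0 : 0 ≤ N := by positivity
  have N2 : (N : ℝ) ≤ s / 4 * R := by
    have h1 : ((b.K : ℝ)) ≤ s / 4 * b.H := hb.K_le.trans (mul_le_mul_of_nonneg_right d1 hH.le)
    calc (N : ℝ) = b.K * (2 * h) := by rw [hN]; push_cast; ring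
      _ ≤ s / 4 * b.H * (2 * h) := mul_le_mul_of_nonneg_right h1 (by positivity)
      _ = s / 4 * R := by rw [← eR]; ring
  set Rr : ℤ := ⌊r1 * R⌋ with hRr
  have Rr1 : (Rr : ℝ) ≤ r1 * R := Int.floor_le _
  have Rr2 : r1 * R < Rr + 1 := Int.lt_floor_add_one _
  have k1 : 4 * (s * R) ≤ r1 * R := by
    have : 4 * s ≤ r1 := by linarith
    calc 4 * (s * R) = 4 * s * R := by ring
      _ ≤ r1 * R := mul_le_mul_of_nonneg_right this hR0.le
  have hρR : T + N + 8 ≤ Rr := by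
    have : ((T + N + 8 : ℤ) : ℝ) ≤ Rr := by push_cast; linarith
    exact_mod_cast this
  have hT0 : 0 < T := by
    have : (0 : ℝ) < T := by linarith
    exact_mod_cast this
  refine ⟨T, Rr + N + 5, T + N + 8, Rr, by omega, by omega, ?_, ?_⟩
  · have h1 : (0 : ℝ) < Rr := by linarith
    rw [div_le_iff₀ h1]
    push_cast
    have h2 : 2 * (s / (r1 / 4)) * (r1 * R - 1) ≤ 2 * (s / (r1 / 4)) * Rr :=
      mul_le_mul_of_nonneg_left (by linarith) (by positivity)
    have h3 : 2 * (s / (r1 / 4)) * (r1 * R - 1) = 8 * (s * R) - 8 * (s / r1) := by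
      field_simp
      ring
    have h4 : s / r1 ≤ 1 := by
      rw [div_le_one hr1p]; linarith
    linarith
  intro v hv M hMP
  obtain ⟨n1, n2⟩ := Setup.near_of_ball hR0 hv
  have e1 : (bdp (false, x)).re = x := rfl
  have e2 : (bdp (false, x)).im = -1 := rfl
  rw [e1, abs_le] at n1
  rw [e2, abs_le] at n2
  have hcor := cor_ok hb (c := (false, x)) (by
    calc δ * (|x| + δ) ≤ δ * (|x| + 2) := mul_le_mul_of_nonneg_left (by linarith) hδ.le
      _ ≤ 1 := d3')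
  obtain ⟨c1, c2, c3⟩ := hcor
  set i : ℕ := (cor b (false, x)).2 with hi
  set st : ℤ := b.st i * (2 * h) with hst
  have s1 : x * R ≤ st := by
    rw [hst]; push_cast
    calc x * R = x * b.H * (2 * h) := by rw [← eR]; ring
      _ ≤ b.st i * (2 * h) := mul_le_mul_of_nonneg_right c2 (by positivity)
  have s2 : (st : ℝ) < x * R + 2 * (δ * R) := by
    rw [hst]; push_cast
    calc (b.st i : ℝ) * (2 * h) < (x + 2 * δ) * b.H * (2 * h) :=
          mul_lt_mul_of_pos_right c3 (by positivity)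
      _ = x * R + 2 * (δ * R) := by rw [← eR]; ring
  have δR : δ * R ≤ s / 4 * R := mul_le_mul_of_nonneg_right d1 hR0.le
  have δR2 : δ * R ≤ 1 / 16 * R := mul_le_mul_of_nonneg_right d2 hR0.le
  have δR5 : δ * R ≤ d / 8 * R := mul_le_mul_of_nonneg_right d5 hR0.le
  have r1R : r1 * R ≤ 1 / 10 * R := mul_le_mul_of_nonneg_right r1a hR0.le
  have r1R' : r1 * R ≤ d / 10 * R := mul_le_mul_of_nonneg_right r1d hR0.le
  have hB : (2 * ((Rr : ℝ) + N + 5) + 8) ≤ 4 * (r1 * R) := by linarith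
  have hXR : R ≤ δ * (b.X * (2 * h)) := by
    calc R = b.H * (2 * h) := eR.symm
      _ ≤ δ * b.X * (2 * h) := mul_le_mul_of_nonneg_right hb.X_ge (by positivity)
      _ = δ * (b.X * (2 * h)) := by ring
  have hX2 : (|x| + 2) * R ≤ b.X * (2 * h) := by
    have h1 : δ * ((|x| + 2) * R) ≤ δ * (b.X * (2 * h)) := by
      calc δ * ((|x| + 2) * R) = δ * (|x| + 2) * R := by ring
        _ ≤ 1 * R := mul_le_mul_of_nonneg_right d3' hR0.le
        _ ≤ δ * (b.X * (2 * h)) := by rw [one_mul]; exact hXR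
    exact le_of_mul_le_mul_left h1 hδ
  have hxabs : -|x| * R ≤ x * R ∧ x * R ≤ |x| * R :=
    ⟨mul_le_mul_of_nonneg_right (neg_abs_le x) hR0.le, mul_le_mul_of_nonneg_right (le_abs_self x) hR0.le⟩
  have hHn : ((b.H * (2 * h) : ℤ) : ℝ) = R := by push_cast; exact eR
  have hnP : ((b.τ : ℝ) + nP b) * (2 * h) ≤ 2 * (δ * R) := by
    have h1 := thin hb
    calc ((b.τ : ℝ) + nP b) * (2 * h) ≤ (2 * δ * b.H) * (2 * h) :=
          mul_le_mul_of_nonneg_right (by linarith) (by positivity)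
      _ = 2 * (δ * R) := by rw [← eR]; ring
  have hst' : ∀ q, (false, q) ∈ M → q < b.K ∧
      ((b.st q * (2 * h) : ℤ) + (2 * (Rr + N + 5) + 8) < st ∨
        st + (2 * (Rr + N + 5) + 8) < (b.st q * (2 * h) : ℤ)) := by
    intro q hq
    obtain ⟨a, ha, he⟩ := hMP _ hq
    have ha1 : a.1 = false := (congrArg Prod.fst he).symm
    have hq2 : (cor b a).2 = q := (congrArg Prod.snd he).symm
    have hda := Hd a ha ha1
    have hAa := HA a ha
    obtain ⟨g1, g2, g3⟩ := cor_ok hb (c := a) (by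
      calc δ * (|a.2| + δ) ≤ δ * (A + 1) := mul_le_mul_of_nonneg_left (by linarith) hδ.le
        _ ≤ 1 := d4')
    rw [hq2] at g1 g2 g3
    have t1 : a.2 * R ≤ (b.st q : ℝ) * (2 * h) := by
      calc a.2 * R = a.2 * b.H * (2 * h) := by rw [← eR]; ring
        _ ≤ b.st q * (2 * h) := mul_le_mul_of_nonneg_right g2 (by positivity)
    have t2 : (b.st q : ℝ) * (2 * h) < (a.2 + 2 * δ) * R := by
      calc (b.st q : ℝ) * (2 * h) < (a.2 + 2 * δ) * b.H * (2 * h) :=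
            mul_lt_mul_of_pos_right g3 (by positivity)
        _ = (a.2 + 2 * δ) * R := by rw [← eR]; ring
    refine ⟨g1, ?_⟩
    rw [le_abs] at hda
    rcases hda with hda | hda
    · right
      have h1 : d * R ≤ (a.2 - x) * R := mul_le_mul_of_nonneg_right hda hR0.le
      have h4 : (a.2 - x) * R = a.2 * R - x * R := by ring
      have h2 : (st : ℝ) + (2 * ((Rr : ℝ) + N + 5) + 8) < b.st q * (2 * h) := by linarith
      have h3 : ((st + (2 * (Rr + N + 5) + 8) : ℤ) : ℝ) < ((b.st q * (2 * h) : ℤ) : ℝ) := by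
        push_cast
        exact h2
      exact_mod_cast h3
    · left
      have h1 : d * R ≤ -(a.2 - x) * R := mul_le_mul_of_nonneg_right hda hR0.le
      have h4 : -(a.2 - x) * R = x * R - a.2 * R := by ring
      have h5 : (a.2 + 2 * δ) * R = a.2 * R + 2 * (δ * R) := by ring
      have h2 : (b.st q : ℝ) * (2 * h) + (2 * ((Rr : ℝ) + N + 5) + 8) < st := by linarith
      have h3 : ((b.st q * (2 * h) + (2 * (Rr + N + 5) + 8) : ℤ) : ℝ) < (st : ℝ) := by
        push_cast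
        exact h2
      exact_mod_cast h3
  have hTB : T + 1 ≤ 2 * (Rr + N + 5) := by omega
  have hX2' : (|x| + 2) * R = |x| * R + 2 * R := by ring
  have hx1 : -|x| * R = -(|x| * R) := by ring
  have ht1 : 2 * s * R = 2 * (s * R) := by ring
  have ht2 : s / 4 * R = s * R / 4 := by ring
  have ht3 : d / 8 * R = d * R / 8 := by ring
  have ht4 : d / 10 * R = d * R / 10 := by ring
  have hexp : ((b.H : ℤ) + b.K) * (2 * h) = b.H * (2 * h) + N := by rw [hN]; ring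
  refine ⟨hh2, c1, ?_, ?_, by omega, by omega, ?_, ?_, ?_, ?_, by omega, ?_, ?_, ?_, ?_, ?_, ?_,
    fun q hq => (hst' q hq).2, fun q hq => by have := (hst' q hq).2; omega, ?_, ?_, by omega, hρR,
    by omega⟩
  · intro c hc
    obtain ⟨a, ha, rfl⟩ := hMP _ hc
    have hAa := HA a ha
    exact (cor_ok hb (c := a) (by
      calc δ * (|a.2| + δ) ≤ δ * (A + 1) := mul_le_mul_of_nonneg_left (by linarith) hδ.le
        _ ≤ 1 := d4')).1
  · refine Pl_sub hb (by omega) (m_le hb ?_) ?_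
    · calc σ * δ ≤ (|σ| + 1) * δ := mul_le_mul_of_nonneg_right (by linarith [le_abs_self σ]) hδ.le
        _ = δ * (|σ| + 1) := by ring
        _ ≤ 1 := d6'
    · have h1 := thin hb
      have h3 : 2 * δ * b.H ≤ 2 * (1 / 16) * b.H := mul_le_mul_of_nonneg_right (by linarith) hH.le
      have h2 : ((b.τ : ℝ) + nP b) ≤ b.H := by linarith
      exact_mod_cast h2
  · -- hxX
    have h1 : -((b.X : ℝ) * (2 * h)) ≤ st - T := by linarith
    have h2 : ((-(b.X : ℤ) * (2 * h) : ℤ) : ℝ) ≤ ((st - T : ℤ) : ℝ) := by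
      push_cast; linarith
    exact_mod_cast h2
  · have h2 : ((st - T : ℤ) : ℝ) < v.1 := by push_cast; linarith
    exact_mod_cast h2
  · have h2 : (v.1 : ℝ) ≤ ((st + T : ℤ) : ℝ) := by push_cast; linarith
    exact_mod_cast h2
  · have h2 : (v.2 : ℝ) ≤ ((-(b.H * (2 * h) : ℤ) + T : ℤ) : ℝ) := by
      push_cast; linarith
    exact_mod_cast h2
  · have h2 : ((-(b.H * (2 * h) : ℤ) + T : ℤ) : ℝ) < -2 := by
      push_cast; linarith
    exact_mod_cast h2
  · have h2 : (v.2 : ℝ) < -1 := by linarith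
    exact_mod_cast h2
  · intro x' y' hx' k hk
    have h1 := chn_low hb (show (0 : ℤ) < 2 * h by omega) hx' hk
    have h2 : -(2 * (δ * R)) ≤ (y' : ℝ) := by
      have h3 : ((-((b.τ : ℤ) + nP b) * (2 * h) : ℤ) : ℝ) ≤ y' := by exact_mod_cast h1
      push_cast at h3
      linarith
    constructor
    · have h4 : ((-(b.H * (2 * h) : ℤ) + T : ℤ) : ℝ) < y' := by push_cast; linarith
      exact_mod_cast h4
    · have h4 : ((-((b.H + b.K) * (2 * h) : ℤ) + (2 * (Rr + N + 5) + 4) : ℤ) : ℝ) < y' := by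
        rw [hexp]; push_cast
        have : (0 : ℝ) ≤ N := by exact_mod_cast hN0
        linarith
      exact_mod_cast h4
  · have h2 : ((-(b.X : ℤ) * (2 * h) + (2 * (Rr + N + 5) + 4) : ℤ) : ℝ) ≤ (st : ℝ) := by
      push_cast; linarith
    exact_mod_cast h2
  · have h2 : ((st + (2 * (Rr + N + 5) + 4) : ℤ) : ℝ) ≤ ((b.X * (2 * h) : ℤ) : ℝ) := by
      push_cast; linarith
    exact_mod_cast h2
  · have h2 : ((-((b.H + b.K) * (2 * h) : ℤ) + (2 * (Rr + N + 5) + 4) : ℤ) : ℝ) ≤ -8 := by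
      rw [hexp]; push_cast
      have : (0 : ℝ) ≤ N := by exact_mod_cast hN0
      linarith
    exact_mod_cast h2
  · rw [hexp]; omega
  · rw [hexp]; omega

end Pool.Agent.H50.W.JF
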