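import Mathlib
import Pool.Agent.H50.W.JNumF
import Pool.Agent.H87.W.JNum

set_option autoImplicit false
open Finset

/-! # The numbers of the floor move in the form of `FN` -/

namespace Pool.Agent.H50.W.JF

open Pool.Agent.H6.W Pool.Agent.H61.W Pool.Agent.H87.W
open Pool.Agent.H87.Fld (Rb)
open Pool.Agent.Q1.M4 (lat)

lemma NumF.fN {δ σ : ℝ} {b : JBox} {h i : ℕ} {M : Finset (Bool × ℕ)} {v : ℤ × ℤ}
    {xl xr yt B ρ R : ℤ} (N : NumF b h i M v xl xr yt B ρ R) (hb : b.Ok δ σ)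
    (hv : InQ b (2 * h) v.1 v.2) : FN δ σ b h i M v xl xr yt B ρ R where
  ok := hb
  hh := N.hh
  hi := N.hi
  hM := N.hM
  hv := hv
  xl1 := N.hxl
  xl2 := N.hxl'
  xr1 := N.hxr
  xr2 := N.hxr'
  yt1 := N.hyt
  yt2 := N.hyH
  r1 := N.r1
  r2 := N.r2
  r3 := N.r3
  rR := N.rR
  RB := N.RB
  left := N.left
  right := N.right
  top := N.top
  pl := fun x y hx k hk => (N.pl x y hx k hk).2
  mkf := N.mkf

lemma NumF.mkD {b : JBox} {h i : ℕ} {M : Finset (Bool × ℕ)} {v : ℤ × ℤ}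
    {xl xr yt B ρ R : ℤ} (N : NumF b h i M v xl xr yt B ρ R) : MkD b h i M xl xr B where
  far := N.mkf
  out := N.out

lemma InQ_of_Ur {δ σ : ℝ} {b : JBox} (hb : b.Ok δ σ) {h : ℕ} (hh : 0 < h) {v : ℤ × ℤ}
    (hv : lat v / (Rb b h : ℂ) ∈ Ur b) : InQ b (2 * h) v.1 v.2 := by
  have : InR b (2 * h) v.1 v.2 := by
    refine Pool.Agent.H71.W.InR_of_mem hb hh ?_
    have e : ((2 * h * b.H : ℝ) : ℂ) = (Rb b h : ℂ) := by unfold Rb; push_cast; ring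
    rw [e]
    exact hv
  exact this.1

/-- **The numbers of the floor move**, with the chunk in the box. -/
theorem floor_num' {σ : ℝ} (x : ℝ) (L : Finset (Bool × ℝ)) (hL : ∀ c ∈ L, c ≠ (false, x)) :
    ∃ r0 > 0, ∀ s : ℝ, 0 < s → s < r0 → ∃ δ0 > 0, ∀ (b : JBox) (δ : ℝ), 0 < δ → δ ≤ δ0 → b.Ok δ σ →
      ∃ h0 : ℕ, ∀ h : ℕ, h0 ≤ h → ∀ v : ℤ × ℤ, lat v / (Rb b h : ℂ) ∈ Ur b →
        lat v / (Rb b h : ℂ) ∈ Metric.closedBall (bdp (false, x)) s →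
        ∀ M : Finset (Bool × ℕ), (∀ c ∈ M, ∃ c' ∈ L, c = cor b c') →
        ∃ xl xr yt B ρ R : ℤ, FN δ σ b h (cor b (false, x)).2 M v xl xr yt B ρ R ∧
          MkD b h (cor b (false, x)).2 M xl xr B ∧ b.Pl h ⊆ b.B h ∧ 0 < ρ ∧ 0 < R ∧
          (ρ : ℝ) / R ≤ 2 * (s / r0) := by
  obtain ⟨r0, hr0, H⟩ := exists_num (σ := σ) (x := x) L fun h => hL _ h rfl
  refine ⟨r0, hr0, fun s hs hsr => ?_⟩
  obtain ⟨δ0, hδ0, H1⟩ := H s hs hsr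
  refine ⟨δ0, hδ0, fun b δ hδ hδ1 hb => ?_⟩
  obtain ⟨h0, H2⟩ := H1 b δ hδ hδ1 hb
  refine ⟨max h0 1, fun h hh v hv hv' M hM => ?_⟩
  obtain ⟨T, B, ρ, R, h1, h2, h3, H3⟩ := H2 h ((le_max_left _ _).trans hh)
  have hpos : 0 < h := by
    have := (le_max_right h0 1).trans hh
    omega
  have N := H3 v hv' M hM
  exact ⟨_, _, _, B, ρ, R, N.fN hb (InQ_of_Ur hb hpos hv), N.mkD, N.plB, h1, h2, h3⟩

theorem floor_num {σ : ℝ} (x : ℝ) (L : Finset (Bool × ℝ)) (hL : ∀ c ∈ L, c ≠ (false, x)) :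
    ∃ r0 > 0, ∃ C1 > 0, ∀ s : ℝ, 0 < s → s < r0 → ∃ δ0 > 0, ∀ (b : JBox) (δ : ℝ), 0 < δ → δ ≤ δ0 →
      b.Ok δ σ → ∀ K ⊆ Ur b, IsCompact K → ∃ h0 : ℕ, ∀ h : ℕ, h0 ≤ h → ∀ v : ℤ × ℤ,
        lat v / (Rb b h : ℂ) ∈ K → lat v / (Rb b h : ℂ) ∈ Metric.closedBall (bdp (false, x)) s →
        ∀ M : Finset (Bool × ℕ), (∀ c ∈ M, ∃ c' ∈ L, c = cor b c') →
        ∃ xl xr yt B ρ R : ℤ, FN δ σ b h (cor b (false, x)).2 M v xl xr yt B ρ R ∧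
          (ρ : ℝ) / R ≤ C1 * (s / r0) := by
  obtain ⟨r0, hr0, H⟩ := floor_num' (σ := σ) x L hL
  refine ⟨r0, hr0, 2, by norm_num, fun s hs hsr => ?_⟩
  obtain ⟨δ0, hδ0, H1⟩ := H s hs hsr
  refine ⟨δ0, hδ0, fun b δ hδ hδ1 hb K hK _ => ?_⟩
  obtain ⟨h0, H2⟩ := H1 b δ hδ hδ1 hb
  refine ⟨h0, fun h hh v hv hv' M hM => ?_⟩
  obtain ⟨xl, xr, yt, B, ρ, R, h1, -, -, -, -, h2⟩ := H2 h hh v (hK hv) hv' M hM
  exact ⟨xl, xr, yt, B, ρ, R, h1, h2⟩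

end Pool.Agent.H50.W.JF
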