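import Mathlib
import Pool.Agent.H50.W.JCell

set_option autoImplicit false
open Finset

/-! # The boundary sides and the corners of the junction box -/

namespace Pool.Agent.H50.W.JC

open Pool.Agent.H75.Perc (dir dir_cases)
open Pool.Agent.Q1.M4 (Cell Good IsSide nextSide tail head Adj4 Conn4 PType Eqv dir_congr isSide_next
  head_eq_tail_next)
open Pool.Agent.H6.W

variable {b : JBox}

open Geo (ks_nonneg ks_le ks_mono f_mono)

/-- clockwise coordinate of the head of a side (cells) -/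
def hp (b : JBox) (σ : Cell × ℤ) : ℤ := b.pos 1 (head σ)

/-- clockwise coordinate of the tail of a side (cells) -/
def tp (b : JBox) (σ : Cell × ℤ) : ℤ := b.pos 1 (tail σ)

/-- length of the boundary in cells -/
def Lb (b : JBox) : ℤ := 4 * b.X + 4 * (b.H + b.K)

lemma pos1 (p : ℤ × ℤ) : b.pos 1 p = if p.1 = b.X then 2 * (b.X : ℤ) + (b.H + b.K) + ((b.H + b.K) - p.2)
    else if 0 ≤ p.2 then p.1 + p.2 + b.X
    else 2 * (b.X : ℤ) + 3 * (b.H + b.K) + (b.X - p.1) + (p.2 + (b.H + b.K)) := by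
  unfold JBox.pos
  simp only [mul_one]

lemma tail_head (c : Cell) (d : ℤ) :
    (d % 4 = 0 ∧ tail (c, d) = c ∧ head (c, d) = (c.1 + 1, c.2) ∧ dir (d - 1) = (0, -1)) ∨
    (d % 4 = 1 ∧ tail (c, d) = (c.1 + 1, c.2) ∧ head (c, d) = (c.1 + 1, c.2 + 1) ∧ dir (d - 1) = (1, 0)) ∨
    (d % 4 = 2 ∧ tail (c, d) = (c.1 + 1, c.2 + 1) ∧ head (c, d) = (c.1, c.2 + 1) ∧
      dir (d - 1) = (0, 1)) ∨
    (d % 4 = 3 ∧ tail (c, d) = (c.1, c.2 + 1) ∧ head (c, d) = c ∧ dir (d - 1) = (-1, 0)) := by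
  have h1 : dir (d - 1) = if d % 4 = 0 then (0, -1) else if d % 4 = 1 then (1, 0) else
      if d % 4 = 2 then (0, 1) else (-1, 0) := by
    rcases dir_cases (d - 1) with ⟨a, e⟩ | ⟨a, e⟩ | ⟨a, e⟩ | ⟨a, e⟩ <;> rw [e]
    · rw [if_neg (by omega), if_pos (by omega)]
    · rw [if_neg (by omega), if_neg (by omega), if_pos (by omega)]
    · rw [if_neg (by omega), if_neg (by omega), if_neg (by omega)]
    · rw [if_pos (by omega)]
  rw [h1]
  unfold head tail
  rcases dir_cases d with ⟨a, e⟩ | ⟨a, e⟩ | ⟨a, e⟩ | ⟨a, e⟩ <;> rw [e] <;> simp [a, Prod.ext_iff]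

namespace Geo

variable (g : Geo b)
include g

/-- the boundary sides -/
lemma side_cases {c : Cell} {d : ℤ} (h : IsSide b.Q (c, d)) :
    ((-(b.X : ℤ) ≤ c.1 ∧ c.1 < b.X) ∧ -((b.H : ℤ) + ks b c.1) ≤ c.2 ∧ c.2 < (b.H : ℤ) + ks b c.1) ∧
    ((d % 4 = 0 ∧ c.2 = -((b.H : ℤ) + ks b c.1)) ∨ (d % 4 = 1 ∧ c.1 = b.X - 1 ∧ ks b c.1 = b.K) ∨
      (d % 4 = 2 ∧ c.2 = (b.H : ℤ) + ks b c.1 - 1) ∨
      (d % 4 = 3 ∧ c.1 = -b.X ∧ ks b c.1 = 0) ∨
      (d % 4 = 3 ∧ ∃ i < b.K, b.st i = c.1 ∧ ks b c.1 = i + 1 ∧ ks b (c.1 - 1) = i ∧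
        (c.2 = (b.H : ℤ) + i ∨ c.2 = -((b.H : ℤ) + i) - 1))) := by
  obtain ⟨h1, h2⟩ := h
  have h1' := g.mem_Q.1 h1
  refine ⟨h1', ?_⟩
  simp only at h1' h2
  rcases tail_head c d with ⟨a, -, -, e⟩ | ⟨a, -, -, e⟩ | ⟨a, -, -, e⟩ | ⟨a, -, -, e⟩ <;>
    rw [e, g.mem_Q] at h2 <;> simp only [Prod.fst_add, Prod.snd_add, add_zero] at h2
  · left; exact ⟨a, by omega⟩
  · right; left
    have := ks_mono (b := b) (show c.1 ≤ c.1 + 1 by omega)
    have h3 : c.1 = b.X - 1 := by omega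
    exact ⟨a, h3, g.ks_hi (by omega)⟩
  · right; right; left; exact ⟨a, by omega⟩
  · right; right; right
    rcases eq_or_lt_of_le h1'.1.1 with h3 | h3
    · left; exact ⟨a, h3.symm, g.ks_lo (by omega)⟩
    · right
      have e2 : c.1 + -1 = c.1 - 1 := by ring
      rw [e2] at h2
      have h4 := ks_mono (b := b) (show c.1 - 1 ≤ c.1 by omega)
      obtain ⟨i, hi, h5, h6, h7⟩ := g.jump (x := c.1) (by omega)
      exact ⟨a, i, hi, h5, h7, h6, by omega⟩

/-- along a side the clockwise coordinate decreases by one, with a jump at the foot -/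
lemma hp_tp {σ : Cell × ℤ} (h : IsSide b.Q σ) :
    ((tp b σ = 0 ∧ hp b σ = Lb b - 1) ∨ (hp b σ = tp b σ - 1 ∧ 0 < tp b σ)) ∧ hp b σ < Lb b ∧
      0 ≤ hp b σ := by
  obtain ⟨c, d⟩ := σ
  have hH := g.H0
  have hX := g.X0
  obtain ⟨h1, h2⟩ := g.side_cases h
  have k0 := ks_nonneg (b := b) c.1
  have k1 := ks_le (b := b) c.1
  have kH := g.ks_hi (x := (b.X : ℤ) - 1) le_rfl
  unfold hp tp Lb
  rw [pos1, pos1]
  rcases tail_head c d with ⟨a, e1, e2, -⟩ | ⟨a, e1, e2, -⟩ | ⟨a, e1, e2, -⟩ | ⟨a, e1, e2, -⟩ <;>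
    rw [e1, e2] <;> simp only
  · -- bottom
    have h3 : c.2 = -((b.H : ℤ) + ks b c.1) := by omega
    rw [if_neg (show ¬ (c.1 = b.X) by omega), if_neg (show ¬ 0 ≤ c.2 by omega)]
    by_cases h4 : c.1 + 1 = b.X
    · rw [if_pos h4]
      have h5 : c.1 = (b.X : ℤ) - 1 := by omega
      rw [h5, kH] at h3
      omega
    · rw [if_neg h4]; omega
  · have h3 : c.1 + 1 = b.X := by omega
    rw [if_pos h3, if_pos h3]; omega
  · have h3 : c.2 = (b.H : ℤ) + ks b c.1 - 1 := by omega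
    have h6 : ¬ (c.1 = b.X) := by omega
    rw [if_neg h6, if_pos (show 0 ≤ c.2 + 1 by omega)]
    by_cases h4 : c.1 + 1 = b.X
    · rw [if_pos h4]
      have h5 : c.1 = (b.X : ℤ) - 1 := by omega
      rw [h5, kH] at h3
      omega
    · rw [if_neg h4]; omega
  · have h6 : ¬ (c.1 = b.X) := by omega
    rw [if_neg h6, if_neg h6]
    rcases h2 with h2 | h2 | h2 | h2 | ⟨-, i, hi, h3, h4, h5, h7⟩
    · omega
    · omega
    · omega
    · by_cases h7 : 0 ≤ c.2
      · rw [if_pos h7, if_pos (by omega)]; omega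
      · rw [if_neg h7]
        by_cases h8 : 0 ≤ c.2 + 1
        · rw [if_pos h8]; omega
        · rw [if_neg h8]; omega
    · have h9 := (g.lo i hi).1
      by_cases h7 : 0 ≤ c.2
      · rw [if_pos h7, if_pos (by omega)]; omega
      · rw [if_neg h7, if_neg (by omega)]; omega

end Geo

/-! ### Corners -/

lemma mark1 (c : Bool × ℕ) : b.mark 1 c = if c.1 then b.st c.2 + b.H + c.2 + 1 + b.X else
    2 * (b.X : ℤ) + 3 * (b.H + b.K) + (b.X - b.st c.2) + (b.K - c.2 - 1) := by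
  unfold JBox.mark
  split_ifs <;> ring

/-- the side before the corner `c` -/
def tipS (b : JBox) (c : Bool × ℕ) : Cell × ℤ :=
  if c.1 then ((b.st c.2, (b.H : ℤ) + c.2), 2) else ((b.st c.2, -((b.H : ℤ) + c.2) - 1), 3)

lemma hp_tipS (g : Geo b) {c : Bool × ℕ} (hc : c.2 < b.K) : hp b (tipS b c) = b.mark 1 c := by
  obtain ⟨s, i⟩ := c
  have h1 := g.lo i hc
  have hH := g.H0
  unfold hp tipS
  rw [pos1, mark1]
  cases s
  · simp only [Bool.false_eq_true, if_false]
    rcases tail_head (b.st i, -((b.H : ℤ) + i) - 1) 3 with ⟨a, -, e, -⟩ | ⟨a, -, e, -⟩ | ⟨a, -, e, -⟩ |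
      ⟨-, -, e, -⟩
    · omega
    · omega
    · omega
    · rw [e]
      simp only
      rw [if_neg (by omega), if_neg (by omega)]
      ring
  · simp only [if_true]
    rcases tail_head (b.st i, (b.H : ℤ) + i) 2 with ⟨a, -, e, -⟩ | ⟨a, -, e, -⟩ | ⟨-, -, e, -⟩ |
      ⟨a, -, e, -⟩
    · omega
    · omega
    · rw [e]
      simp only
      rw [if_neg (by omega), if_pos (by omega)]
      ring
    · omega

lemma mark_range (g : Geo b) {c : Bool × ℕ} (hc : c.2 < b.K) : 0 < b.mark 1 c ∧ b.mark 1 c < Lb b := by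
  have h1 := g.lo c.2 hc
  have hX := g.X0
  rw [mark1]
  unfold Lb
  split_ifs <;> omega

/-- the tip determines the side -/
lemma tip_unique (g : Geo b) {c : Bool × ℕ} (hc : c.2 < b.K) {σ : Cell × ℤ} (h : IsSide b.Q σ)
    (he : hp b σ = b.mark 1 c) : Eqv σ (tipS b c) := by
  obtain ⟨s, i⟩ := c
  obtain ⟨⟨x, y⟩, d⟩ := σ
  simp only at hc
  obtain ⟨s1, s2⟩ := g.ks_st hc
  have hi := g.lo i hc
  have hH := g.H0
  have hX := g.X0
  obtain ⟨h1, h2⟩ := g.side_cases h
  simp only at h1 h2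
  have k0 := ks_nonneg (b := b) x
  have k1 := ks_le (b := b) x
  have kH := g.ks_hi (x := (b.X : ℤ) - 1) le_rfl
  unfold hp at he
  rw [pos1, mark1] at he
  unfold tipS Eqv
  cases s
  · -- floor
    simp only [Bool.false_eq_true, if_false] at he ⊢
    rcases tail_head (x, y) d with ⟨a, -, e, -⟩ | ⟨a, -, e, -⟩ | ⟨a, -, e, -⟩ | ⟨a, -, e, -⟩ <;>
      rw [e] at he <;> simp only at he
    · exfalso
      have h3 : y = -((b.H : ℤ) + ks b x) := by omega
      rw [if_neg (show ¬ 0 ≤ y by omega)] at he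
      have h5 : x + ks b x = b.st i + i := by
        by_cases h4 : x + 1 = b.X
        · rw [if_pos h4] at he
          have h5 : x = (b.X : ℤ) - 1 := by omega
          rw [h5, kH] at h3
          omega
        · rw [if_neg h4] at he; omega
      rcases lt_trichotomy x (b.st i - 1) with h6 | h6 | h6
      · have := f_mono (b := b) h6; omega
      · rw [h6, s2] at h5; omega
      · rcases eq_or_lt_of_le (show b.st i ≤ x by omega) with h7 | h7
        · rw [← h7, s1] at h5; omega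
        · have := f_mono (b := b) h7; omega
    · exfalso
      rw [if_pos (by omega)] at he; omega
    · exfalso
      rw [if_neg (by omega), if_pos (by omega)] at he
      omega
    · rw [if_neg (by omega)] at he
      by_cases h7 : 0 ≤ y
      · exfalso; rw [if_pos h7] at he; omega
      · rw [if_neg h7] at he
        rcases h2 with h2 | h2 | h2 | h2 | ⟨-, j, hj, h3, h4, h5, h6⟩
        · omega
        · omega
        · omega
        · exfalso; omega
        · have h8 : x = b.st i := g.f_st hc (by omega)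
          have h9 : j = i := by rw [h8] at h4; omega
          subst h9
          refine ⟨Prod.ext h8 ?_, by omega⟩
          simp only
          omega
  · simp only [if_true] at he ⊢
    rcases tail_head (x, y) d with ⟨a, -, e, -⟩ | ⟨a, -, e, -⟩ | ⟨a, -, e, -⟩ | ⟨a, -, e, -⟩ <;>
      rw [e] at he <;> simp only at he
    · exfalso
      rw [if_neg (show ¬ 0 ≤ y by omega)] at he
      by_cases h4 : x + 1 = b.X
      · rw [if_pos h4] at he; omega
      · rw [if_neg h4] at he; omega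
    · exfalso
      rw [if_pos (by omega)] at he; omega
    · rw [if_neg (by omega), if_pos (by omega)] at he
      have h3 : y = (b.H : ℤ) + ks b x - 1 := by omega
      have h8 : x = b.st i := g.f_st hc (by omega)
      refine ⟨Prod.ext h8 ?_, by omega⟩
      simp only
      rw [h3, h8, s1]
      ring
    · exfalso
      rw [if_neg (by omega)] at he
      by_cases h7 : 0 ≤ y
      · rw [if_pos h7] at he
        rcases h2 with h2 | h2 | h2 | h2 | ⟨-, j, hj, h3, h4, h5, h6⟩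
        · omega
        · omega
        · omega
        · omega
        · -- `x + j = st i + i + 1`, `x = st j`
          obtain ⟨t1, t2⟩ := g.ks_st hj
          rcases lt_trichotomy j i with h8 | h8 | h8
          · have := g.mono j i h8 hc; omega
          · subst h8; omega
          · have := g.mono i j h8 hj
            omega
      · rw [if_neg h7] at he; omega

lemma tip_side (g : Geo b) {c : Bool × ℕ} (hc : c.2 < b.K) : IsSide b.Q (tipS b c) ∧
    nextSide b.Q (tipS b c) = ((tipS b c).1, (tipS b c).2 + 1) := by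
  obtain ⟨s, i⟩ := c
  simp only at hc
  obtain ⟨s1, s2⟩ := g.ks_st hc
  have hi := g.lo i hc
  unfold tipS IsSide nextSide
  cases s
  · simp only [Bool.false_eq_true, if_false]
    have e1 : dir (3 - 1) = (-1, 0) := rfl
    have e2 : dir 3 = (0, -1) := rfl
    rw [e1, e2]
    simp only [Prod.mk_add_mk, add_zero]
    refine ⟨⟨?_, ?_⟩, ?_⟩
    · rw [g.mem_Q]; simp only; omega
    · rw [g.mem_Q]; simp only [← sub_eq_add_neg]; omega
    · rw [if_neg, if_neg]
      · rw [g.mem_Q]; simp only; omega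
      · rw [g.mem_Q]; simp only [← sub_eq_add_neg]; omega
  · simp only [if_true]
    have e1 : dir (2 - 1) = (0, 1) := rfl
    have e2 : dir 2 = (-1, 0) := rfl
    rw [e1, e2]
    simp only [Prod.mk_add_mk, add_zero]
    refine ⟨⟨?_, ?_⟩, ?_⟩
    · rw [g.mem_Q]; simp only; omega
    · rw [g.mem_Q]; simp only; omega
    · rw [if_neg, if_neg]
      · rw [g.mem_Q]; simp only [← sub_eq_add_neg]; omega
      · rw [g.mem_Q]; simp only [← sub_eq_add_neg]; omega

lemma eqv_head {σ τ : Cell × ℤ} (h : Eqv σ τ) : head σ = head τ ∧ tail σ = tail τ := by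
  obtain ⟨c, d⟩ := σ
  obtain ⟨c', d'⟩ := τ
  obtain ⟨h1, h2⟩ := h
  simp only at h1 h2
  subst h1
  rcases tail_head c d with ⟨a, e1, e2, -⟩ | ⟨a, e1, e2, -⟩ | ⟨a, e1, e2, -⟩ | ⟨a, e1, e2, -⟩ <;>
    rcases tail_head c d' with ⟨a', e1', e2', -⟩ | ⟨a', e1', e2', -⟩ | ⟨a', e1', e2', -⟩ |
      ⟨a', e1', e2', -⟩ <;>
    first
    | (exfalso; omega)
    | (rw [e1, e2, e1', e2']; exact ⟨rfl, rfl⟩)

lemma eqv_next {σ τ : Cell × ℤ} (h : Eqv σ τ) (ht : nextSide b.Q τ = (τ.1, τ.2 + 1)) :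
    nextSide b.Q σ = (σ.1, σ.2 + 1) := by
  obtain ⟨c, d⟩ := σ
  obtain ⟨c', d'⟩ := τ
  obtain ⟨h1, h2⟩ := h
  simp only at h1 h2
  subst h1
  have e1 : dir d = dir d' := dir_congr h2
  have e2 : dir (d - 1) = dir (d' - 1) := dir_congr (by omega)
  unfold nextSide at ht ⊢
  simp only at ht ⊢
  rw [e1, e2]
  split_ifs at ht ⊢ with h3 h4
  · simp only [Prod.mk.injEq] at ht; omega
  · simp only [Prod.mk.injEq] at ht; omega
  · rfl

/-! ### Counting marks -/

/-- number of marks behind the coordinate `a` -/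
def cnt (b : JBox) (c : Fin 4 → Bool × ℕ) (a : ℤ) : ℤ :=
  (if a < b.mark 1 (c 0) then 1 else 0) + (if a < b.mark 1 (c 1) then 1 else 0) +
    (if a < b.mark 1 (c 2) then 1 else 0) + (if a < b.mark 1 (c 3) then 1 else 0)

end Pool.Agent.H50.W.JC
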