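import Mathlib
import Pool.Agent.H50.W.JSide
import Pool.Agent.H41.W.Loc

set_option autoImplicit false
open Finset

/-! # The outer layer of the junction box: coordinates of its vertices -/

namespace Pool.Agent.H50.W.JC

open Pool.Agent.H75.Perc hiding WL CT hh PB EE sh
open Pool.Agent.H75.TwoArm Pool.Agent.H75.Four Pool.Agent.H33.Q1
open Pool.Agent.Q1.M4 (Cell Good IsSide nextSide tail head Adj4 Conn4 PType Eqv dir_congr isSide_next
  head_eq_tail_next)
open Pool.Agent.H6.W

open Pool.Agent.H41.W (Tc Ni)

variable {b : JBox}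

open Geo (ks_nonneg ks_le ks_mono f_mono)

/-! ### Tiles around a vertex -/

/-- the tile of a label at the vertex `u` -/
lemma vert_tile {u q : ℤ × ℤ} (hu : IsUnit4 (q - u)) : ∃ t : ℤ × ℤ, u + q = lt t ∧
    ((tv u).1 = t.1 ∨ (tv u).1 = t.1 + 1) ∧ ((tv u).2 = t.2 ∨ (tv u).2 = t.2 + 1) := by
  obtain ⟨a, c⟩ := u
  obtain ⟨x, y⟩ := q
  have hu := unit_cases hu
  simp only at hu
  unfold tv lt
  rcases hu with ⟨h1, h2⟩ | ⟨h1, h2⟩ | ⟨h1, h2⟩ | ⟨h1, h2⟩
  · refine ⟨(a + c, c - a - 1), ?_, ?_, ?_⟩
    · refine Prod.ext ?_ ?_ <;> simp only [Prod.fst_add, Prod.snd_add] <;> omega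
    · simp
    · simp
  · refine ⟨(a + c, c - a), ?_, ?_, ?_⟩
    · refine Prod.ext ?_ ?_ <;> simp only [Prod.fst_add, Prod.snd_add] <;> omega
    · simp
    · simp
  · refine ⟨(a + c - 1, c - a), ?_, ?_, ?_⟩
    · refine Prod.ext ?_ ?_ <;> simp only [Prod.fst_add, Prod.snd_add] <;> omega
    · simp
    · simp
  · refine ⟨(a + c - 1, c - a - 1), ?_, ?_, ?_⟩
    · refine Prod.ext ?_ ?_ <;> simp only [Prod.fst_add, Prod.snd_add] <;> omega
    · simp
    · simp

/-- `p` is a corner of the tile `t` -/
def Co1 (p t : ℤ × ℤ) : Prop := (p.1 = t.1 ∨ p.1 = t.1 + 1) ∧ (p.2 = t.2 ∨ p.2 = t.2 + 1)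

/-- coordinates of the tiles of the layer -/
lemma LY_coord {n : ℤ} (hn : 0 < n) {x y d : ℤ} {t : ℤ × ℤ} (h : lt t ∈ LY n ((x, y), d)) :
    (d % 4 = 0 ∧ (x * n ≤ t.1 ∧ t.1 < x * n + n) ∧ t.2 = y * n - 1) ∨
    (d % 4 = 1 ∧ t.1 = x * n + n ∧ (y * n ≤ t.2 ∧ t.2 < y * n + n)) ∨
    (d % 4 = 2 ∧ (x * n ≤ t.1 ∧ t.1 < x * n + n) ∧ t.2 = y * n + n) ∨
    (d % 4 = 3 ∧ t.1 = x * n - 1 ∧ (y * n ≤ t.2 ∧ t.2 < y * n + n)) := by
  rw [mem_LY hn, tt_lt] at h
  obtain ⟨-, h1, h2⟩ := h
  rw [ct_eq hn] at h1 h2
  have e1 : (x + 1) * n = x * n + n := by ring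
  have e2 : (x + -1) * n = x * n - n := by ring
  have e3 : (y + 1) * n = y * n + n := by ring
  have e4 : (y + -1) * n = y * n - n := by ring
  rcases tail_head (x, y) d with ⟨a, -, -, e⟩ | ⟨a, -, -, e⟩ | ⟨a, -, -, e⟩ | ⟨a, -, -, e⟩ <;>
    simp only [e, Prod.mk_add_mk, Prod.fst_sub, Prod.snd_sub, add_zero, sub_zero, e1, e2, e3, e4,
      sub_neg_eq_add] at h1 h2
  · left; exact ⟨a, by omega, by omega⟩
  · right; left; exact ⟨a, by omega, by omega⟩
  · right; right; left; exact ⟨a, by omega, by omega⟩
  · right; right; right; exact ⟨a, by omega, by omega⟩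

/-! ### Positions -/

/-- clockwise coordinate, extended to the outer layer -/
def px (b : JBox) (n : ℤ) (p : ℤ × ℤ) : ℤ :=
  if b.X * n ≤ p.1 then 2 * (b.X * n) + 2 * ((b.H + b.K) * n) - p.2
  else if 0 ≤ p.2 then p.1 + p.2 + b.X * n
  else 3 * (b.X * n) + 4 * ((b.H + b.K) * n) - p.1 + p.2

lemma px_eq {n : ℤ} {p : ℤ × ℤ} (h : p.1 ≤ b.X * n) : b.pos n p = px b n p := by
  unfold JBox.pos px
  simp only
  by_cases h1 : p.1 = b.X * n
  · have h2 : (b.X : ℤ) * n ≤ p.1 := h1.ge
    simp only [h1, le_refl, if_true]; ring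
  · have h2 : ¬ (b.X : ℤ) * n ≤ p.1 := by omega
    simp only [h1, h2, if_false]
    split_ifs <;> ring

lemma mark_mul (n : ℤ) (c : Bool × ℕ) : b.mark n c = n * b.mark 1 c := by
  unfold JBox.mark
  split_ifs <;> ring

namespace Geo

variable (g : Geo b)
include g

/-- the coordinate of the head of a side -/
lemma hp_cases {x y d : ℤ} (h : IsSide b.Q ((x, y), d)) : (-(b.X : ℤ) ≤ x ∧ x < b.X) ∧
    ((d % 4 = 0 ∧ y = -((b.H : ℤ) + ks b x) ∧
        hp b ((x, y), d) = 3 * b.X + 4 * (b.H + b.K) - x - 1 + y) ∨
    (d % 4 = 1 ∧ (x = b.X - 1 ∧ ks b x = b.K) ∧ (-((b.H : ℤ) + b.K) ≤ y ∧ y < (b.H : ℤ) + b.K) ∧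
        hp b ((x, y), d) = 2 * b.X + 2 * (b.H + b.K) - y - 1) ∨
    (d % 4 = 2 ∧ y = (b.H : ℤ) + ks b x - 1 ∧ hp b ((x, y), d) = x + y + 1 + b.X) ∨
    (d % 4 = 3 ∧ (0 ≤ y ∧ ((x = -b.X ∧ y < b.H) ∨ ∃ i < b.K, b.st i = x ∧ ks b x = i + 1 ∧
        ks b (x - 1) = i ∧ y = (b.H : ℤ) + i)) ∧ hp b ((x, y), d) = x + y + b.X) ∨
    (d % 4 = 3 ∧ (y < 0 ∧ ((x = -b.X ∧ -(b.H : ℤ) ≤ y) ∨ ∃ i < b.K, b.st i = x ∧ ks b x = i + 1 ∧
        ks b (x - 1) = i ∧ y = -((b.H : ℤ) + i) - 1)) ∧
        hp b ((x, y), d) = 3 * b.X + 4 * (b.H + b.K) - x + y)) := by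
  have hH := g.H0
  have hX := g.X0
  obtain ⟨h1, h2⟩ := g.side_cases h
  simp only at h1 h2
  have k0 := ks_nonneg (b := b) x
  have k1 := ks_le (b := b) x
  have kH := g.ks_hi (x := (b.X : ℤ) - 1) le_rfl
  refine ⟨h1.1, ?_⟩
  unfold hp
  rw [pos1]
  rcases tail_head (x, y) d with ⟨a, -, e, -⟩ | ⟨a, -, e, -⟩ | ⟨a, -, e, -⟩ | ⟨a, -, e, -⟩ <;>
    rw [e] <;> simp only
  · left
    have h3 : y = -((b.H : ℤ) + ks b x) := by omega
    refine ⟨a, h3, ?_⟩
    rw [if_neg (show ¬ 0 ≤ y by omega)]
    by_cases h4 : x + 1 = b.X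
    · rw [if_pos h4]
      have h5 : x = (b.X : ℤ) - 1 := by omega
      rw [h5, kH] at h3
      omega
    · rw [if_neg h4]; omega
  · right; left
    refine ⟨a, by omega, ?_, ?_⟩
    · omega
    · rw [if_pos (by omega)]; omega
  · right; right; left
    refine ⟨a, by omega, ?_⟩
    rw [if_neg (by omega), if_pos (by omega)]; omega
  · right; right; right
    rw [if_neg (by omega)]
    by_cases h5 : 0 ≤ y
    · left
      rw [if_pos h5]
      refine ⟨a, ⟨h5, ?_⟩, by omega⟩
      rcases h2 with h2 | h2 | h2 | h2 | ⟨-, i, hi, h3, h4, h5, h6⟩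
      · omega
      · omega
      · omega
      · left; omega
      · right; exact ⟨i, hi, h3, h4, h5, by omega⟩
    · right
      rw [if_neg h5]
      refine ⟨a, ⟨by omega, ?_⟩, by omega⟩
      rcases h2 with h2 | h2 | h2 | h2 | ⟨-, i, hi, h3, h4, h5, h6⟩
      · omega
      · omega
      · omega
      · left; omega
      · right; exact ⟨i, hi, h3, h4, h5, by omega⟩

/-- **the vertices of the layer of a side** -/
theorem layA {n : ℤ} (hn : 0 < n) {σ : Cell × ℤ} (h : IsSide b.Q σ) {t p : ℤ × ℤ}
    (hl : lt t ∈ LY n σ) (hp' : Co1 p t) :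
    (hp b σ * n - 1 ≤ px b n p ∧ px b n p ≤ hp b σ * n + n + 1) ∨ (hp b σ = Lb b - 1 ∧ px b n p ≤ 0) := by
  obtain ⟨⟨x, y⟩, d⟩ := σ
  have hH := g.H0
  have hX := g.X0
  obtain ⟨h1, h2⟩ := g.hp_cases h
  have hc := LY_coord hn hl
  obtain ⟨q1, q2⟩ := hp'
  have k0 := ks_nonneg (b := b) x
  have kH := g.ks_hi (x := (b.X : ℤ) - 1) le_rfl
  have x1 : x * n + n ≤ b.X * n := by nlinarith
  have x0 : -(b.X * n) ≤ x * n := by nlinarith
  have Hn : n ≤ b.H * n := by nlinarith
  have Xn : n ≤ b.X * n := by nlinarith
  have Kn : 0 ≤ (b.K : ℤ) * n := by positivity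
  have TK : ((b.H : ℤ) + b.K) * n = b.H * n + b.K * n := by ring
  rcases h2 with ⟨a, e, e'⟩ | ⟨a, ⟨e, ek⟩, -, e'⟩ | ⟨a, e, e'⟩ | ⟨a, ⟨e0, -⟩, e'⟩ | ⟨a, ⟨e0, e⟩, e'⟩
  · -- floor
    have hc : (x * n ≤ t.1 ∧ t.1 < x * n + n) ∧ t.2 = y * n - 1 := by omega
    have ey : y * n = -(b.H * n) - ks b x * n := by rw [e]; ring
    have kn : 0 ≤ ks b x * n := by positivity
    have E : hp b ((x, y), d) * n = 3 * (b.X * n) + 4 * (b.H * n + b.K * n) - x * n - n + y * n := by
      rw [e']; ring
    left
    rw [E]
    unfold px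
    rw [TK]
    by_cases h3 : b.X * n ≤ p.1
    · rw [if_pos h3]
      have h4 : x * n + n = b.X * n := by omega
      have h5 : x = (b.X : ℤ) - 1 := by
        have : (x + 1) * n = b.X * n := by rw [← h4]; ring
        have := mul_right_cancel₀ hn.ne' this
        omega
      have h6 : ks b x * n = b.K * n := by rw [h5, kH]
      omega
    · rw [if_neg h3, if_neg (by omega)]
      omega
  · have hc : t.1 = x * n + n ∧ (y * n ≤ t.2 ∧ t.2 < y * n + n) := by omega
    have ex : x * n + n = b.X * n := by rw [e]; ring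
    have E : hp b ((x, y), d) * n = 2 * (b.X * n) + 2 * (b.H * n + b.K * n) - y * n - n := by
      rw [e']; ring
    left
    rw [E]
    unfold px
    rw [TK, if_pos (by omega)]
    omega
  · have hc : (x * n ≤ t.1 ∧ t.1 < x * n + n) ∧ t.2 = y * n + n := by omega
    have ey : y * n + n = b.H * n + ks b x * n := by rw [e]; ring
    have kn : 0 ≤ ks b x * n := by positivity
    have E : hp b ((x, y), d) * n = x * n + y * n + n + b.X * n := by
      rw [e']; ring
    left
    rw [E]
    unfold px
    rw [TK]
    by_cases h3 : b.X * n ≤ p.1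
    · rw [if_pos h3]
      have h4 : x * n + n = b.X * n := by omega
      have h5 : x = (b.X : ℤ) - 1 := by
        have : (x + 1) * n = b.X * n := by rw [← h4]; ring
        have := mul_right_cancel₀ hn.ne' this
        omega
      have h6 : ks b x * n = b.K * n := by rw [h5, kH]
      omega
    · rw [if_neg h3, if_pos (by omega)]
      omega
  · have hc : t.1 = x * n - 1 ∧ (y * n ≤ t.2 ∧ t.2 < y * n + n) := by omega
    have yn : 0 ≤ y * n := by positivity
    have E : hp b ((x, y), d) * n = x * n + y * n + b.X * n := by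
      rw [e']; ring
    left
    rw [E]
    unfold px
    rw [TK, if_neg (by omega), if_pos (by omega)]
    omega
  · have hxX : y = -1 → x = -b.X := by
      intro hy
      rcases e with e | ⟨i, -, -, -, -, e⟩
      · exact e.1
      · omega
    clear e
    have hc : t.1 = x * n - 1 ∧ (y * n ≤ t.2 ∧ t.2 < y * n + n) := by omega
    have yn : y * n + n ≤ 0 := by nlinarith
    have E : hp b ((x, y), d) * n = 3 * (b.X * n) + 4 * (b.H * n + b.K * n) - x * n + y * n := by
      rw [e']; ring
    unfold px
    rw [TK, if_neg (by omega)]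
    by_cases h3 : 0 ≤ p.2
    · right
      rw [if_pos h3]
      have h4 : y * n + n = 0 := by omega
      have h5 : y = -1 := by
        have : (y + 1) * n = 0 * n := by rw [zero_mul, ← h4]; ring
        have := mul_right_cancel₀ hn.ne' this
        omega
      have h6 : x = -b.X := hxX h5
      have ex : x * n = -(b.X * n) := by rw [h6]; ring
      refine ⟨?_, by omega⟩
      rw [e', h5, h6]
      unfold Lb
      ring
    · left
      rw [if_neg h3, E]
      omega

/-- a corner of the layer which touches the box lies on the side or next to a reflex corner -/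
theorem layB {n : ℤ} (hn : 2 < n) {σ : Cell × ℤ} (h : IsSide b.Q σ) {t p t' : ℤ × ℤ}
    (hl : lt t ∈ LY n σ) (hp1 : Co1 p t) (ht : ct n t' ∈ b.Q) (hp2 : Co1 p t') :
    p.1 ≤ b.X * n ∧
    ((hp b σ * n ≤ px b n p ∧ px b n p ≤ hp b σ * n + n) ∨
      (px b n p = hp b σ * n - 1 ∧ ∀ c : Bool × ℕ, c.2 < b.K → b.mark 1 c ≠ hp b σ) ∨
      (px b n p = hp b σ * n + n + 1 ∧ ∀ c : Bool × ℕ, c.2 < b.K → b.mark 1 c ≠ hp b σ + 1) ∨
      (hp b σ = Lb b - 1 ∧ px b n p = 0)) := by
  obtain ⟨⟨x, y⟩, d⟩ := σ
  have hn0 : 0 < n := by omega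
  have hH := g.H0
  have hX := g.X0
  obtain ⟨h1, h2⟩ := g.hp_cases h
  have hc := LY_coord hn0 hl
  obtain ⟨q1, q2⟩ := hp1
  obtain ⟨r1, r2⟩ := hp2
  have k0 := ks_nonneg (b := b) x
  have kH := g.ks_hi (x := (b.X : ℤ) - 1) le_rfl
  have x1 : x * n + n ≤ b.X * n := by nlinarith
  have x0 : -(b.X * n) ≤ x * n := by nlinarith
  have Hn : n ≤ b.H * n := by nlinarith
  have Xn : n ≤ b.X * n := by nlinarith
  have Kn : 0 ≤ (b.K : ℤ) * n := by positivity
  have TK : ((b.H : ℤ) + b.K) * n = b.H * n + b.K * n := by ring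
  -- the cell of the tile `t'`
  obtain ⟨⟨u, v⟩, huv⟩ : ∃ c : Cell, ct n t' = c := ⟨_, rfl⟩
  rw [huv] at ht
  have ht' := g.mem_Q.1 ht
  rw [ct_eq hn0] at huv
  simp only at huv ht'
  have uX : u * n + n ≤ b.X * n := by nlinarith [ht'.1.2]
  have hpX : p.1 ≤ b.X * n := by omega
  refine ⟨hpX, ?_⟩
  -- comparison of multiples of `n`
  have cmp : ∀ a c : ℤ, a * n < c * n + n → a ≤ c := by
    intro a c hac
    by_contra hlt
    have : c + 1 ≤ a := by omega
    nlinarith
  have cmp2 : ∀ a c : ℤ, a < c → a * n + n ≤ c * n := by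
    intro a c hac
    nlinarith
  rcases h2 with ⟨a, e, e'⟩ | ⟨a, ⟨e, ek⟩, -, e'⟩ | ⟨a, e, e'⟩ | ⟨a, ⟨e0, e⟩, e'⟩ | ⟨a, ⟨e0, e⟩, e'⟩
  · -- floor
    have hc : (x * n ≤ t.1 ∧ t.1 < x * n + n) ∧ t.2 = y * n - 1 := by omega
    have ey : y * n = -(b.H * n) - ks b x * n := by rw [e]; ring
    have kn : 0 ≤ ks b x * n := by positivity
    have E : hp b ((x, y), d) * n = 3 * (b.X * n) + 4 * (b.H * n + b.K * n) - x * n - n + y * n := by
      rw [e']; ring
    rw [E]
    by_cases hy : p.2 = y * n
    · left
      unfold px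
      rw [TK]
      by_cases h3 : b.X * n ≤ p.1
      · rw [if_pos h3]
        have h4 : x * n + n = b.X * n := by omega
        have h5 : x = (b.X : ℤ) - 1 := by
          have : (x + 1) * n = b.X * n := by rw [← h4]; ring
          have := mul_right_cancel₀ hn0.ne' this
          omega
        have h6 : ks b x * n = b.K * n := by rw [h5, kH]
        omega
      · rw [if_neg h3, if_neg (by omega)]
        omega
    · -- next to the reflex corner at the head
      right; left
      have hv : v < y := by
        by_contra hv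
        have : y * n ≤ v * n := by nlinarith [not_lt.1 hv]
        omega
      have hu : x < u := by
        by_contra hu
        have := ks_mono (b := b) (not_lt.1 hu)
        omega
      have hu2 := cmp2 x u hu
      have hpx : p.1 = x * n + n := by omega
      have h6 : ¬ b.X * n ≤ p.1 := by omega
      refine ⟨?_, ?_⟩
      · unfold px
        rw [TK, if_neg h6, if_neg (by omega)]
        omega
      · intro c hc' hm
        have := (tip_unique g hc' h hm.symm).2
        unfold tipS at this
        split_ifs at this <;> simp only at this <;> omega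
  · have hc : t.1 = x * n + n ∧ (y * n ≤ t.2 ∧ t.2 < y * n + n) := by omega
    have ex : x * n + n = b.X * n := by rw [e]; ring
    have E : hp b ((x, y), d) * n = 2 * (b.X * n) + 2 * (b.H * n + b.K * n) - y * n - n := by
      rw [e']; ring
    left
    rw [E]
    unfold px
    rw [TK, if_pos (by omega)]
    omega
  · have hc : (x * n ≤ t.1 ∧ t.1 < x * n + n) ∧ t.2 = y * n + n := by omega
    have ey : y * n + n = b.H * n + ks b x * n := by rw [e]; ring
    have kn : 0 ≤ ks b x * n := by positivity
    have E : hp b ((x, y), d) * n = x * n + y * n + n + b.X * n := by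
      rw [e']; ring
    rw [E]
    by_cases hy : p.2 = y * n + n
    · left
      unfold px
      rw [TK]
      by_cases h3 : b.X * n ≤ p.1
      · rw [if_pos h3]
        have h4 : x * n + n = b.X * n := by omega
        have h5 : x = (b.X : ℤ) - 1 := by
          have : (x + 1) * n = b.X * n := by rw [← h4]; ring
          have := mul_right_cancel₀ hn0.ne' this
          omega
        have h6 : ks b x * n = b.K * n := by rw [h5, kH]
        omega
      · rw [if_neg h3, if_pos (by omega)]
        omega
    · right; right; left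
      have hv : y < v := by
        by_contra hv
        have : v * n ≤ y * n := by nlinarith [not_lt.1 hv]
        omega
      have hu : x < u := by
        by_contra hu
        have := ks_mono (b := b) (not_lt.1 hu)
        omega
      have hu2 := cmp2 x u hu
      have hpx : p.1 = x * n + n := by omega
      have h6 : ¬ b.X * n ≤ p.1 := by omega
      have h7 : u = x + 1 := by
        have := cmp u (x + 1) (by
          have : (x + 1) * n = x * n + n := by ring
          omega)
        omega
      refine ⟨?_, ?_⟩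
      · unfold px
        rw [TK, if_neg h6, if_pos (by omega)]
        omega
      · intro c hc' hm
        -- the tail is the reflex corner of the step at `x + 1`
        subst h7
        obtain ⟨i, hi, s1, s2, s3⟩ := g.jump (x := x + 1) (by rw [add_sub_cancel_right]; omega)
        rw [add_sub_cancel_right] at s2
        rw [mark1, e'] at hm
        obtain ⟨w, j⟩ := c
        simp only at hc' hm
        cases w
        · simp only [Bool.false_eq_true, if_false] at hm
          have := (g.lo j hc').2
          have := ks_le (b := b) x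
          omega
        · simp only [if_true] at hm
          have h8 : b.st j + j + 1 = b.st i + i := by omega
          rcases lt_trichotomy i j with h9 | h9 | h9
          · have := g.mono i j h9 hc'; omega
          · subst h9; omega
          · have := g.mono j i h9 hi
            have := (g.ks_st hc').1
            have h10 := f_mono (b := b) (show b.st j < b.st i - 1 + 1 by omega)
            rcases eq_or_lt_of_le (show b.st j ≤ b.st i - 1 by omega) with h11 | h11
            · rw [h11] at this
              rw [(g.ks_st hi).2] at this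
              omega
            · have h12 := f_mono (b := b) h11
              rw [(g.ks_st hi).2] at h12
              omega
  · have he : x = -b.X ∨ (y = (b.H : ℤ) + ks b (x - 1)) := by
      rcases e with e | ⟨i, -, -, -, s3, s4⟩
      · exact Or.inl e.1
      · right; rw [s3]; exact s4
    clear e
    have hc : t.1 = x * n - 1 ∧ (y * n ≤ t.2 ∧ t.2 < y * n + n) := by omega
    have yn : 0 ≤ y * n := by positivity
    have E : hp b ((x, y), d) * n = x * n + y * n + b.X * n := by
      rw [e']; ring
    rw [E]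
    by_cases hx : p.1 = x * n
    · left
      unfold px
      rw [TK, if_neg (by omega), if_pos (by omega)]
      omega
    · right; left
      have hu : u < x := by
        by_contra hu
        have : x * n ≤ u * n := by nlinarith [not_lt.1 hu]
        omega
      rcases he with he | he
      · omega
      · have hku := ks_mono (b := b) (show u ≤ x - 1 by omega)
        have hv : v < y := by omega
        have hv2 := cmp2 v y hv
        have hpy : p.2 = y * n := by omega
        refine ⟨?_, ?_⟩
        · unfold px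
          rw [TK, if_neg (by omega), if_pos (by omega)]
          omega
        · intro c hc' hm
          have := tip_unique g hc' h hm.symm
          unfold tipS Eqv at this
          obtain ⟨w, j⟩ := c
          cases w
          · simp only [Bool.false_eq_true, if_false, Prod.mk.injEq] at this; omega
          · simp only [if_true, Prod.mk.injEq] at this; omega
  · have hxX : y = -1 → x = -b.X := by
      intro hy
      rcases e with e | ⟨i, -, -, -, -, e⟩
      · exact e.1
      · omega
    have he : x = -b.X ∨ ∃ i < b.K, b.st i = x ∧ ks b x = i + 1 ∧ ks b (x - 1) = i ∧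
        y = -((b.H : ℤ) + i) - 1 := by
      rcases e with e | e
      · exact Or.inl e.1
      · exact Or.inr e
    clear e
    have hc : t.1 = x * n - 1 ∧ (y * n ≤ t.2 ∧ t.2 < y * n + n) := by clear he; omega
    have yn : y * n + n ≤ 0 := by nlinarith
    have E : hp b ((x, y), d) * n = 3 * (b.X * n) + 4 * (b.H * n + b.K * n) - x * n + y * n := by
      rw [e']; ring
    by_cases hx : p.1 = x * n
    · clear he
      by_cases h3 : 0 ≤ p.2
      · right; right; right
        have h4 : y * n + n = 0 := by omega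
        have h5 : y = -1 := by
          have : (y + 1) * n = 0 * n := by rw [zero_mul, ← h4]; ring
          have := mul_right_cancel₀ hn0.ne' this
          omega
        have h6 : x = -b.X := hxX h5
        have ex : x * n = -(b.X * n) := by rw [h6]; ring
        refine ⟨?_, ?_⟩
        · rw [e', h5, h6]
          unfold Lb
          ring
        · unfold px
          rw [TK, if_neg (by omega), if_pos h3]
          omega
      · left
        rw [E]
        unfold px
        rw [TK, if_neg (by omega), if_neg h3]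
        omega
    · have hu : u < x := by
        clear he
        by_contra hu
        have : x * n ≤ u * n := by nlinarith [not_lt.1 hu]
        omega
      rcases he with he | ⟨i, hi, s1, s2, s3, s4⟩
      · omega
      · right; right; left
        have hku := ks_mono (b := b) (show u ≤ x - 1 by omega)
        have hv : y < v := by omega
        have hv2 := cmp2 y v hv
        have hpy : p.2 = y * n + n := by omega
        have Hi : y * n + n = -(b.H * n) - i * n := by rw [s4]; ring
        have i0 : 0 ≤ (i : ℤ) * n := by positivity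
        rw [E]
        refine ⟨?_, ?_⟩
        · unfold px
          rw [TK, if_neg (by omega), if_neg (by omega)]
          omega
        · intro c hc' hm
          rw [mark1, e'] at hm
          obtain ⟨w, j⟩ := c
          simp only at hc' hm
          cases w
          · simp only [Bool.false_eq_true, if_false] at hm
            have h8 : b.st j + j + 1 = b.st i + i := by omega
            rcases lt_trichotomy i j with h9 | h9 | h9
            · have := g.mono i j h9 hc'; omega
            · subst h9; omega
            · have := g.mono j i h9 hi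
              have := (g.ks_st hc').1
              rcases eq_or_lt_of_le (show b.st j ≤ b.st i - 1 by omega) with h11 | h11
              · rw [h11] at this
                rw [(g.ks_st hi).2] at this
                omega
              · have h12 := f_mono (b := b) h11
                rw [(g.ks_st hi).2] at h12
                omega
          · simp only [if_true] at hm
            have := (g.lo j hc').2
            omega

end Geo

end Pool.Agent.H50.W.JC
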