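import Mathlib
import Pool.Agent.H50.W.JSide
import Pool.Agent.H5.C3.T4

set_option autoImplicit false
open Finset

/-! # The junction box with four marks is a shape -/

namespace Pool.Agent.H50.W.JC

open Pool.Agent.H75.Perc (dir dir_cases)
open Pool.Agent.Q1.M4 (Cell Good IsSide nextSide tail head Adj4 Conn4 PType Eqv dir_congr isSide_next
  head_eq_tail_next)
open Pool.Agent.H6.W
open Pool.Agent.H21.FM (Shape)

variable {b : JBox}

open Geo (ks_nonneg ks_le ks_mono f_mono)

theorem exists_shape (g : Geo b) {c : Fin 4 → Bool × ℕ} (hc : ∀ j, (c j).2 < b.K)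
    (hm : StrictMono fun j => b.mark 1 (c j)) (s : ℤ) :
    ∃ S : Shape, S.P.Q = b.Q ∧ (∀ i, i < S.m2 → (s - cnt b c (hp b (S.P.side i))) % 4 = 0) ∧
      (∀ i, S.m2 ≤ i → i < S.m3 → (s + 1 - cnt b c (hp b (S.P.side i))) % 4 = 0) ∧
      (∀ i, S.m3 ≤ i → i < S.P.m → (s + 2 - cnt b c (hp b (S.P.side i))) % 4 = 0) ∧
      (∀ i, S.P.m ≤ i → i < S.P.N → (s + 3 - cnt b c (hp b (S.P.side i))) % 4 = 0) := by
  classical
  have h01 : b.mark 1 (c 0) < b.mark 1 (c 1) := hm (by decide)
  have h12 : b.mark 1 (c 1) < b.mark 1 (c 2) := hm (by decide)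
  have h23 : b.mark 1 (c 2) < b.mark 1 (c 3) := hm (by decide)
  have r0 := mark_range g (hc 0)
  have r1 := mark_range g (hc 1)
  have r2 := mark_range g (hc 2)
  have r3 := mark_range g (hc 3)
  have hinj : Function.Injective fun j => b.mark 1 (c j) := hm.injective
  obtain ⟨S, q, hQ, hq, l0, l1, l2, l3⟩ := Pool.Agent.H5.C3.shape_of (D := b.Q)
    (Lab := fun σ m => (m + s - cnt b c (hp b σ)) % 4 = 0)
    (Tip := fun σ => ∃ j, hp b σ = b.mark 1 (c j)) g.good (by
      intro σ m hσ hL
      have hn : IsSide b.Q (nextSide b.Q σ) := isSide_next hσ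
      have h1 : tp b (nextSide b.Q σ) = hp b σ := by unfold tp hp; rw [head_eq_tail_next]
      obtain ⟨h2, h3, h4⟩ := g.hp_tp hn
      obtain ⟨-, h5, h6⟩ := g.hp_tp hσ
      rw [h1] at h2
      by_cases hT : ∃ j, hp b σ = b.mark 1 (c j)
      · right
        refine ⟨hT, ?_, ?_⟩
        · obtain ⟨j, hj⟩ := hT
          exact eqv_next (tip_unique g (hc j) hσ hj) (tip_side g (hc j)).2
        · have h7 : cnt b c (hp b (nextSide b.Q σ)) = cnt b c (hp b σ) + 1 := by
            have h8 : hp b (nextSide b.Q σ) = hp b σ - 1 := by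
              rcases h2 with h2 | h2
              · obtain ⟨j, hj⟩ := hT
                have := mark_range g (hc j)
                omega
              · exact h2.1
            rw [h8]
            unfold cnt
            obtain ⟨j, hj⟩ := hT
            fin_cases j <;> simp only [Fin.zero_eta, Fin.mk_one, Fin.reduceFinMk, Fin.isValue] at hj <;>
              split_ifs <;> omega
          rw [h7]
          omega
      · left
        refine ⟨hT, ?_⟩
        push Not at hT
        have t0 := hT 0
        have t1 := hT 1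
        have t2 := hT 2
        have t3 := hT 3
        rcases h2 with h2 | h2
        · rw [h2.2]
          rw [h2.1] at hL
          unfold cnt at hL ⊢
          rw [if_pos r0.1, if_pos r1.1, if_pos r2.1, if_pos r3.1] at hL
          rw [if_neg (by omega), if_neg (by omega), if_neg (by omega), if_neg (by omega)]
          omega
        · rw [h2.1]
          unfold cnt at hL ⊢
          split_ifs at hL ⊢ <;> omega)
    (by
      rintro σ σ' h ⟨j, hj⟩
      refine ⟨j, ?_⟩
      rw [← hj]
      unfold hp
      rw [(eqv_head h).1])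
    (univ.image fun j => tipS b (c j)) (by
      rw [card_image_of_injective]
      · rfl
      · intro i j hij
        apply hinj
        show b.mark 1 (c i) = b.mark 1 (c j)
        rw [← hp_tipS g (hc i), ← hp_tipS g (hc j)]
        exact congrArg _ hij)
    (by
      intro τ hτ
      obtain ⟨j, -, rfl⟩ := mem_image.1 hτ
      exact (tip_side g (hc j)).1)
    (by
      intro τ hτ
      obtain ⟨j, -, rfl⟩ := mem_image.1 hτ
      exact ⟨j, hp_tipS g (hc j)⟩)
    (by
      intro τ hτ τ' hτ' he
      obtain ⟨j, -, rfl⟩ := mem_image.1 hτ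
      obtain ⟨j', -, rfl⟩ := mem_image.1 hτ'
      have : j = j' := by
        apply hinj
        show b.mark 1 (c j) = b.mark 1 (c j')
        rw [← hp_tipS g (hc j), ← hp_tipS g (hc j')]
        unfold hp
        rw [(eqv_head he).1]
      rw [this])
    (by
      rintro σ hσ ⟨j, hj⟩
      exact ⟨tipS b (c j), mem_image_of_mem _ (mem_univ _), tip_unique g (hc j) hσ hj⟩)
    (by
      intro σ _
      exact ⟨cnt b c (hp b σ) - s, by omega⟩)
  refine ⟨S, hQ, fun i hi => ?_, fun i h1 h2 => ?_, fun i h1 h2 => ?_, fun i h1 h2 => ?_⟩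
  · have := l0 i hi; omega
  · have := l1 i h1 h2; omega
  · have := l2 i h1 h2; omega
  · have := l3 i h1 h2; omega

end Pool.Agent.H50.W.JC
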