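import Mathlib
import Pool.Agent.H50.W.JShape
import Pool.Agent.H50.W.JLay
import Pool.Agent.H42.FM.Open
import Pool.Agent.H33.FM.Band

set_option autoImplicit false
open Finset

/-! # The crossing event of the junction box is the event `TT` of a shape -/

namespace Pool.Agent.H50.W.JC

open Pool.Agent.H75.Perc hiding WL CT hh PB EE sh
open Pool.Agent.H75.TwoArm Pool.Agent.H75.Four Pool.Agent.H33.Q1
open Pool.Agent.Q1.M4 (Cell Good IsSide nextSide tail head Adj4 Conn4 PType Eqv dir_congr isSide_next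
  head_eq_tail_next)
open Pool.Agent.H6.W
open Pool.Agent.H21.FM
open Pool.Agent.H41.W (Tc Ni)
open Pool.Agent.H42.FM (mem_W0 arc_co3 arc_co1)

variable {b : JBox}

open Geo (ks_nonneg ks_le ks_mono f_mono)

/-! ### Boundary vertices -/

/-- a vertex between a tile inside and an adjacent tile outside -/
lemma line_wv {Q : Finset Cell} {h : ℕ} (hh : 0 < h) {x t t' : ℤ × ℤ} (h1 : Co1 (tv x) t)
    (h2 : Co1 (tv x) t') (hadj : t.1 = t'.1 ∨ t.2 = t'.2) (hi : ct (2 * h) t ∈ Q)
    (ho : ct (2 * h) t' ∉ Q) : ∃ σ, IsSide Q σ ∧ ∃ j ≤ h, x = wv h σ j := by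
  have hn : (0 : ℤ) < 2 * h := by positivity
  obtain ⟨⟨u, v⟩, e⟩ : ∃ c : Cell, ct (2 * h) t = c := ⟨_, rfl⟩
  obtain ⟨⟨u', v'⟩, e'⟩ : ∃ c : Cell, ct (2 * h) t' = c := ⟨_, rfl⟩
  rw [e] at hi
  rw [e'] at ho
  rw [ct_eq hn] at e e'
  simp only at e e'
  have hne : (u, v) ≠ (u', v') := fun h => ho (h ▸ hi)
  have par : ((tv x).1 + (tv x).2) % 2 = 0 := by unfold tv; simp only; omega
  obtain ⟨a1, a2⟩ := h1
  obtain ⟨b1, b2⟩ := h2
  set p := tv x with hp
  have cmp : ∀ a c : ℤ, a * (2 * h) < c * (2 * h) + 2 * h → a ≤ c := by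
    intro a c hac
    by_contra hlt
    have : c + 1 ≤ a := by omega
    nlinarith
  have ev : ∀ a : ℤ, (a * (2 * h)) % 2 = 0 := fun a => by
    rw [show a * (2 * h) = 2 * (a * h) by ring]; omega
  have eu := ev u
  have evv := ev v
  have fin : ∀ σ : Cell × ℤ, IsSide Q σ → ∀ j : ℕ, j ≤ h →
      ((σ.2 % 4 = 0 ∧ p = (2 * h * σ.1.1 + 2 * j, 2 * h * σ.1.2)) ∨
      (σ.2 % 4 = 1 ∧ p = (2 * h * σ.1.1 + 2 * h, 2 * h * σ.1.2 + 2 * j)) ∨
      (σ.2 % 4 = 2 ∧ p = (2 * h * σ.1.1 + 2 * h - 2 * j, 2 * h * σ.1.2 + 2 * h)) ∨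
      (σ.2 % 4 = 3 ∧ p = (2 * h * σ.1.1, 2 * h * σ.1.2 + 2 * h - 2 * j))) →
      ∃ σ, IsSide Q σ ∧ ∃ j ≤ h, x = wv h σ j := by
    intro σ hσ j hj hc
    refine ⟨σ, hσ, j, hj, tv_inj ?_⟩
    rw [← hp]
    rcases pos_wv hh σ j hj with ⟨a, q⟩ | ⟨a, q⟩ | ⟨a, q⟩ | ⟨a, q⟩ <;>
      rcases hc with ⟨a', q'⟩ | ⟨a', q'⟩ | ⟨a', q'⟩ | ⟨a', q'⟩ <;>
      first
      | (exfalso; omega)
      | rw [q, q']
  rcases hadj with had | had
  · -- vertical neighbours
    have e1 : u = u' := by
      have i1 := cmp u u' (by omega)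
      have i2 := cmp u' u (by omega)
      omega
    subst e1
    have hne' : v ≠ v' := fun h => hne (by rw [h])
    by_cases hc : t'.2 < t.2
    · -- below
      have i1 : v' < v := by
        by_contra hlt
        have h5 : v ≤ v' := not_lt.1 hlt
        have h6 : v < v' := lt_of_le_of_ne h5 hne'
        have : (v + 1) * (2 * h) ≤ v' * (2 * h) := by nlinarith
        have : v * (2 * h) + 2 * h ≤ v' * (2 * h) := by linarith
        omega
      have i2 : (v' + 1) * (2 * h) ≤ v * (2 * h) := by nlinarith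
      have i2' : v' * (2 * h) + 2 * h ≤ v * (2 * h) := by linarith
      have i3 : v' = v - 1 := by
        have := cmp v (v' + 1) (by
          have : (v' + 1) * (2 * (h : ℤ)) = v' * (2 * h) + 2 * h := by ring
          omega)
        omega
      subst i3
      refine fin ((u, v), 0) ⟨hi, ?_⟩ ((p.1 - u * (2 * h)) / 2).toNat (by omega) (Or.inl ⟨rfl, ?_⟩)
      · show ((u, v) : Cell) + dir (0 - 1) ∉ Q
        have : ((u, v) : Cell) + dir (0 - 1) = (u, v - 1) := by
          have : dir (0 - 1) = (0, -1) := rfl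
          rw [this]; refine Prod.ext ?_ ?_ <;> simp <;> ring
        rw [this]; exact ho
      · refine Prod.ext ?_ ?_
        · show p.1 = 2 * h * u + 2 * ((((p.1 - u * (2 * h)) / 2).toNat : ℕ) : ℤ)
          have : 2 * (h : ℤ) * u = u * (2 * h) := by ring
          rw [this]; omega
        · show p.2 = 2 * h * v
          have : 2 * (h : ℤ) * v = v * (2 * h) := by ring
          rw [this]; omega
    · have hc2 : t.2 < t'.2 := by
        rcases lt_trichotomy t.2 t'.2 with h5 | h5 | h5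
        · exact h5
        · exfalso
          have i1 := cmp v v' (by omega)
          have i2 := cmp v' v (by omega)
          omega
        · exact absurd h5 hc
      have i1 : v < v' := by
        by_contra hlt
        have h5 : v' < v := lt_of_le_of_ne (not_lt.1 hlt) (Ne.symm hne')
        have : (v' + 1) * (2 * h) ≤ v * (2 * h) := by nlinarith
        have : v' * (2 * h) + 2 * h ≤ v * (2 * h) := by linarith
        omega
      have i2 : (v + 1) * (2 * h) ≤ v' * (2 * h) := by nlinarith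
      have i2' : v * (2 * h) + 2 * h ≤ v' * (2 * h) := by linarith
      have i3 : v' = v + 1 := by
        have := cmp v' (v + 1) (by
          have : (v + 1) * (2 * (h : ℤ)) = v * (2 * h) + 2 * h := by ring
          omega)
        omega
      subst i3
      refine fin ((u, v), 2) ⟨hi, ?_⟩ ((u * (2 * h) + 2 * h - p.1) / 2).toNat (by omega)
        (Or.inr (Or.inr (Or.inl ⟨rfl, ?_⟩)))
      · show ((u, v) : Cell) + dir (2 - 1) ∉ Q
        have : ((u, v) : Cell) + dir (2 - 1) = (u, v + 1) := by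
          have : dir (2 - 1) = (0, 1) := rfl
          rw [this]; refine Prod.ext ?_ ?_ <;> simp
        rw [this]; exact ho
      · refine Prod.ext ?_ ?_
        · show p.1 = 2 * h * u + 2 * h - 2 * ((((u * (2 * h) + 2 * h - p.1) / 2).toNat : ℕ) : ℤ)
          have : 2 * (h : ℤ) * u = u * (2 * h) := by ring
          rw [this]; omega
        · show p.2 = 2 * h * v + 2 * h
          have : 2 * (h : ℤ) * v = v * (2 * h) := by ring
          rw [this]; omega
  · have e1 : v = v' := by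
      have i1 := cmp v v' (by omega)
      have i2 := cmp v' v (by omega)
      omega
    subst e1
    have hne' : u ≠ u' := fun h => hne (by rw [h])
    by_cases hc : t'.1 < t.1
    · have i1 : u' < u := by
        by_contra hlt
        have h6 : u < u' := lt_of_le_of_ne (not_lt.1 hlt) hne'
        have : (u + 1) * (2 * h) ≤ u' * (2 * h) := by nlinarith
        have : u * (2 * h) + 2 * h ≤ u' * (2 * h) := by linarith
        omega
      have i2 : (u' + 1) * (2 * h) ≤ u * (2 * h) := by nlinarith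
      have i2' : u' * (2 * h) + 2 * h ≤ u * (2 * h) := by linarith
      have i3 : u' = u - 1 := by
        have := cmp u (u' + 1) (by
          have : (u' + 1) * (2 * (h : ℤ)) = u' * (2 * h) + 2 * h := by ring
          omega)
        omega
      subst i3
      refine fin ((u, v), 3) ⟨hi, ?_⟩ ((v * (2 * h) + 2 * h - p.2) / 2).toNat (by omega)
        (Or.inr (Or.inr (Or.inr ⟨rfl, ?_⟩)))
      · show ((u, v) : Cell) + dir (3 - 1) ∉ Q
        have : ((u, v) : Cell) + dir (3 - 1) = (u - 1, v) := by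
          have : dir (3 - 1) = (-1, 0) := rfl
          rw [this]; refine Prod.ext ?_ ?_ <;> simp; ring
        rw [this]; exact ho
      · refine Prod.ext ?_ ?_
        · show p.1 = 2 * h * u
          have : 2 * (h : ℤ) * u = u * (2 * h) := by ring
          rw [this]; omega
        · show p.2 = 2 * h * v + 2 * h - 2 * ((((v * (2 * h) + 2 * h - p.2) / 2).toNat : ℕ) : ℤ)
          have : 2 * (h : ℤ) * v = v * (2 * h) := by ring
          rw [this]; omega
    · have hc2 : t.1 < t'.1 := by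
        rcases lt_trichotomy t.1 t'.1 with h5 | h5 | h5
        · exact h5
        · exfalso
          have i1 := cmp u u' (by omega)
          have i2 := cmp u' u (by omega)
          omega
        · exact absurd h5 hc
      have i1 : u < u' := by
        by_contra hlt
        have h5 : u' < u := lt_of_le_of_ne (not_lt.1 hlt) (Ne.symm hne')
        have : (u' + 1) * (2 * h) ≤ u * (2 * h) := by nlinarith
        have : u' * (2 * h) + 2 * h ≤ u * (2 * h) := by linarith
        omega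
      have i2 : (u + 1) * (2 * h) ≤ u' * (2 * h) := by nlinarith
      have i2' : u * (2 * h) + 2 * h ≤ u' * (2 * h) := by linarith
      have i3 : u' = u + 1 := by
        have := cmp u' (u + 1) (by
          have : (u + 1) * (2 * (h : ℤ)) = u * (2 * h) + 2 * h := by ring
          omega)
        omega
      subst i3
      refine fin ((u, v), 1) ⟨hi, ?_⟩ ((p.2 - v * (2 * h)) / 2).toNat (by omega)
        (Or.inr (Or.inl ⟨rfl, ?_⟩))
      · show ((u, v) : Cell) + dir (1 - 1) ∉ Q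
        have : ((u, v) : Cell) + dir (1 - 1) = (u + 1, v) := by
          have : dir (1 - 1) = (1, 0) := rfl
          rw [this]; refine Prod.ext ?_ ?_ <;> simp
        rw [this]; exact ho
      · refine Prod.ext ?_ ?_
        · show p.1 = 2 * h * u + 2 * h
          have : 2 * (h : ℤ) * u = u * (2 * h) := by ring
          rw [this]; omega
        · show p.2 = 2 * h * v + 2 * ((((p.2 - v * (2 * h)) / 2).toNat : ℕ) : ℤ)
          have : 2 * (h : ℤ) * v = v * (2 * h) := by ring
          rw [this]; omega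

/-- a vertex which touches a label of the box -/
lemma tc_tile {Q : Finset Cell} {h : ℕ} (hh : 0 < h) {x : ℤ × ℤ} (hx : Tc (TL Q (2 * h)) x) :
    ∃ t, Co1 (tv x) t ∧ ct (2 * h) t ∈ Q := by
  obtain ⟨q, hq, hm⟩ := hx
  obtain ⟨t, e, h1, h2⟩ := vert_tile hq
  rw [e, lt_mem_TL (by positivity)] at hm
  exact ⟨t, ⟨h1, h2⟩, hm⟩

/-- **the boundary vertices** -/
theorem bd_wv {Q : Finset Cell} {h : ℕ} (hh : 0 < h) {x : ℤ × ℤ} (hT : Tc (TL Q (2 * h)) x)
    (hN : Ni (TL Q (2 * h)) x) : ∃ σ, IsSide Q σ ∧ ∃ j < h, x = wv h σ j := by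
  have hn : (0 : ℤ) < 2 * h := by positivity
  obtain ⟨t, ht, hi⟩ := tc_tile hh hT
  obtain ⟨q, hq, hm⟩ := hN
  obtain ⟨t', e, h1, h2⟩ := vert_tile hq
  rw [e, lt_mem_TL hn] at hm
  have ht' : Co1 (tv x) t' := ⟨h1, h2⟩
  have key : ∃ σ, IsSide Q σ ∧ ∃ j ≤ h, x = wv h σ j := by
    by_cases h3 : ct (2 * h) (t.1, t'.2) ∈ Q
    · exact line_wv hh (t := (t.1, t'.2)) ⟨ht.1, ht'.2⟩ ht' (Or.inr rfl) h3 hm
    · exact line_wv hh ht (t' := (t.1, t'.2)) ⟨ht.1, ht'.2⟩ (Or.inl rfl) hi h3
  obtain ⟨σ, hσ, j, hj, rfl⟩ := key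
  rcases lt_or_eq_of_le hj with h4 | h4
  · exact ⟨σ, hσ, j, h4, rfl⟩
  · subst h4
    exact ⟨nextSide Q σ, isSide_next hσ, 0, hh, wv_last _ Q σ⟩

/-- the clockwise coordinate of a vertex of a side -/
lemma px_wv (g : Geo b) {h : ℕ} (hh : 0 < h) {σ : Cell × ℤ} (hσ : IsSide b.Q σ) {j : ℕ} (hj : j ≤ h) :
    (tv (wv h σ j)).1 ≤ b.X * (2 * h) ∧
    (px b (2 * h) (tv (wv h σ j)) = hp b σ * (2 * h) + 2 * h - 2 * j ∨
      (hp b σ = Lb b - 1 ∧ j = 0 ∧ px b (2 * h) (tv (wv h σ j)) = 0)) := by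
  have hn : (0 : ℤ) < 2 * h := by positivity
  obtain ⟨⟨x, y⟩, d⟩ := σ
  have hH := g.H0
  have hX := g.X0
  obtain ⟨h1, h2⟩ := g.hp_cases hσ
  have hw := pos_wv hh ((x, y), d) j hj
  simp only at hw
  have k0 := ks_nonneg (b := b) x
  have kH := g.ks_hi (x := (b.X : ℤ) - 1) le_rfl
  obtain ⟨n, hnd⟩ : ∃ n : ℤ, n = 2 * h := ⟨_, rfl⟩
  rw [← hnd] at hn hw ⊢
  have x1 : x * n + n ≤ b.X * n := by nlinarith
  have x0 : -(b.X * n) ≤ x * n := by nlinarith
  have Hn : n ≤ b.H * n := by nlinarith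
  have Xn : n ≤ b.X * n := by nlinarith
  have Kn : 0 ≤ (b.K : ℤ) * n := by positivity
  have TK : ((b.H : ℤ) + b.K) * n = b.H * n + b.K * n := by ring
  have hj' : 2 * (j : ℤ) ≤ n := by omega
  have ex : n * x = x * n := mul_comm _ _
  have ey : n * y = y * n := mul_comm _ _
  rw [ex, ey] at hw
  rcases h2 with ⟨a, e, e'⟩ | ⟨a, ⟨e, ek⟩, -, e'⟩ | ⟨a, e, e'⟩ | ⟨a, ⟨e0, -⟩, e'⟩ | ⟨a, ⟨e0, e⟩, e'⟩
  · have hw : tv (wv h ((x, y), d) j) = (x * n + 2 * j, y * n) := by
      rcases hw with ⟨a', q⟩ | ⟨a', q⟩ | ⟨a', q⟩ | ⟨a', q⟩ <;> first | exact q | (exfalso; omega)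
    rw [hw]
    have ey : y * n = -(b.H * n) - ks b x * n := by rw [e]; ring
    have kn : 0 ≤ ks b x * n := by positivity
    have E : hp b ((x, y), d) * n = 3 * (b.X * n) + 4 * (b.H * n + b.K * n) - x * n - n + y * n := by
      rw [e']; ring
    refine ⟨by simp only; omega, Or.inl ?_⟩
    rw [E]
    unfold px
    simp only
    rw [TK]
    by_cases h3 : b.X * n ≤ x * n + 2 * j
    · rw [if_pos h3]
      have h4 : x * n + n = b.X * n := by omega
      have h5 : x = (b.X : ℤ) - 1 := by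
        have : (x + 1) * n = b.X * n := by rw [← h4]; ring
        have := mul_right_cancel₀ hn.ne' this
        omega
      have h6 : ks b x * n = b.K * n := by rw [h5, kH]
      omega
    · rw [if_neg h3, if_neg (by omega)]
      omega
  · have hw : tv (wv h ((x, y), d) j) = (x * n + n, y * n + 2 * j) := by
      rcases hw with ⟨a', q⟩ | ⟨a', q⟩ | ⟨a', q⟩ | ⟨a', q⟩ <;> first | exact q | (exfalso; omega)
    rw [hw]
    have ex : x * n + n = b.X * n := by rw [e]; ring
    have E : hp b ((x, y), d) * n = 2 * (b.X * n) + 2 * (b.H * n + b.K * n) - y * n - n := by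
      rw [e']; ring
    refine ⟨by simp only; omega, Or.inl ?_⟩
    rw [E]
    unfold px
    simp only
    rw [TK, if_pos (by omega)]
    omega
  · have hw : tv (wv h ((x, y), d) j) = (x * n + n - 2 * j, y * n + n) := by
      rcases hw with ⟨a', q⟩ | ⟨a', q⟩ | ⟨a', q⟩ | ⟨a', q⟩ <;> first | exact q | (exfalso; omega)
    rw [hw]
    have ey : y * n + n = b.H * n + ks b x * n := by rw [e]; ring
    have kn : 0 ≤ ks b x * n := by positivity
    have E : hp b ((x, y), d) * n = x * n + y * n + n + b.X * n := by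
      rw [e']; ring
    refine ⟨by simp only; omega, Or.inl ?_⟩
    rw [E]
    unfold px
    simp only
    rw [TK]
    by_cases h3 : b.X * n ≤ x * n + n - 2 * j
    · rw [if_pos h3]
      have h4 : x * n + n = b.X * n := by omega
      have h5 : x = (b.X : ℤ) - 1 := by
        have : (x + 1) * n = b.X * n := by rw [← h4]; ring
        have := mul_right_cancel₀ hn.ne' this
        omega
      have h6 : ks b x * n = b.K * n := by rw [h5, kH]
      omega
    · rw [if_neg h3, if_pos (by omega)]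
      omega
  · have hw : tv (wv h ((x, y), d) j) = (x * n, y * n + n - 2 * j) := by
      rcases hw with ⟨a', q⟩ | ⟨a', q⟩ | ⟨a', q⟩ | ⟨a', q⟩ <;> first | exact q | (exfalso; omega)
    rw [hw]
    have yn : 0 ≤ y * n := by positivity
    have E : hp b ((x, y), d) * n = x * n + y * n + b.X * n := by
      rw [e']; ring
    refine ⟨by simp only; omega, Or.inl ?_⟩
    rw [E]
    unfold px
    simp only
    rw [TK, if_neg (by omega), if_pos (by omega)]
    omega
  · have hw : tv (wv h ((x, y), d) j) = (x * n, y * n + n - 2 * j) := by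
      rcases hw with ⟨a', q⟩ | ⟨a', q⟩ | ⟨a', q⟩ | ⟨a', q⟩ <;>
        first | exact q | (exfalso; clear e; omega)
    rw [hw]
    have hxX : y = -1 → x = -b.X := by
      intro hy
      rcases e with e | ⟨i, -, -, -, -, e⟩
      · exact e.1
      · omega
    clear e
    have yn : y * n + n ≤ 0 := by nlinarith
    have E : hp b ((x, y), d) * n = 3 * (b.X * n) + 4 * (b.H * n + b.K * n) - x * n + y * n := by
      rw [e']; ring
    refine ⟨by simp only; omega, ?_⟩
    unfold px
    simp only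
    rw [TK, if_neg (by omega)]
    by_cases h3 : 0 ≤ y * n + n - 2 * j
    · right
      rw [if_pos h3]
      have h4 : y * n + n = 0 := by omega
      have h5 : y = -1 := by
        have : (y + 1) * n = 0 * n := by rw [zero_mul, ← h4]; ring
        have := mul_right_cancel₀ hn.ne' this
        omega
      have h6 : x = -b.X := hxX h5
      have ex : x * n = -(b.X * n) := by rw [h6]; ring
      refine ⟨?_, by omega, by omega⟩
      rw [e', h5, h6]
      unfold Lb
      ring
    · left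
      rw [if_neg h3, E]
      omega

/-! ### The arcs of the shape -/

/-- the shape `S` of the box with the marks `c`, wiring `w` -/
structure Sh (b : JBox) (c : Fin 4 → Bool × ℕ) (w : Bool) (S : Shape) : Prop where
  geo : Geo b
  idx : ∀ j, (c j).2 < b.K
  inc : StrictMono fun j => b.mark 1 (c j)
  Q : S.P.Q = b.Q
  a1 : ∀ i, i < S.m2 → ((if w then 0 else 1) - cnt b c (hp b (S.P.side i))) % 4 = 0
  a2 : ∀ i, S.m2 ≤ i → i < S.m3 → ((if w then 0 else 1) + 1 - cnt b c (hp b (S.P.side i))) % 4 = 0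
  a3 : ∀ i, S.m3 ≤ i → i < S.P.m → ((if w then 0 else 1) + 2 - cnt b c (hp b (S.P.side i))) % 4 = 0
  a4 : ∀ i, S.P.m ≤ i → i < S.P.N → ((if w then 0 else 1) + 3 - cnt b c (hp b (S.P.side i))) % 4 = 0

theorem exists_Sh (g : Geo b) {c : Fin 4 → Bool × ℕ} (hc : ∀ j, (c j).2 < b.K)
    (hm : StrictMono fun j => b.mark 1 (c j)) (w : Bool) : ∃ S, Sh b c w S := by
  obtain ⟨S, h1, h2, h3, h4, h5⟩ := exists_shape g hc hm (if w then 0 else 1)
  exact ⟨S, g, hc, hm, h1, h2, h3, h4, h5⟩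

/-- the sides of the wired arc II -/
def A2 (b : JBox) (c : Fin 4 → Bool × ℕ) (w : Bool) (a : ℤ) : Prop :=
  if w then b.mark 1 (c 2) ≤ a ∧ a < b.mark 1 (c 3) else b.mark 1 (c 1) ≤ a ∧ a < b.mark 1 (c 2)

/-- the sides of the wired arc IV -/
def A4' (b : JBox) (c : Fin 4 → Bool × ℕ) (w : Bool) (a : ℤ) : Prop :=
  if w then b.mark 1 (c 0) ≤ a ∧ a < b.mark 1 (c 1) else b.mark 1 (c 3) ≤ a ∨ a < b.mark 1 (c 0)

/-- the closed arc II -/
def P2 (b : JBox) (c : Fin 4 → Bool × ℕ) (w : Bool) (n p : ℤ) : Prop :=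
  if w then b.mark 1 (c 2) * n ≤ p ∧ p ≤ b.mark 1 (c 3) * n else
    b.mark 1 (c 1) * n ≤ p ∧ p ≤ b.mark 1 (c 2) * n

/-- the closed arc IV -/
def P4 (b : JBox) (c : Fin 4 → Bool × ℕ) (w : Bool) (n p : ℤ) : Prop :=
  if w then b.mark 1 (c 0) * n ≤ p ∧ p ≤ b.mark 1 (c 1) * n else
    b.mark 1 (c 3) * n ≤ p ∨ p ≤ b.mark 1 (c 0) * n

/-- the crossing event in terms of the closed arcs -/
lemma cr_iff {c : Fin 4 → Bool × ℕ} {w : Bool} {h : ℕ} {ω : Finset (ℤ × ℤ)} (hω : ω ⊆ b.B h) :
    b.Cr h w (b.mark (2 * h) (c 0)) (b.mark (2 * h) (c 1)) (b.mark (2 * h) (c 2))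
      (b.mark (2 * h) (c 3)) ω ↔
    ∃ x y, (Tc (b.B h) x ∧ Ni (b.B h) x) ∧ (Tc (b.B h) y ∧ Ni (b.B h) y) ∧
      P2 b c w (2 * h) (b.pos (2 * h) (tv x)) ∧ P4 b c w (2 * h) (b.pos (2 * h) (tv y)) ∧
      Co ω x y := by
  have e : ω ∩ b.B h = ω := inter_eq_left.2 hω
  unfold JBox.Cr P2 P4
  rw [e]
  simp only [mark_mul (2 * (h : ℤ)), mul_comm (2 * (h : ℤ)) (b.mark 1 _)]
  cases w
  · simp only [Bool.false_eq_true, if_false]
    constructor
    · rintro ⟨x, y, h1, h2, h3, h4, ⟨h5, h6⟩, h7⟩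
      exact ⟨x, y, ⟨h1, h2⟩, ⟨h3, h4⟩, h5, h6, h7⟩
    · rintro ⟨x, y, ⟨h1, h2⟩, ⟨h3, h4⟩, h5, h6, h7⟩
      exact ⟨x, y, h1, h2, h3, h4, ⟨h5, h6⟩, h7⟩
  · simp only [if_true]
    constructor
    · rintro ⟨x, y, h1, h2, h3, h4, ⟨h5, h6⟩, h7⟩
      exact ⟨y, x, ⟨h3, h4⟩, ⟨h1, h2⟩, h6, h5, h7.symm⟩
    · rintro ⟨x, y, ⟨h1, h2⟩, ⟨h3, h4⟩, h5, h6, h7⟩
      exact ⟨y, x, h3, h4, h1, h2, ⟨h6, h5⟩, h7.symm⟩

namespace Sh

variable {c : Fin 4 → Bool × ℕ} {w : Bool} {S : Shape} (D : Sh b c w S)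
include D

lemma marks : 0 < b.mark 1 (c 0) ∧ b.mark 1 (c 0) < b.mark 1 (c 1) ∧ b.mark 1 (c 1) < b.mark 1 (c 2) ∧
    b.mark 1 (c 2) < b.mark 1 (c 3) ∧ b.mark 1 (c 3) < Lb b :=
  ⟨(mark_range D.geo (D.idx 0)).1, D.inc (by decide), D.inc (by decide), D.inc (by decide),
    (mark_range D.geo (D.idx 3)).2⟩

lemma isSide (i : ℕ) : IsSide b.Q (S.P.side i) := by
  rw [← D.Q]; exact isSide_side' S.P i

lemma idx2 {i : ℕ} (hi : i < S.N) : (S.m2 ≤ i ∧ i < S.m3) ↔ A2 b c w (hp b (S.P.side i)) := by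
  obtain ⟨r0, r1, r2, r3, r4⟩ := D.marks
  have h02 := S.h02
  have h23 := S.h23
  have h34 := S.h34
  have hN : S.N = S.P.N := rfl
  have a1 := D.a1 i
  have a2 := D.a2 i
  have a3 := D.a3 i
  have a4 := D.a4 i
  unfold A2
  unfold cnt at a1 a2 a3 a4
  cases w
  · simp only [Bool.false_eq_true, if_false] at a1 a2 a3 a4 ⊢
    split_ifs at a1 a2 a3 a4 <;> omega
  · simp only [if_true] at a1 a2 a3 a4 ⊢
    split_ifs at a1 a2 a3 a4 <;> omega

lemma idx4 {i : ℕ} (hi : i < S.N) : S.m4 ≤ i ↔ A4' b c w (hp b (S.P.side i)) := by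
  obtain ⟨r0, r1, r2, r3, r4⟩ := D.marks
  have h02 := S.h02
  have h23 := S.h23
  have h34 := S.h34
  have hN : S.N = S.P.N := rfl
  have hm4 : S.m4 = S.P.m := rfl
  have a1 := D.a1 i
  have a2 := D.a2 i
  have a3 := D.a3 i
  have a4 := D.a4 i
  unfold A4'
  unfold cnt at a1 a2 a3 a4
  cases w
  · simp only [Bool.false_eq_true, if_false] at a1 a2 a3 a4 ⊢
    split_ifs at a1 a2 a3 a4 <;> omega
  · simp only [if_true] at a1 a2 a3 a4 ⊢
    split_ifs at a1 a2 a3 a4 <;> omega

/-- every side of the box is a side of the shape -/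
lemma cover {σ : Cell × ℤ} (hσ : IsSide b.Q σ) : ∃ i < S.N, Eqv (S.P.side i) σ := by
  obtain ⟨n, hn, h1, h2⟩ := S.P.all σ (by rw [D.Q]; exact hσ)
  exact ⟨n, hn, h1, h2⟩

lemma tp_succ (i : ℕ) : tp b (S.P.side (i + 1)) = hp b (S.P.side i) := by
  unfold tp hp
  rw [side_succ', head_eq_tail_next]

/-- a boundary vertex of the tail of a side with the coordinate of a mark is the vertex of this mark -/
lemma tail_eq {i j : ℕ} {a : Bool × ℕ} (ha : a.2 < b.K) (hi : tp b (S.P.side i) = b.mark 1 a)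
    (hj : tp b (S.P.side (j + 1)) = b.mark 1 a) : tail (S.P.side i) = tail (S.P.side (j + 1)) := by
  have key : ∀ m : ℕ, 0 < m → tp b (S.P.side m) = b.mark 1 a → tail (S.P.side m) = head (tipS b a) := by
    intro m hm h
    obtain ⟨m, rfl⟩ : ∃ m', m = m' + 1 := ⟨m - 1, by omega⟩
    rw [D.tp_succ] at h
    have h1 := tip_unique D.geo ha (D.isSide m) h
    rw [side_succ', head_eq_tail_next]
    exact (eqv_head h1).1
  have hN : 0 < S.P.N := (Nat.zero_le _).trans_lt S.P.hmN
  rcases Nat.eq_zero_or_pos i with h0 | h0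
  · subst h0
    have e : S.P.side S.P.N = ((S.P.side 0).1, (S.P.side 0).2 + 4) := S.P.period
    have e2 : Eqv (S.P.side S.P.N) (S.P.side 0) := by
      rw [e]; exact ⟨rfl, by simp only; omega⟩
    have h1 := key S.P.N hN (by unfold tp; rw [(eqv_head e2).2]; exact hi)
    rw [← (eqv_head e2).2, h1, key (j + 1) (by omega) hj]
  · rw [key i h0 hi, key (j + 1) (by omega) hj]

/-- the third mark -/
lemma tp3 : tp b (S.P.side S.m3) = b.mark 1 (if w then c 2 else c 1) := by
  obtain ⟨r0, r1, r2, r3, r4⟩ := D.marks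
  have h02 := S.h02
  have h23 := S.h23
  have h34 := S.h34
  have hmN := S.P.hmN
  have hm4 : S.m4 = S.P.m := rfl
  obtain ⟨m, hm⟩ : ∃ m, S.m3 = m + 1 := ⟨S.m3 - 1, by omega⟩
  have a2 := D.a2 m (by omega) (by omega)
  have a3 := D.a3 (m + 1) (by omega) (by omega)
  rw [hm, D.tp_succ]
  have h1 := (D.geo.hp_tp (D.isSide (m + 1))).1
  rw [D.tp_succ] at h1
  have h2 := (D.geo.hp_tp (D.isSide m)).2
  unfold cnt at a2 a3
  cases w
  · simp only [Bool.false_eq_true, if_false] at a2 a3 ⊢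
    split_ifs at a2 a3 <;> omega
  · simp only [if_true] at a2 a3 ⊢
    split_ifs at a2 a3 <;> omega

/-- the first mark -/
lemma tp1 : tp b (S.P.side 0) = b.mark 1 (if w then c 0 else c 3) := by
  obtain ⟨r0, r1, r2, r3, r4⟩ := D.marks
  have h02 := S.h02
  have h23 := S.h23
  have h34 := S.h34
  have hmN := S.P.hmN
  have hm4 : S.m4 = S.P.m := rfl
  have hN : S.N = S.P.N := rfl
  obtain ⟨m, hm⟩ : ∃ m, S.P.N = m + 1 := ⟨S.P.N - 1, by omega⟩
  have e : S.P.side S.P.N = ((S.P.side 0).1, (S.P.side 0).2 + 4) := S.P.period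
  have e2 : Eqv (S.P.side S.P.N) (S.P.side 0) := by
    rw [e]; exact ⟨rfl, by simp only; omega⟩
  have a4 := D.a4 m (by omega) (by omega)
  have a1 := D.a1 0 (by omega)
  have e3 : tp b (S.P.side 0) = hp b (S.P.side m) := by
    rw [← D.tp_succ, ← hm]
    unfold tp
    rw [(eqv_head e2).2]
  rw [e3]
  have h1 := (D.geo.hp_tp (D.isSide 0)).1
  rw [e3] at h1
  have h2 := (D.geo.hp_tp (D.isSide m)).2
  have h3 := (D.geo.hp_tp (D.isSide 0)).2
  unfold cnt at a4 a1
  cases w
  · simp only [Bool.false_eq_true, if_false] at a4 a1 ⊢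
    split_ifs at a4 a1 <;> omega
  · simp only [if_true] at a4 a1 ⊢
    split_ifs at a4 a1 <;> omega

lemma wv0_congr {h : ℕ} {σ τ : Cell × ℤ} (he : tail σ = tail τ) : wv h σ 0 = wv h τ 0 := by
  apply tv_inj
  rw [tv_wv, tv_wv, he]
  simp

lemma wvj_congr {h : ℕ} {σ τ : Cell × ℤ} (he : Eqv σ τ) (j : ℕ) : wv h σ j = wv h τ j := by
  obtain ⟨cc, k⟩ := σ
  obtain ⟨c', l⟩ := τ
  obtain ⟨h1, h2⟩ := he
  simp only at h1 h2
  subst h1
  exact wv_congr h (by omega) j

variable {h : ℕ} (hh : 0 < h)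
include hh

lemma EE_eq : EE S h = b.B h := by
  unfold Pool.Agent.H21.FM.EE JBox.B
  rw [D.Q]

/-- the vertices of the arc II are wired together -/
theorem co_v3 {x : ℤ × ℤ} (hT : Tc (b.B h) x) (hN : Ni (b.B h) x)
    (hp2 : P2 b c w (2 * h) (b.pos (2 * h) (tv x))) : Co (W0 S h) x (v3 S h) := by
  obtain ⟨r0, r1, r2, r3, r4⟩ := D.marks
  have hm4 : S.m4 = S.P.m := rfl
  have h23 := S.h23
  obtain ⟨σ, hσ, j, hj, rfl⟩ := bd_wv hh hT hN
  obtain ⟨q1, q2⟩ := px_wv D.geo hh hσ hj.le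
  rw [px_eq q1] at hp2
  obtain ⟨i, hi, he⟩ := D.cover hσ
  rw [← wvj_congr D he j]
  have hhp : hp b (S.P.side i) = hp b σ := by unfold hp; rw [(eqv_head he).1]
  have t3 := D.tp3
  by_cases hA : A2 b c w (hp b (S.P.side i))
  · obtain ⟨g1, g2⟩ := (D.idx2 hi).2 hA
    exact arc_co3 hh g1 g2 hj.le
  · -- the vertex of the third mark
    have h5 := (D.geo.hp_tp hσ)
    have htp : tp b (S.P.side i) = tp b σ := by unfold tp; rw [(eqv_head he).2]
    have key : ∀ α β : ℤ, 0 < α → α < β → β < Lb b → ¬ (α ≤ hp b σ ∧ hp b σ < β) →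
        α * (2 * h) ≤ px b (2 * h) (tv (wv h σ j)) → px b (2 * h) (tv (wv h σ j)) ≤ β * (2 * h) →
        j = 0 ∧ tp b σ = α := by
      intro α β hα hαβ hβ hno k1 k2
      have hz : (0 : ℤ) < 2 * h := by positivity
      rcases q2 with q2 | ⟨q2, q3, q4⟩
      · rw [q2] at k1 k2
        have hj' : (j : ℤ) < h := by exact_mod_cast hj
        have i1 : hp b σ < β := by
          by_contra hlt
          have : β * (2 * h) ≤ hp b σ * (2 * h) := by nlinarith [not_lt.1 hlt]
          omega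
        have i2 : hp b σ < α := by
          by_contra hlt
          exact hno ⟨not_lt.1 hlt, i1⟩
        have i3 : α ≤ hp b σ + 1 := by
          by_contra hlt
          have : (hp b σ + 2) * (2 * h) ≤ α * (2 * h) := by nlinarith [not_le.1 hlt]
          have e : (hp b σ + 2) * (2 * (h : ℤ)) = hp b σ * (2 * h) + 2 * (2 * h) := by ring
          omega
        have i4 : α = hp b σ + 1 := by omega
        rw [i4] at k1
        have e : (hp b σ + 1) * (2 * (h : ℤ)) = hp b σ * (2 * h) + (2 * h) := by ring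
        refine ⟨by omega, ?_⟩
        omega
      · rw [q4] at k1
        exfalso
        have : 0 < α * (2 * h) := by positivity
        omega
    have hfin : j = 0 ∧ tp b σ = b.mark 1 (if w then c 2 else c 1) := by
      rw [hhp] at hA
      unfold A2 at hA
      unfold P2 at hp2
      cases w
      · simp only [Bool.false_eq_true, if_false] at hA hp2 ⊢
        exact key _ _ (by omega) r2 (by omega) hA hp2.1 hp2.2
      · simp only [if_true] at hA hp2 ⊢
        exact key _ _ (by omega) r3 (by omega) hA hp2.1 hp2.2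
    obtain ⟨rfl, h6⟩ := hfin
    obtain ⟨m, hm⟩ : ∃ m, S.m3 = m + 1 := ⟨S.m3 - 1, by omega⟩
    have h7 : tail (S.P.side i) = tail (S.P.side S.m3) := by
      rw [hm]
      refine D.tail_eq (a := if w then c 2 else c 1) ?_ (htp.trans h6) (by rw [← hm]; exact t3)
      split_ifs
      · exact D.idx 2
      · exact D.idx 1
    unfold v3
    rw [wv0_congr D h7]
    exact Co.refl _ _

/-- the vertices of the arc IV are wired together -/
theorem co_v1 {x : ℤ × ℤ} (hT : Tc (b.B h) x) (hN : Ni (b.B h) x)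
    (hp4 : P4 b c w (2 * h) (b.pos (2 * h) (tv x))) : Co (W0 S h) x (v1 S h) := by
  obtain ⟨r0, r1, r2, r3, r4⟩ := D.marks
  have hm4 : S.m4 = S.P.m := rfl
  have hmN := S.P.hmN
  obtain ⟨σ, hσ, j, hj, rfl⟩ := bd_wv hh hT hN
  obtain ⟨q1, q2⟩ := px_wv D.geo hh hσ hj.le
  rw [px_eq q1] at hp4
  obtain ⟨i, hi, he⟩ := D.cover hσ
  rw [← wvj_congr D he j]
  have hhp : hp b (S.P.side i) = hp b σ := by unfold hp; rw [(eqv_head he).1]
  have t1 := D.tp1
  by_cases hA : A4' b c w (hp b (S.P.side i))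
  · exact arc_co1 hh ((D.idx4 hi).2 hA) hi hj.le
  · have h5 := (D.geo.hp_tp hσ)
    have htp : tp b (S.P.side i) = tp b σ := by unfold tp; rw [(eqv_head he).2]
    have hz : (0 : ℤ) < 2 * h := by positivity
    have hj' : (j : ℤ) < h := by exact_mod_cast hj
    have hfin : j = 0 ∧ tp b σ = b.mark 1 (if w then c 0 else c 3) := by
      rw [hhp] at hA
      unfold A4' at hA
      unfold P4 at hp4
      cases w
      · simp only [Bool.false_eq_true, if_false] at hA hp4 ⊢
        push Not at hA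
        rcases q2 with q2 | ⟨q2, q3, q4⟩
        · rw [q2] at hp4
          have i1 : ¬ (hp b σ * (2 * h) + 2 * h - 2 * j ≤ b.mark 1 (c 0) * (2 * h)) := by
            intro k
            have : b.mark 1 (c 0) * (2 * h) ≤ hp b σ * (2 * h) := by nlinarith [hA.2]
            omega
          have k1 := hp4.resolve_right i1
          have i3 : b.mark 1 (c 3) ≤ hp b σ + 1 := by
            by_contra hlt
            have : (hp b σ + 2) * (2 * h) ≤ b.mark 1 (c 3) * (2 * h) := by nlinarith [not_le.1 hlt]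
            have e : (hp b σ + 2) * (2 * (h : ℤ)) = hp b σ * (2 * h) + 2 * (2 * h) := by ring
            omega
          have i4 : b.mark 1 (c 3) = hp b σ + 1 := by omega
          rw [i4] at k1 ⊢
          have e : (hp b σ + 1) * (2 * (h : ℤ)) = hp b σ * (2 * h) + (2 * h) := by ring
          refine ⟨by omega, ?_⟩
          omega
        · omega
      · simp only [if_true] at hA hp4 ⊢
        rcases q2 with q2 | ⟨q2, q3, q4⟩
        · rw [q2] at hp4
          have i1 : hp b σ < b.mark 1 (c 1) := by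
            by_contra hlt
            have : b.mark 1 (c 1) * (2 * h) ≤ hp b σ * (2 * h) := by nlinarith [not_lt.1 hlt]
            omega
          have i2 : hp b σ < b.mark 1 (c 0) := by
            by_contra hlt
            exact hA ⟨not_lt.1 hlt, i1⟩
          have i3 : b.mark 1 (c 0) ≤ hp b σ + 1 := by
            by_contra hlt
            have : (hp b σ + 2) * (2 * h) ≤ b.mark 1 (c 0) * (2 * h) := by nlinarith [not_le.1 hlt]
            have e : (hp b σ + 2) * (2 * (h : ℤ)) = hp b σ * (2 * h) + 2 * (2 * h) := by ring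
            omega
          have i4 : b.mark 1 (c 0) = hp b σ + 1 := by omega
          rw [i4] at hp4 ⊢
          have e : (hp b σ + 1) * (2 * (h : ℤ)) = hp b σ * (2 * h) + (2 * h) := by ring
          refine ⟨by omega, ?_⟩
          omega
        · rw [q4] at hp4
          exfalso
          have : 0 < b.mark 1 (c 0) * (2 * h) := by positivity
          omega
    obtain ⟨rfl, h6⟩ := hfin
    obtain ⟨m, hm⟩ : ∃ m, S.P.N = m + 1 := ⟨S.P.N - 1, by omega⟩
    have e : S.P.side S.P.N = ((S.P.side 0).1, (S.P.side 0).2 + 4) := S.P.period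
    have e2 : Eqv (S.P.side S.P.N) (S.P.side 0) := by
      rw [e]; exact ⟨rfl, by simp only; omega⟩
    have h7 : tail (S.P.side i) = tail (S.P.side 0) := by
      rw [← (eqv_head e2).2, hm]
      refine D.tail_eq (a := if w then c 0 else c 3) ?_ (htp.trans h6) ?_
      · split_ifs
        · exact D.idx 0
        · exact D.idx 3
      · rw [← t1, ← hm]
        unfold tp
        rw [(eqv_head e2).2]
    unfold v1
    rw [wv0_congr D h7]
    exact Co.refl _ _

end Sh

end Pool.Agent.H50.W.JC
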