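import Mathlib
import Pool.Agent.H50.W.JTT

set_option autoImplicit false
open Finset

/-! # `TT` of the shape = crossing event `Cr` of the junction box -/

namespace Pool.Agent.H50.W.JC

open Pool.Agent.H75.Perc hiding WL CT hh PB EE sh
open Pool.Agent.H75.TwoArm Pool.Agent.H75.Four Pool.Agent.H33.Q1
open Pool.Agent.Q1.M4 (Cell Good IsSide nextSide tail head Adj4 Conn4 PType Eqv dir_congr isSide_next
  head_eq_tail_next)
open Pool.Agent.H6.W
open Pool.Agent.H21.FM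
open Pool.Agent.H41.W (Tc Ni tc_of_co)
open Pool.Agent.H42.FM (arc_co3 arc_co1 wv_next v1_N)

variable {b : JBox}

/-- neighbourhood of the arc II -/
def Z2 (b : JBox) (c : Fin 4 → Bool × ℕ) (w : Bool) (n p : ℤ) : Prop :=
  if w then b.mark 1 (c 2) * n - 1 ≤ p ∧ p ≤ b.mark 1 (c 3) * n + 1 else
    b.mark 1 (c 1) * n - 1 ≤ p ∧ p ≤ b.mark 1 (c 2) * n + 1

/-- neighbourhood of the arc IV -/
def Z4 (b : JBox) (c : Fin 4 → Bool × ℕ) (w : Bool) (n p : ℤ) : Prop :=
  if w then b.mark 1 (c 0) * n - 1 ≤ p ∧ p ≤ b.mark 1 (c 1) * n + 1 else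
    b.mark 1 (c 3) * n - 1 ≤ p ∨ p ≤ b.mark 1 (c 0) * n + 1

/-- `u` is a vertex of the layer of the arc II -/
def V2 (S : Shape) (h : ℕ) (u : ℤ × ℤ) : Prop :=
  ∃ i, (S.m2 ≤ i ∧ i < S.m3) ∧ ∃ q, IsUnit4 (q - u) ∧ u + q ∈ LY (2 * h) (S.P.side i)

/-- `u` is a vertex of the layer of the arc IV -/
def V4 (S : Shape) (h : ℕ) (u : ℤ × ℤ) : Prop :=
  ∃ i, (S.m4 ≤ i ∧ i < S.N) ∧ ∃ q, IsUnit4 (q - u) ∧ u + q ∈ LY (2 * h) (S.P.side i)

namespace Sh

variable {c : Fin 4 → Bool × ℕ} {w : Bool} {S : Shape} (D : Sh b c w S) {h : ℕ} (hh : 2 ≤ h)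
include D hh

lemma zone2 {u : ℤ × ℤ} (hu : V2 S h u) : Z2 b c w (2 * h) (px b (2 * h) (tv u)) := by
  obtain ⟨r0, r1, r2, r3, r4⟩ := D.marks
  obtain ⟨i, hi, q, hq, hl⟩ := hu
  have hn : (0 : ℤ) < 2 * h := by positivity
  have h34 := S.h34
  have hmN := S.P.hmN
  have hA := (D.idx2 (show i < S.N by show i < S.P.N; omega)).1 hi
  obtain ⟨t, e, h1, h2⟩ := vert_tile hq
  rw [e] at hl
  have hL := D.geo.layA hn (D.isSide i) hl ⟨h1, h2⟩
  set a := hp b (S.P.side i) with ha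
  have key : ∀ α β : ℤ, β < Lb b → α ≤ a → a < β →
      α * (2 * h) - 1 ≤ px b (2 * h) (tv u) ∧ px b (2 * h) (tv u) ≤ β * (2 * h) + 1 := by
    intro α β hβ k1 k2
    have e1 : α * (2 * h) ≤ a * (2 * h) := by nlinarith
    have e2 : (a + 1) * (2 * h) ≤ β * (2 * h) := by nlinarith
    have e3 : (a + 1) * (2 * (h : ℤ)) = a * (2 * h) + 2 * h := by ring
    rcases hL with hL | hL <;> omega
  unfold A2 at hA
  unfold Z2
  cases w
  · simp only [Bool.false_eq_true, if_false] at hA ⊢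
    exact key _ _ (by omega) hA.1 hA.2
  · simp only [if_true] at hA ⊢
    exact key _ _ (by omega) hA.1 hA.2

lemma zone4 {u : ℤ × ℤ} (hu : V4 S h u) : Z4 b c w (2 * h) (px b (2 * h) (tv u)) := by
  obtain ⟨r0, r1, r2, r3, r4⟩ := D.marks
  obtain ⟨i, hi, q, hq, hl⟩ := hu
  have hn : (0 : ℤ) < 2 * h := by positivity
  have hA := (D.idx4 hi.2).1 hi.1
  obtain ⟨t, e, h1, h2⟩ := vert_tile hq
  rw [e] at hl
  have hL := D.geo.layA hn (D.isSide i) hl ⟨h1, h2⟩
  set a := hp b (S.P.side i) with ha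
  have lo : ∀ α : ℤ, α ≤ a → α * (2 * h) ≤ a * (2 * h) := fun α k => by nlinarith
  have hi' : ∀ β : ℤ, a < β → a * (2 * h) + 2 * h ≤ β * (2 * h) := fun β k => by nlinarith
  unfold A4' at hA
  unfold Z4
  cases w
  · simp only [Bool.false_eq_true, if_false] at hA ⊢
    rcases hA with hA | hA
    · have := lo _ hA
      rcases hL with hL | hL
      · left; omega
      · right
        have : 0 < b.mark 1 (c 0) * (2 * h) := by positivity
        omega
    · have := hi' _ hA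
      right
      rcases hL with hL | hL
      · omega
      · have : 0 < b.mark 1 (c 0) * (2 * h) := by positivity
        omega
  · simp only [if_true] at hA ⊢
    have k1 := lo _ hA.1
    have k2 := hi' _ hA.2
    rcases hL with hL | hL <;> omega

lemma zone_disj {p : ℤ} (h2 : Z2 b c w (2 * h) p) (h4 : Z4 b c w (2 * h) p) : False := by
  obtain ⟨r0, r1, r2, r3, r4⟩ := D.marks
  have gap : ∀ α β : ℤ, α < β → α * (2 * h) + 2 * h ≤ β * (2 * h) := fun α β k => by nlinarith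
  unfold Z2 at h2
  unfold Z4 at h4
  have g01 := gap _ _ r1
  have g12 := gap _ _ r2
  have g23 := gap _ _ r3
  have hh' : (2 : ℤ) ≤ h := by exact_mod_cast hh
  cases w
  · simp only [Bool.false_eq_true, if_false] at h2 h4
    omega
  · simp only [if_true] at h2 h4
    omega

lemma touch2 {u : ℤ × ℤ} (hu : V2 S h u) (hT : Tc (b.B h) u) :
    Ni (b.B h) u ∧ P2 b c w (2 * h) (b.pos (2 * h) (tv u)) := by
  obtain ⟨r0, r1, r2, r3, r4⟩ := D.marks
  obtain ⟨i, hi, q, hq, hl⟩ := hu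
  have hn : (0 : ℤ) < 2 * h := by positivity
  have hh' : (2 : ℤ) ≤ h := by exact_mod_cast hh
  have h34 := S.h34
  have hmN := S.P.hmN
  have hA := (D.idx2 (show i < S.N by show i < S.P.N; omega)).1 hi
  obtain ⟨t', ht', hc'⟩ := tc_tile (by omega) hT
  refine ⟨⟨q, hq, fun hm => ?_⟩, ?_⟩
  · have h1 := ((mem_LY hn).1 hl).2.1
    have h2 := ((mem_TL hn).1 hm).2
    rw [h1] at h2
    exact (D.isSide i).2 h2
  obtain ⟨t, e, h1, h2⟩ := vert_tile hq
  rw [e] at hl
  obtain ⟨q1, hL⟩ := D.geo.layB (by omega) (D.isSide i) hl ⟨h1, h2⟩ hc' ht'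
  rw [px_eq q1]
  set a := hp b (S.P.side i) with ha
  have key : ∀ α β : Bool × ℕ, α.2 < b.K → β.2 < b.K → b.mark 1 β < Lb b → b.mark 1 α ≤ a →
      a < b.mark 1 β → b.mark 1 α * (2 * h) ≤ px b (2 * h) (tv u) ∧
        px b (2 * h) (tv u) ≤ b.mark 1 β * (2 * h) := by
    intro α β hα hβ hβL k1 k2
    have e1 : b.mark 1 α * (2 * h) ≤ a * (2 * h) := by nlinarith
    have e2 : a * (2 * h) + 2 * h ≤ b.mark 1 β * (2 * h) := by nlinarith
    rcases hL with hL | ⟨hL, hL'⟩ | ⟨hL, hL'⟩ | hL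
    · omega
    · have e3 : b.mark 1 α < a := lt_of_le_of_ne k1 (hL' α hα)
      have e4 : b.mark 1 α * (2 * h) + 2 * h ≤ a * (2 * h) := by nlinarith
      omega
    · have e3 : a + 1 < b.mark 1 β := lt_of_le_of_ne k2 (Ne.symm (hL' β hβ))
      have e4 : (a + 1) * (2 * h) + 2 * h ≤ b.mark 1 β * (2 * h) := by nlinarith
      have e5 : (a + 1) * (2 * (h : ℤ)) = a * (2 * h) + 2 * h := by ring
      omega
    · omega
  unfold A2 at hA
  unfold P2
  cases w
  · simp only [Bool.false_eq_true, if_false] at hA ⊢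
    exact key _ _ (D.idx 1) (D.idx 2) (by omega) hA.1 hA.2
  · simp only [if_true] at hA ⊢
    exact key _ _ (D.idx 2) (D.idx 3) (by omega) hA.1 hA.2

lemma touch4 {u : ℤ × ℤ} (hu : V4 S h u) (hT : Tc (b.B h) u) :
    Ni (b.B h) u ∧ P4 b c w (2 * h) (b.pos (2 * h) (tv u)) := by
  obtain ⟨r0, r1, r2, r3, r4⟩ := D.marks
  obtain ⟨i, hi, q, hq, hl⟩ := hu
  have hn : (0 : ℤ) < 2 * h := by positivity
  have hh' : (2 : ℤ) ≤ h := by exact_mod_cast hh
  have hA := (D.idx4 hi.2).1 hi.1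
  obtain ⟨t', ht', hc'⟩ := tc_tile (by omega) hT
  refine ⟨⟨q, hq, fun hm => ?_⟩, ?_⟩
  · have h1 := ((mem_LY hn).1 hl).2.1
    have h2 := ((mem_TL hn).1 hm).2
    rw [h1] at h2
    exact (D.isSide i).2 h2
  obtain ⟨t, e, h1, h2⟩ := vert_tile hq
  rw [e] at hl
  obtain ⟨q1, hL⟩ := D.geo.layB (by omega) (D.isSide i) hl ⟨h1, h2⟩ hc' ht'
  rw [px_eq q1]
  set a := hp b (S.P.side i) with ha
  have lo : ∀ α : Bool × ℕ, α.2 < b.K → b.mark 1 α ≤ a → a ≠ Lb b - 1 →
      b.mark 1 α * (2 * h) ≤ px b (2 * h) (tv u) := by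
    intro α hα k1 hne
    have e1 : b.mark 1 α * (2 * h) ≤ a * (2 * h) := by nlinarith
    rcases hL with hL | ⟨hL, hL'⟩ | ⟨hL, hL'⟩ | hL
    · omega
    · have e3 : b.mark 1 α < a := lt_of_le_of_ne k1 (hL' α hα)
      have e4 : b.mark 1 α * (2 * h) + 2 * h ≤ a * (2 * h) := by nlinarith
      omega
    · omega
    · exact absurd hL.1 hne
  have up : ∀ β : Bool × ℕ, β.2 < b.K → a < b.mark 1 β → b.mark 1 β < Lb b →
      px b (2 * h) (tv u) ≤ b.mark 1 β * (2 * h) := by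
    intro β hβ k2 hβL
    have e2 : a * (2 * h) + 2 * h ≤ b.mark 1 β * (2 * h) := by nlinarith
    rcases hL with hL | ⟨hL, hL'⟩ | ⟨hL, hL'⟩ | hL
    · omega
    · omega
    · have e3 : a + 1 < b.mark 1 β := lt_of_le_of_ne k2 (Ne.symm (hL' β hβ))
      have e4 : (a + 1) * (2 * h) + 2 * h ≤ b.mark 1 β * (2 * h) := by nlinarith
      have e5 : (a + 1) * (2 * (h : ℤ)) = a * (2 * h) + 2 * h := by ring
      omega
    · omega
  unfold A4' at hA
  unfold P4
  cases w
  · simp only [Bool.false_eq_true, if_false] at hA ⊢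
    rcases hA with hA | hA
    · by_cases hne : a = Lb b - 1
      · have e0 : 0 < b.mark 1 (c 0) * (2 * h) := by positivity
        rcases hL with hL | ⟨hL, hL'⟩ | ⟨hL, hL'⟩ | hL
        · left
          have e1 : b.mark 1 (c 3) * (2 * h) ≤ a * (2 * h) := by nlinarith
          omega
        · left
          have e3 : b.mark 1 (c 3) < a := lt_of_le_of_ne hA (hL' _ (D.idx 3))
          have e4 : b.mark 1 (c 3) * (2 * h) + 2 * h ≤ a * (2 * h) := by nlinarith
          omega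
        · left
          have e1 : b.mark 1 (c 3) * (2 * h) ≤ a * (2 * h) := by nlinarith
          omega
        · right; omega
      · left; exact lo _ (D.idx 3) hA hne
    · right; exact up _ (D.idx 0) hA (by omega)
  · simp only [if_true] at hA ⊢
    exact ⟨lo _ (D.idx 0) hA.1 (by omega), up _ (D.idx 1) hA.2 (by omega)⟩

lemma v3_V2 : V2 S h (v3 S h) := by
  have h23 := S.h23
  obtain ⟨m, hm⟩ : ∃ m, S.m3 = m + 1 := ⟨S.m3 - 1, by omega⟩
  refine ⟨m, by omega, wv h (S.P.side m) h + dir ((S.P.side m).2 - 1), ?_, ?_⟩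
  · unfold v3
    rw [hm, ← wv_next, add_sub_cancel_left]
    exact isUnit4_dir _
  · unfold v3
    rw [hm, ← wv_next, ← add_assoc]
    exact ly_out' (by omega) _ (by omega) le_rfl

lemma v1_V4 : V4 S h (v1 S h) := by
  have hmN := S.P.hmN
  have hm4 : S.m4 = S.P.m := rfl
  have hN : S.N = S.P.N := rfl
  obtain ⟨m, hm⟩ : ∃ m, S.P.N = m + 1 := ⟨S.P.N - 1, by omega⟩
  refine ⟨m, by omega, wv h (S.P.side m) h + dir ((S.P.side m).2 - 1), ?_, ?_⟩
  · rw [v1_N, hm, ← wv_next, add_sub_cancel_left]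
    exact isUnit4_dir _
  · rw [v1_N, hm, ← wv_next, ← add_assoc]
    exact ly_out' (by omega) _ (by omega) le_rfl

/-- **`TT` of the shape is the crossing event of the box.** -/
theorem tt_iff {ω : Finset (ℤ × ℤ)} (hω : ω ⊆ b.B h) : TT S h ω ↔
    b.Cr h w (b.mark (2 * h) (c 0)) (b.mark (2 * h) (c 1)) (b.mark (2 * h) (c 2))
      (b.mark (2 * h) (c 3)) ω := by
  rw [cr_iff hω]
  constructor
  · intro hTT
    -- a vertex of the layer IV joined to the arc II
    have fin : ∀ x u, (Tc (b.B h) x ∧ Ni (b.B h) x) → P2 b c w (2 * h) (b.pos (2 * h) (tv x)) →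
        Co ω x u → V4 S h u → ∃ x y, (Tc (b.B h) x ∧ Ni (b.B h) x) ∧ (Tc (b.B h) y ∧ Ni (b.B h) y) ∧
        P2 b c w (2 * h) (b.pos (2 * h) (tv x)) ∧ P4 b c w (2 * h) (b.pos (2 * h) (tv y)) ∧
        Co ω x y := by
      intro x u hx hx2 hxu hu
      have hT : Tc (b.B h) u := by
        by_cases hxe : x = u
        · rw [← hxe]; exact hx.1
        · obtain ⟨q, hq, hq2⟩ := tc_of_co hxu hxe
          exact ⟨q, hq, hω hq2⟩
      obtain ⟨h1, h2⟩ := D.touch4 hh hu hT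
      exact ⟨x, u, hx, ⟨hT, h1⟩, hx2, h2, hxu⟩
    have key : ∀ u, Co (ω ∪ W0 S h) (v3 S h) u →
        (∃ x y, (Tc (b.B h) x ∧ Ni (b.B h) x) ∧ (Tc (b.B h) y ∧ Ni (b.B h) y) ∧
          P2 b c w (2 * h) (b.pos (2 * h) (tv x)) ∧ P4 b c w (2 * h) (b.pos (2 * h) (tv y)) ∧
          Co ω x y) ∨
        (∃ x, (Tc (b.B h) x ∧ Ni (b.B h) x) ∧ P2 b c w (2 * h) (b.pos (2 * h) (tv x)) ∧ Co ω x u) ∨
        V2 S h u := by
      intro u hu
      induction hu with
      | refl => exact Or.inr (Or.inr (D.v3_V2 hh))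
      | @tail p r hp hpr ih =>
        rcases ih with ih | ih | ih
        · exact Or.inl ih
        · obtain ⟨x, hx, hx2, hxp⟩ := ih
          rcases mem_union.1 hpr.2 with g | g
          · exact Or.inr (Or.inl ⟨x, hx, hx2, hxp.tail ⟨hpr.1, g⟩⟩)
          · obtain ⟨i, hi, hl⟩ := Pool.Agent.H42.FM.mem_W0.1 g
            rcases hi with hi | hi
            · refine Or.inr (Or.inr ⟨i, hi, p, ?_, by rw [add_comm]; exact hl⟩)
              have := isUnit4_neg hpr.1
              rwa [neg_sub] at this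
            · exact Or.inl (fin x p hx hx2 hxp ⟨i, hi, r, hpr.1, hl⟩)
        · rcases mem_union.1 hpr.2 with g | g
          · have hT : Tc (b.B h) p := ⟨r, hpr.1, hω g⟩
            obtain ⟨h1, h2⟩ := D.touch2 hh ih hT
            exact Or.inr (Or.inl ⟨p, ⟨hT, h1⟩, h2, Relation.ReflTransGen.single ⟨hpr.1, g⟩⟩)
          · obtain ⟨i, hi, hl⟩ := Pool.Agent.H42.FM.mem_W0.1 g
            rcases hi with hi | hi
            · refine Or.inr (Or.inr ⟨i, hi, p, ?_, by rw [add_comm]; exact hl⟩)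
              have := isUnit4_neg hpr.1
              rwa [neg_sub] at this
            · exfalso
              exact D.zone_disj hh (D.zone2 hh ih) (D.zone4 hh ⟨i, hi, r, hpr.1, hl⟩)
    rcases key _ hTT with h1 | ⟨x, hx, hx2, hxp⟩ | h1
    · exact h1
    · exact fin x _ hx hx2 hxp (D.v1_V4 hh)
    · exact absurd (D.zone4 hh (D.v1_V4 hh)) (fun h => D.zone_disj hh (D.zone2 hh h1) h)
  · rintro ⟨x, y, hx, hy, h2, h4, hxy⟩
    have k2 := D.co_v3 (by omega) hx.1 hx.2 h2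
    have k4 := D.co_v1 (by omega) hy.1 hy.2 h4
    exact ((k2.symm.mono subset_union_right).trans (hxy.mono subset_union_left)).trans
      (k4.mono subset_union_right)

end Sh

end Pool.Agent.H50.W.JC
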