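import Mathlib
import Pool.Agent.H50.W.JCr
import Pool.Agent.H61.W.JWorld
import Pool.Agent.H37.W.Bridge

set_option autoImplicit false
open Finset

/-! # The world with four marks on the wall: the colours of the layer -/

namespace Pool.Agent.H50.W.JC

open Pool.Agent.H75.Perc hiding WL CT hh PB EE sh
open Pool.Agent.H75.TwoArm Pool.Agent.H75.Four Pool.Agent.H33.Q1
open Pool.Agent.Q1.M4 (Cell Good IsSide nextSide tail head Adj4 Conn4 PType Eqv dir_congr isSide_next
  head_eq_tail_next)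
open Pool.Agent.H6.W
open Pool.Agent.H21.FM
open Pool.Agent.H61.W Pool.Agent.H37.W Pool.Agent.H13.W
open Pool.Agent.H5.Q1 (oc oc_congr)

variable {b : JBox}

open Geo (ks_nonneg ks_le ks_mono f_mono)

/-- number of marks with coordinate at most `a` -/
def kp (b : JBox) (c : Fin 4 → Bool × ℕ) (a : ℤ) : ℕ :=
  (if b.mark 1 (c 0) ≤ a then 1 else 0) + (if b.mark 1 (c 1) ≤ a then 1 else 0) +
    (if b.mark 1 (c 2) ≤ a then 1 else 0) + (if b.mark 1 (c 3) ≤ a then 1 else 0)

/-- colour of the layer at the side with head coordinate `a` -/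
def colr (b : JBox) (c : Fin 4 → Bool × ℕ) (w : Bool) (a : ℤ) : Bool := !w ^^ par (kp b c a)

/-- **The wired sides are the sides of colour `true`.** -/
lemma Sh.wired_iff {c : Fin 4 → Bool × ℕ} {w : Bool} {S : Shape} (D : Sh b c w S) {i : ℕ}
    (hi : i < S.N) : S.Wd i ↔ colr b c w (hp b (S.P.side i)) = true := by
  obtain ⟨r0, r1, r2, r3, r4⟩ := D.marks
  have h1 := D.idx2 hi
  have h2 := D.idx4 hi
  have h3 : S.Wd i ↔ (A2 b c w (hp b (S.P.side i)) ∨ A4' b c w (hp b (S.P.side i))) := by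
    rw [← h1, ← h2]
    unfold Shape.Wd
    tauto
  rw [h3]
  generalize hp b (S.P.side i) = a
  unfold A2 A4' colr kp par
  rcases lt_or_ge a (b.mark 1 (c 0)) with g0 | g0
  · rw [if_neg (show ¬ b.mark 1 (c 0) ≤ a by omega), if_neg (show ¬ b.mark 1 (c 1) ≤ a by omega),
      if_neg (show ¬ b.mark 1 (c 2) ≤ a by omega), if_neg (show ¬ b.mark 1 (c 3) ≤ a by omega)]
    cases w <;> simp <;> omega
  rcases lt_or_ge a (b.mark 1 (c 1)) with g1 | g1
  · rw [if_pos (show b.mark 1 (c 0) ≤ a by omega), if_neg (show ¬ b.mark 1 (c 1) ≤ a by omega),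
      if_neg (show ¬ b.mark 1 (c 2) ≤ a by omega), if_neg (show ¬ b.mark 1 (c 3) ≤ a by omega)]
    cases w <;> simp <;> omega
  rcases lt_or_ge a (b.mark 1 (c 2)) with g2 | g2
  · rw [if_pos (show b.mark 1 (c 0) ≤ a by omega), if_pos (show b.mark 1 (c 1) ≤ a by omega),
      if_neg (show ¬ b.mark 1 (c 2) ≤ a by omega), if_neg (show ¬ b.mark 1 (c 3) ≤ a by omega)]
    cases w <;> simp <;> omega
  rcases lt_or_ge a (b.mark 1 (c 3)) with g3 | g3
  · rw [if_pos (show b.mark 1 (c 0) ≤ a by omega), if_pos (show b.mark 1 (c 1) ≤ a by omega),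
      if_pos (show b.mark 1 (c 2) ≤ a by omega), if_neg (show ¬ b.mark 1 (c 3) ≤ a by omega)]
    cases w <;> simp <;> omega
  · rw [if_pos (show b.mark 1 (c 0) ≤ a by omega), if_pos (show b.mark 1 (c 1) ≤ a by omega),
      if_pos (show b.mark 1 (c 2) ≤ a by omega), if_pos (show b.mark 1 (c 3) ≤ a by omega)]
    cases w <;> simp <;> omega

/-- the colour `v` is the colour read at the coordinate `a`, for every choice of the colours -/
def Rd (b : JBox) (cl : Cl) (a : ℤ) (v : Bool) : Prop :=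
  (∃ k ≤ b.K, v = cl.u k ∧ ∀ m : Bool × ℕ, m.2 < b.K → (b.mark 1 m ≤ a ↔ m.1 = true ∧ m.2 < k)) ∨
  (∃ y, v = cl.cr y ∧ ∀ m : Bool × ℕ, m.2 < b.K → (b.mark 1 m ≤ a ↔ m.1 = true)) ∨
  (∃ k ≤ b.K, v = cl.l k ∧ ∀ m : Bool × ℕ, m.2 < b.K → (b.mark 1 m ≤ a ↔ m.1 = true ∨ k ≤ m.2))

lemma card4 {c : Fin 4 → Bool × ℕ} (hinj : Function.Injective c) (P : Bool × ℕ → Prop)
    [DecidablePred P] : ((univ.image c).filter P).card = (if P (c 0) then 1 else 0) +
      (if P (c 1) then 1 else 0) + (if P (c 2) then 1 else 0) + (if P (c 3) then 1 else 0) := by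
  rw [filter_image, card_image_of_injective _ hinj, card_filter, Fin.sum_univ_four]

lemma par_add (m n : ℕ) : par (m + n) = (par m ^^ par n) := by
  unfold par
  rcases Nat.mod_two_eq_zero_or_one m with h1 | h1 <;> rcases Nat.mod_two_eq_zero_or_one n with h2 | h2
  · have : (m + n) % 2 = 0 := by omega
    rw [h1, h2, this]; rfl
  · have : (m + n) % 2 = 1 := by omega
    rw [h1, h2, this]; rfl
  · have : (m + n) % 2 = 1 := by omega
    rw [h1, h2, this]; rfl
  · have : (m + n) % 2 = 0 := by omega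
    rw [h1, h2, this]; rfl

/-- the colours `colM` without exit -/
lemma Rd.eq_col {c : Fin 4 → Bool × ℕ} (hc : ∀ j, (c j).2 < b.K) (hinj : Function.Injective c)
    {w : Bool} {a : ℤ} {v : Bool} (h : Rd b (colM (bs w) (univ.image c) none) a v) :
    v = colr b c w a := by
  unfold colr kp
  rcases h with ⟨k, -, hv, hm⟩ | ⟨y, hv, hm⟩ | ⟨k, -, hv, hm⟩
  · rw [hv]
    unfold colM bs
    simp only
    rw [card4 hinj]
    simp only [← hm _ (hc _)]
  · rw [hv]
    unfold colM bs
    simp only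
    rw [card4 hinj]
    simp only [← hm _ (hc _), Bool.xor_false]
  · rw [hv]
    unfold colM bs
    simp only [Option.isSome_none, Bool.xor_false]
    rw [card4 hinj, card4 hinj, Bool.xor_assoc, ← par_add]
    have key : ∀ j, (if b.mark 1 (c j) ≤ a then 1 else 0) = (if (c j).1 = true then 1 else 0) +
        (if (c j).1 = false ∧ k ≤ (c j).2 then 1 else 0) := by
      intro j
      have h1 := hm _ (hc j)
      by_cases h2 : (c j).1 = true
      · rw [if_pos (h1.2 (Or.inl h2)), if_pos h2, if_neg (by rw [h2]; simp)]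
      · have h3 : (c j).1 = false := by simpa using h2
        by_cases h4 : k ≤ (c j).2
        · rw [if_pos (h1.2 (Or.inr h4)), if_neg h2, if_pos ⟨h3, h4⟩]
        · rw [if_neg (fun h5 => (h1.1 h5).elim h2 h4), if_neg h2, if_neg (fun h5 => h4 h5.2)]
    rw [key 0, key 1, key 2, key 3]
    congr 2
    ring

/-! ### The colour of the tiles of the layer -/

/-- comparison with the marks on the ceiling -/
lemma mark_u (g : Geo b) {a x : ℤ} (h1 : x + ks b x + b.H + b.X ≤ a)
    (h2 : a < x + 1 + ks b (x + 1) + b.H + b.X) (hxX : x < b.X) :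
    ∀ m : Bool × ℕ, m.2 < b.K → (b.mark 1 m ≤ a ↔ m.1 = true ∧ m.2 < (ks b x).toNat) := by
  rintro ⟨s, i⟩ hm
  simp only at hm
  have k0 := ks_nonneg (b := b) x
  have k1 := ks_le (b := b) x
  have k2 := ks_le (b := b) (x + 1)
  have hi := g.lo i hm
  obtain ⟨s1, s2⟩ := g.ks_st (i := i) hm
  rw [mark1]
  cases s
  · simp only [Bool.false_eq_true, if_false, false_and, iff_false]
    omega
  · simp only [if_true, true_and]
    have h3 := g.ks_iff x i hm
    constructor
    · intro h
      have : b.st i ≤ x := by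
        by_contra hlt
        rcases eq_or_lt_of_le (show x + 1 ≤ b.st i by omega) with h4 | h4
        · rw [← h4] at s1; omega
        · have := f_mono (b := b) h4
          omega
      have := h3.1 this
      omega
    · intro h
      have h4 := h3.2 (by omega)
      rcases eq_or_lt_of_le h4 with h5 | h5
      · rw [h5] at s1; omega
      · have := f_mono (b := b) h5
        omega

/-- comparison with the marks on the floor -/
lemma mark_l (g : Geo b) {a x : ℤ} (h1 : x + ks b x < 3 * b.X + 4 * (b.H + b.K) - b.H - a)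
    (h2 : 3 * b.X + 4 * (b.H + b.K) - b.H - a ≤ x + 1 + ks b (x + 1)) (hxX : x < b.X) :
    ∀ m : Bool × ℕ, m.2 < b.K → (b.mark 1 m ≤ a ↔ m.1 = true ∨ (ks b x).toNat ≤ m.2) := by
  rintro ⟨s, i⟩ hm
  simp only at hm
  have k0 := ks_nonneg (b := b) x
  have k1 := ks_le (b := b) x
  have k2 := ks_le (b := b) (x + 1)
  have hi := g.lo i hm
  obtain ⟨s1, s2⟩ := g.ks_st (i := i) hm
  rw [mark1]
  cases s
  · simp only [Bool.false_eq_true, if_false, false_or]
    have h3 := g.ks_iff x i hm
    constructor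
    · intro h
      by_contra hlt
      have h4 := h3.2 (by omega)
      rcases eq_or_lt_of_le h4 with h5 | h5
      · rw [h5] at s1; omega
      · have := f_mono (b := b) h5
        omega
    · intro h
      have h4 : x + 1 ≤ b.st i := by
        by_contra hlt
        have := h3.1 (by omega)
        omega
      rcases eq_or_lt_of_le h4 with h5 | h5
      · rw [← h5] at s1; omega
      · have := f_mono (b := b) h5
        omega
  · simp only [if_true, true_or, iff_true]
    omega

/-- comparison with the marks at the right wall -/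
lemma mark_r (g : Geo b) {a : ℤ} (h1 : 2 * (b.X : ℤ) + (b.H + b.K) ≤ a)
    (h2 : a ≤ 2 * (b.X : ℤ) + 3 * (b.H + b.K)) :
    ∀ m : Bool × ℕ, m.2 < b.K → (b.mark 1 m ≤ a ↔ m.1 = true) := by
  rintro ⟨s, i⟩ hm
  simp only at hm
  have hi := g.lo i hm
  rw [mark1]
  cases s
  · simp only [Bool.false_eq_true, if_false, iff_false]; omega
  · simp only [if_true, iff_true]; omega

lemma div_eq' {n y t : ℤ} (hn : 0 < n) (h1 : y * n ≤ t) (h2 : t < y * n + n) : t / n = y := by
  apply le_antisymm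
  · exact Int.lt_add_one_iff.1 ((Int.ediv_lt_iff_lt_mul hn).2 (by linarith))
  · exact (Int.le_ediv_iff_mul_le hn).2 h1

/-- **Colour of the tiles of the layer of a side.** -/
theorem rd_side (g : Geo b) {n : ℤ} (hn : 0 < n) {σ : Cell × ℤ} (hσ : IsSide b.Q σ) {t : ℤ × ℤ}
    (hl : lt t ∈ LY n σ) (cl : Cl) : Rd b cl (hp b σ) (lcol b n cl t.1 t.2) := by
  obtain ⟨⟨x, y⟩, d⟩ := σ
  have hH := g.H0
  have hX := g.X0
  obtain ⟨h1, h2⟩ := g.hp_cases hσ
  have hc := LY_coord hn hl
  have k0 := ks_nonneg (b := b) x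
  have k1 := ks_le (b := b) x
  have k2 := ks_mono (b := b) (show x ≤ x + 1 by omega)
  have x1 : x * n + n ≤ b.X * n := by nlinarith
  unfold lcol
  rcases h2 with ⟨a, e, e'⟩ | ⟨a, ⟨e, ek⟩, ey, e'⟩ | ⟨a, e, e'⟩ | ⟨a, ⟨e0, e⟩, e'⟩ | ⟨a, ⟨e0, e⟩, e'⟩
  · have hc : (x * n ≤ t.1 ∧ t.1 < x * n + n) ∧ t.2 = y * n - 1 := by omega
    have yn : y * n ≤ 0 := by nlinarith
    rw [if_neg (by omega), if_neg (by omega)]
    have e1 : (-t.2 - 1) / n = -y := div_eq' hn (by
      have : -y * n = -(y * n) := by ring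
      omega) (by
      have : -y * n = -(y * n) := by ring
      omega)
    have e2 : min b.K ((-t.2 - 1) / n - b.H).toNat = (ks b x).toNat := by rw [e1]; omega
    rw [e2]
    exact Or.inr (Or.inr ⟨_, by omega, rfl, mark_l g (by omega) (by omega) h1.2⟩)
  · have hc : t.1 = x * n + n ∧ (y * n ≤ t.2 ∧ t.2 < y * n + n) := by omega
    have ex : x * n + n = b.X * n := by rw [e]; ring
    rw [if_pos (by omega)]
    exact Or.inr (Or.inl ⟨_, rfl, mark_r g (by omega) (by omega)⟩)
  · have hc : (x * n ≤ t.1 ∧ t.1 < x * n + n) ∧ t.2 = y * n + n := by omega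
    have yn : 0 ≤ y * n := by
      have : 0 ≤ y := by omega
      positivity
    rw [if_neg (by omega), if_pos (by omega)]
    have e1 : t.2 / n = y + 1 := div_eq' hn (by
      have : (y + 1) * n = y * n + n := by ring
      omega) (by
      have : (y + 1) * n = y * n + n := by ring
      omega)
    have e2 : min b.K (t.2 / n - b.H).toNat = (ks b x).toNat := by rw [e1]; omega
    rw [e2]
    exact Or.inl ⟨_, by omega, rfl, mark_u g (by omega) (by omega) h1.2⟩
  · have hc : t.1 = x * n - 1 ∧ (y * n ≤ t.2 ∧ t.2 < y * n + n) := by clear e; omega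
    have yn : 0 ≤ y * n := by positivity
    rw [if_neg (by clear e; omega), if_pos (by clear e; omega)]
    have e1 : t.2 / n = y := div_eq' hn hc.2.1 hc.2.2
    rw [e1]
    rcases e with ⟨e, e3⟩ | ⟨i, hi, s1, s2, s3, s4⟩
    · have e2 : min b.K (y - b.H : ℤ).toNat = 0 := by omega
      rw [e2]
      refine Or.inl ⟨0, by omega, rfl, ?_⟩
      rintro ⟨s, i⟩ hm
      simp only at hm
      have hi := g.lo i hm
      rw [mark1]
      cases s
      · simp only [Bool.false_eq_true, if_false, false_and, iff_false]; omega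
      · simp only [if_true, true_and, Nat.not_lt_zero, iff_false]; omega
    · have e2 : min b.K (y - b.H : ℤ).toNat = (ks b (x - 1)).toNat := by
        have : i ≤ b.K := hi.le
        omega
      rw [e2]
      refine Or.inl ⟨_, by omega, rfl, mark_u g (by omega) ?_ (by omega)⟩
      rw [sub_add_cancel]
      omega
  · have hc : t.1 = x * n - 1 ∧ (y * n ≤ t.2 ∧ t.2 < y * n + n) := by clear e; omega
    have yn : y * n + n ≤ 0 := by nlinarith
    rw [if_neg (by clear e; omega), if_neg (by clear e; omega)]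
    have e1 : (-t.2 - 1) / n = -y - 1 := div_eq' hn (by
      have : (-y - 1) * n = -(y * n) - n := by ring
      clear e; omega) (by
      have : (-y - 1) * n = -(y * n) - n := by ring
      clear e; omega)
    rw [e1]
    rcases e with ⟨e, e3⟩ | ⟨i, hi, s1, s2, s3, s4⟩
    · have e2 : min b.K (-y - 1 - b.H : ℤ).toNat = 0 := by omega
      rw [e2]
      refine Or.inr (Or.inr ⟨0, by omega, rfl, ?_⟩)
      rintro ⟨s, i⟩ hm
      simp only at hm
      have hi := g.lo i hm
      rw [mark1]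
      cases s
      · simp only [Bool.false_eq_true, if_false, false_or, Nat.zero_le, iff_true]; omega
      · simp only [if_true, true_or, iff_true]; omega
    · have e2 : min b.K (-y - 1 - b.H : ℤ).toNat = (ks b (x - 1)).toNat := by
        have : i ≤ b.K := hi.le
        omega
      rw [e2]
      refine Or.inr (Or.inr ⟨_, by omega, rfl, mark_l g (by omega) ?_ (by omega)⟩)
      rw [sub_add_cancel]
      omega

/-- the diagonal tile at the head of a side -/
def dt (n : ℤ) (σ : Cell × ℤ) : ℤ × ℤ := ot n σ n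

lemma dt_cases (n x y d : ℤ) : (d % 4 = 0 ∧ dt n ((x, y), d) = (x * n + n, y * n - 1)) ∨
    (d % 4 = 1 ∧ dt n ((x, y), d) = (x * n + n, y * n + n)) ∨
    (d % 4 = 2 ∧ dt n ((x, y), d) = (x * n - 1, y * n + n)) ∨
    (d % 4 = 3 ∧ dt n ((x, y), d) = (x * n - 1, y * n - 1)) := by
  unfold dt ot it wp
  rw [tail_io]
  rcases io_dir d with ⟨a, b, c, e⟩ | ⟨a, b, c, e⟩ | ⟨a, b, c, e⟩ | ⟨a, b, c, e⟩
  · left
    refine ⟨a, ?_⟩
    simp only [b, c, e]
    refine Prod.ext ?_ ?_ <;> simp <;> ring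
  · right; left
    refine ⟨a, ?_⟩
    simp only [b, c, e]
    refine Prod.ext ?_ ?_ <;> simp <;> ring
  · right; right; left
    refine ⟨a, ?_⟩
    simp only [b, c, e]
    refine Prod.ext ?_ ?_ <;> simp <;> ring
  · right; right; right
    refine ⟨a, ?_⟩
    simp only [b, c, e]
    refine Prod.ext ?_ ?_ <;> simp <;> ring

/-- **Colour of the diagonal tile at a convex corner.** -/
theorem rd_diag (g : Geo b) {n : ℤ} (hn : 1 < n) {σ : Cell × ℤ} (hσ : IsSide b.Q σ)
    (hcv : nextSide b.Q σ = (σ.1, σ.2 + 1)) (cl : Cl) :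
    Rd b cl (hp b σ) (lcol b n cl (dt n σ).1 (dt n σ).2) ∨
    Rd b cl (hp b (nextSide b.Q σ)) (lcol b n cl (dt n σ).1 (dt n σ).2) := by
  have hn0 : 0 < n := by omega
  have hτ := isSide_next hσ
  obtain ⟨⟨x, y⟩, d⟩ := σ
  rw [hcv] at hτ ⊢
  simp only at hτ ⊢
  have hH := g.H0
  obtain ⟨h1, h2⟩ := g.hp_cases hσ
  obtain ⟨-, h2'⟩ := g.hp_cases hτ
  have k0 := ks_nonneg (b := b) x
  have k1 := ks_le (b := b) x
  have k2 := ks_mono (b := b) (show x ≤ x + 1 by omega)
  have x1 : x * n + n ≤ b.X * n := by nlinarith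
  rcases dt_cases n x y d with ⟨a, e⟩ | ⟨a, e⟩ | ⟨a, e⟩ | ⟨a, e⟩ <;> rw [e] <;> unfold lcol <;>
    simp only
  · -- bottom side, then right wall
    right
    obtain ⟨hx, hy, hhp⟩ : x = b.X - 1 ∧ (-((b.H : ℤ) + b.K) ≤ y ∧ y < (b.H : ℤ) + b.K) ∧
        hp b ((x, y), d + 1) = 2 * b.X + 2 * (b.H + b.K) - y - 1 := by
      rcases h2' with h | h | h | ⟨h, -⟩ | ⟨h, -⟩
      · omega
      · exact ⟨h.2.1.1, h.2.2.1, h.2.2.2⟩
      · omega
      · omega
      · omega
    have ex : x * n + n = b.X * n := by rw [hx]; ring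
    rw [if_pos (by omega)]
    exact Or.inr (Or.inl ⟨_, rfl, mark_r g (by omega) (by omega)⟩)
  · left
    obtain ⟨hx, hy, hhp⟩ : x = b.X - 1 ∧ (-((b.H : ℤ) + b.K) ≤ y ∧ y < (b.H : ℤ) + b.K) ∧
        hp b ((x, y), d) = 2 * b.X + 2 * (b.H + b.K) - y - 1 := by
      rcases h2 with h | h | h | ⟨h, -⟩ | ⟨h, -⟩
      · omega
      · exact ⟨h.2.1.1, h.2.2.1, h.2.2.2⟩
      · omega
      · omega
      · omega
    have ex : x * n + n = b.X * n := by rw [hx]; ring
    rw [if_pos (by omega)]
    exact Or.inr (Or.inl ⟨_, rfl, mark_r g (by omega) (by omega)⟩)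
  · left
    obtain ⟨hy, hhp⟩ : y = (b.H : ℤ) + ks b x - 1 ∧ hp b ((x, y), d) = x + y + 1 + b.X := by
      rcases h2 with h | h | h | ⟨h, -⟩ | ⟨h, -⟩
      · omega
      · omega
      · exact h.2
      · omega
      · omega
    have yn : 0 ≤ y * n := by
      have : 0 ≤ y := by omega
      positivity
    clear h2 h2'
    rw [if_neg (by omega), if_pos (by omega)]
    have e1 : (y * n + n) / n = y + 1 := div_eq' hn0 (by
      have : (y + 1) * n = y * n + n := by ring
      omega) (by
      have : (y + 1) * n = y * n + n := by ring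
      omega)
    have e2 : min b.K ((y * n + n) / n - b.H).toNat = (ks b x).toNat := by rw [e1]; omega
    rw [e2]
    exact Or.inl ⟨_, by omega, rfl, mark_u g (by omega) (by omega) h1.2⟩
  · right
    obtain ⟨hy, hhp⟩ : y = -((b.H : ℤ) + ks b x) ∧
        hp b ((x, y), d + 1) = 3 * b.X + 4 * (b.H + b.K) - x - 1 + y := by
      rcases h2' with h | h | h | ⟨h, -⟩ | ⟨h, -⟩
      · exact h.2
      · omega
      · omega
      · omega
      · omega
    have yn : y * n ≤ 0 := by nlinarith
    clear h2 h2'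
    rw [if_neg (by omega), if_neg (by omega)]
    have e1 : (-(y * n - 1) - 1) / n = -y := div_eq' hn0 (by
      have : -y * n = -(y * n) := by ring
      omega) (by
      have : -y * n = -(y * n) := by ring
      omega)
    have e2 : min b.K ((-(y * n - 1) - 1) / n - b.H).toNat = (ks b x).toNat := by rw [e1]; omega
    rw [e2]
    exact Or.inr (Or.inr ⟨_, by omega, rfl, mark_l g (by omega) (by omega) h1.2⟩)

end Pool.Agent.H50.W.JC
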