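import Mathlib
import Pool.Agent.H50.W.JWall
import Pool.Agent.H37.W.Bridge
import Pool.Agent.H33.FM.Three

set_option autoImplicit false
open Finset

/-! # The world with four marks on the wall is a configuration of the shape -/

namespace Pool.Agent.H50.W.JC

open Pool.Agent.H75.Perc hiding WL CT hh PB EE sh
open Pool.Agent.H75.TwoArm Pool.Agent.H75.Four Pool.Agent.H33.Q1
open Pool.Agent.Q1.M4 (Cell Good IsSide nextSide tail head Adj4 Conn4 PType Eqv dir_congr isSide_next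
  head_eq_tail_next)
open Pool.Agent.H6.W
open Pool.Agent.H21.FM
open Pool.Agent.H61.W Pool.Agent.H37.W Pool.Agent.H13.W Pool.Agent.H99.W
open Pool.Agent.H5.Q1 (oc oc_congr oc_cases oc_inj)

variable {b : JBox}

open Geo (ks_nonneg ks_le ks_mono f_mono)

/-! ### The corners at a mark -/

lemma f1_oc {n : ℤ} {c : Bool × ℕ} {v : ℤ × ℤ} (hv : tv v = cpt b n c) :
    f1 b n c = oc v (if c.1 then 3 else 1) := by
  obtain ⟨s, i⟩ := c
  have h1 := congrArg Prod.fst hv
  have h2 := congrArg Prod.snd hv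
  unfold tv cpt at h1 h2
  unfold f1 dgt eE lt cpt oc
  cases s
  · simp only [Bool.false_eq_true, if_false] at h1 h2 ⊢
    refine Prod.ext ?_ ?_ <;> simp <;> omega
  · simp only [if_true] at h1 h2 ⊢
    refine Prod.ext ?_ ?_ <;> simp <;> omega

lemma f2_oc {n : ℤ} {c : Bool × ℕ} {v : ℤ × ℤ} (hv : tv v = cpt b n c) :
    f2 b n c = oc v 0 := by
  obtain ⟨s, i⟩ := c
  have h1 := congrArg Prod.fst hv
  have h2 := congrArg Prod.snd hv
  unfold tv cpt at h1 h2
  unfold f2 dgt eS eN lt cpt oc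
  cases s
  · simp only [Bool.false_eq_true, if_false] at h1 h2 ⊢
    refine Prod.ext ?_ ?_ <;> simp <;> omega
  · simp only [if_true] at h1 h2 ⊢
    refine Prod.ext ?_ ?_ <;> simp <;> omega

/-- the tip determines the mark -/
lemma cpt_inj {n : ℤ} (hn : 0 < n) {c d : Bool × ℕ} (h : cpt b n c = cpt b n d) : c = d := by
  obtain ⟨s, i⟩ := c
  obtain ⟨t, j⟩ := d
  have h2 := congrArg Prod.snd h
  unfold cpt at h2
  have key : ∀ a b : ℤ, a * n = b * n → a = b := fun a b e => mul_right_cancel₀ hn.ne' e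
  cases s <;> cases t <;> simp only [Bool.false_eq_true, if_false, if_true] at h2
  · have := key _ _ (neg_injective h2)
    have : i = j := by omega
    rw [this]
  · have := key (-((b.H : ℤ) + i + 1)) ((b.H : ℤ) + j + 1) (by rw [← h2]; ring)
    omega
  · have := key ((b.H : ℤ) + i + 1) (-((b.H : ℤ) + j + 1)) (by rw [h2]; ring)
    omega
  · have := key _ _ h2
    have : i = j := by omega
    rw [this]

/-- the vertex of the frame at a corner -/
lemma exists_cpt (h : ℕ) (c : Bool × ℕ) : ∃ v : ℤ × ℤ, tv v = cpt b (2 * h) c := by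
  obtain ⟨s, i⟩ := c
  unfold tv cpt
  cases s
  · refine ⟨(h * (b.st i + (b.H + i + 1)), h * (b.st i - (b.H + i + 1))), ?_⟩
    simp only [Bool.false_eq_true, if_false]
    refine Prod.ext ?_ ?_ <;> simp only <;> ring
  · refine ⟨(h * (b.st i - (b.H + i + 1)), h * (b.st i + (b.H + i + 1))), ?_⟩
    simp only [if_true]
    refine Prod.ext ?_ ?_ <;> simp only <;> ring

lemma f1_ne_f2 (n : ℤ) (c : Bool × ℕ) : f1 b n c ≠ f2 b n c := by
  unfold f1 f2 eE eS eN
  intro h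
  have h1 := congrArg Prod.fst h
  have h2 := congrArg Prod.snd h
  split_ifs at h1 h2
  · simp only at h2
    omega
  · simp only at h1
    omega

/-- corners at different marks are different -/
lemma f_ne {h : ℕ} (hh : 0 < h) {c d : Bool × ℕ} (hcd : c ≠ d) {x y : ℤ × ℤ}
    (hx : x = f1 b (2 * h) c ∨ x = f2 b (2 * h) c) (hy : y = f1 b (2 * h) d ∨ y = f2 b (2 * h) d) :
    x ≠ y := by
  obtain ⟨v, hv⟩ := exists_cpt (b := b) h c
  obtain ⟨u, hu⟩ := exists_cpt (b := b) h d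
  rintro rfl
  have e1 : ∃ k, x = oc v k := by
    rcases hx with e | e
    · exact ⟨_, e.trans (f1_oc hv)⟩
    · exact ⟨_, e.trans (f2_oc hv)⟩
  have e2 : ∃ k, x = oc u k := by
    rcases hy with e | e
    · exact ⟨_, e.trans (f1_oc hu)⟩
    · exact ⟨_, e.trans (f2_oc hu)⟩
  obtain ⟨k, e1⟩ := e1
  obtain ⟨l, e2⟩ := e2
  have e3 := (oc_inj (e1.symm.trans e2)).1
  subst e3
  exact hcd (cpt_inj (n := 2 * h) (by omega) (hv.symm.trans hu))

/-- the corners at a mark of `M` are ends of the strand graph -/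
lemma f_end {h : ℕ} {M : Finset (Bool × ℕ)} {c : Bool × ℕ} (hc : c ∈ M)
    (hQ : ¬ InQ b (2 * h) (dgt b (2 * h) c).1 (dgt b (2 * h) c).2) {D : Set (ℤ × ℤ)}
    {w : Finset (ℤ × ℤ)} {x : ℤ × ℤ} (hx : x = f1 b (2 * h) c ∨ x = f2 b (2 * h) c) :
    IsEnd (SG (Lam b (2 * h) M) D w) x := by
  have h1 : lt (dgt b (2 * h) c) ∉ Lam b (2 * h) M := by
    rintro ⟨x, y, e, h2 | ⟨-, h2⟩⟩
    · have := lt_inj e
      rw [this] at hQ
      exact hQ h2
    · exact h2 c hc (lt_inj e).symm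
  have h2 : lt (dgt b (2 * h) c) = lab x ∨ lt (dgt b (2 * h) c) = plab x := by
    apply of_side (lt_odd _)
    rcases hx with rfl | rfl
    · exact Or.inr (Or.inl rfl)
    · unfold f2
      split_ifs
      · exact Or.inr (Or.inr (Or.inl rfl))
      · exact Or.inr (Or.inr (Or.inr rfl))
  apply isEnd_of_notMem
  rcases h2 with h2 | h2
  · left; rw [← h2]; exact h1
  · right; rw [← h2]; exact h1

/-! ### Range of the layer -/

lemma range_Q (g : Geo b) {h : ℕ} (hh : 0 < h) {x y i j : ℤ} (hi : |i| ≤ 3) (hj : |j| ≤ 3)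
    (hQ : InQ b (2 * h) (x + i) (y + j)) :
    (-(b.X * (2 * (h : ℤ))) - 3 ≤ x ∧ x ≤ b.X * (2 * (h : ℤ)) + 2) ∧
      -((b.H + b.K) * (2 * (h : ℤ))) - 3 ≤ y ∧ y ≤ (b.H + b.K) * (2 * (h : ℤ)) + 2 := by
  have hn : (0 : ℤ) < 2 * h := by omega
  generalize hN : (2 * (h : ℤ)) = n at *
  unfold InQ at hQ
  obtain ⟨⟨h1, h2⟩, h3, h4⟩ := g.mem_Q.1 hQ
  simp only at h1 h2 h3 h4
  have k1 := ks_le (b := b) ((x + i) / n)
  rw [abs_le] at hi hj
  have e1 := Int.ediv_mul_le (x + i) hn.ne'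
  have e2 := Int.lt_ediv_add_one_mul_self (x + i) hn
  have e3 := Int.ediv_mul_le (y + j) hn.ne'
  have e4 := Int.lt_ediv_add_one_mul_self (y + j) hn
  have g1 : -(b.X : ℤ) * n ≤ (x + i) / n * n := by nlinarith
  have g2 : ((x + i) / n + 1) * n ≤ b.X * n := by nlinarith
  have g3 : -((b.H : ℤ) + b.K) * n ≤ (y + j) / n * n := by nlinarith
  have g4 : ((y + j) / n + 1) * n ≤ (b.H + b.K) * n := by nlinarith
  have g1' : -(b.X : ℤ) * n = -(b.X * n) := by ring
  have g3' : -((b.H : ℤ) + b.K) * n = -((b.H + b.K) * n) := by ring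
  rw [g1'] at g1
  rw [g3'] at g3
  refine ⟨⟨?_, ?_⟩, ?_, ?_⟩ <;> omega

lemma mem_Wl {n : ℤ} {cl : Cl} {t : ℤ × ℤ} (hr : (-(b.X * n) - 3 ≤ t.1 ∧ t.1 ≤ b.X * n + 2) ∧
      -((b.H + b.K) * n) - 3 ≤ t.2 ∧ t.2 ≤ (b.H + b.K) * n + 2) (hQ : ¬ InQ b n t.1 t.2) :
    lt t ∈ Wl b n cl ↔ lcol b n cl t.1 t.2 = true := by
  classical
  unfold Wl
  rw [mem_image]
  constructor
  · rintro ⟨s, hs, e⟩
    rw [← lt_inj e]
    exact (mem_filter.1 hs).2.2
  · intro h
    refine ⟨t, ?_, rfl⟩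
    rw [mem_filter, mem_product, mem_Icc, mem_Icc]
    exact ⟨⟨⟨hr.1.1, hr.1.2⟩, hr.2.1, hr.2.2⟩, hQ, h⟩

lemma not_mem_Wl {n : ℤ} {cl : Cl} {t : ℤ × ℤ} (hQ : InQ b n t.1 t.2) : lt t ∉ Wl b n cl := by
  classical
  unfold Wl
  rw [mem_image]
  rintro ⟨s, hs, e⟩
  rw [← lt_inj e] at hQ
  exact (mem_filter.1 hs).2.1 hQ

/-! ### The corner at a mark of the shape -/

lemma dt_congr {n : ℤ} {σ τ : Cell × ℤ} (h : Eqv σ τ) : dt n σ = dt n τ := by
  obtain ⟨⟨x, y⟩, d⟩ := σ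
  obtain ⟨⟨x', y'⟩, d'⟩ := τ
  obtain ⟨h1, h2⟩ := h
  simp only [Prod.mk.injEq] at h1 h2
  obtain ⟨rfl, rfl⟩ := h1
  rcases dt_cases n x y d with ⟨a, e⟩ | ⟨a, e⟩ | ⟨a, e⟩ | ⟨a, e⟩ <;>
    rcases dt_cases n x y d' with ⟨a', e'⟩ | ⟨a', e'⟩ | ⟨a', e'⟩ | ⟨a', e'⟩ <;>
    first | (exfalso; omega) | rw [e, e']

lemma dt_tipS (n : ℤ) (c : Bool × ℕ) : dt n (tipS b c) = dgt b n c := by
  obtain ⟨s, i⟩ := c
  unfold tipS dgt cpt
  cases s
  · simp only [Bool.false_eq_true, if_false]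
    rcases dt_cases n (b.st i) (-((b.H : ℤ) + i) - 1) 3 with ⟨a, e⟩ | ⟨a, e⟩ | ⟨a, e⟩ | ⟨a, e⟩
    · omega
    · omega
    · omega
    · rw [e]
      refine Prod.ext ?_ ?_ <;> simp only <;> ring
  · simp only [if_true]
    rcases dt_cases n (b.st i) ((b.H : ℤ) + i) 2 with ⟨a, e⟩ | ⟨a, e⟩ | ⟨a, e⟩ | ⟨a, e⟩
    · omega
    · omega
    · rw [e]
      refine Prod.ext ?_ ?_ <;> simp only <;> ring
    · omega

/-- the tile next to the diagonal tile -/
lemma dt_near {n : ℤ} (hn : 0 < n) (σ : Cell × ℤ) : ∃ u v : ℤ, |u| ≤ 3 ∧ |v| ≤ 3 ∧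
    ct n ((dt n σ).1 + u, (dt n σ).2 + v) = σ.1 := by
  obtain ⟨⟨x, y⟩, d⟩ := σ
  rcases dt_cases n x y d with ⟨a, e⟩ | ⟨a, e⟩ | ⟨a, e⟩ | ⟨a, e⟩
  · refine ⟨-1, 1, by norm_num, by norm_num, ?_⟩
    rw [e, ct_eq hn]
    simp only
    omega
  · refine ⟨-1, -1, by norm_num, by norm_num, ?_⟩
    rw [e, ct_eq hn]
    simp only
    omega
  · refine ⟨1, -1, by norm_num, by norm_num, ?_⟩
    rw [e, ct_eq hn]
    simp only
    omega
  · refine ⟨1, 1, by norm_num, by norm_num, ?_⟩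
    rw [e, ct_eq hn]
    simp only
    omega

namespace Sh

variable {c : Fin 4 → Bool × ℕ} {w : Bool} {S : Shape} (D : Sh b c w S)
include D

/-- the corner behind a side which ends in the mark `a` -/
lemma at_mark (h : ℕ) {a : Bool × ℕ} (ha : a.2 < b.K) {i : ℕ} (hi : hp b (S.P.side i) = b.mark 1 a) :
    tv (wv h (S.P.side (i + 1)) 0) = cpt b (2 * h) a ∧
      S.k (i + 1) % 4 = (if a.1 then 3 else 0) ∧ dg S h i = lt (dgt b (2 * h) a) := by
  have e := tip_unique D.geo ha (D.isSide i) hi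
  have hnx := eqv_next e (tip_side D.geo ha).2
  refine ⟨?_, ?_, ?_⟩
  · rw [tv_wv, side_succ']
    have e1 : tail (nextSide S.P.Q (S.P.side i)) = head (tipS b a) := by
      rw [← (eqv_head e).1]
      exact head_eq_tail_next _
    rw [e1]
    obtain ⟨s, j⟩ := a
    unfold tipS cpt
    cases s
    · simp only [Bool.false_eq_true, if_false]
      rcases tail_head (b.st j, -((b.H : ℤ) + j) - 1) 3 with ⟨a, -, e, -⟩ | ⟨a, -, e, -⟩ |
        ⟨a, -, e, -⟩ | ⟨-, -, e, -⟩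
      · omega
      · omega
      · omega
      · rw [e]
        refine Prod.ext ?_ ?_ <;> simp only <;> push_cast <;> ring
    · simp only [if_true]
      rcases tail_head (b.st j, (b.H : ℤ) + j) 2 with ⟨a, -, e, -⟩ | ⟨a, -, e, -⟩ | ⟨-, -, e, -⟩ |
        ⟨a, -, e, -⟩
      · omega
      · omega
      · rw [e]
        refine Prod.ext ?_ ?_ <;> simp only <;> push_cast <;> ring
      · omega
  · unfold Shape.k
    rw [side_succ', D.Q, hnx]
    have h2 := e.2
    obtain ⟨s, j⟩ := a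
    unfold tipS at h2
    cases s <;> simp only [Bool.false_eq_true, if_false, if_true] at h2 ⊢ <;> omega
  · rw [dg_eq, ← dt_tipS]
    show lt (dt (2 * h) (S.P.side i)) = _
    rw [dt_congr e]

/-- the second mark -/
lemma tp2 : tp b (S.P.side S.m2) = b.mark 1 (if w then c 3 else c 2) := by
  obtain ⟨r0, r1, r2, r3, r4⟩ := D.marks
  have h02 := S.h02
  have h23 := S.h23
  have h34 := S.h34
  have hmN := S.P.hmN
  obtain ⟨m, hm⟩ : ∃ m, S.m2 = m + 1 := ⟨S.m2 - 1, by omega⟩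
  have a1 := D.a1 m (by omega)
  have a2 := D.a2 (m + 1) (by omega) (by omega)
  rw [hm, D.tp_succ]
  have h1 := (D.geo.hp_tp (D.isSide (m + 1))).1
  rw [D.tp_succ] at h1
  have h2 := (D.geo.hp_tp (D.isSide m)).2
  unfold cnt at a1 a2
  cases w
  · simp only [Bool.false_eq_true, if_false] at a1 a2 ⊢
    split_ifs at a1 a2 <;> omega
  · simp only [if_true] at a1 a2 ⊢
    split_ifs at a1 a2 <;> omega

/-- the fourth mark -/
lemma tp4 : tp b (S.P.side S.m4) = b.mark 1 (if w then c 1 else c 0) := by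
  obtain ⟨r0, r1, r2, r3, r4⟩ := D.marks
  have h02 := S.h02
  have h23 := S.h23
  have h34 := S.h34
  have hmN := S.P.hmN
  have hm4 : S.m4 = S.P.m := rfl
  obtain ⟨m, hm⟩ : ∃ m, S.m4 = m + 1 := ⟨S.m4 - 1, by omega⟩
  have a3 := D.a3 m (by omega) (by omega)
  have a4 := D.a4 (m + 1) (by omega) (by omega)
  rw [hm, D.tp_succ]
  have h1 := (D.geo.hp_tp (D.isSide (m + 1))).1
  rw [D.tp_succ] at h1
  have h2 := (D.geo.hp_tp (D.isSide m)).2
  unfold cnt at a3 a4
  cases w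
  · simp only [Bool.false_eq_true, if_false] at a3 a4 ⊢
    split_ifs at a3 a4 <;> omega
  · simp only [if_true] at a3 a4 ⊢
    split_ifs at a3 a4 <;> omega

/-- the sides in front of the marks -/
lemma hp_marks : hp b (S.P.side (S.m2 - 1)) = b.mark 1 (if w then c 3 else c 2) ∧
    hp b (S.P.side (S.m3 - 1)) = b.mark 1 (if w then c 2 else c 1) ∧
    hp b (S.P.side (S.m4 - 1)) = b.mark 1 (if w then c 1 else c 0) ∧
    hp b (S.P.side (S.N - 1)) = b.mark 1 (if w then c 0 else c 3) := by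
  have h02 := S.h02
  have h23 := S.h23
  have h34 := S.h34
  have hmN := S.P.hmN
  have hm4 : S.m4 = S.P.m := rfl
  have hN : S.N = S.P.N := rfl
  have e : S.P.side S.P.N = ((S.P.side 0).1, (S.P.side 0).2 + 4) := S.P.period
  have e2 : Eqv (S.P.side S.P.N) (S.P.side 0) := by
    rw [e]; exact ⟨rfl, by simp only; omega⟩
  refine ⟨?_, ?_, ?_, ?_⟩
  · rw [← D.tp2, ← D.tp_succ, Nat.sub_add_cancel (by omega)]
  · rw [← D.tp3, ← D.tp_succ, Nat.sub_add_cancel (by omega)]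
  · rw [← D.tp4, ← D.tp_succ, Nat.sub_add_cancel (by omega)]
  · rw [← D.tp1, ← D.tp_succ, Nat.sub_add_cancel (by omega)]
    show tp b (S.P.side S.P.N) = _
    unfold tp
    rw [(eqv_head e2).2]

/-- the side before the mark `j` -/
lemma mk_idx (j : Fin 4) : ∃ i, Mk S i ∧ hp b (S.P.side i) = b.mark 1 (c j) := by
  obtain ⟨e2, e3, e4, e1⟩ := D.hp_marks
  have key : ∀ (i i' : ℕ) (a a' : Bool × ℕ), Mk S i → Mk S i' →
      hp b (S.P.side i) = b.mark 1 (if w then a else a') →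
      hp b (S.P.side i') = b.mark 1 (if w then a' else a) → ∃ i, Mk S i ∧
      hp b (S.P.side i) = b.mark 1 a := by
    intro i i' a a' m m' h h'
    cases w
    · exact ⟨i', m', h'⟩
    · exact ⟨i, m, h⟩
  cases w <;> simp only [Bool.false_eq_true, if_false, if_true] at e1 e2 e3 e4 <;> fin_cases j
  · exact ⟨_, mk4 S, e4⟩
  · exact ⟨_, mk3 S, e3⟩
  · exact ⟨_, mk2 S, e2⟩
  · exact ⟨_, mk1 S, e1⟩
  · exact ⟨_, mk1 S, e1⟩
  · exact ⟨_, mk4 S, e4⟩
  · exact ⟨_, mk3 S, e3⟩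
  · exact ⟨_, mk2 S, e2⟩

/-- the side `i` in front of a mark of the shape -/
lemma of_mk {i : ℕ} (hi : Mk S i) : ∃ j, hp b (S.P.side i) = b.mark 1 (c j) := by
  obtain ⟨e2, e3, e4, e1⟩ := D.hp_marks
  have h02 := S.h02
  have h23 := S.h23
  have h34 := S.h34
  have hmN := S.P.hmN
  have hm4 : S.m4 = S.P.m := rfl
  have hN : S.N = S.P.N := rfl
  have key : ∀ a a' : Fin 4, ∀ x : ℤ, x = b.mark 1 (if w then c a else c a') →
      ∃ j, x = b.mark 1 (c j) := by
    intro a a' x h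
    cases w
    · exact ⟨a', h⟩
    · exact ⟨a, h⟩
  rcases hi with hi | hi | hi | hi
  · have : i = S.m2 - 1 := by omega
    rw [this]; exact key _ _ _ e2
  · have : i = S.m3 - 1 := by omega
    rw [this]; exact key _ _ _ e3
  · have : i = S.m4 - 1 := by omega
    rw [this]; exact key _ _ _ e4
  · have : i = S.N - 1 := by omega
    rw [this]; exact key _ _ _ e1

lemma inj : Function.Injective c := fun _ _ h => D.inc.injective (congrArg (b.mark 1) h)

variable {h : ℕ} (hh : 0 < h)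
include hh

/-- the diagonal tiles at the marks are those of the shape -/
lemma dgt_eq (j : Fin 4) : ∃ i, Mk S i ∧ dg S h i = lt (dgt b (2 * h) (c j)) := by
  obtain ⟨i, hi, e⟩ := D.mk_idx j
  exact ⟨i, hi, (D.at_mark h (D.idx j) e).2.2⟩

lemma dgt_notQ (j : Fin 4) : ¬ InQ b (2 * h) (dgt b (2 * h) (c j)).1 (dgt b (2 * h) (c j)).2 := by
  obtain ⟨i, hi, e⟩ := D.dgt_eq hh j
  have h1 := dg_not_EE (S := S) (h := h) hh (S.cvx i hi)
  rw [e] at h1
  unfold Pool.Agent.H21.FM.EE at h1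
  rw [lt_mem_TL (by omega), D.Q] at h1
  exact h1

/-- **The tiles.** -/
theorem lamOK : LamOK S h (Lam b (2 * h) (univ.image c)) := by
  have hn : (0 : ℤ) < 2 * h := by omega
  refine ⟨fun e he => ?_, fun i hi => ?_⟩
  · rcases mem_LamS.1 he with h1 | ⟨i, hi, h1⟩ | ⟨i, hi, h1, h2⟩
    · unfold Pool.Agent.H21.FM.EE at h1
      rw [mem_TL hn, D.Q] at h1
      exact ⟨(tt e).1, (tt e).2, (lt_tt h1.1).symm, Or.inl h1.2⟩
    · have h1' := h1
      rw [mem_LY hn] at h1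
      obtain ⟨h2, h3, h4⟩ := h1
      have hs := D.isSide i
      refine ⟨(tt e).1, (tt e).2, (lt_tt h2).symm, Or.inr ⟨⟨?_, ?_⟩, ?_⟩⟩
      · show ct (2 * h) (tt e) ∉ b.Q
        rw [h3]; exact hs.2
      · refine ⟨-(dir ((S.P.side i).2 - 1)).1, -(dir ((S.P.side i).2 - 1)).2, ?_, ?_, ?_⟩
        · rcases dir_cases ((S.P.side i).2 - 1) with ⟨-, e⟩ | ⟨-, e⟩ | ⟨-, e⟩ | ⟨-, e⟩ <;> rw [e] <;>
            norm_num
        · rcases dir_cases ((S.P.side i).2 - 1) with ⟨-, e⟩ | ⟨-, e⟩ | ⟨-, e⟩ | ⟨-, e⟩ <;> rw [e] <;>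
            norm_num
        · show ct (2 * h) (tt e - dir ((S.P.side i).2 - 1)) ∈ b.Q
          rw [h4]; exact hs.1
      · intro a ha e1
        obtain ⟨j, -, rfl⟩ := mem_image.1 ha
        obtain ⟨i', hi', e2⟩ := D.dgt_eq hh j
        apply dg_not_LY (S := S) (h := h) hh (S.cvx i' hi') (j := i)
        rw [e2, ← e1]
        convert h1'
        exact lt_tt h2
    · have h3 : dg S h i = lt (dt (2 * h) (S.P.side i)) := dg_eq S h i
      obtain ⟨u, v, hu, hv, h4⟩ := dt_near hn (S.P.side i)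
      refine ⟨(dt (2 * h) (S.P.side i)).1, (dt (2 * h) (S.P.side i)).2, by rw [← h2, h3],
        Or.inr ⟨⟨?_, u, v, hu, hv, ?_⟩, ?_⟩⟩
      · have h5 := dg_not_EE (S := S) (h := h) hh h1.2.2
        unfold Pool.Agent.H21.FM.EE at h5
        rw [h3, lt_mem_TL hn, D.Q] at h5
        exact h5
      · show ct (2 * h) ((dt (2 * h) (S.P.side i)).1 + u, (dt (2 * h) (S.P.side i)).2 + v) ∈ b.Q
        rw [h4]
        exact (D.isSide i).1
      · intro a ha e1
        obtain ⟨j, -, rfl⟩ := mem_image.1 ha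
        obtain ⟨i', hi', e2⟩ := D.dgt_eq hh j
        have e3 : dg S h i = dg S h i' := by
          rw [e2, ← e1, h3]
        have e4 := dg_inj (S := S) (h := h) hh hi hi'.lt e3
        subst e4
        exact hi'.not_FF h1
  · obtain ⟨j, hj⟩ := D.of_mk hi
    rw [(D.at_mark h (D.idx j) hj).2.2]
    rintro ⟨x, y, e, h1 | ⟨-, h1⟩⟩
    · have h2 := D.dgt_notQ hh j
      rw [lt_inj e] at h2
      exact h2 h1
    · exact h1 _ (mem_image_of_mem _ (mem_univ j)) (lt_inj e).symm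

/-- colour at a side -/
lemma col_iff {i : ℕ} (hi : i < S.N) {v : Bool}
    (hv : Rd b (colM (bs w) (univ.image c) none) (hp b (S.P.side i)) v) : v = true ↔ S.Wd i := by
  rw [D.wired_iff hi, hv.eq_col D.idx D.inj]

/-- **The wired labels.** -/
theorem wl_iff {e : ℤ × ℤ} (he : e ∈ LamS S h) :
    e ∈ Wl b (2 * h) (colM (bs w) (univ.image c) none) ↔ e ∈ W0 S h := by
  have hn : (0 : ℤ) < 2 * h := by omega
  have hW := Pool.Agent.H33.FM.wir_W0 (S := S) (h := h) hh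
  rcases mem_LamS.1 he with h1 | ⟨i, hi, h1⟩ | ⟨i, hi, h1, h2⟩
  · refine iff_of_false ?_ fun h2 => disjoint_left.1 hW.disj h1 h2
    unfold Pool.Agent.H21.FM.EE at h1
    rw [mem_TL hn, D.Q] at h1
    rw [← lt_tt h1.1]
    exact not_mem_Wl h1.2
  · have h1' := h1
    rw [mem_LY hn] at h1'
    obtain ⟨h2, h3, h4⟩ := h1'
    have hs := D.isSide i
    have h0 : ∀ x : ℤ, |-(dir x).1| ≤ 3 ∧ |-(dir x).2| ≤ 3 := by
      intro x
      rcases dir_cases x with ⟨-, e⟩ | ⟨-, e⟩ | ⟨-, e⟩ | ⟨-, e⟩ <;> rw [e] <;> norm_num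
    have h5 := range_Q D.geo hh (x := (tt e).1) (y := (tt e).2)
      (h0 ((S.P.side i).2 - 1)).1 (h0 ((S.P.side i).2 - 1)).2 (by
        show ct (2 * h) (tt e - dir ((S.P.side i).2 - 1)) ∈ b.Q
        rw [h4]; exact hs.1)
    have h6 : ¬ InQ b (2 * h) (tt e).1 (tt e).2 := by
      show ct (2 * h) (tt e) ∉ b.Q
      rw [h3]; exact hs.2
    have h7 := rd_side D.geo hn hs (t := tt e) (by rw [lt_tt h2]; exact h1)
      (colM (bs w) (univ.image c) none)
    conv_lhs => rw [← lt_tt h2]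
    rw [mem_Wl h5 h6, D.col_iff hh hi h7]
    constructor
    · exact fun h8 => hW.wired i h8 h1
    · intro h8
      by_contra h9
      have h10 : S.Fr i := by
        have hm4 : S.m4 = S.P.m := rfl
        have hN : S.N = S.P.N := rfl
        unfold Shape.Wd at h9
        unfold Shape.Fr
        omega
      exact disjoint_left.1 (hW.free i h10) h1 h8
  · have h3 : dg S h i = lt (dt (2 * h) (S.P.side i)) := dg_eq S h i
    obtain ⟨u, v, hu, hv, h4⟩ := dt_near hn (S.P.side i)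
    have h5 := range_Q D.geo hh (x := (dt (2 * h) (S.P.side i)).1) (y := (dt (2 * h) (S.P.side i)).2)
      hu hv (by
        show ct (2 * h) ((dt (2 * h) (S.P.side i)).1 + u, (dt (2 * h) (S.P.side i)).2 + v) ∈ b.Q
        rw [h4]
        exact (D.isSide i).1)
    have h6 : ¬ InQ b (2 * h) (dt (2 * h) (S.P.side i)).1 (dt (2 * h) (S.P.side i)).2 := by
      have h5 := dg_not_EE (S := S) (h := h) hh h1.2.2
      unfold Pool.Agent.H21.FM.EE at h5
      rw [h3, lt_mem_TL hn, D.Q] at h5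
      exact h5
    have hi1 : i + 1 < S.N := Pool.Agent.H33.FM.fr_ltN h1.2.1
    have hc := h1.2.2
    refine iff_of_false ?_ ?_
    · rw [← h2, h3, mem_Wl h5 h6]
      have hnx : nextSide b.Q (S.P.side i) = ((S.P.side i).1, (S.P.side i).2 + 1) := by
        rw [← D.Q, ← side_succ']; exact hc
      have hnx2 : nextSide b.Q (S.P.side i) = S.P.side (i + 1) := by
        rw [← D.Q, ← side_succ']
      have fr : ∀ j, S.Fr j → ¬ S.Wd j := by
        intro j h7 h8
        have hm4 : S.m4 = S.P.m := rfl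
        have hN : S.N = S.P.N := rfl
        have h02 := S.h02
        have h23 := S.h23
        have h34 := S.h34
        unfold Shape.Wd at h8
        unfold Shape.Fr at h7
        omega
      rcases rd_diag D.geo (show (1 : ℤ) < 2 * h by omega) (D.isSide i) hnx
        (colM (bs w) (univ.image c) none) with h7 | h7
      · rw [D.col_iff hh hi h7]
        exact fr _ h1.1
      · rw [hnx2] at h7
        rw [D.col_iff hh hi1 h7]
        exact fr _ h1.2.1
    · rw [← h2]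
      exact hW.diag i h1.1 h1.2.1 hc

/-- **The world is a configuration of the shape.** -/
theorem conf {ω : Finset (ℤ × ℤ)} : Conf S h ω (Lam b (2 * h) (univ.image c)) (lt '' ∅)
    (ω ∪ Wl b (2 * h) (colM (bs w) (univ.image c) none)) :=
  Conf.of (D.lamOK hh) (by rw [Set.image_empty]; exact fun _ _ h => h) (fun _ he => D.wl_iff hh he) ω

end Sh

end Pool.Agent.H50.W.JC
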