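import Mathlib
import Pool.Agent.H50.W.JConf

set_option autoImplicit false
open Finset

/-! # Four marks on the wall: the pairing of the ends -/

namespace Pool.Agent.H50.W.JC

open Pool.Agent.H75.Perc hiding WL CT hh PB EE sh
open Pool.Agent.H75.TwoArm Pool.Agent.H75.Four Pool.Agent.H33.Q1
open Pool.Agent.Q1.M4 (Cell Good IsSide nextSide tail head Adj4 Conn4 PType Eqv dir_congr isSide_next
  head_eq_tail_next)
open Pool.Agent.H6.W
open Pool.Agent.H21.FM
open Pool.Agent.H61.W Pool.Agent.H37.W Pool.Agent.H13.W Pool.Agent.H99.W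
open Pool.Agent.H5.Q1 (oc oc_congr oc_cases oc_inj)

variable {b : JBox}

open Geo (ks_nonneg ks_le ks_mono f_mono)

/-- **The alive corner of the mark `c`**: the one which is joined to another mark. It depends on the
colour of the layer on the right of the mark. -/
def al (b : JBox) (n : ℤ) (cl : Cl) (c : Bool × ℕ) : ℤ × ℤ :=
  if (if c.1 then cl.u (c.2 + 1) else cl.l (c.2 + 1)) = true then f2 b n c else f1 b n c

/-- the loose corner -/
def lo (b : JBox) (n : ℤ) (cl : Cl) (c : Bool × ℕ) : ℤ × ℤ :=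
  if (if c.1 then cl.u (c.2 + 1) else cl.l (c.2 + 1)) = true then f1 b n c else f2 b n c

lemma al_or (n : ℤ) (cl : Cl) (c : Bool × ℕ) : al b n cl c = f1 b n c ∨ al b n cl c = f2 b n c := by
  unfold al; split_ifs <;> simp

lemma lo_or (n : ℤ) (cl : Cl) (c : Bool × ℕ) : lo b n cl c = f1 b n c ∨ lo b n cl c = f2 b n c := by
  unfold lo; split_ifs <;> simp

lemma al_ne_lo (n : ℤ) (cl : Cl) (c : Bool × ℕ) : al b n cl c ≠ lo b n cl c := by
  unfold al lo
  split_ifs
  · exact (f1_ne_f2 n c).symm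
  · exact f1_ne_f2 n c
  · exact (f1_ne_f2 n c).symm
  · exact f1_ne_f2 n c

/-- order of the marks, first mark on the ceiling -/
lemma mark_le_u (g : Geo b) {i : ℕ} (hi : i < b.K) : ∀ m : Bool × ℕ, m.2 < b.K →
    (b.mark 1 m ≤ b.mark 1 (true, i) ↔ m.1 = true ∧ m.2 < i + 1) := by
  rintro ⟨s, j⟩ hj
  simp only at hj
  have h1 := g.lo i hi
  have h2 := g.lo j hj
  rw [mark1, mark1]
  cases s
  · simp only [Bool.false_eq_true, if_false, if_true, false_and, iff_false]
    omega
  · simp only [if_true, true_and]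
    constructor
    · intro h
      by_contra h3
      have := g.mono i j (by omega) hj
      omega
    · intro h
      rcases Nat.lt_succ_iff_lt_or_eq.1 h with h3 | h3
      · have := g.mono j i h3 hi
        omega
      · rw [h3]

/-- order of the marks, second mark on the floor -/
lemma mark_lt_l (g : Geo b) {i : ℕ} (hi : i < b.K) : ∀ m : Bool × ℕ, m.2 < b.K →
    (b.mark 1 m ≤ b.mark 1 (false, i) - 1 ↔ m.1 = true ∨ i + 1 ≤ m.2) := by
  rintro ⟨s, j⟩ hj
  simp only at hj
  have h1 := g.lo i hi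
  have h2 := g.lo j hj
  rw [mark1, mark1]
  cases s
  · simp only [Bool.false_eq_true, if_false, false_or]
    constructor
    · intro h
      by_contra h3
      rcases Nat.lt_or_ge j i with h4 | h4
      · have := g.mono j i h4 hi
        omega
      · have : i = j := by omega
        subst this
        omega
    · intro h
      have := g.mono i j (by omega) hj
      omega
  · simp only [Bool.false_eq_true, if_false, if_true, true_or, iff_true]
    omega

namespace Sh

variable {c : Fin 4 → Bool × ℕ} {w : Bool} {S : Shape} (D : Sh b c w S)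
include D

lemma kp_mark (j : Fin 4) : kp b c (b.mark 1 (c j)) = j.1 + 1 ∧
    kp b c (b.mark 1 (c j) - 1) = j.1 := by
  obtain ⟨r0, r1, r2, r3, r4⟩ := D.marks
  unfold kp
  fin_cases j <;> simp only [Fin.zero_eta, Fin.isValue, Fin.mk_one, Fin.reduceFinMk] <;>
    split_ifs <;> constructor <;> omega

/-- the alive corner in terms of the position of the mark -/
lemma al_eq (n : ℤ) (j : Fin 4) : al b n (colM (bs w) (univ.image c) none) (c j) =
    if ((w ^^ par j.1) = (c j).1) then f2 b n (c j) else f1 b n (c j) := by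
  have hj := D.idx j
  obtain ⟨k1, k2⟩ := D.kp_mark j
  have hp1 : par (j.1 + 1) = !(par j.1) := by
    rw [par_add]
    have : par 1 = true := rfl
    rw [this, Bool.xor_true]
  unfold al
  rcases hs : c j with ⟨s, i⟩
  rw [hs] at k1 k2 hj
  simp only at hj ⊢
  cases s
  · have h1 : Rd b (colM (bs w) (univ.image c) none) (b.mark 1 (false, i) - 1)
        ((colM (bs w) (univ.image c) none).l (i + 1)) :=
      Or.inr (Or.inr ⟨i + 1, hj, rfl, mark_lt_l D.geo hj⟩)
    simp only [Bool.false_eq_true, if_false]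
    rw [h1.eq_col D.idx D.inj]
    unfold colr
    rw [k2]
    cases w <;> cases par j.1 <;> simp
  · have h1 : Rd b (colM (bs w) (univ.image c) none) (b.mark 1 (true, i))
        ((colM (bs w) (univ.image c) none).u (i + 1)) :=
      Or.inl ⟨i + 1, hj, rfl, mark_le_u D.geo hj⟩
    simp only [if_true]
    rw [h1.eq_col D.idx D.inj]
    unfold colr
    rw [k1, hp1]
    cases w <;> cases par j.1 <;> simp

variable {h : ℕ} (hh : 0 < h)

omit D in
/-- abbreviation: the alive corner of the mark `j` -/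
abbrev A (b : JBox) (c : Fin 4 → Bool × ℕ) (w : Bool) (h : ℕ) (j : Fin 4) : ℤ × ℤ :=
  al b (2 * h) (colM (bs w) (univ.image c) none) (c j)

/-- **The loose corners of the shape are the alive corners.** -/
lemma x_al : x1 S h = A b c w h (if w then 0 else 3) ∧ x2 S h = A b c w h (if w then 3 else 2) ∧
    x3 S h = A b c w h (if w then 2 else 1) ∧ x4 S h = A b c w h (if w then 1 else 0) := by
  have h02 := S.h02
  have h23 := S.h23
  have h34 := S.h34
  have hmN := S.P.hmN
  have hm4 : S.m4 = S.P.m := rfl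
  have hN : S.N = S.P.N := rfl
  obtain ⟨e2, e3, e4, e1⟩ := D.hp_marks
  have key : ∀ (m : ℕ), 0 < m → ∀ j : Fin 4, hp b (S.P.side (m - 1)) = b.mark 1 (c j) →
      ((w ^^ par j.1) = true → oc (wv h (S.P.side m) 0) (S.k m + 1) = A b c w h j) ∧
      ((w ^^ par j.1) = false → oc (wv h (S.P.side m) 0) (S.k m) = A b c w h j) := by
    intro m hm j hj
    obtain ⟨m, rfl⟩ : ∃ m', m = m' + 1 := ⟨m - 1, by omega⟩
    rw [Nat.add_sub_cancel] at hj
    obtain ⟨q1, q2, -⟩ := D.at_mark h (D.idx j) hj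
    unfold A
    rw [D.al_eq]
    constructor
    · intro hr
      rw [hr]
      by_cases hs : (c j).1 = true
      · rw [if_pos hs] at q2
        rw [if_pos hs.symm, f2_oc q1]
        exact oc_congr _ (by omega)
      · rw [if_neg hs] at q2
        rw [if_neg (fun h => hs h.symm), f1_oc q1, if_neg hs]
        exact oc_congr _ (by omega)
    · intro hr
      rw [hr]
      by_cases hs : (c j).1 = true
      · rw [if_pos hs] at q2
        rw [if_neg (by rw [hs]; simp), f1_oc q1, if_pos hs]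
        exact oc_congr _ (by omega)
      · rw [if_neg hs] at q2
        rw [if_pos (by simpa using hs), f2_oc q1]
        exact oc_congr _ (by omega)
  have hx1 : x1 S h = oc (wv h (S.P.side S.N) 0) (S.k S.N + 1) := by
    unfold x1 r1 v1
    rw [wv_side_N]
    exact oc_congr _ (by have := S.kN; omega)
  have hx2 : x2 S h = oc (wv h (S.P.side S.m2) 0) (S.k S.m2) := rfl
  have hx3 : x3 S h = oc (wv h (S.P.side S.m3) 0) (S.k S.m3 + 1) := rfl
  have hx4 : x4 S h = oc (wv h (S.P.side S.m4) 0) (S.k S.m4) := rfl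
  rw [hx1, hx2, hx3, hx4]
  cases w
  · simp only [Bool.false_eq_true, if_false] at e1 e2 e3 e4 ⊢
    exact ⟨(key _ (by omega) _ e1).1 rfl, (key _ (by omega) _ e2).2 rfl,
      (key _ (by omega) _ e3).1 rfl, (key _ (by omega) _ e4).2 rfl⟩
  · simp only [if_true] at e1 e2 e3 e4 ⊢
    exact ⟨(key _ (by omega) _ e1).1 rfl, (key _ (by omega) _ e2).2 rfl,
      (key _ (by omega) _ e3).1 rfl, (key _ (by omega) _ e4).2 rfl⟩

include hh

omit D in
/-- `i`, `j` are partners: `{1, 4}, {2, 3}` if `r`, `{1, 2}, {3, 4}` if not -/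
def Pr4 (r : Prop) (i j : Fin 4) : Prop :=
  (r ∧ i.1 + j.1 = 3) ∨ (¬ r ∧ (i.1 + j.1 = 1 ∨ i.1 + j.1 = 5))

/-- the crossing event of the box -/
abbrev CrS (b : JBox) (c : Fin 4 → Bool × ℕ) (w : Bool) (h : ℕ) (ω : Finset (ℤ × ℤ)) : Prop :=
  b.Cr h w (b.mark (2 * h) (c 0)) (b.mark (2 * h) (c 1)) (b.mark (2 * h) (c 2)) (b.mark (2 * h) (c 3)) ω

/-- the graph of the world with the four marks on the wall -/
noncomputable abbrev GW (b : JBox) (c : Fin 4 → Bool × ℕ) (w : Bool) (h : ℕ) (ω : Finset (ℤ × ℤ)) :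
    SimpleGraph (ℤ × ℤ) :=
  GG b (2 * h) (univ.image c) (colM (bs w) (univ.image c) none) ∅ ω

lemma pair_reach (h4 : 4 ≤ h) {ω : Finset (ℤ × ℤ)} (hω : ω ⊆ b.B h) {i j : Fin 4}
    (hp : Pr4 (CrS b c w h ω ↔ w = true) i j) : (GW b c w h ω).Reachable (A b c w h i) (A b c w h j) := by
  have C : Conf S h ω (Lam b (2 * h) (univ.image c)) (lt '' ∅)
    (ω ∪ Wl b (2 * h) (colM (bs w) (univ.image c) none)) := D.conf hh
  obtain ⟨a1, a2, a3, a4⟩ := D.x_al (h := h)
  have ht := D.tt_iff (show 2 ≤ h by omega) hω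
  have hb := C.bridge h4 (by rw [D.EE_eq hh]; exact hω)
  unfold Pr4 CrS at hp
  rw [← ht] at hp
  unfold GW Pool.Agent.H61.W.GG
  rcases hb with ⟨t, p, q⟩ | ⟨t, p, q⟩ <;> rw [a1] at p <;> rw [a3] at q
  · rw [a2] at p; rw [a4] at q
    cases w <;> simp only [Bool.false_eq_true, if_false, if_true, t] at p q hp <;>
      fin_cases i <;> fin_cases j <;> 
      first | exact p | exact q | exact p.symm | exact q.symm | (exfalso; simp at hp)
  · rw [a4] at p; rw [a2] at q
    cases w <;> simp only [Bool.false_eq_true, if_false, if_true, t] at p q hp <;>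
      fin_cases i <;> fin_cases j <;> 
      first | exact p | exact q | exact p.symm | exact q.symm | (exfalso; simp at hp)

omit D hh in
lemma Pr4.ne {r : Prop} {i j : Fin 4} (h : Pr4 r i j) : i ≠ j := by
  rintro rfl
  unfold Pr4 at h
  omega

omit D hh in
lemma Pr4.ex (r : Prop) (i : Fin 4) : ∃ j, Pr4 r i j := by
  by_cases hr : r
  · exact ⟨⟨3 - i.1, by omega⟩, Or.inl ⟨hr, by simp only; omega⟩⟩
  · rcases i with ⟨i, hi⟩
    have : i = 0 ∨ i = 1 ∨ i = 2 ∨ i = 3 := by omega
    rcases this with rfl | rfl | rfl | rfl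
    · exact ⟨1, Or.inr ⟨hr, by simp⟩⟩
    · exact ⟨0, Or.inr ⟨hr, by simp⟩⟩
    · exact ⟨3, Or.inr ⟨hr, by simp⟩⟩
    · exact ⟨2, Or.inr ⟨hr, by simp⟩⟩

omit D hh in
lemma Pr4.unique {r : Prop} {i j k : Fin 4} (h : Pr4 r i j) (h' : Pr4 r i k) : j = k := by
  unfold Pr4 at h h'
  have h1 := i.2
  have h2 := j.2
  have h3 := k.2
  apply Fin.ext
  rcases h with ⟨r1, h⟩ | ⟨r1, h⟩ <;> rcases h' with ⟨r2, h'⟩ | ⟨r2, h'⟩
  · omega
  · exact absurd r1 r2
  · exact absurd r2 r1
  · omega

/-- the corners at the marks are ends -/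
lemma end_f {ω : Finset (ℤ × ℤ)} (j : Fin 4) {x : ℤ × ℤ}
    (hx : x = f1 b (2 * h) (c j) ∨ x = f2 b (2 * h) (c j)) : IsEnd (GW b c w h ω) x :=
  f_end (mem_image_of_mem _ (mem_univ j)) (D.dgt_notQ hh j) hx

/-- **The pairing.** The alive corner of the mark `i` is joined to the mark `j` iff `j` is the partner. -/
theorem pair_iff (h4 : 4 ≤ h) {ω : Finset (ℤ × ℤ)} (hω : ω ⊆ b.B h) {i j : Fin 4} (hij : i ≠ j) :
    RF b (2 * h) (GW b c w h ω) (A b c w h i) (c j) ↔ Pr4 (CrS b c w h ω ↔ w = true) i j := by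
  constructor
  · intro hr
    obtain ⟨y, hy, hr⟩ : ∃ y, (y = f1 b (2 * h) (c j) ∨ y = f2 b (2 * h) (c j)) ∧
        (GW b c w h ω).Reachable (A b c w h i) y := by
      rcases hr with hr | hr
      · exact ⟨_, Or.inl rfl, hr⟩
      · exact ⟨_, Or.inr rfl, hr⟩
    obtain ⟨k, hk⟩ := Pr4.ex (CrS b c w h ω ↔ w = true) i
    have h1 := D.pair_reach hh h4 hω hk
    have h2 : Deg2 (GW b c w h ω) := SG_deg2
    have h3 := f_ne (b := b) hh (D.inj.ne hk.ne) (al_or (2 * h) (colM (bs w) (univ.image c) none) (c i))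
      (al_or (2 * h) (colM (bs w) (univ.image c) none) (c k))
    have h4 := f_ne (b := b) hh (D.inj.ne hij) (al_or (2 * h) (colM (bs w) (univ.image c) none) (c i)) hy
    rcases ends_two h2 (D.end_f hh i (al_or _ _ _)) (D.end_f hh k (al_or _ _ _)) (D.end_f hh j hy)
      h1 hr h3 with h5 | h5
    · exact absurd h5.symm h4
    · by_contra hn
      have hkj : k ≠ j := by
        rintro rfl
        exact hn hk
      exact f_ne (b := b) hh (D.inj.ne hkj)
        (al_or (2 * h) (colM (bs w) (univ.image c) none) (c k)) hy h5.symm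
  · intro hp
    have h1 := D.pair_reach hh h4 hω hp
    rcases al_or (b := b) (2 * h) (colM (bs w) (univ.image c) none) (c j) with h2 | h2
    · left
      rw [← h2]; exact h1
    · right
      rw [← h2]; exact h1

/-- **The loose corner of a mark is not joined to an alive corner.** -/
theorem lo_not (h4 : 4 ≤ h) {ω : Finset (ℤ × ℤ)} (hω : ω ⊆ b.B h) (i j : Fin 4) :
    ¬ (GW b c w h ω).Reachable (A b c w h i) (lo b (2 * h) (colM (bs w) (univ.image c) none) (c j)) := by
  intro hr
  obtain ⟨k, hk⟩ := Pr4.ex (CrS b c w h ω ↔ w = true) i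
  have h1 := D.pair_reach hh h4 hω hk
  have h2 : Deg2 (GW b c w h ω) := SG_deg2
  have h3 := f_ne (b := b) hh (D.inj.ne hk.ne) (al_or (2 * h) (colM (bs w) (univ.image c) none) (c i))
    (al_or (2 * h) (colM (bs w) (univ.image c) none) (c k))
  have key : ∀ l, lo b (2 * h) (colM (bs w) (univ.image c) none) (c j) ≠ A b c w h l := by
    intro l
    rcases eq_or_ne j l with rfl | hjl
    · exact (al_ne_lo _ _ _).symm
    · exact f_ne (b := b) hh (D.inj.ne hjl) (lo_or _ _ _) (al_or _ _ _)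
  rcases ends_two h2 (D.end_f hh i (al_or _ _ _)) (D.end_f hh k (al_or _ _ _))
    (D.end_f hh j (lo_or _ _ _)) h1 hr h3 with h5 | h5
  · exact key _ h5
  · exact key _ h5

end Sh

end Pool.Agent.H50.W.JC
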