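import Mathlib
import Pool.Agent.H50.W.JPair
import Pool.Agent.H61.W.JFields
import Pool.Agent.H25.W.TabPh

set_option autoImplicit false
open Finset

/-! # Four marks on the wall: the value -/

namespace Pool.Agent.H50.W.JC

open Pool.Agent.H6.W
open Pool.Agent.H58.W (PB_mono PB_congr PB_and_add PB_not)
open Pool.Agent.H61.W Pool.Agent.H99.W
open Pool.Agent.H61.W.Setup (kap)
open Pool.Agent.H25.W (KB TyA TyB rk NN E phase_table)
open Pool.Agent.H73.W (ph)

variable {b : JBox}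

/-- `ky` reverses the order of the marks -/
lemma ky_lt_iff (g : Geo b) {m m' : Bool × ℕ} (hm : m.2 < b.K) (hm' : m'.2 < b.K) :
    ky b m < ky b m' ↔ b.mark 1 m' < b.mark 1 m := by
  obtain ⟨s, i⟩ := m
  obtain ⟨s', j⟩ := m'
  simp only at hm hm'
  have h1 := g.lo i hm
  have h2 := g.lo j hm'
  have m1 : i < j → b.st i < b.st j := fun h => g.mono i j h hm'
  have m2 : j < i → b.st j < b.st i := fun h => g.mono j i h hm
  rw [mark1, mark1]
  unfold ky
  rcases lt_trichotomy i j with h3 | h3 | h3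
  · have := m1 h3
    cases s <;> cases s' <;> simp only [Bool.false_eq_true, if_false, if_true] <;> omega
  · subst h3
    cases s <;> cases s' <;> simp only [Bool.false_eq_true, if_false, if_true] <;> omega
  · have := m2 h3
    cases s <;> cases s' <;> simp only [Bool.false_eq_true, if_false, if_true] <;> omega

/-- monotonicity of the crossing event -/
lemma cr_mono {h : ℕ} {w : Bool} {p1 p2 p3 p4 : ℤ} {ω ω' : Finset (ℤ × ℤ)} (hω : ω ⊆ ω')
    (hc : b.Cr h w p1 p2 p3 p4 ω) : b.Cr h w p1 p2 p3 p4 ω' := by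
  obtain ⟨x, y, a1, a2, a3, a4, a5, a6⟩ := hc
  exact ⟨x, y, a1, a2, a3, a4, a5, a6.mono (inter_subset_inter_right hω)⟩

lemma PJ_congr {h : ℕ} {A B : Finset (ℤ × ℤ) → Prop} (hAB : ∀ ω ⊆ b.B h, (A ω ↔ B ω)) :
    b.PJ h A = b.PJ h B := PB_congr hAB

/-- probability of a difference of nested events -/
lemma PJ_sub {h : ℕ} {A B : Finset (ℤ × ℤ) → Prop} (hAB : ∀ ω ⊆ b.B h, A ω → B ω) :
    b.PJ h (fun ω => B ω ∧ ¬ A ω) = b.PJ h B - b.PJ h A := by
  have h1 := PB_and_add (b.B h) (Pool.Agent.H50.W.bk (2 * (h : ℤ)) (chn 0 b.M b.τ)) B A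
  have h2 : b.PJ h (fun ω => B ω ∧ A ω) = b.PJ h A :=
    PJ_congr fun ω hω => ⟨fun h => h.2, fun h => ⟨hAB ω hω h, h⟩⟩
  unfold JBox.PJ at h2 ⊢
  linarith

/-- sign of the wiring -/
def sg (w : Bool) : ℝ := if w then 1 else -1

/-- jump of the pairing of the positions `i`, `j` -/
def jp (i j : Fin 4) : ℝ := if i.1 + j.1 = 3 then 1 else if i.1 + j.1 = 1 ∨ i.1 + j.1 = 5 then -1 else 0

/-- change of the probability of a pairing -/
lemma pr_jump {h : ℕ} {w : Bool} {A B : Finset (ℤ × ℤ) → Prop} (hAB : ∀ ω ⊆ b.B h, A ω → B ω)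
    (i j : Fin 4) :
    b.PJ h (fun ω => Sh.Pr4 (B ω ↔ w = true) i j) - b.PJ h (fun ω => Sh.Pr4 (A ω ↔ w = true) i j) =
      sg w * jp i j * b.PJ h (fun ω => B ω ∧ ¬ A ω) := by
  have hn : ∀ C : Finset (ℤ × ℤ) → Prop, b.PJ h (fun ω => ¬ C ω) = 1 - b.PJ h C :=
    fun C => PB_not _ _ _
  have h0 : b.PJ h (fun _ => ¬ True) = 0 := by
    have h2 : b.PJ h (fun _ => True) = 1 := Pool.Agent.H58.W.PB_true _ _
    rw [hn, h2, sub_self]
  rw [PJ_sub hAB]
  unfold Sh.Pr4 jp sg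
  by_cases h3 : i.1 + j.1 = 3
  · have h5 : ¬ (i.1 + j.1 = 1 ∨ i.1 + j.1 = 5) := by omega
    cases w
    · simp only [h3, Bool.false_eq_true, iff_false, and_true, if_true, if_false,
        show ¬ (3 = 1 ∨ 3 = 5) by omega, and_false, or_false, hn]
      ring
    · simp only [h3, iff_true, and_true, if_true, show ¬ (3 = 1 ∨ 3 = 5) by omega, and_false,
        or_false]
      ring
  · rw [if_neg h3]
    by_cases h5 : i.1 + j.1 = 1 ∨ i.1 + j.1 = 5
    · rw [if_pos h5]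
      cases w
      · simp only [h3, Bool.false_eq_true, iff_false, and_false, if_false, h5, and_true, false_or,
          not_not]
        ring
      · simp only [h3, iff_true, and_false, h5, and_true, false_or, hn, if_true]
        ring
    · rw [if_neg h5]
      have h6 : ∀ C : Finset (ℤ × ℤ) → Prop, b.PJ h (fun ω =>
          ((C ω ↔ w = true) ∧ i.1 + j.1 = 3) ∨ (¬ (C ω ↔ w = true) ∧ (i.1 + j.1 = 1 ∨ i.1 + j.1 = 5))) =
          0 := by
        intro C
        rw [← h0]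
        exact PJ_congr fun ω _ => by simp only [h3, h5, and_false, or_false, not_true]
      rw [h6, h6]
      ring

/-- number of marks in front -/
lemma rk_idx {c : Fin 4 → Bool × ℕ} {pos : Bool × ℕ → ℤ}
    (hpos : ∀ i j : Fin 4, pos (c i) < pos (c j) ↔ j < i) {i1 i2 i3 i4 : Fin 4} (n12 : i1 ≠ i2)
    (n13 : i1 ≠ i3) (n14 : i1 ≠ i4) (n23 : i2 ≠ i3) (n24 : i2 ≠ i4) (n34 : i3 ≠ i4) (i : Fin 4) :
    rk pos (c i1) (c i2) (c i3) (c i4) (c i) = 3 - (i.1 : ℤ) := by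
  unfold rk
  simp only [hpos]
  revert i1 i2 i3 i4 i
  decide

lemma jp_eq {i jA jB : Fin 4} (hA : Sh.Pr4 False i jA) (hB : Sh.Pr4 True i jB) (j : Fin 4) :
    jp i j = (if j = jB then 1 else 0) - (if j = jA then 1 else 0) := by
  unfold Sh.Pr4 at hA hB
  simp only [false_and, not_false_eq_true, true_and, false_or, not_true_eq_false, or_false] at hA hB
  unfold jp
  have h1 : i.1 + j.1 = 3 ↔ j = jB := by
    rw [Fin.ext_iff]; omega
  have h2 : i.1 + j.1 = 1 ∨ i.1 + j.1 = 5 ↔ j = jA := by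
    have := i.2
    have := j.2
    have := jA.2
    rw [Fin.ext_iff]; omega
  by_cases h3 : j = jB
  · have h4 : ¬ (j = jA) := by
      rw [← h2]
      have := h1.2 h3
      omega
    rw [if_pos (h1.2 h3), if_pos h3, if_neg h4, sub_zero]
  · rw [if_neg (fun h => h3 (h1.1 h)), if_neg h3]
    by_cases h4 : j = jA
    · rw [if_pos (h2.2 h4), if_pos h4]; ring
    · rw [if_neg (fun h => h4 (h2.1 h)), if_neg h4]; ring

/-- the value of the far end -/
lemma KB_K2 {x2 x3 x4 : Bool × ℕ} (n23 : x2 ≠ x3) (n24 : x2 ≠ x4) (o34 : ky b x3 < ky b x4) :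
    KB (ky b) x2 x3 x4 1 0 x2 = K2 b x2 x3 x4 := by
  unfold K2 fst2 snd2
  rw [if_pos o34, if_pos o34]
  by_cases h : ky b x3 < ky b x2 ∧ ky b x2 < ky b x4
  · rw [if_pos h, Pool.Agent.H25.W.KB_2i (ky b) n23 n24 h]; ring
  · rw [if_neg h, Pool.Agent.H25.W.KB_2o (ky b) n23 n24 h]; ring

/-- **The phase.** -/
theorem phase_jp {c : Fin 4 → Bool × ℕ} (hinj : Function.Injective c)
    (hpos : ∀ i j : Fin 4, ky b (c i) < ky b (c j) ↔ j < i) {i1 i2 i3 i4 : Fin 4} (n12 : i1 ≠ i2)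
    (n13 : i1 ≠ i3) (n14 : i1 ≠ i4) (n23 : i2 ≠ i3) (n24 : i2 ≠ i4)
    (o34 : ky b (c i3) < ky b (c i4)) :
    (jp i1 i4 : ℂ) + K2 b (c i2) (c i3) (c i4) * (jp i1 i2 : ℂ) =
      -(ph ^ 2 * (ph⁻¹) ^ (NN (ky b) (c i1) (c i2) (c i3) (c i4))) := by
  have n34 : i3 ≠ i4 := fun h => by rw [h] at o34; exact lt_irrefl _ o34
  obtain ⟨jA, hA⟩ := Sh.Pr4.ex False i1
  obtain ⟨jB, hB⟩ := Sh.Pr4.ex True i1
  have hne : ∀ {i j : Fin 4}, i ≠ j → ky b (c i) ≠ ky b (c j) := by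
    intro i j hij
    rcases lt_or_gt_of_ne hij with h | h
    · exact ((hpos j i).2 h).ne'
    · exact ((hpos i j).2 h).ne
  have hcov : ∀ j : Fin 4, j ≠ i1 → j = i2 ∨ j = i3 ∨ j = i4 := by
    have : ∀ i1 i2 i3 i4 : Fin 4, i1 ≠ i2 → i1 ≠ i3 → i1 ≠ i4 → i2 ≠ i3 → i2 ≠ i4 → i3 ≠ i4 →
        ∀ j, j ≠ i1 → j = i2 ∨ j = i3 ∨ j = i4 := by decide
    exact this i1 i2 i3 i4 n12 n13 n14 n23 n24 n34
  have hrk := fun i => rk_idx (pos := ky b) hpos n12 n13 n14 n23 n24 n34 i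
  have tA : TyA (ky b) (c i1) (c i2) (c i3) (c i4) (c jA) := by
    unfold TyA
    rw [hrk, hrk]
    unfold Sh.Pr4 at hA
    simp only [false_and, not_false_eq_true, true_and, false_or] at hA
    omega
  have tB : TyB (ky b) (c i1) (c i2) (c i3) (c i4) (c jB) := by
    unfold TyB
    rw [hrk, hrk]
    unfold Sh.Pr4 at hB
    simp only [true_and, not_true_eq_false, false_and, or_false] at hB
    omega
  have cA := hcov jA hA.ne.symm
  have cB := hcov jB hB.ne.symm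
  have key := phase_table (hne n12) (hne n13) (hne n14) (hne n23) (hne n24) o34
    (a := c jA) (b := c jB) (by rcases cA with h | h | h <;> simp [h])
    (by rcases cB with h | h | h <;> simp [h]) tA tB 1 0
  unfold Pool.Agent.H25.W.E at key
  rw [sub_zero, one_mul] at key
  rw [← key]
  have hAB : jA ≠ jB := by
    intro h
    rw [h] at hA
    unfold Sh.Pr4 at hA hB
    simp only [false_and, not_false_eq_true, true_and, false_or, not_true_eq_false, or_false] at hA hB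
    omega
  have k2 := KB_K2 (hinj.ne n23) (hinj.ne n24) o34
  have k3 : KB (ky b) (c i2) (c i3) (c i4) 1 0 (c i3) = 0 := Pool.Agent.H25.W.KB_3 _ _ _ _ _ _
  have k4 : KB (ky b) (c i2) (c i3) (c i4) 1 0 (c i4) = 1 :=
    Pool.Agent.H25.W.KB_4 _ (hinj.ne n34) _ _
  have n32 := n23.symm
  have n42 := n24.symm
  have n43 := n34.symm
  rw [jp_eq hA hB, jp_eq hA hB]
  rcases cA with rfl | rfl | rfl <;> rcases cB with rfl | rfl | rfl <;>
    first
    | exact absurd rfl hAB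
    | (simp only [n23, n24, n42, n43, if_true, if_false, k2, k3, k4]
       push_cast
       ring)

/-- **The value, sorted marks.** -/
theorem value_sorted (g : Geo b) {h : ℕ} (h4 : 4 ≤ h) (hP : b.Pl h ⊆ b.B h) {c : Fin 4 → Bool × ℕ}
    (hc : ∀ j, (c j).2 < b.K) (hm : StrictMono fun j => b.mark 1 (c j)) (w : Bool)
    {i1 i2 i3 i4 : Fin 4} (n12 : i1 ≠ i2) (n13 : i1 ≠ i3) (n14 : i1 ≠ i4) (n23 : i2 ≠ i3)
    (n24 : i2 ≠ i4) (o34 : ky b (c i3) < ky b (c i4)) :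
    V0 b h (c i2) (c i3) (c i4) (fun ω => Sh.GW b c w h (cfg b h true ω)) (Sh.A b c w h i1) -
      V0 b h (c i2) (c i3) (c i4) (fun ω => Sh.GW b c w h (cfg b h false ω)) (Sh.A b c w h i1) =
    kap w * (ph⁻¹) ^ (NN (ky b) (c i1) (c i2) (c i3) (c i4)) *
      (b.PJ h (b.Piv h w (c 0) (c 1) (c 2) (c 3)) : ℂ) := by
  obtain ⟨S, D⟩ := exists_Sh g hc hm w
  have hh : 0 < h := by omega
  have hpos : ∀ i j : Fin 4, ky b (c i) < ky b (c j) ↔ j < i := by
    intro i j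
    rw [ky_lt_iff g (hc i) (hc j)]
    exact hm.lt_iff_lt
  have hs : snd2 b (c i3) (c i4) = c i4 := by unfold snd2; rw [if_pos o34]
  have hcT : ∀ ω ⊆ b.B h, cfg b h true ω ⊆ b.B h := fun ω hω => by
    unfold cfg; rw [if_pos rfl]; exact union_subset hω hP
  have hcF : ∀ ω ⊆ b.B h, cfg b h false ω ⊆ b.B h := fun ω hω => by
    unfold cfg; rw [if_neg (by simp)]; exact sdiff_subset.trans hω
  have e : ∀ (o : Bool) (j : Fin 4), i1 ≠ j → (∀ ω ⊆ b.B h, cfg b h o ω ⊆ b.B h) →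
      b.PJ h (fun ω => RF b (2 * h) (Sh.GW b c w h (cfg b h o ω)) (Sh.A b c w h i1) (c j)) =
      b.PJ h (fun ω => Sh.Pr4 (Sh.CrS b c w h (cfg b h o ω) ↔ w = true) i1 j) :=
    fun o j hj ho => PJ_congr fun ω hω => D.pair_iff hh h4 (ho ω hω) hj
  have hAB : ∀ ω ⊆ b.B h, Sh.CrS b c w h (cfg b h false ω) → Sh.CrS b c w h (cfg b h true ω) := by
    intro ω _
    refine cr_mono ?_
    unfold cfg
    rw [if_neg (by simp), if_pos rfl]
    exact sdiff_subset.trans subset_union_left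
  have j4 := pr_jump (h := h) (w := w) hAB i1 i4
  have j2 := pr_jump (h := h) (w := w) hAB i1 i2
  have hpv : b.PJ h (b.Piv h w (c 0) (c 1) (c 2) (c 3)) = b.PJ h (fun ω =>
      Sh.CrS b c w h (cfg b h true ω) ∧ ¬ Sh.CrS b c w h (cfg b h false ω)) := rfl
  rw [← hpv] at j4 j2
  have key := phase_jp (b := b) D.inj hpos n12 n13 n14 n23 n24 o34
  unfold V0
  rw [hs, e true i4 n14 hcT, e true i2 n12 hcT, e false i4 n14 hcF, e false i2 n12 hcF]
  rw [sub_eq_iff_eq_add] at j4 j2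
  rw [j4, j2]
  have e5 : kap w * (ph⁻¹) ^ (NN (ky b) (c i1) (c i2) (c i3) (c i4)) =
      (sg w : ℂ) * ((jp i1 i4 : ℂ) + K2 b (c i2) (c i3) (c i4) * (jp i1 i2 : ℂ)) := by
    rw [key]
    unfold Setup.kap sg
    cases w <;> simp
  rw [e5]
  push_cast
  ring

/-! ### Unsorted marks -/

lemma mark_inj (g : Geo b) {m m' : Bool × ℕ} (hm : m.2 < b.K) (hm' : m'.2 < b.K)
    (h : b.mark 1 m = b.mark 1 m') : m = m' := by
  have h1 := ky_lt_iff g hm hm'
  have h2 := ky_lt_iff g hm' hm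
  rw [h] at h1 h2
  have h3 : ky b m = ky b m' := by
    have a1 : ¬ ky b m < ky b m' := fun h => lt_irrefl _ (h1.1 h)
    have a2 : ¬ ky b m' < ky b m := fun h => lt_irrefl _ (h2.1 h)
    omega
  obtain ⟨s, i⟩ := m
  obtain ⟨s', j⟩ := m'
  unfold ky at h3
  simp only at hm hm' h3
  cases s <;> cases s' <;> simp only [Bool.false_eq_true, if_false, if_true] at h3
  · have : i = j := by omega
    rw [this]
  · omega
  · omega
  · have : i = j := by omega
    rw [this]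

/-- **Sorting four corners.** -/
theorem exists_sort (g : Geo b) {c1 c2 c3 c4 : Bool × ℕ} (k1 : c1.2 < b.K) (k2 : c2.2 < b.K)
    (k3 : c3.2 < b.K) (k4 : c4.2 < b.K) (n12 : c1 ≠ c2) (n13 : c1 ≠ c3) (n14 : c1 ≠ c4)
    (n23 : c2 ≠ c3) (n24 : c2 ≠ c4) (n34 : c3 ≠ c4) :
    ∃ (σ : Equiv.Perm (Fin 4)) (c : Fin 4 → Bool × ℕ), c = ![c1, c2, c3, c4] ∘ σ ∧
      (∀ j, (c j).2 < b.K) ∧ StrictMono (fun j => b.mark 1 (c j)) ∧
      univ.image c = {c1, c2, c3, c4} := by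
  have hk : ∀ j, (![c1, c2, c3, c4] j).2 < b.K := by
    intro j
    fin_cases j
    · exact k1
    · exact k2
    · exact k3
    · exact k4
  have hinj0 : Function.Injective ![c1, c2, c3, c4] := by
    intro i j hij
    fin_cases i <;> fin_cases j <;> simp at hij ⊢ <;> first
      | exact n12 hij
      | exact n13 hij
      | exact n14 hij
      | exact n23 hij
      | exact n24 hij
      | exact n34 hij
      | exact n12 hij.symm
      | exact n13 hij.symm
      | exact n14 hij.symm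
      | exact n23 hij.symm
      | exact n24 hij.symm
      | exact n34 hij.symm
  let f : Fin 4 → ℤ := fun j => b.mark 1 (![c1, c2, c3, c4] j)
  have hf : Function.Injective f := fun i j hij => hinj0 (mark_inj g (hk i) (hk j) hij)
  refine ⟨Tuple.sort f, ![c1, c2, c3, c4] ∘ Tuple.sort f, rfl, fun j => hk _, ?_, ?_⟩
  · have h1 : Monotone (f ∘ Tuple.sort f) := Tuple.monotone_sort f
    exact h1.strictMono_of_injective (hf.comp (Tuple.sort f).injective)
  · rw [← image_image, image_univ_equiv]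
    ext x
    simp only [mem_image, mem_univ, true_and, mem_insert, mem_singleton]
    constructor
    · rintro ⟨j, rfl⟩
      fin_cases j <;> simp
    · rintro (rfl | rfl | rfl | rfl)
      · exact ⟨0, rfl⟩
      · exact ⟨1, rfl⟩
      · exact ⟨2, rfl⟩
      · exact ⟨3, rfl⟩

/-- `Pv4` in terms of the sorted marks -/
theorem Pv4_iff {h : ℕ} (hh : 0 < h) {c1 c2 c3 c4 : Bool × ℕ} {σ : Equiv.Perm (Fin 4)}
    {c : Fin 4 → Bool × ℕ} (hc : c = ![c1, c2, c3, c4] ∘ σ)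
    (hm : StrictMono (fun j => b.mark 1 (c j))) (w : Bool) (ω : Finset (ℤ × ℤ)) :
    Pv4 b h w c1 c2 c3 c4 ω ↔ b.Piv h w (c 0) (c 1) (c 2) (c 3) ω := by
  have hn : (0 : ℤ) < 2 * h := by omega
  have hm' : StrictMono (fun j => b.mark (2 * h) (c j)) := by
    intro i j hij
    have : b.mark 1 (c i) < b.mark 1 (c j) := hm hij
    show b.mark (2 * (h : ℤ)) (c i) < b.mark (2 * (h : ℤ)) (c j)
    rw [mark_mul (2 * (h : ℤ)) (c i), mark_mul (2 * (h : ℤ)) (c j)]
    exact mul_lt_mul_of_pos_left this hn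
  constructor
  · rintro ⟨τ, h1, h2⟩
    have h3 : (fun i => b.mark (2 * h) ((![c1, c2, c3, c4] ∘ τ) i)) =
        fun j => b.mark (2 * h) (c j) := by
      rw [← StrictMono.range_inj h1 hm']
      have e1 : (fun i => b.mark (2 * (h : ℤ)) ((![c1, c2, c3, c4] ∘ τ) i)) =
          (fun m => b.mark (2 * h) m) ∘ ![c1, c2, c3, c4] ∘ τ := rfl
      have e2 : (fun j => b.mark (2 * (h : ℤ)) (c j)) =
          (fun m => b.mark (2 * h) m) ∘ ![c1, c2, c3, c4] ∘ σ := by rw [hc]; rfl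
      rw [e1, e2, ← Function.comp_assoc, ← Function.comp_assoc, τ.surjective.range_comp,
        σ.surjective.range_comp]
    have h4 : ∀ i, b.mark (2 * (h : ℤ)) ((![c1, c2, c3, c4] ∘ τ) i) = b.mark (2 * (h : ℤ)) (c i) :=
      fun i => congrFun h3 i
    unfold JBox.Piv at h2 ⊢
    rw [h4, h4, h4, h4] at h2
    exact h2
  · intro h1
    refine ⟨σ, ?_, ?_⟩
    · rw [← hc]; exact hm'
    · rw [← hc]; exact h1

lemma V0_symm (h : ℕ) {c2 c3 c4 : Bool × ℕ} (n : ky b c3 ≠ ky b c4)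
    (G : Finset (ℤ × ℤ) → SimpleGraph (ℤ × ℤ)) (z : ℤ × ℤ) :
    V0 b h c2 c3 c4 G z = V0 b h c2 c4 c3 G z := by
  have e1 : fst2 b c3 c4 = fst2 b c4 c3 := by
    unfold fst2
    rcases lt_or_gt_of_ne n with h | h
    · rw [if_pos h, if_neg (by omega)]
    · rw [if_neg (by omega), if_pos h]
  have e2 : snd2 b c3 c4 = snd2 b c4 c3 := by
    unfold snd2
    rcases lt_or_gt_of_ne n with h | h
    · rw [if_pos h, if_neg (by omega)]
    · rw [if_neg (by omega), if_pos h]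
  unfold V0 K2
  rw [e1, e2]

/-- **The value with four marks on the wall**, marks in any order. -/
theorem wall_value (g : Geo b) {h : ℕ} (h4 : 4 ≤ h) (hP : b.Pl h ⊆ b.B h)
    {c1 c2 c3 c4 : Bool × ℕ} (k1 : c1.2 < b.K) (k2 : c2.2 < b.K)
    (k3 : c3.2 < b.K) (k4 : c4.2 < b.K) (n12 : c1 ≠ c2) (n13 : c1 ≠ c3) (n14 : c1 ≠ c4)
    (n23 : c2 ≠ c3) (n24 : c2 ≠ c4) (n34 : c3 ≠ c4) (w : Bool) :
    V0 b h c2 c3 c4 (fun ω => GG b (2 * h) {c1, c2, c3, c4} (colM (bs w) {c1, c2, c3, c4} none) ∅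
        (cfg b h true ω)) (al b (2 * h) (colM (bs w) {c1, c2, c3, c4} none) c1) -
      V0 b h c2 c3 c4 (fun ω => GG b (2 * h) {c1, c2, c3, c4} (colM (bs w) {c1, c2, c3, c4} none) ∅
        (cfg b h false ω)) (al b (2 * h) (colM (bs w) {c1, c2, c3, c4} none) c1) =
    kap w * (ph⁻¹) ^ (NN (ky b) c1 c2 c3 c4) * (pf b h w c1 c2 c3 c4 : ℂ) := by
  obtain ⟨σ, c, hc, hk, hm, hM⟩ := exists_sort g k1 k2 k3 k4 n12 n13 n14 n23 n24 n34
  have e1 : c (σ.symm 0) = c1 := by rw [hc]; simp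
  have e2 : c (σ.symm 1) = c2 := by rw [hc]; simp
  have e3 : c (σ.symm 2) = c3 := by rw [hc]; simp
  have e4 : c (σ.symm 3) = c4 := by rw [hc]; simp
  have hne : ∀ {i j : Fin 4}, i ≠ j → σ.symm i ≠ σ.symm j := fun h => σ.symm.injective.ne h
  have hpf : pf b h w c1 c2 c3 c4 = b.PJ h (b.Piv h w (c 0) (c 1) (c 2) (c 3)) :=
    PJ_congr fun ω _ => Pv4_iff (by omega) hc hm w ω
  have hky : ky b c3 ≠ ky b c4 := by
    intro he
    apply n34
    apply mark_inj g k3 k4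
    have h1 := ky_lt_iff g k3 k4
    have h2 := ky_lt_iff g k4 k3
    rw [he] at h1 h2
    have a1 : ¬ b.mark 1 c4 < b.mark 1 c3 := fun h => lt_irrefl _ (h1.2 h)
    have a2 : ¬ b.mark 1 c3 < b.mark 1 c4 := fun h => lt_irrefl _ (h2.2 h)
    omega
  rw [hpf]
  rcases lt_or_gt_of_ne hky with o | o
  · have key := value_sorted g h4 hP hk hm w (hne (show (0 : Fin 4) ≠ 1 by decide))
      (hne (show (0 : Fin 4) ≠ 2 by decide)) (hne (show (0 : Fin 4) ≠ 3 by decide))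
      (hne (show (1 : Fin 4) ≠ 2 by decide)) (hne (show (1 : Fin 4) ≠ 3 by decide))
      (by rw [e3, e4]; exact o)
    unfold Sh.GW Sh.A at key
    rw [e1, e2, e3, e4, hM] at key
    exact key
  · have key := value_sorted g h4 hP hk hm w (hne (show (0 : Fin 4) ≠ 1 by decide))
      (hne (show (0 : Fin 4) ≠ 3 by decide)) (hne (show (0 : Fin 4) ≠ 2 by decide))
      (hne (show (1 : Fin 4) ≠ 3 by decide)) (hne (show (1 : Fin 4) ≠ 2 by decide))
      (by rw [e3, e4]; exact o)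
    unfold Sh.GW Sh.A at key
    rw [e1, e2, e3, e4, hM] at key
    rw [V0_symm h hky, V0_symm h hky, key]
    have e5 : NN (ky b) c1 c2 c4 c3 = NN (ky b) c1 c2 c3 c4 := by unfold NN; ring
    rw [e5]

end Pool.Agent.H50.W.JC
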