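import Mathlib
import Pool.Agent.H50.W.JVal
import Pool.Agent.H71.W.JGeo

set_option autoImplicit false
open Finset

/-! # The phase of the passages -/

namespace Pool.Agent.H50.W.JC

open Filter
open Pool.Agent.H6.W
open Pool.Agent.H61.W
open Pool.Agent.H25.W (NN)
open Pool.Agent.H73.W (ph)

lemma ph_zpow (N : ℤ) : (ph⁻¹) ^ N = Complex.exp (-(Real.pi / 3 * N : ℝ) * Complex.I) := by
  unfold Pool.Agent.H73.W.ph
  rw [← Complex.exp_neg, ← Complex.exp_int_mul]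
  congr 1
  push_cast
  ring

variable {σ : ℝ}

/-- **The phase in terms of the angles.** -/
theorem phs_eq (S : Setup σ) {p c : Bool × ℝ} (n12 : p ≠ c) (n13 : p ≠ S.b3) (n14 : p ≠ S.b4)
    (n23 : c ≠ S.b3) (n24 : c ≠ S.b4) : ∀ᶠ k in atTop,
    (ph⁻¹) ^ (NN (ky (S.B k)) (cor (S.B k) p) (cor (S.B k) c) (cor (S.B k) S.b3) (cor (S.B k) S.b4)) =
      phs (ang p) (ang c) (ang S.b3) (ang S.b4) := by
  filter_upwards [Pool.Agent.H71.W.Setup.ky_cor_iff S n12.symm,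
    Pool.Agent.H71.W.Setup.ky_cor_iff S n13.symm, Pool.Agent.H71.W.Setup.ky_cor_iff S n14.symm,
    Pool.Agent.H71.W.Setup.ky_cor_iff S n23.symm, Pool.Agent.H71.W.Setup.ky_cor_iff S n24.symm]
    with k e1 e2 e3 e4 e5
  rw [ph_zpow]
  unfold phs passN NN
  simp only [e1, e2, e3, e4, e5]
  congr 2
  push_cast
  ring

/-- the world with the four marks `p, c, b3, b4` on the wall -/
noncomputable def GWl (S : Setup σ) (k n : ℕ) (p c : Bool × ℝ) (o : Bool) (ω : Finset (ℤ × ℤ)) :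
    SimpleGraph (ℤ × ℤ) :=
  GG (S.B k) (2 * S.h k n) {cor (S.B k) p, cor (S.B k) c, cor (S.B k) S.b3, cor (S.B k) S.b4}
    (colM (bs S.w) {cor (S.B k) p, cor (S.B k) c, cor (S.B k) S.b3, cor (S.B k) S.b4} none) ∅
    (cfg (S.B k) (S.h k n) o ω)

/-- the alive corner of the mark `p` in this world -/
noncomputable def alc (S : Setup σ) (k n : ℕ) (p c : Bool × ℝ) : ℤ × ℤ :=
  al (S.B k) (2 * S.h k n)
    (colM (bs S.w) {cor (S.B k) p, cor (S.B k) c, cor (S.B k) S.b3, cor (S.B k) S.b4} none)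
    (cor (S.B k) p)

/-- **The value at the mark `p` on the wall is the boundary value of the field `XBd`.** -/
theorem setup_value (S : Setup σ) {p c : Bool × ℝ} (n12 : p ≠ c) (n13 : p ≠ S.b3) (n14 : p ≠ S.b4)
    (n23 : c ≠ S.b3) (n24 : c ≠ S.b4) : ∀ᶠ k in atTop, ∀ n, 4 ≤ S.h k n →
    (S.B k).Pl (S.h k n) ⊆ (S.B k).B (S.h k n) →
    V0 (S.B k) (S.h k n) (cor (S.B k) c) (cor (S.B k) S.b3) (cor (S.B k) S.b4)
        (GWl S k n p c true) (alc S k n p c) -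
      V0 (S.B k) (S.h k n) (cor (S.B k) c) (cor (S.B k) S.b3) (cor (S.B k) S.b4)
        (GWl S k n p c false) (alc S k n p c) =
    Setup.kap S.w * phs (ang p) (ang c) (ang S.b3) (ang S.b4) * S.p k n p c := by
  filter_upwards [phs_eq S n12 n13 n14 n23 n24, Pool.Agent.H71.W.Setup.cor_ne S n12,
    Pool.Agent.H71.W.Setup.cor_ne S n13, Pool.Agent.H71.W.Setup.cor_ne S n14,
    Pool.Agent.H71.W.Setup.cor_ne S n23, Pool.Agent.H71.W.Setup.cor_ne S n24,
    Pool.Agent.H71.W.Setup.cor_ne S S.ne, Pool.Agent.H71.W.Setup.cor_spec S p,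
    Pool.Agent.H71.W.Setup.cor_spec S c, Pool.Agent.H71.W.Setup.cor_spec S S.b3,
    Pool.Agent.H71.W.Setup.cor_spec S S.b4] with k e m12 m13 m14 m23 m24 m34 s1 s2 s3 s4 n h4 hP
  have g := geo_of_ok (S.ok k) (S.pos k)
  rw [← e]
  exact wall_value g h4 hP s1.1 s2.1 s3.1 s4.1 m12 m13 m14 m23 m24 m34 S.w

end Pool.Agent.H50.W.JC
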