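import Mathlib
import Pool.Agent.H50.W.JPhs
import Pool.Agent.H50.W.JNumF
import Pool.Agent.H80.W.XPSc

set_option autoImplicit false

/-! # XBd from the laws of the far end

`eW` : difference of the probabilities that the moving end near the wall and the mark on the wall have the far
end `q`. `XW` : its scale form. `xbds_of_xw` : `XBdS` from `XW`. -/

namespace Pool.Agent.H50.W.JF

open Filter Topology
open Pool.Agent.H6.W Pool.Agent.H61.W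
open Pool.Agent.H87.Fld (Rb ScB EvB XBdS)
open Pool.Agent.H50.W.JC (al geo_of_ok wall_value phs_eq)
open Pool.Agent.H25.W (NN)
open Pool.Agent.H73.W (ph)

/-! ### Sequences and boxes -/

/-- a property of all fine boxes from the property of the late boxes of all sequences -/
theorem box_of_setup {σ : ℝ} {b3 b4 : Bool × ℝ} (ne : b3 ≠ b4) {P : JBox → Prop}
    (H : ∀ S : Setup σ, S.b3 = b3 → S.b4 = b4 → ∀ᶠ k in atTop, P (S.B k)) :
    ∃ δ1 > 0, ∀ (b : JBox) (δ : ℝ), 0 < δ → δ ≤ δ1 → b.Ok δ σ → P b := by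
  by_contra hc
  push Not at hc
  have h0 : ∀ k : ℕ, ∃ (b : JBox) (δ : ℝ), 0 < δ ∧ δ ≤ 1 / ((k : ℝ) + 1) ∧ b.Ok δ σ ∧ ¬ P b :=
    fun k => hc (1 / ((k : ℝ) + 1)) (by positivity)
  choose B δ h1 h2 h3 h4 using h0
  have hlim : Tendsto δ atTop (𝓝 0) :=
    squeeze_zero (fun k => (h1 k).le) h2 tendsto_one_div_add_atTop_nhds_zero_nat
  let S : Setup σ :=
    { B := B, δ := δ, h := fun _ n => n, w := true, b3 := b3, b4 := b4, ok := h3, pos := h1,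
      lim := hlim, mono := fun _ => strictMono_id, ne := ne }
  obtain ⟨k, hk⟩ := (H S rfl rfl).exists
  exact h4 k hk

/-- the chunk is in the box -/
lemma Pl_box (σ : ℝ) : ∃ δ1 > 0, ∀ (b : JBox) (δ : ℝ), 0 < δ → δ ≤ δ1 → b.Ok δ σ → ∀ h : ℕ, 0 < h →
    b.Pl h ⊆ b.B h := by
  refine ⟨min (1 / 16) (1 / (|σ| + 1)), lt_min (by norm_num) (by positivity), fun b δ hδ hδ0 hb h hh => ?_⟩
  rw [le_min_iff] at hδ0
  obtain ⟨d2, d6⟩ := hδ0
  have d6' : δ * (|σ| + 1) ≤ 1 := by rwa [le_div_iff₀ (by positivity)] at d6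
  have hH := Pool.Agent.H71.W.H_pos hb
  refine Pool.Agent.H71.W.Pl_sub hb hh (m_le hb ?_) ?_
  · calc σ * δ ≤ (|σ| + 1) * δ := mul_le_mul_of_nonneg_right (by linarith [le_abs_self σ]) hδ.le
      _ = δ * (|σ| + 1) := by ring
      _ ≤ 1 := d6'
  · have h1 := Pool.Agent.H71.W.thin hb
    have h3 : 2 * δ * b.H ≤ 2 * (1 / 16) * b.H := mul_le_mul_of_nonneg_right (by linarith) hH.le
    have h2 : ((b.τ : ℝ) + Pool.Agent.H21.W.nP b) ≤ b.H := by linarith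
    exact_mod_cast h2

/-- **The corners of four boundary points in fine boxes.** -/
theorem box_four {σ : ℝ} {p c b3 b4 : Bool × ℝ} (n12 : p ≠ c) (n13 : p ≠ b3) (n14 : p ≠ b4)
    (n23 : c ≠ b3) (n24 : c ≠ b4) (n34 : b3 ≠ b4) :
    ∃ δ1 > 0, ∀ (b : JBox) (δ : ℝ), 0 < δ → δ ≤ δ1 → b.Ok δ σ →
      ((cor b p).2 < b.K ∧ (cor b c).2 < b.K ∧ (cor b b3).2 < b.K ∧ (cor b b4).2 < b.K) ∧
      (cor b p ≠ cor b c ∧ cor b p ≠ cor b b3 ∧ cor b p ≠ cor b b4 ∧ cor b c ≠ cor b b3 ∧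
        cor b c ≠ cor b b4 ∧ cor b b3 ≠ cor b b4) ∧
      (ph⁻¹) ^ (NN (ky b) (cor b p) (cor b c) (cor b b3) (cor b b4)) =
        phs (ang p) (ang c) (ang b3) (ang b4) := by
  refine box_of_setup n34 fun S h3 h4 => ?_
  subst h3 h4
  filter_upwards [phs_eq S n12 n13 n14 n23 n24, Pool.Agent.H71.W.Setup.cor_ne S n12,
    Pool.Agent.H71.W.Setup.cor_ne S n13, Pool.Agent.H71.W.Setup.cor_ne S n14,
    Pool.Agent.H71.W.Setup.cor_ne S n23, Pool.Agent.H71.W.Setup.cor_ne S n24,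
    Pool.Agent.H71.W.Setup.cor_ne S n34, Pool.Agent.H71.W.Setup.cor_spec S p,
    Pool.Agent.H71.W.Setup.cor_spec S c, Pool.Agent.H71.W.Setup.cor_spec S S.b3,
    Pool.Agent.H71.W.Setup.cor_spec S S.b4] with k e m12 m13 m14 m23 m24 m34 s1 s2 s3 s4
  exact ⟨⟨s1.1, s2.1, s3.1, s4.1⟩, ⟨m12, m13, m14, m23, m24, m34⟩, e⟩

/-! ### The world with the mark on the wall -/

/-- the world with the four marks on the wall -/
noncomputable def GC (b : JBox) (h : ℕ) (w : Bool) (c1 c2 c3 c4 : Bool × ℕ) (o : Bool)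
    (ω : Finset (ℤ × ℤ)) : SimpleGraph (ℤ × ℤ) :=
  GG b (2 * h) {c1, c2, c3, c4} (colM (bs w) {c1, c2, c3, c4} none) ∅ (cfg b h o ω)

/-- the alive corner of `c1` -/
noncomputable def ac (b : JBox) (h : ℕ) (w : Bool) (c1 c2 c3 c4 : Bool × ℕ) : ℤ × ℤ :=
  al b (2 * h) (colM (bs w) {c1, c2, c3, c4} none) c1

/-- difference of the laws of the far end: moving end `v` against the mark `c1` on the wall -/
noncomputable def eW (b : JBox) (h : ℕ) (w o : Bool) (c1 c2 c3 c4 q : Bool × ℕ) (v : ℤ × ℤ) : ℝ :=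
  |b.PJ h (fun ω => RF b (2 * h) (GX b h w c2 c3 c4 v o ω) (zc v) q) -
    b.PJ h (fun ω => RF b (2 * h) (GC b h w c1 c2 c3 c4 o ω) (ac b h w c1 c2 c3 c4) q)|

/-- one mark `j`, one state `o` of `P` -/
def XW (σ : ℝ) (w o : Bool) (p c b3 b4 : Bool × ℝ) (j : Fin 3) : Prop :=
  ScB σ (bdp p) Set.univ fun b h v =>
    eW b h w o (cor b p) (cor b c) (cor b b3) (cor b b4) (![cor b c, cor b b3, cor b b4] j) v

/-- **The value at the mark, fine boxes.** -/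
theorem box_value {σ : ℝ} (w : Bool) {p c b3 b4 : Bool × ℝ} (n12 : p ≠ c) (n13 : p ≠ b3) (n14 : p ≠ b4)
    (n23 : c ≠ b3) (n24 : c ≠ b4) (n34 : b3 ≠ b4) :
    ∃ δ1 > 0, ∀ (b : JBox) (δ : ℝ), 0 < δ → δ ≤ δ1 → b.Ok δ σ → ∀ h : ℕ, 4 ≤ h →
      V0 b h (cor b c) (cor b b3) (cor b b4) (GC b h w (cor b p) (cor b c) (cor b b3) (cor b b4) true)
          (ac b h w (cor b p) (cor b c) (cor b b3) (cor b b4)) -
        V0 b h (cor b c) (cor b b3) (cor b b4) (GC b h w (cor b p) (cor b c) (cor b b3) (cor b b4) false)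
          (ac b h w (cor b p) (cor b c) (cor b b3) (cor b b4)) =
      Setup.kap w * phs (ang p) (ang c) (ang b3) (ang b4) *
        pf b h w (cor b p) (cor b c) (cor b b3) (cor b b4) := by
  obtain ⟨δ1, h1, H1⟩ := box_four (σ := σ) n12 n13 n14 n23 n24 n34
  obtain ⟨δ2, h2, H2⟩ := Pl_box σ
  refine ⟨min δ1 δ2, lt_min h1 h2, fun b δ hδ hδ0 hb h hh => ?_⟩
  rw [le_min_iff] at hδ0
  obtain ⟨⟨k1, k2, k3, k4⟩, ⟨m12, m13, m14, m23, m24, m34⟩, e⟩ := H1 b δ hδ hδ0.1 hb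
  rw [← e]
  exact wall_value (geo_of_ok hb hδ) hh (H2 b δ hδ hδ0.2 hb h (by omega)) k1 k2 k3 k4 m12 m13 m14 m23
    m24 m34 w

/-- values of two worlds with close laws -/
lemma V0_diff (b : JBox) (h : ℕ) (w o : Bool) (c1 c2 c3 c4 : Bool × ℕ) (v : ℤ × ℤ) :
    ‖V0 b h c2 c3 c4 (GX b h w c2 c3 c4 v o) (zc v) -
      V0 b h c2 c3 c4 (GC b h w c1 c2 c3 c4 o) (ac b h w c1 c2 c3 c4)‖ ≤
      eW b h w o c1 c2 c3 c4 (![c2, c3, c4] 0) v + (eW b h w o c1 c2 c3 c4 (![c2, c3, c4] 1) v +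
        eW b h w o c1 c2 c3 c4 (![c2, c3, c4] 2) v) := by
  have h2 : eW b h w o c1 c2 c3 c4 (snd2 b c3 c4) v ≤
      eW b h w o c1 c2 c3 c4 (![c2, c3, c4] 1) v + eW b h w o c1 c2 c3 c4 (![c2, c3, c4] 2) v := by
    have p1 : 0 ≤ eW b h w o c1 c2 c3 c4 (![c2, c3, c4] 1) v := abs_nonneg _
    have p2 : 0 ≤ eW b h w o c1 c2 c3 c4 (![c2, c3, c4] 2) v := abs_nonneg _
    unfold snd2
    split_ifs
    · have : eW b h w o c1 c2 c3 c4 c4 v = eW b h w o c1 c2 c3 c4 (![c2, c3, c4] 2) v := rfl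
      linarith
    · have : eW b h w o c1 c2 c3 c4 c3 v = eW b h w o c1 c2 c3 c4 (![c2, c3, c4] 1) v := rfl
      linarith
  unfold V0
  have e : ∀ a a' k c c' : ℂ, (a + k * c) - (a' + k * c') = (a - a') + k * (c - c') := by
    intros; ring
  rw [e]
  refine (norm_add_le _ _).trans ?_
  rw [norm_mul, norm_K2, one_mul, ← Complex.ofReal_sub, ← Complex.ofReal_sub, Complex.norm_real,
    Complex.norm_real, Real.norm_eq_abs, Real.norm_eq_abs]
  have h3 : |b.PJ h (fun ω => RF b (2 * h) (GX b h w c2 c3 c4 v o ω) (zc v) (snd2 b c3 c4)) -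
      b.PJ h (fun ω => RF b (2 * h) (GC b h w c1 c2 c3 c4 o ω) (ac b h w c1 c2 c3 c4) (snd2 b c3 c4))| =
      eW b h w o c1 c2 c3 c4 (snd2 b c3 c4) v := rfl
  have h4 : |b.PJ h (fun ω => RF b (2 * h) (GX b h w c2 c3 c4 v o ω) (zc v) c2) -
      b.PJ h (fun ω => RF b (2 * h) (GC b h w c1 c2 c3 c4 o ω) (ac b h w c1 c2 c3 c4) c2)| =
      eW b h w o c1 c2 c3 c4 (![c2, c3, c4] 0) v := rfl
  rw [h3, h4]
  linarith

/-- comparison in fine boxes -/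
theorem scb_ev {σ : ℝ} {z0 : ℂ} {Z : Set ℂ} {e e' : JBox → ℕ → ℤ × ℤ → ℝ} (H : ScB σ z0 Z e)
    (h : ∃ δ1 > 0, ∀ (b : JBox) (δ : ℝ), 0 < δ → δ ≤ δ1 → b.Ok δ σ → ∃ h1 : ℕ, ∀ k ≥ h1, ∀ v,
      e' b k v ≤ e b k v) : ScB σ z0 Z e' := by
  obtain ⟨C, c, r0, hc, hr0, H⟩ := H
  obtain ⟨δ1, hδ1, H1⟩ := h
  refine ⟨C, c, r0, hc, hr0, fun s hs hsr η hη => ?_⟩
  obtain ⟨δ2, hδ2, h2⟩ := H s hs hsr η hη
  refine ⟨min δ1 δ2, lt_min hδ1 hδ2, fun b δ hδ hδ0 hb K hK hKc => ?_⟩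
  rw [le_min_iff] at hδ0
  obtain ⟨h3, H3⟩ := H1 b δ hδ hδ0.1 hb
  obtain ⟨h4, H4⟩ := h2 b δ hδ hδ0.2 hb K hK hKc
  exact ⟨max h3 h4, fun k hk v hv hv' => (H3 k (le_of_max_le_left hk) v).trans
    (H4 k (le_of_max_le_right hk) v hv hv')⟩

/-- **`XBdS` from the laws of the far end.** -/
theorem xbds_of_xw {σ : ℝ} {w : Bool} {p c b3 b4 : Bool × ℝ} (n12 : p ≠ c) (n13 : p ≠ b3) (n14 : p ≠ b4)
    (n23 : c ≠ b3) (n24 : c ≠ b4) (n34 : b3 ≠ b4)
    (H : ∀ (o : Bool) (j : Fin 3), XW σ w o p c b3 b4 j) : XBdS σ w p c b3 b4 := by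
  have h1 := ((H true 0).add ((H true 1).add (H true 2))).add
    ((H false 0).add ((H false 1).add (H false 2)))
  obtain ⟨δ1, hδ1, H1⟩ := box_value (σ := σ) w n12 n13 n14 n23 n24 n34
  refine scb_ev h1 ⟨δ1, hδ1, fun b δ hδ hδ0 hb => ⟨4, fun h hh v => ?_⟩⟩
  rw [← H1 b δ hδ hδ0 hb h hh]
  have e : Xf b h w (cor b c) (cor b b3) (cor b b4) v -
      (V0 b h (cor b c) (cor b b3) (cor b b4) (GC b h w (cor b p) (cor b c) (cor b b3) (cor b b4) true)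
          (ac b h w (cor b p) (cor b c) (cor b b3) (cor b b4)) -
        V0 b h (cor b c) (cor b b3) (cor b b4) (GC b h w (cor b p) (cor b c) (cor b b3) (cor b b4) false)
          (ac b h w (cor b p) (cor b c) (cor b b3) (cor b b4))) =
      (V0 b h (cor b c) (cor b b3) (cor b b4) (GX b h w (cor b c) (cor b b3) (cor b b4) v true) (zc v) -
        V0 b h (cor b c) (cor b b3) (cor b b4) (GC b h w (cor b p) (cor b c) (cor b b3) (cor b b4) true)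
          (ac b h w (cor b p) (cor b c) (cor b b3) (cor b b4))) -
      (V0 b h (cor b c) (cor b b3) (cor b b4) (GX b h w (cor b c) (cor b b3) (cor b b4) v false) (zc v) -
        V0 b h (cor b c) (cor b b3) (cor b b4) (GC b h w (cor b p) (cor b c) (cor b b3) (cor b b4) false)
          (ac b h w (cor b p) (cor b c) (cor b b3) (cor b b4))) := by
    unfold Xf
    ring
  rw [e]
  exact (norm_sub_le _ _).trans (add_le_add (V0_diff _ _ _ _ _ _ _ _ _) (V0_diff _ _ _ _ _ _ _ _ _))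

end Pool.Agent.H50.W.JF
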