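import Mathlib
import Pool.Agent.H50.W.JXW
import Pool.Agent.H87.W.JForce

set_option autoImplicit false

/-! # XBd, the floor: from the floor move and the forced row to the laws of the far end -/

namespace Pool.Agent.H50.W.JF

open Filter Topology
open Pool.Agent.H6.W Pool.Agent.H61.W
open Pool.Agent.H87.Fld (Rb ScB EvB XBdS)
open Pool.Agent.H87.W (force)
open Pool.Agent.H50.W.JC (al geo_of_ok wall_value phs_eq)
open Pool.Agent.Q1.M4 (lat)

/-- the world with the marks `M` on the wall and the forced row right of the mark `(false, i)` -/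
noncomputable def GF (b : JBox) (h : ℕ) (w : Bool) (i : ℕ) (M : Finset (Bool × ℕ)) (o : Bool)
    (ω : Finset (ℤ × ℤ)) : SimpleGraph (ℤ × ℤ) :=
  GG b (2 * h) M (colM (bs w) M none) ∅ (force b h (false, i) (colM (bs w) M none) (cfg b h o ω))

/-- difference of the laws of the far end: moving end `v` against the mark `(false, i)`, forced row -/
noncomputable def eXf (b : JBox) (h : ℕ) (w o : Bool) (i : ℕ) (c2 c3 c4 q : Bool × ℕ) (v : ℤ × ℤ) : ℝ :=
  |b.PJ h (fun ω => RF b (2 * h) (GX b h w c2 c3 c4 v o ω) (zc v) q) -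
    b.PJ h (fun ω => RF b (2 * h) (GF b h w i {(false, i), c2, c3, c4} o ω)
      (ac b h w (false, i) c2 c3 c4) q)|

/-- **(A)** the floor move in error form -/
def FloorX (σ : ℝ) : Prop :=
  ∃ C0 α : ℝ, 0 < C0 ∧ 0 < α ∧ ∀ (δ : ℝ) (b : JBox) (h i : ℕ) (c2 c3 c4 q : Bool × ℕ) (v : ℤ × ℤ)
    (xl xr yt B ρ R : ℤ) (w o : Bool), b.Ok δ σ → NumF b h i {c2, c3, c4} v xl xr yt B ρ R →
    InQ b (2 * h) v.1 v.2 → (false, i) ≠ c2 → (false, i) ≠ c3 → (false, i) ≠ c4 → c2 ≠ c3 → c2 ≠ c4 →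
    c3 ≠ c4 → q = c2 ∨ q = c3 ∨ q = c4 → eXf b h w o i c2 c3 c4 q v ≤ C0 * ((ρ : ℝ) / R) ^ α

/-- **(B)** the forced row -/
def RowX (σ : ℝ) : Prop :=
  ∀ (b : JBox) (δ : ℝ), 0 < δ → δ ≤ 1 → b.Ok δ σ → ∀ ε > (0 : ℝ), ∃ h0 : ℕ, ∀ h : ℕ, h0 ≤ h →
    ∀ (w o : Bool) (i : ℕ) (M : Finset (Bool × ℕ)) (q0 q : Bool × ℕ) (z : ℤ × ℤ), i < b.K →
      (∀ c ∈ M, c.2 < b.K) → q0 ∈ M → q ∈ M → (z = f1 b (2 * h) q0 ∨ z = f2 b (2 * h) q0) →
      |b.PJ h (fun ω => RF b (2 * h) (GF b h w i M o ω) z q) -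
        b.PJ h (fun ω => RF b (2 * h) (GG b (2 * h) M (colM (bs w) M none) ∅ (cfg b h o ω)) z q)| ≤ ε

/-- **The laws of the far end at the floor.** -/
theorem xw_floor {σ : ℝ} (hA : FloorX σ) (hB : RowX σ) {x : ℝ} {c b3 b4 : Bool × ℝ}
    (n12 : (false, x) ≠ c) (n13 : (false, x) ≠ b3) (n14 : (false, x) ≠ b4)
    (n23 : c ≠ b3) (n24 : c ≠ b4) (n34 : b3 ≠ b4) (w o : Bool) (j : Fin 3) :
    XW σ w o (false, x) c b3 b4 j := by
  classical
  obtain ⟨C0, α, hC0, hα, HA⟩ := hA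
  have hp : (false, x) ∉ ({c, b3, b4} : Finset (Bool × ℝ)) := by
    simp only [Finset.mem_insert, Finset.mem_singleton, not_or]
    exact ⟨n12, n13, n14⟩
  obtain ⟨r0, hr0, H⟩ := exists_num (σ := σ) {c, b3, b4} hp
  refine ⟨C0 * 2 ^ α, α, r0, hα, hr0, fun s hs hsr η hη => ?_⟩
  obtain ⟨δ1, hδ1, H1⟩ := H s hs hsr
  obtain ⟨δ2, hδ2, H2⟩ := box_four (σ := σ) n12 n13 n14 n23 n24 n34
  refine ⟨min (min δ1 δ2) 1, lt_min (lt_min hδ1 hδ2) one_pos, fun b δ hδ hδ0 hb K hK hKc => ?_⟩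
  simp only [le_min_iff] at hδ0
  obtain ⟨⟨d1, d2⟩, d3⟩ := hδ0
  obtain ⟨h1, H3⟩ := H1 b δ hδ d1 hb
  obtain ⟨h2, H4⟩ := hB b δ hδ d3 hb η hη
  refine ⟨max (max h1 h2) 1, fun h hh v hv hv' => ?_⟩
  have g1 : h1 ≤ h := ((le_max_left _ _).trans (le_max_left _ _)).trans hh
  have g2 : h2 ≤ h := ((le_max_right _ _).trans (le_max_left _ _)).trans hh
  have g3 : 1 ≤ h := (le_max_right _ _).trans hh
  obtain ⟨T, B, ρ, R, hρ, hR, hρR, H5⟩ := H3 h g1
  have N := H5 v hv'.1 {cor b c, cor b b3, cor b b4} (by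
    intro a ha
    simp only [Finset.mem_insert, Finset.mem_singleton] at ha
    rcases ha with rfl | rfl | rfl
    · exact ⟨c, by simp, rfl⟩
    · exact ⟨b3, by simp, rfl⟩
    · exact ⟨b4, by simp, rfl⟩)
  have hInQ : InQ b (2 * h) v.1 v.2 := by
    have : InR b (2 * h) v.1 v.2 := by
      refine Pool.Agent.H71.W.InR_of_mem hb (by omega) ?_
      have e : ((2 * h * b.H : ℝ) : ℂ) = (Rb b h : ℂ) := by unfold Rb; push_cast; ring
      rw [e]
      exact hK hv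
    exact this.1
  obtain ⟨⟨k1, k2, k3, k4⟩, ⟨m12, m13, m14, m23, m24, m34⟩, -⟩ := H2 b δ hδ d2 hb
  have ec : cor b (false, x) = (false, (cor b (false, x)).2) := rfl
  set q : Bool × ℕ := ![cor b c, cor b b3, cor b b4] j with hq
  have hq' : q = cor b c ∨ q = cor b b3 ∨ q = cor b b4 := by
    rw [hq]
    fin_cases j <;> simp
  have e1 := HA δ b h (cor b (false, x)).2 _ _ _ q v _ _ _ B ρ R w o hb N hInQ m12 m13 m14 m23 m24 m34 hq'
  have e2 := H4 h g2 w o (cor b (false, x)).2 {cor b (false, x), cor b c, cor b b3, cor b b4}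
    (cor b (false, x)) q (ac b h w (cor b (false, x)) (cor b c) (cor b b3) (cor b b4)) k1 (by
      intro a ha
      simp only [Finset.mem_insert, Finset.mem_singleton] at ha
      rcases ha with rfl | rfl | rfl | rfl
      · exact k1
      · exact k2
      · exact k3
      · exact k4) (by simp) (by
      simp only [Finset.mem_insert, Finset.mem_singleton]
      exact Or.inr hq') (Pool.Agent.H50.W.JC.al_or _ _ _)
  have e3 : eW b h w o (cor b (false, x)) (cor b c) (cor b b3) (cor b b4) q v ≤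
      eXf b h w o (cor b (false, x)).2 (cor b c) (cor b b3) (cor b b4) q v + η :=
    (abs_sub_le _ _ _).trans (add_le_add le_rfl e2)
  have hx0 : 0 ≤ (ρ : ℝ) / R := by
    have h1 : (0 : ℝ) < ρ := by exact_mod_cast hρ
    have h2 : (0 : ℝ) < R := by exact_mod_cast hR
    positivity
  have e4 : ((ρ : ℝ) / R) ^ α ≤ 2 ^ α * (s / r0) ^ α := by
    rw [← Real.mul_rpow (by norm_num) (by positivity)]
    exact Real.rpow_le_rpow hx0 hρR hα.le
  calc eW b h w o (cor b (false, x)) (cor b c) (cor b b3) (cor b b4) q v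
      ≤ C0 * ((ρ : ℝ) / R) ^ α + η := by linarith
    _ ≤ C0 * (2 ^ α * (s / r0) ^ α) + η := by
        have := mul_le_mul_of_nonneg_left e4 hC0.le
        linarith
    _ = C0 * 2 ^ α * (s / r0) ^ α + η := by ring

end Pool.Agent.H50.W.JF
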