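import Mathlib
import Pool.Agent.H50.W.JXBd
import Pool.Agent.H50.W.FNum
import Pool.Agent.H87.W.JX
import Pool.Agent.H28.W.JRowV
import Pool.Agent.H7.W.JCeilX

set_option autoImplicit false
open Finset

/-! # XBd: the boundary values of `X` at all boundary points off the marks -/

namespace Pool.Agent.H50.W.JF

open Pool.Agent.H6.W Pool.Agent.H61.W
open Pool.Agent.H87.Fld (XBdS)

lemma al_al {b : JBox} {n : ℤ} (hn : n % 2 = 0) {cl : Cl} {q : Bool × ℕ} :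
    Pool.Agent.H50.W.JC.al b n cl q = Pool.Agent.H45.W.al b n cl q := by
  unfold Pool.Agent.H45.W.al
  have h1 := Pool.Agent.H45.W.isF1_even (b := b) (q := q) (cl := cl) hn
  unfold Pool.Agent.H50.W.JC.al
  have h2 : Pool.Agent.H45.W.cc cl q (q.2 + 1) = (if q.1 then cl.u (q.2 + 1) else cl.l (q.2 + 1)) := rfl
  rw [← h2]
  generalize Pool.Agent.H45.W.cc cl q (q.2 + 1) = A at *
  cases A
  · rw [if_neg (by decide), if_pos (h1.2 rfl)]
  · rw [if_pos rfl, if_neg (fun g => by have := h1.1 g; cases this)]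

/-- **(A)** -/
theorem floorX (σ : ℝ) : FloorX σ := by
  obtain ⟨C0, α, hC0, hα, H⟩ := Pool.Agent.H87.W.moveX
  refine ⟨C0, α, hC0, hα, ?_⟩
  intro δ b h i c2 c3 c4 q v xl xr yt B ρ R w o hb N hQ n1 n2 n3 n23 n24 n34 hq
  have h1 := H (q := q) w o (N.fN hb hQ) (by
    simp only [mem_insert, mem_singleton, not_or]
    exact ⟨n1, n2, n3⟩) n23 n24 n34 N.plB (by
    simp only [mem_insert, mem_singleton]
    exact hq)
  unfold eXf ac
  rw [al_al (by omega)]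
  exact h1

/-- **(B)** -/
theorem rowX {σ : ℝ} (hσ : σ ≤ 1) : RowX σ :=
  fun _ _ _ hd hb _ hε => Pool.Agent.H28.W.row_X hb hd hσ hε

/-- **XBd, scale form**, all boundary points off the marks. -/
theorem xbds_all {σ : ℝ} (hσ : σ ≤ 1) (w : Bool) {p c b3 b4 : Bool × ℝ} (n12 : p ≠ c) (n13 : p ≠ b3)
    (n14 : p ≠ b4) (n23 : c ≠ b3) (n24 : c ≠ b4) (n34 : b3 ≠ b4) : XBdS σ w p c b3 b4 := by
  refine xbds_of_xw n12 n13 n14 n23 n24 n34 fun o j => ?_
  obtain ⟨s, x⟩ := p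
  cases s
  · exact xw_floor (floorX σ) (rowX hσ) n12 n13 n14 n23 n24 n34 w o j
  · have e : ∀ {a a' : Bool × ℝ}, a ≠ a' → Pool.Agent.H7.W.rb a ≠ Pool.Agent.H7.W.rb a' := Pool.Agent.H7.W.rb_ne
    refine Pool.Agent.H7.W.xw_mir n12 n13 n14 n23 n24 n34 ?_
    exact xw_floor (x := x) (floorX σ) (rowX hσ) (e n12) (e n13) (e n14) (e n23) (e n24) (e n34) w o j

end Pool.Agent.H50.W.JF
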