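import Mathlib
import Pool.Agent.H50.W.Near

set_option autoImplicit false
open Finset

/-! # Near the ends of a chord

`hy_left` : near a left end the hybrid before its block is natural. `right_law` : near a right end the
hybrid before its block is the chain `chn 0 M' τ`, tip at distance `e` chunks from the end. -/

namespace Pool.Agent.H50.W

open Pool.Agent.H75.Perc hiding WL CT hh PB
open Pool.Agent.H75.TwoArm Pool.Agent.Q1
open Pool.Agent.Q1.M4 (Cell Good IsSide nextSide tail head PType Adj4 Conn4)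
open Pool.Agent.H33.Q1
open Pool.Agent.H21.FM
open Pool.Agent.H58.W Pool.Agent.H41.W Pool.Agent.H6.W
open Pool.Agent.H48.Q1 (ref)

namespace Chd

variable (D : Chd)

lemma Y_near {y z : ℤ} (h1 : -((D.M : ℤ) / 2) ≤ z - D.M * y) (h2 : z - D.M * y < (D.M : ℤ) / 2) :
    D.Y z = y := by
  have hM : (0 : ℤ) < D.M := by exact_mod_cast D.hM
  unfold Y
  rw [dv hM]
  omega

lemma X_near {x X : ℤ} (h1 : D.M * X ≤ x) (h2 : x < D.M * X + D.M) : D.X x = X := by
  have hM : (0 : ℤ) < D.M := by exact_mod_cast D.hM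
  unfold Chd.X
  rw [dv hM]
  exact ⟨h1, h2⟩

/-- **Near a left end** the hybrid before its block is natural. -/
theorem hy_left {Q : Finset Cell} {X y : ℤ} (h0 : (X - 1, y) ∉ D.G) {c : Cell}
    (h1 : D.M * X - D.M ≤ c.1) (h2 : c.1 < D.M * X + D.M)
    (h3 : -((D.M : ℤ) / 2) ≤ c.2 - D.M * y) (h4 : c.2 - D.M * y < (D.M : ℤ) / 2) :
    D.hy Q (bl 0 X y) c = none := by
  have hN : (0 : ℤ) < D.N1 := by exact_mod_cast D.hN1
  have hM : (0 : ℤ) < D.M := by exact_mod_cast D.hM
  have heN : 2 * (D.e : ℤ) ≤ D.N1 := by exact_mod_cast D.heN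
  have he : (0 : ℤ) < D.e := by exact_mod_cast D.he
  have hY := D.Y_near h3 h4
  unfold hy hyb
  apply rst_neg
  rintro ⟨β, hβ, hlt, hU⟩
  rw [mem_U] at hU
  unfold B at hβ
  rw [mem_union, mem_union] at hβ
  rcases hβ with (hβ | hβ) | hβ
  · obtain ⟨X', y', hG, hG', rfl⟩ := D.mem_BL.1 hβ
    obtain ⟨hf, hy, h5⟩ := D.inU_bl.1 hU.2
    rw [hY] at hy
    subst hy
    have h6 : D.N1 * X' ≤ D.I c.1 ∧ D.I c.1 < D.N1 * X' + D.e := by
      rcases h5 with h5 | h5 | h5
      · exact h5.2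
      · exact absurd h5.1 (by norm_num)
      · exact absurd h5.1 (by norm_num)
    have h7 : D.X c.1 = X' := by
      rw [X_eq, dv hN]
      omega
    rw [bl_lt] at hlt
    rcases lt_or_ge c.1 (D.M * X) with h8 | h8
    · have h9 : D.X c.1 = X - 1 := by
        apply D.X_near
        · linarith [mul_sub (D.M : ℤ) X 1, mul_one (D.M : ℤ)]
        · linarith [mul_sub (D.M : ℤ) X 1, mul_one (D.M : ℤ)]
      rw [h9] at h7
      rw [← h7] at hG
      exact h0 hG
    · have h9 : D.X c.1 = X := D.X_near h8 h2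
      omega
  · obtain ⟨i', y', hin, rfl⟩ := D.mem_BI.1 hβ
    rw [bl_lt] at hlt
    omega
  · obtain ⟨X', y', hG, hG', rfl⟩ := D.mem_BR.1 hβ
    rw [bl_lt] at hlt
    omega

/-- chunk number whose tip is the tip of the chain before the right end block -/
def iR (X : ℤ) : ℤ := D.N1 * (X + 1) - D.e - 1

lemma ta_iR {X y : ℤ} (hG : (X, y) ∈ D.G) : 0 ≤ D.ta (D.iR X) := by
  have hm : (0 : ℤ) < D.m := by exact_mod_cast D.hm
  have hN : (0 : ℤ) < D.N1 := by exact_mod_cast D.hN1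
  have he : (0 : ℤ) < D.e := by exact_mod_cast D.he
  have h1 := D.hb _ hG
  simp only at h1
  unfold ta iR
  have h2 : (D.N1 : ℤ) * (X + 1) ≤ D.N1 * D.b := mul_le_mul_of_nonneg_left (by omega) hN.le
  have h3 : (D.m : ℤ) * (D.N1 * (X + 1) - D.e - 1 + 1) ≤ D.m * (D.N1 * D.b) :=
    mul_le_mul_of_nonneg_left (by omega) hm.le
  have e : (D.N1 : ℤ) * D.m * D.b = D.m * (D.N1 * D.b) := by ring
  rw [e]; omega

/-- **Near a right end** the hybrid before its block is the chain of plates whose tip is `e` chunks to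
the left of the end. -/
theorem hy_right {Q : Finset Cell} {X y : ℤ} (hG : (X, y) ∈ D.G) (h0 : (X + 1, y) ∉ D.G) {c : Cell}
    (h1 : -((D.M : ℤ) - D.e * D.l) ≤ c.1) (h2 : c.1 < (D.M : ℤ) + D.e * D.l)
    (h3 : -((D.M : ℤ) / 2) ≤ c.2) (h4 : c.2 < (D.M : ℤ) / 2) (hQ : c + D.tip (D.iR X) y ∈ Q) :
    D.hy Q (bl 2 X y) (c + D.tip (D.iR X) y) =
      if c.1 < 0 ∧ -(D.ta (D.iR X) - c.1 / D.M') ≤ c.2 ∧ c.2 < D.ta (D.iR X) - c.1 / D.M' then
        some (c.1 / D.M' + D.m * (D.iR X + 1), y) else none := by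
  have hN : (0 : ℤ) < D.N1 := by exact_mod_cast D.hN1
  have hM : (0 : ℤ) < D.M := by exact_mod_cast D.hM
  have hl : (0 : ℤ) < D.l := by exact_mod_cast D.hl
  have heN : 2 * (D.e : ℤ) ≤ D.N1 := by exact_mod_cast D.heN
  have he : (0 : ℤ) < D.e := by exact_mod_cast D.he
  have hMl : (D.M : ℤ) = D.N1 * D.l := by rw [M_eq]; push_cast; ring
  set t := D.tip (D.iR X) y with ht
  have e1 : (c + t).1 = c.1 + (D.M * (X + 1) - D.e * D.l) := by
    have : t.1 = D.l * (D.iR X + 1) := rfl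
    rw [Prod.fst_add, this]
    unfold iR
    rw [hMl]; ring
  have e2 : (c + t).2 = c.2 + D.M * y := rfl
  have hY : D.Y (c + t).2 = y := by
    apply D.Y_near <;> rw [e2] <;> linarith
  have hK : D.K (c + t).1 = c.1 / D.M' + D.m * (D.iR X + 1) := D.K_tip c
  have hw := D.hw_tip (i := D.iR X) (y := y) c
  rw [← ht] at hw
  have hI : D.I (c + t).1 = c.1 / D.l + (D.iR X + 1) := D.I_tip c
  have hmul : (D.M : ℤ) * (X + 1) = D.M * X + D.M := by ring
  have hel : (0 : ℤ) < D.e * D.l := mul_pos he hl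
  -- the fine plates
  have hfine : D.fine (c + t) = if c.1 < D.e * D.l ∧ -(D.ta (D.iR X) - c.1 / D.M') ≤ c.2 ∧
      c.2 < D.ta (D.iR X) - c.1 / D.M' then some (c.1 / D.M' + D.m * (D.iR X + 1), y) else none := by
    unfold fine
    rw [hY, hw, hK]
    have e3 : (c + t).2 - (D.M : ℤ) * y = c.2 := by rw [e2]; ring
    rw [e3]
    rcases lt_or_ge c.1 (D.e * D.l) with h5 | h5
    · have h6 : D.X (c + t).1 = X := by
        apply D.X_near <;> rw [e1, hmul] <;> linarith
      rw [h6]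
      simp only [hG, h5, true_and]
    · have h6 : D.X (c + t).1 = X + 1 := by
        apply D.X_near <;> rw [e1, hmul] <;> linarith
      rw [h6]
      simp only [h0, false_and, if_false, not_lt.2 h5]
  have hbefore : (∃ β ∈ D.B, β < bl 2 X y ∧ c + t ∈ D.U Q β) ↔ D.fine (c + t) ≠ none ∧ c.1 < 0 := by
    constructor
    · rintro ⟨β, hβ, hlt, hU⟩
      have hU' := hU
      rw [mem_U] at hU
      have hf : D.fine (c + t) ≠ none := hU.2.1
      refine ⟨hf, ?_⟩
      by_contra h5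
      push Not at h5
      have h6 : c.1 < D.e * D.l := by
        rw [hfine] at hf
        by_contra h7
        exact hf (if_neg (fun h8 => h7 h8.1))
      have h7 : D.X (c + t).1 = X := by
        apply D.X_near <;> rw [e1, hmul] <;> linarith
      have h8 : 0 ≤ c.1 / (D.l : ℤ) := Int.ediv_nonneg h5 hl.le
      have h9 : c.1 / (D.l : ℤ) < D.e := by rw [Int.ediv_lt_iff_lt_mul hl]; exact h6
      unfold iR at hI
      have e4 : (D.N1 : ℤ) * (X + 1) = D.N1 * X + D.N1 := by ring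
      unfold B at hβ
      rw [mem_union, mem_union] at hβ
      rcases hβ with (hβ | hβ) | hβ
      · obtain ⟨X', y', hG1, hG', rfl⟩ := D.mem_BL.1 hβ
        obtain ⟨-, hy, h10⟩ := D.inU_bl.1 hU.2
        have h11 : D.N1 * X' ≤ D.I (c + t).1 ∧ D.I (c + t).1 < D.N1 * X' + D.e := by
          rcases h10 with h10 | h10 | h10
          · exact h10.2
          · exact absurd h10.1 (by norm_num)
          · exact absurd h10.1 (by norm_num)
        have h12 : D.X (c + t).1 = X' := by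
          rw [X_eq, dv hN]
          omega
        rw [h7] at h12
        subst h12
        omega
      · obtain ⟨i', y', hin, rfl⟩ := D.mem_BI.1 hβ
        obtain ⟨-, hy, h10⟩ := D.inU_bl.1 hU.2
        have h11 : D.I (c + t).1 = i' := by
          rcases h10 with h10 | h10 | h10
          · exact absurd h10.1 (by norm_num)
          · exact h10.2
          · exact absurd h10.1 (by norm_num)
        rw [hY] at hy
        subst hy
        have h12 := hin (D.N1 * (X + 1)) (by omega) (by omega)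
        rw [Int.mul_ediv_cancel_left _ hN.ne'] at h12
        exact h0 h12
      · obtain ⟨X', y', hG1, hG', rfl⟩ := D.mem_BR.1 hβ
        obtain ⟨-, hy, h10⟩ := D.inU_bl.1 hU.2
        have h11 : D.N1 * (X' + 1) - D.e ≤ D.I (c + t).1 ∧ D.I (c + t).1 < D.N1 * (X' + 1) := by
          rcases h10 with h10 | h10 | h10
          · exact absurd h10.1 (by norm_num)
          · exact absurd h10.1 (by norm_num)
          · exact h10.2
        have h12 : D.X (c + t).1 = X' := by
          rw [X_eq, dv hN]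
          have e5 : (D.N1 : ℤ) * (X' + 1) = D.N1 * X' + D.N1 := by ring
          omega
        rw [bl_lt] at hlt
        omega
    · rintro ⟨hf, h5⟩
      obtain ⟨β, hβ, hU⟩ := D.cover hQ hf
      refine ⟨β, hβ, ?_, hU⟩
      rw [mem_U] at hU
      have h7 : D.X (c + t).1 = X := by
        apply D.X_near <;> rw [e1, hmul] <;> linarith
      have h8 : c.1 / (D.l : ℤ) < 0 := Int.ediv_neg_of_neg_of_pos h5 hl
      unfold iR at hI
      have e4 : (D.N1 : ℤ) * (X + 1) = D.N1 * X + D.N1 := by ring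
      unfold B at hβ
      rw [mem_union, mem_union] at hβ
      rcases hβ with (hβ | hβ) | hβ
      · obtain ⟨X', y', hG1, hG', rfl⟩ := D.mem_BL.1 hβ
        rw [bl_lt]; omega
      · obtain ⟨i', y', hin, rfl⟩ := D.mem_BI.1 hβ
        rw [bl_lt]; omega
      · obtain ⟨X', y', hG1, hG', rfl⟩ := D.mem_BR.1 hβ
        obtain ⟨-, hy, h10⟩ := D.inU_bl.1 hU.2
        have h11 : D.N1 * (X' + 1) - D.e ≤ D.I (c + t).1 ∧ D.I (c + t).1 < D.N1 * (X' + 1) := by
          rcases h10 with h10 | h10 | h10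
          · exact absurd h10.1 (by norm_num)
          · exact absurd h10.1 (by norm_num)
          · exact h10.2
        have h12 : D.X (c + t).1 = X' := by
          rw [X_eq, dv hN]
          have e5 : (D.N1 : ℤ) * (X' + 1) = D.N1 * X' + D.N1 := by ring
          omega
        rw [h7] at h12
        subst h12
        omega
  unfold hy hyb
  by_cases h5 : ∃ β ∈ D.B, β < bl 2 X y ∧ c + t ∈ D.U Q β
  · rw [rst_pos h5, hfine]
    have h6 := (hbefore.1 h5).2
    have h7 : c.1 < D.e * D.l := by linarith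
    simp only [h6, h7, true_and]
  · rw [rst_neg h5]
    rw [hbefore, not_and] at h5
    by_cases h6 : c.1 < 0 ∧ -(D.ta (D.iR X) - c.1 / D.M') ≤ c.2 ∧ c.2 < D.ta (D.iR X) - c.1 / D.M'
    · exfalso
      refine h5 ?_ h6.1
      rw [hfine, if_pos ⟨by linarith [h6.1], h6.2⟩]
      simp
    · rw [if_neg h6]

/-- **The law near a left end** is natural. -/
theorem left_law {Q V : Finset Cell} {X y : ℤ} (h0 : (X - 1, y) ∉ D.G)
    (hV : ∀ c ∈ V, (D.M * X - D.M ≤ c.1 ∧ c.1 < D.M * X + D.M) ∧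
      -((D.M : ℤ) / 2) ≤ c.2 - D.M * y ∧ c.2 - D.M * y < (D.M : ℤ) / 2) {n : ℤ} (hn : 0 < n)
    (A : Finset (ℤ × ℤ) → Prop) :
    PB (TL V n) (bk n (D.hy Q (bl 0 X y))) A = Pr (TL V n) A := by
  refine PB_nat' (fun e he => ?_) A
  obtain ⟨⟨h1, h2⟩, h3, h4⟩ := hV _ ((mem_TL hn).1 he).2
  exact D.hy_left h0 h1 h2 h3 h4

/-- **The law near a right end** is that of the chain. -/
theorem right_law {Q V : Finset Cell} {X y : ℤ} (hG : (X, y) ∈ D.G) (h0 : (X + 1, y) ∉ D.G)
    (hV : ∀ c ∈ V, (-((D.M : ℤ) - D.e * D.l) ≤ c.1 ∧ c.1 < (D.M : ℤ) + D.e * D.l) ∧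
      (-((D.M : ℤ) / 2) ≤ c.2 ∧ c.2 < (D.M : ℤ) / 2) ∧ c + D.tip (D.iR X) y ∈ Q) {h : ℕ}
    (hh : 0 < h) (A : Finset (ℤ × ℤ) → Prop) :
    PB (TL (V.map (addRightEmbedding (D.tip (D.iR X) y))) (2 * (h : ℤ)))
        (bk (2 * (h : ℤ)) (D.hy Q (bl 2 X y))) A =
      PB (TL V (2 * (h : ℤ))) (bk (2 * (h : ℤ)) (chn 0 D.M' (D.tau (D.iR X))))
        (fun ω => A (ω.map (syT (tv' h (D.tip (D.iR X) y))).G)) := by
  have hn : (0 : ℤ) < 2 * (h : ℤ) := by positivity
  have hM0 : (0 : ℤ) < D.M' := by exact_mod_cast D.hM'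
  have htau : (D.tau (D.iR X) : ℤ) - 1 = D.ta (D.iR X) := by
    have := D.ta_iR hG
    unfold tau
    omega
  rw [PB_tr hh]
  have h1 : ∀ e ∈ TL V (2 * (h : ℤ)),
      D.hy Q (bl 2 X y) (ct (2 * (h : ℤ)) (tt e) + D.tip (D.iR X) y) =
      (chn 0 D.M' (D.tau (D.iR X)) (ct (2 * (h : ℤ)) (tt e))).map
        (fun k : ℕ => (-((k : ℤ) + 1) + D.m * (D.iR X + 1), y)) := by
    intro e he
    obtain ⟨⟨a1, a2⟩, ⟨a3, a4⟩, a5⟩ := hV _ ((mem_TL hn).1 he).2
    rw [D.hy_right hG h0 a1 a2 a3 a4 a5, chn_eq D.hM', htau]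
    set c := ct (2 * (h : ℤ)) (tt e)
    by_cases h6 : c.1 < 0 ∧ -(D.ta (D.iR X) - c.1 / D.M') ≤ c.2 ∧ c.2 < D.ta (D.iR X) - c.1 / D.M'
    · rw [if_pos h6, if_pos h6]
      have h7 : c.1 / (D.M' : ℤ) < 0 := Int.ediv_neg_of_neg_of_pos h6.1 hM0
      have h8 : ((-(c.1 / (D.M' : ℤ)) - 1).toNat : ℤ) = -(c.1 / D.M') - 1 := by omega
      simp only [Option.map_some, h8, Option.some.injEq, Prod.mk.injEq, and_true]
      ring
    · rw [if_neg h6, if_neg h6]; rfl
  have inj : Function.Injective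
      (Option.map (fun k : ℕ => (-((k : ℤ) + 1) + D.m * (D.iR X + 1), y))) := by
    apply Option.map_injective
    intro a b hab
    simp only [Prod.mk.injEq, and_true] at hab
    omega
  refine PB_pl_congr (fun e he => ?_) (fun e he e' he' _ => ?_) _
  · rw [h1 e he, Option.map_eq_none_iff]
  · rw [h1 e he, h1 e' he']
    exact inj.eq_iff

end Chd

end Pool.Agent.H50.W
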